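import Mathlib

/-! Definitions used in the statement of local rigidity for `SL(2, ℤ[√2])` acting on `𝕋⁴`. -/

namespace Pool.Agent.P.MP_d1f122_gt

open scoped ContDiff

/-- The group `SL(2, ℤ[√2])`. -/
abbrev Gam : Type := Matrix.SpecialLinearGroup (Fin 2) (ℤ√2)

/-- The space `ℝ⁴`. -/
abbrev V : Type := Fin 4 → ℝ

/-- The torus `𝕋⁴ = ℝ⁴ / ℤ⁴`. -/
abbrev T : Type := Fin 4 → UnitAddCircle

/-- The projection `ℝ⁴ → 𝕋⁴`. -/
def proj (x : V) : T := fun i => (x i : UnitAddCircle)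

/-- `F : ℝ⁴ → ℝ⁴` is a lift of `f : 𝕋⁴ → 𝕋⁴`. -/
def IsLift (f : T → T) (F : V → V) : Prop := ∀ x, f (proj x) = proj (F x)

/-- `f : 𝕋⁴ → 𝕋⁴` is `C^∞`: it has a `C^∞` lift. -/
def IsSmooth (f : T → T) : Prop := ∃ F : V → V, ContDiff ℝ ∞ F ∧ IsLift f F

/-- The linear map of `ℝ⁴` given by an integer matrix. -/
noncomputable def linV (A : Matrix (Fin 4) (Fin 4) ℤ) : V →L[ℝ] V :=
  LinearMap.toContinuousLinearMap (Matrix.toLin' (A.map (Int.cast : ℤ → ℝ)))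

/-- The endomorphism of `𝕋⁴` given by an integer matrix. -/
def linT (A : Matrix (Fin 4) (Fin 4) ℤ) (x : T) : T := fun i => ∑ j, A i j • x j

/-- `f` is `η`-close to the toral endomorphism `A` in the `C¹` sense: some differentiable lift of
`f` is `η`-close to the linear map `A`, together with its derivative. -/
def C1Close (f : T → T) (A : Matrix (Fin 4) (Fin 4) ℤ) (η : ℝ) : Prop :=
  ∃ F : V → V, Differentiable ℝ F ∧ IsLift f F ∧
    ∀ x, ‖F x - linV A x‖ ≤ η ∧ ‖fderiv ℝ F x - linV A‖ ≤ η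

/-- The eight integer coordinates of `γ`: the entries written in the basis `1, √2`. -/
def coords (γ : Gam) (p : Fin 2 × Fin 2 × Bool) : ℚ :=
  if p.2.2 then ((γ p.1 p.2.1).im : ℚ) else ((γ p.1 p.2.1).re : ℚ)

/-- `ρ` is rational: its entries are polynomials with rational coefficients in the coordinates. -/
def IsRational (ρ : Gam →* GL (Fin 4) ℤ) : Prop :=
  ∃ φ : Fin 4 → Fin 4 → MvPolynomial (Fin 2 × Fin 2 × Bool) ℚ,
    ∀ γ i j, (((ρ γ : Matrix (Fin 4) (Fin 4) ℤ) i j : ℤ) : ℚ) = MvPolynomial.eval (coords γ) (φ i j)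

/-- `ρ` is irreducible over `ℚ`. -/
def IsIrreducible (ρ : Gam →* GL (Fin 4) ℤ) : Prop :=
  ∀ W : Submodule ℚ (Fin 4 → ℚ),
    (∀ γ, ∀ v ∈ W, ((ρ γ : Matrix (Fin 4) (Fin 4) ℤ).map (Int.cast : ℤ → ℚ)).mulVec v ∈ W) →
      W = ⊥ ∨ W = ⊤

end Pool.Agent.P.MP_d1f122_gt
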