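import Mathlib
import Pool.Agent.P.MP_d1f122_gt.Defs

/-! Arithmetic of `SL(2, ℤ[√2])`: Euclidean algorithm and growth of cocycles. -/

namespace Pool.Agent.P.MP_d1f122_gt

open Matrix

/-- The two real square roots of `2`. -/
abbrev Rt : Type := {r : ℝ // r * r = ((2 : ℤ) : ℝ)}

/-- The other square root. -/
def Rt.bar (r : Rt) : Rt := ⟨-r.1, by rw [neg_mul_neg]; exact r.2⟩

/-- The real embeddings. -/
noncomputable def J (r : Rt) : ℤ√2 →+* ℝ := Zsqrtd.lift r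

variable (r : Rt)

lemma Rt.bar_bar : r.bar.bar = r := Subtype.ext (neg_neg _)

lemma Rt.sq : r.1 * r.1 = 2 := by simpa using r.2

lemma Rt.abs_lt : 7 / 5 < |r.1| ∧ |r.1| < 10 / 7 := by
  have := abs_mul_abs_self r.1
  rw [r.sq] at this
  constructor <;> nlinarith [abs_nonneg r.1]

lemma J_apply (x : ℤ√2) : J r x = x.re + x.im * r.1 := rfl

lemma J_bar (x : ℤ√2) : J r.bar x = x.re - x.im * r.1 := by
  rw [J_apply, Rt.bar]; ring

lemma J_mul_bar (x : ℤ√2) : J r x * J r.bar x = x.norm := by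
  rw [J_bar, J_apply, Zsqrtd.norm_def]; push_cast; linear_combination (-(x.im : ℝ) ^ 2) * r.sq

lemma norm_ne_zero {x : ℤ√2} (hx : x ≠ 0) : x.norm ≠ 0 := fun h => by
  refine hx ((Zsqrtd.norm_eq_zero (fun n hn => ?_) x).1 h)
  have h1 : n ≤ 1 := by nlinarith
  have h2 : -1 ≤ n := by nlinarith
  interval_cases n <;> simp at hn

lemma one_le_J {x : ℤ√2} (hx : x ≠ 0) : 1 ≤ |J r x| * |J r.bar x| := by
  rw [← abs_mul, J_mul_bar]
  exact_mod_cast Int.one_le_abs (norm_ne_zero hx)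

lemma J_ne {x : ℤ√2} (hx : x ≠ 0) : J r x ≠ 0 := fun h => by
  have := one_le_J r hx
  rw [h] at this; norm_num at this

lemma J_inj {x y : ℤ√2} (h : J r x = J r y) : x = y := by
  by_contra hn
  exact J_ne r (sub_ne_zero.2 hn) (by rw [map_sub, h, sub_self])

lemma J_unit {x y : ℤ√2} (h : x * y = 1) : |J r x| * |J r.bar x| = 1 := by
  have h1 := one_le_J r (left_ne_zero_of_mul_eq_one h)
  have h2 := one_le_J r (right_ne_zero_of_mul_eq_one h)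
  have e : (|J r x| * |J r.bar x|) * (|J r y| * |J r.bar y|) = 1 := by
    rw [mul_mul_mul_comm, ← abs_mul, ← abs_mul, ← map_mul, ← map_mul, h]; simp
  nlinarith

lemma round_J (s t : ℝ) : ∃ q : ℤ√2, |s - J r q| ≤ 5 / 4 ∧ |t - J r.bar q| ≤ 5 / 4 ∧
    |s - J r q| * |t - J r.bar q| ≤ 1 / 2 := by
  have h1 := abs_le.1 (abs_sub_round ((s + t) / 2))
  have h2 := abs_sub_round ((s - t) * r.1 / 4)
  refine ⟨⟨round ((s + t) / 2), round ((s - t) * r.1 / 4)⟩, ?_⟩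
  set u := (s + t) / 2 - round ((s + t) / 2)
  set v := (s - t) * r.1 / 4 - round ((s - t) * r.1 / 4)
  have e1 : s - J r ⟨round ((s + t) / 2), round ((s - t) * r.1 / 4)⟩ = u + v * r.1 := by
    simp only [J_apply, u, v]; linear_combination (t - s) / 4 * r.sq
  have e2 : t - J r.bar ⟨round ((s + t) / 2), round ((s - t) * r.1 / 4)⟩ = u - v * r.1 := by
    simp only [J_bar, u, v]; linear_combination (s - t) / 4 * r.sq
  have h3 : |v * r.1| ≤ 3 / 4 := by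
    rw [abs_mul]; nlinarith [r.abs_lt.2, abs_nonneg v, abs_nonneg r.1]
  have h4 := abs_le.1 h2
  rw [e1, e2, ← abs_mul]
  rw [abs_le] at h3
  refine ⟨abs_le.2 ⟨by linarith, by linarith⟩, abs_le.2 ⟨by linarith, by linarith⟩, ?_⟩
  have : (u + v * r.1) * (u - v * r.1) = u ^ 2 - 2 * v ^ 2 := by linear_combination (-v ^ 2) * r.sq
  rw [this, abs_le]
  constructor <;> nlinarith

lemma coord_le {x : ℤ√2} {X Y : ℝ} (h1 : |J r x| ≤ X) (h2 : |J r.bar x| ≤ Y) :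
    |(x.re : ℝ)| ≤ (X + Y) / 2 ∧ |(x.im : ℝ)| ≤ (X + Y) / 2 := by
  rw [J_apply, abs_le] at h1
  rw [J_bar, abs_le] at h2
  have h3 : |x.im * r.1| ≤ (X + Y) / 2 := abs_le.2 ⟨by linarith, by linarith⟩
  rw [abs_mul] at h3
  exact ⟨abs_le.2 ⟨by linarith, by linarith⟩, by nlinarith [r.abs_lt.1, abs_nonneg (x.im : ℝ)]⟩

/-- Upper unipotent elements. -/
def up (t : ℤ√2) : Gam := ⟨!![1, t; 0, 1], by simp [det_fin_two]⟩

/-- Lower unipotent elements. -/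
def lo (t : ℤ√2) : Gam := ⟨!![1, 0; t, 1], by simp [det_fin_two]⟩

lemma mul_ent (γ δ : Gam) (a b : Fin 2) : (γ * δ) a b = γ a 0 * δ 0 b + γ a 1 * δ 1 b := by
  simp [Matrix.mul_apply, Fin.sum_univ_two]

lemma det_ent (γ : Gam) : γ 0 0 * γ 1 1 - γ 0 1 * γ 1 0 = 1 := by
  rw [← det_fin_two]; exact γ.det_coe

lemma up_add (s t : ℤ√2) : up (s + t) = up s * up t := by
  ext1 a b; fin_cases a <;> fin_cases b <;> simp [up, add_comm]

lemma lo_add (s t : ℤ√2) : lo (s + t) = lo s * lo t := by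
  ext1 a b; fin_cases a <;> fin_cases b <;> simp [lo]

lemma up_zero : up 0 = 1 := by ext1 a b; fin_cases a <;> fin_cases b <;> simp [up]

lemma lo_zero : lo 0 = 1 := by ext1 a b; fin_cases a <;> fin_cases b <;> simp [lo]

/-- Size of an element of the ring. -/
def Sm (x : ℤ√2) (X : ℝ) : Prop := |J r x| ≤ X ∧ |J r.bar x| ≤ X

/-- Size of a group element. -/
def Sz (γ : Gam) (X : ℝ) : Prop := ∀ a b, Sm r (γ a b) X

variable {r}

lemma Sm.mono {x : ℤ√2} {X Y : ℝ} (h : Sm r x X) (h' : X ≤ Y) : Sm r x Y :=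
  ⟨h.1.trans h', h.2.trans h'⟩

lemma Sm.nonneg {x : ℤ√2} {X : ℝ} (h : Sm r x X) : 0 ≤ X := (abs_nonneg _).trans h.1

lemma Sm.add {x y : ℤ√2} {X Y : ℝ} (h : Sm r x X) (h' : Sm r y Y) : Sm r (x + y) (X + Y) := by
  simp only [Sm, map_add]
  exact ⟨(abs_add_le _ _).trans (add_le_add h.1 h'.1), (abs_add_le _ _).trans (add_le_add h.2 h'.2)⟩

lemma Sm.mul {x y : ℤ√2} {X Y : ℝ} (h : Sm r x X) (h' : Sm r y Y) : Sm r (x * y) (X * Y) := by
  simp only [Sm, map_mul, abs_mul]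
  exact ⟨mul_le_mul h.1 h'.1 (abs_nonneg _) h.nonneg, mul_le_mul h.2 h'.2 (abs_nonneg _) h.nonneg⟩

lemma Sm.neg {x : ℤ√2} {X : ℝ} (h : Sm r x X) : Sm r (-x) X := by simpa [Sm] using h

lemma sm_one : Sm r 1 1 := by simp [Sm]

lemma sm_zero : Sm r 0 0 := by simp [Sm]

lemma Sz.mono {γ : Gam} {X Y : ℝ} (h : Sz r γ X) (h' : X ≤ Y) : Sz r γ Y :=
  fun a b => (h a b).mono h'

lemma Sz.mul {γ δ : Gam} {X Y : ℝ} (h : Sz r γ X) (h' : Sz r δ Y) : Sz r (γ * δ) (2 * (X * Y)) :=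
  fun a b => by rw [mul_ent, two_mul]; exact ((h _ _).mul (h' _ _)).add ((h _ _).mul (h' _ _))

lemma sz_up {t : ℤ√2} {X : ℝ} (h : Sm r t X) (h1 : 1 ≤ X) : Sz r (up t) X := fun a b => by
  fin_cases a <;> fin_cases b
  exacts [sm_one.mono h1, h, sm_zero.mono h.nonneg, sm_one.mono h1]

lemma sz_lo {t : ℤ√2} {X : ℝ} (h : Sm r t X) (h1 : 1 ≤ X) : Sz r (lo t) X := fun a b => by
  fin_cases a <;> fin_cases b
  exacts [sm_one.mono h1, sm_zero.mono h.nonneg, h, sm_one.mono h1]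

/-- The Weyl element. -/
def ww : Gam := up (-1) * lo 1 * up (-1)

lemma ww_ent : ww 0 0 = 0 ∧ ww 0 1 = -1 ∧ ww 1 0 = 1 ∧ ww 1 1 = 0 := by
  simp [ww, up, lo]

lemma sz_ww : Sz r ww 1 := fun a b => by
  obtain ⟨h1, h2, h3, h4⟩ := ww_ent
  fin_cases a <;> fin_cases b <;> simp [Sm, h1, h2, h3, h4]

/-- The inverse of the Weyl element. -/
def wi : Gam := ⟨!![0, 1; -1, 0], by simp [det_fin_two]⟩

lemma ww_wi : ww * wi = 1 := by
  obtain ⟨h1, h2, h3, h4⟩ := ww_ent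
  ext1 a b; rw [mul_ent]; fin_cases a <;> fin_cases b <;> simp [wi, h1, h2, h3, h4]

lemma sz_wi : Sz r wi 1 := fun a b => by fin_cases a <;> fin_cases b <;> simp [Sm, wi]

lemma pw {C : ℝ} (hC : 0 ≤ C) {a b : ℕ} (h : a ≤ b) : C * 2 ^ a ≤ C * 2 ^ b :=
  mul_le_mul_of_nonneg_left (pow_le_pow_right₀ one_le_two h) hC

section Growth

variable {f : Gam → ℝ} {C : ℝ} (h0 : ∀ γ, 0 ≤ f γ)
  (hf : ∀ γ δ X, Sz r γ X → f (γ * δ) ≤ f γ + 4 * X ^ 2 * f δ)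
include h0 hf

lemma bd_mul {γ δ : Gam} {i e e' : ℕ} (hs : Sz r γ (2 ^ i)) (h1 : f γ ≤ C * 2 ^ e)
    (h2 : f δ ≤ C * 2 ^ e') : f (γ * δ) ≤ C * 2 ^ (e + e' + 2 * i + 3) := by
  have hC : 0 ≤ C := nonneg_of_mul_nonneg_left ((h0 _).trans h1) (by positivity)
  have h3 : C * 2 ^ e ≤ C * 2 ^ (e + e' + 2 * i + 2) := by gcongr; exacts [one_le_two, by omega]
  have h4 : C * 2 ^ (e' + 2 * i + 2) ≤ C * 2 ^ (e + e' + 2 * i + 2) := by
    gcongr; exacts [one_le_two, by omega]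
  have h5 : 4 * (2 ^ i) ^ 2 * f δ ≤ C * 2 ^ (e' + 2 * i + 2) :=
    (mul_le_mul_of_nonneg_left h2 (by positivity)).trans (le_of_eq (by ring))
  have := hf γ δ _ hs
  rw [pow_succ]
  linarith

lemma bd_unip {u : ℤ√2 → Gam} (hu : ∀ s t, u (s + t) = u s * u t)
    (hs : ∀ t X, Sm r t X → 1 ≤ X → Sz r (u t) X) (h1 : f (u 0) ≤ C)
    (hg : ∀ t, t = 1 ∨ t = -1 ∨ t = Zsqrtd.sqrtd ∨ t = -Zsqrtd.sqrtd → f (u t) ≤ C)
    {t : ℤ√2} {i : ℕ} (ht : Sm r t (2 ^ i)) : f (u t) ≤ C * 2 ^ (8 * i + 17) := by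
  have hC : 0 ≤ C := (h0 _).trans h1
  have k1 : ∀ e, Sm r e 2 → f (u e) ≤ C → ∀ n : ℕ, f (u (n * e)) ≤ C * (16 * (n + 1) ^ 3) := by
    intro e he h n
    induction n with
    | zero => simp only [Nat.cast_zero, zero_mul]; linarith
    | succ n ih =>
      have h2 : Sm r (n * e) (2 * (n + 1)) :=
        ((show Sm r n n by simp [Sm]).mul he).mono (by linarith)
      have := hf _ (u e) _ (hs _ _ h2 (by linarith [n.cast_nonneg (α := ℝ)]))
      rw [← hu] at this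
      push_cast
      rw [add_mul, one_mul]
      have h3 : 4 * (2 * ((n : ℝ) + 1)) ^ 2 * f (u e) ≤ 4 * (2 * (n + 1)) ^ 2 * C := by gcongr
      have h4 : 0 ≤ C * n := by positivity
      have h5 : 0 ≤ C * n ^ 2 := by positivity
      nlinarith
  have k2 : ∀ e, Sm r e 2 → f (u e) ≤ C → f (u (-e)) ≤ C → ∀ m : ℤ, |(m : ℝ)| ≤ 2 ^ i →
      f (u (m * e)) ≤ C * 2 ^ (3 * i + 7) := fun e he h h' m hm => by
    have h2 : C * (16 * ((m.natAbs : ℝ) + 1) ^ 3) ≤ C * 2 ^ (3 * i + 7) := by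
      rw [Nat.cast_natAbs, Int.cast_abs]
      calc _ ≤ C * (16 * (2 ^ i + 2 ^ i) ^ 3) := by gcongr; exact one_le_pow₀ one_le_two
        _ = _ := by ring
    rcases Int.natAbs_eq m with e1 | e1
    · refine le_trans (le_of_eq ?_) ((k1 e he h m.natAbs).trans h2)
      rw [← Int.cast_natCast, ← e1]
    · refine le_trans (le_of_eq ?_) ((k1 _ he.neg h' m.natAbs).trans h2)
      rw [← Int.cast_natCast, mul_neg, ← neg_mul, ← Int.cast_neg, ← e1]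
  obtain ⟨h2, h3⟩ := coord_le r ht.1 ht.2
  rw [add_self_div_two] at h2 h3
  have h4 : Sm r Zsqrtd.sqrtd 2 := by
    have := r.abs_lt.2
    constructor <;> simp [J_apply, Rt.bar] <;> linarith
  have e : t = (t.re : ℤ√2) * 1 + (t.im : ℤ√2) * Zsqrtd.sqrtd := by ext <;> simp
  rw [e, hu]
  refine (bd_mul h0 hf (i := i) (hs _ _ (by simpa [Sm] using h2) (one_le_pow₀ one_le_two))
    (k2 _ (sm_one.mono one_le_two) (hg _ (by simp)) (hg _ (by simp)) _ h2)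
    (k2 _ h4 (hg _ (by simp)) (hg _ (by simp)) _ h3)).trans (le_of_eq (by ring))

variable (h1 : f 1 ≤ C)
  (hu : ∀ t, t = 1 ∨ t = -1 ∨ t = Zsqrtd.sqrtd ∨ t = -Zsqrtd.sqrtd → f (up t) ≤ C ∧ f (lo t) ≤ C)
include h1 hu

lemma bd_up {t : ℤ√2} {i : ℕ} (ht : Sm r t (2 ^ i)) : f (up t) ≤ C * 2 ^ (8 * i + 17) :=
  bd_unip h0 hf up_add (fun _ _ => sz_up) (up_zero ▸ h1) (fun t h => (hu t h).1) ht

lemma bd_unit {γ : Gam} {c : ℤ√2} (hc : γ 1 0 * c = 1) {j : ℕ} (hs : Sz r γ (2 ^ j)) :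
    f γ ≤ C * 2 ^ (46 * j + 75) := by
  have p1 : ∀ i : ℕ, (1 : ℝ) ≤ 2 ^ i := fun i => one_le_pow₀ one_le_two
  have h2 : ∀ r : Rt, |J r c| = |J r.bar (γ 1 0)| := fun r => by
    have h3 := J_unit r hc
    have h4 : |J r (γ 1 0)| * |J r c| = 1 := by rw [← abs_mul, ← map_mul, hc]; simp
    exact mul_left_cancel₀ (left_ne_zero_of_mul_eq_one h3) (h4.trans h3.symm)
  have h3 : Sm r c (2 ^ j) := ⟨h2 r ▸ (hs 1 0).2, by rw [h2, r.bar_bar]; exact (hs 1 0).1⟩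
  have h4 : ∀ a b, Sm r ((γ a b + -1) * c) (2 ^ (2 * j + 1)) := fun a b =>
    (((hs a b).add sm_one.neg).mul h3).mono (by
      calc _ ≤ ((2 : ℝ) ^ j + 2 ^ j) * 2 ^ j := by gcongr; exact p1 j
        _ = _ := by ring)
  have e : γ = up ((γ 0 0 + -1) * c) * (lo (γ 1 0) * up ((γ 1 1 + -1) * c)) := by
    have hd := det_ent γ
    ext1 a b
    fin_cases a <;> fin_cases b <;> simp [up, lo]
    · linear_combination (1 - γ 0 0) * hc
    · linear_combination -c * hd + (-γ 0 1 - (γ 0 0 - 1) * c * (γ 1 1 - 1)) * hc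
    · linear_combination (1 - γ 1 1) * hc
  rw [e]
  exact (bd_mul h0 hf (sz_up (h4 0 0) (p1 _)) (bd_up h0 hf h1 hu (h4 0 0))
    (bd_mul h0 hf (sz_lo (hs 1 0) (p1 _)) (bd_unip h0 hf lo_add (fun _ _ => sz_lo) (lo_zero ▸ h1)
      (fun t h => (hu t h).2) (hs 1 0)) (bd_up h0 hf h1 hu (h4 1 1)))).trans (le_of_eq (by ring))

omit h1 in
lemma bd_ww {γ : Gam} {e : ℕ} (h : f (wi * γ) ≤ C * 2 ^ e) : f γ ≤ C * 2 ^ (e + 11) := by
  have s1 : Sz r (up (-1)) (2 ^ 0) := sz_up (by simp [Sm]) (by simp)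
  have h2 : ∀ γ, f γ ≤ C → f γ ≤ C * 2 ^ 0 := fun γ h => by simpa using h
  have h3 := bd_mul h0 hf (i := 1) ((s1.mul (sz_lo sm_one le_rfl)).mono (by simp))
    (bd_mul h0 hf s1 (h2 _ (hu _ (by simp)).1) (h2 _ (hu 1 (by simp)).2))
    (h2 _ (hu (-1) (by simp)).1)
  have := bd_mul h0 hf (i := 0) (sz_ww.mono (by simp)) h3 h
  rw [← mul_assoc, ww_wi, one_mul] at this
  exact this.trans (le_of_eq (by ring))

lemma bd_euclid (k m : ℕ) : ∀ (l j : ℕ) (γ : Gam), l + m ≤ k →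
    |J r (γ 1 0)| * |J r.bar (γ 1 0)| < 2 ^ m → Sm r (γ 0 0) (2 ^ l) → Sm r (γ 1 0) (2 ^ l) →
    Sz r γ (2 ^ j) → f γ ≤ C * 2 ^ (132 + 46 * j + m * (112 * k + 235)) := by
  have hC : 0 ≤ C := (h0 _).trans h1
  have base : ∀ (j : ℕ) (γ : Gam), γ 1 0 = 0 → Sz r γ (2 ^ j) → f γ ≤ C * 2 ^ (132 + 46 * j) :=
    fun j γ hc hs => (bd_ww h0 hf hu (bd_unit h0 hf h1 hu (c := -γ 1 1) (j := j + 1) (by
      have := det_ent γ
      rw [mul_ent]
      simp only [wi, of_apply, cons_val', cons_val_zero, cons_val_one, cons_val_fin_one]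
      linear_combination this + γ 0 1 * hc) ((sz_wi.mul hs).mono (le_of_eq (by ring))))).trans
        (le_of_eq (by ring))
  induction m with
  | zero =>
    intro l j γ _ h2 _ _ hs
    refine (base j γ (by_contra fun h => ?_) hs).trans (pw hC (by omega))
    linarith [one_le_J r h]
  | succ m ih =>
    intro l j γ hl h2 ha hc hs
    by_cases h : γ 1 0 = 0
    · exact (base j γ h hs).trans (pw hC (by omega))
    obtain ⟨q, q1, q2, q3⟩ := round_J r (J r (γ 0 0) / J r (γ 1 0))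
      (J r.bar (γ 0 0) / J r.bar (γ 1 0))
    have key : ∀ r : Rt, |J r (γ 0 0) / J r (γ 1 0) - J r q| ≤ 5 / 4 → |J r (γ 0 0)| ≤ 2 ^ l →
        |J r (γ 1 0)| ≤ 2 ^ l → |J r.bar (γ 1 0)| ≤ 2 ^ l → |J r q| ≤ 2 ^ (2 * k + 2) ∧
        |J r (q * γ 1 0 - γ 0 0)| = |J r (γ 0 0) / J r (γ 1 0) - J r q| * |J r (γ 1 0)| ∧
        |J r (q * γ 1 0 - γ 0 0)| ≤ 2 ^ (l + 1) := fun r h3 h4 h5 h6 => by
      have h7 := J_ne r h
      have e : |J r (q * γ 1 0 - γ 0 0)| =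
          |J r (γ 0 0) / J r (γ 1 0) - J r q| * |J r (γ 1 0)| := by
        rw [← abs_mul, ← abs_neg, map_sub, map_mul]; congr 1; field_simp; ring
      refine ⟨?_, e, by rw [e, pow_succ]; nlinarith [abs_nonneg (J r (γ 1 0))]⟩
      have h8 : |J r (γ 0 0) / J r (γ 1 0)| ≤ 2 ^ l * 2 ^ l := by
        rw [abs_div, div_le_iff₀ (abs_pos.2 h7)]
        have := mul_le_mul_of_nonneg_left ((one_le_J r h).trans (mul_le_mul_of_nonneg_left h6
          (abs_nonneg _))) (by positivity : (0 : ℝ) ≤ 2 ^ l)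
        linarith
      have h9 : (2 : ℝ) ^ l * 2 ^ l ≤ 2 ^ (2 * k) := by
        rw [← pow_add]; gcongr; exacts [one_le_two, by omega]
      have h10 : (1 : ℝ) ≤ 2 ^ (2 * k) := one_le_pow₀ one_le_two
      have := abs_sub_abs_le_abs_sub (J r q) (J r (γ 0 0) / J r (γ 1 0))
      rw [abs_sub_comm] at h3
      rw [pow_add]
      linarith
    obtain ⟨a1, a2, a3⟩ := key r q1 ha.1 hc.1 hc.2
    obtain ⟨b1, b2, b3⟩ := key r.bar q2 ha.2 hc.2 (r.bar_bar.symm ▸ hc.1)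
    have hq : Sm r q (2 ^ (2 * k + 2)) := ⟨a1, b1⟩
    have p1 : (1 : ℝ) ≤ 2 ^ (2 * k + 2) := one_le_pow₀ one_le_two
    have e0 : (wi * (up (-q) * γ)) 0 0 = γ 1 0 := by simp [mul_ent, wi, up]
    have e1 : (wi * (up (-q) * γ)) 1 0 = q * γ 1 0 - γ 0 0 := by simp [mul_ent, wi, up]; ring
    have h3 := ih (l + 1) (j + 2 * k + 4) (wi * (up (-q) * γ)) (by omega) (by
        rw [e1, a2, b2, mul_mul_mul_comm]
        rw [pow_succ] at h2
        nlinarith [one_le_J r h])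
      (e0 ▸ hc.mono (by gcongr; exacts [one_le_two, by omega])) (e1 ▸ ⟨a3, b3⟩)
      ((sz_wi.mul ((sz_up hq.neg p1).mul hs)).mono (le_of_eq (by ring)))
    have := bd_mul h0 hf (sz_up hq p1) (bd_up h0 hf h1 hu hq) (bd_ww h0 hf hu h3)
    rw [← mul_assoc, ← up_add, add_neg_cancel, up_zero, one_mul] at this
    exact this.trans (pw hC (le_of_eq (by ring)))

theorem growth {γ : Gam} {j : ℕ} (hs : Sz r γ (2 ^ j)) : f γ ≤ C * 2 ^ (700 * (j + 1) ^ 2) := by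
  have hC : 0 ≤ C := (h0 _).trans h1
  refine (bd_euclid h0 hf h1 hu (3 * j + 1) (2 * j + 1) j j γ (by omega) ?_ (hs 0 0) (hs 1 0)
    hs).trans (pw hC (Nat.le.intro (k := 28 * j ^ 2 + 324 * j + 221) (by ring)))
  refine (mul_le_mul (hs 1 0).1 (hs 1 0).2 (abs_nonneg _) (by positivity)).trans_lt ?_
  rw [← pow_add]
  exact pow_lt_pow_right₀ one_lt_two (by omega)

theorem growth' (c : ℝ) : ∃ K, 0 ≤ K ∧ ∀ (n : ℕ) (γ : Gam), Sz r γ (c * (n + 1) ^ 2) →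
    (n + 1) ^ 2 * f γ ≤ K * (3 / 2) ^ n := by
  have hC : 0 ≤ C := (h0 _).trans h1
  obtain ⟨M, hM⟩ := pow_unbounded_of_one_lt c (one_lt_two (α := ℝ))
  obtain ⟨c1, hc1⟩ : ∃ c1, c1 = 2 + 700 * (M + 3) ^ 2 := ⟨_, rfl⟩
  refine ⟨C * 2 ^ (c1 * (32 * c1) ^ 2 + 1), by positivity, fun n γ hs => ?_⟩
  set i := Nat.log 2 (n + 1)
  have h2 : 2 ^ i ≤ n + 1 := Nat.pow_log_le_self 2 n.succ_ne_zero
  have h3 : (n : ℝ) + 1 ≤ 2 ^ (i + 1) := by
    exact_mod_cast (Nat.lt_pow_succ_log_self one_lt_two (n + 1)).le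
  have h4 : ((n : ℝ) + 1) ^ 2 ≤ 2 ^ (2 * (i + 1)) := by rw [pow_mul']; gcongr
  have h5 := growth h0 hf h1 hu (j := M + 2 * (i + 1)) (hs.mono (by
    rw [pow_add 2 M]; gcongr))
  have h6 : ∀ i : ℕ, (i + 1) ^ 3 ≤ 8 * 2 ^ i := fun i => by
    induction i with
    | zero => simp
    | succ i ih =>
      rcases le_or_gt i 3 with h | h
      · interval_cases i <;> simp
      · rw [pow_succ 2]; nlinarith [Nat.mul_le_mul h h,
          Nat.mul_le_mul (Nat.mul_le_mul h (le_refl i)) (le_refl i)]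
  have h7 : 2 * (i + 1) + 700 * (M + 2 * (i + 1) + 1) ^ 2 ≤ c1 * (i + 1) ^ 2 := by
    have : M + 2 * (i + 1) + 1 ≤ (M + 3) * (i + 1) := by nlinarith
    rw [hc1, add_mul _ _ ((i + 1) ^ 2), mul_assoc, ← mul_pow]
    exact add_le_add (by nlinarith) (Nat.mul_le_mul_left _ (Nat.pow_le_pow_left this 2))
  have h8 : c1 * (i + 1) ^ 2 ≤ c1 * (32 * c1) ^ 2 + 1 + n / 2 := by
    rcases le_total (i + 1) (32 * c1) with h | h
    · have : c1 * (i + 1) ^ 2 ≤ c1 * (32 * c1) ^ 2 := by gcongr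
      omega
    · have : 32 * (c1 * (i + 1) ^ 2) ≤ (i + 1) ^ 3 := by nlinarith [Nat.zero_le ((i + 1) ^ 2)]
      have := h6 i
      omega
  have h9 : (2 : ℝ) ^ (n / 2) ≤ (3 / 2) ^ n := by
    calc _ ≤ (((3 : ℝ) / 2) ^ 2) ^ (n / 2) := by gcongr; norm_num
      _ ≤ _ := by rw [← pow_mul]; gcongr; exacts [by norm_num, Nat.mul_div_le n 2]
  refine (mul_le_mul h4 h5 (h0 _) (by positivity)).trans ?_
  rw [mul_left_comm, ← pow_add]
  refine (pw hC (h7.trans h8)).trans ?_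
  rw [pow_add _ _ (n / 2), ← mul_assoc]
  exact mul_le_mul_of_nonneg_left h9 (by positivity)

end Growth

end Pool.Agent.P.MP_d1f122_gt
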