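import Mathlib
import Pool.Agent.P.MP_d1f122_gt.Arith

/-! Reduction theory for `SL(2, ℤ[√2])` and a Borel–Cantelli estimate. -/

namespace Pool.Agent.P.MP_d1f122_gt

open Matrix MeasureTheory Set

variable (r : Rt)

lemma finite_sm (X : ℝ) : {x | Sm r x X}.Finite := by
  refine ((finite_Icc (-⌈X⌉, -⌈X⌉) (⌈X⌉, ⌈X⌉)).image fun p : ℤ × ℤ => (⟨p.1, p.2⟩ : ℤ√2)).subset
    fun x hx => ⟨(x.re, x.im), ?_, rfl⟩
  obtain ⟨h1, h2⟩ := coord_le r hx.1 hx.2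
  have key : ∀ m : ℤ, |(m : ℝ)| ≤ (X + X) / 2 → -⌈X⌉ ≤ m ∧ m ≤ ⌈X⌉ := fun m h => by
    rw [← abs_le]
    exact_mod_cast (h.trans (by linarith [Int.le_ceil X]) : |(m : ℝ)| ≤ ⌈X⌉)
  exact ⟨⟨(key _ h1).1, (key _ h2).1⟩, (key _ h1).2, (key _ h2).2⟩

lemma finite_sz (X : ℝ) : {γ | Sz r γ X}.Finite :=
  ((Finite.pi' fun _ : Fin 2 => Finite.pi' fun _ : Fin 2 => finite_sm r X).preimage
    (Subtype.val_injective (p := fun A : Matrix (Fin 2) (Fin 2) (ℤ√2) => A.det = 1)).injOn).subset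
      fun _ h => h

lemma box {Y : ℝ} (hY : 1 / 6 ≤ Y) : ∃ s : Finset (ℤ√2),
    (∀ a, |J r a| ≤ Y → |J r.bar a| ≤ 6 → a ∈ s) ∧ (s.card : ℝ) ≤ 602 * Y := by
  classical
  set N := ⌊(Y + 6) / 2⌋₊
  refine ⟨(Finset.Icc (-(N : ℤ)) N ×ˢ Finset.Icc (-6 : ℤ) 7).image
    fun p => ⟨p.2 + ⌊p.1 * r.1⌋, p.1⟩, fun a h1 h2 => Finset.mem_image.2
      ⟨(a.im, a.re - ⌊a.im * r.1⌋), ?_, by simp⟩, ?_⟩
  · have h3 := (coord_le r h1 h2).2
    have h4 : a.im.natAbs ≤ N := Nat.le_floor (by rwa [Nat.cast_natAbs, Int.cast_abs])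
    rw [J_bar, abs_le] at h2
    have h5 := Int.floor_le (a.im * r.1)
    have h6 := Int.lt_floor_add_one (a.im * r.1)
    have h7 : ((-6 : ℤ) : ℝ) ≤ (a.re - ⌊a.im * r.1⌋ : ℤ) := by push_cast; linarith
    have h8 : ((a.re - ⌊a.im * r.1⌋ : ℤ) : ℝ) ≤ (7 : ℤ) := by push_cast; linarith
    simp only [Finset.mem_product, Finset.mem_Icc]
    exact ⟨by omega, by exact_mod_cast h7, by exact_mod_cast h8⟩
  · have h1 : (N : ℝ) ≤ (Y + 6) / 2 := Nat.floor_le (by linarith)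
    refine (Nat.cast_le.2 Finset.card_image_le).trans ?_
    have : ((N : ℤ) + 1 - -N).toNat = 2 * N + 1 := by omega
    rw [Finset.card_product, Int.card_Icc, Int.card_Icc, this,
      show ((7 : ℤ) + 1 - -6).toNat = 14 from rfl]
    push_cast
    linarith

lemma exists_unit {t : ℝ} (ht : 0 < t) {p : ℕ} (hp : p ≠ 0) : ∃ u u' : ℤ√2, u * u' = 1 ∧
    J r u * J r.bar u = 1 ∧ 1 ≤ t * J r u ^ p ∧ t * J r u ^ p ≤ 6 ^ p := by
  obtain ⟨e, h1, h2, h3⟩ : ∃ e : (ℤ√2)ˣ, 1 < J r e ∧ J r e ≤ 6 ∧ J r e * J r.bar e = 1 := by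
    obtain ⟨h1, h2⟩ := r.abs_lt
    rcases le_total 0 r.1 with h | h
    · rw [abs_of_nonneg h] at h1 h2
      refine ⟨⟨⟨3, 2⟩, ⟨3, -2⟩, by decide, by decide⟩, ?_, ?_, by simp [J_mul_bar, Zsqrtd.norm]⟩ <;>
        simp [J_apply] <;> linarith
    · rw [abs_of_nonpos h] at h1 h2
      refine ⟨⟨⟨3, -2⟩, ⟨3, 2⟩, by decide, by decide⟩, ?_, ?_, by simp [J_mul_bar, Zsqrtd.norm]⟩ <;>
        simp [J_apply] <;> linarith
  obtain ⟨k, h4, h5⟩ := exists_mem_Ico_zpow ht (one_lt_pow₀ h1 hp)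
  have h6 : ∀ r : Rt, J r (e ^ (-k) : (ℤ√2)ˣ) = J r e ^ (-k) := fun r => by
    have := congrArg Units.val (map_zpow (Units.map (J r).toMonoidHom) e (-k))
    rwa [Units.val_zpow_eq_zpow_val] at this
  have h7 : 0 < (J r e ^ p) ^ k := by positivity
  have h8 : (J r e ^ (-k)) ^ p = ((J r e ^ p) ^ k)⁻¹ := by
    rw [← zpow_natCast, ← zpow_natCast, ← _root_.zpow_mul, ← _root_.zpow_mul, ← _root_.zpow_neg]
    congr 1; ring
  refine ⟨(e ^ (-k) : (ℤ√2)ˣ), (e ^ (-k) : (ℤ√2)ˣ)⁻¹.1, by simp,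
    by rw [h6, h6, ← mul_zpow, h3, _root_.one_zpow], ?_, ?_⟩
  · rw [h6, h8, le_mul_inv_iff₀ h7, one_mul]; exact h4
  · rw [h6, h8, mul_inv_le_iff₀ h7]
    refine h5.le.trans ?_
    rw [zpow_add_one₀ (by positivity), mul_comm]
    gcongr

/-- Diagonal elements. -/
def dU (u u' : ℤ√2) (h : u * u' = 1) : Gam := ⟨!![u, 0; 0, u'], by simp [det_fin_two, h]⟩

/-- First entry of a column of `g_n(x) γ`. -/
noncomputable def p1 (n : ℕ) (x : ℝ) (γ : Gam) (b : Fin 2) : ℝ :=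
  2 ^ n * (J r (γ 0 b) - x * J r (γ 1 b))

/-- Second entry of a column of `g_n(x) γ`. -/
noncomputable def p2 (n : ℕ) (γ : Gam) (b : Fin 2) : ℝ := J r (γ 1 b) / 2 ^ n

/-- `γ` brings the point `g_n(x)` of the geodesic back to a bounded region. -/
def Adm (n : ℕ) (x : ℝ) (γ : Gam) (X : ℝ) : Prop :=
  ∀ b, (|p1 r n x γ b| ≤ X ∧ |p2 r n γ b| ≤ X) ∧ ∀ a, |J r.bar (γ a b)| ≤ X

/-- The height function. -/
noncomputable def Ht (n : ℕ) (x : ℝ) (γ : Gam) : ℝ :=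
  (p1 r n x γ 0 ^ 2 + p2 r n γ 0 ^ 2) * (J r.bar (γ 0 0) ^ 2 + J r.bar (γ 1 0) ^ 2)

lemma J_det (γ : Gam) : J r (γ 0 0) * J r (γ 1 1) - J r (γ 0 1) * J r (γ 1 0) = 1 := by
  simpa using congrArg (J r) (det_ent γ)

lemma p_det (n : ℕ) (x : ℝ) (γ : Gam) :
    p1 r n x γ 0 * p2 r n γ 1 - p1 r n x γ 1 * p2 r n γ 0 = 1 := by
  rw [← J_det r γ]; simp only [p1, p2]; field_simp; ring

lemma p1_mul (n : ℕ) (x : ℝ) (γ δ : Gam) (b : Fin 2) :
    p1 r n x (γ * δ) b = p1 r n x γ 0 * J r (δ 0 b) + p1 r n x γ 1 * J r (δ 1 b) := by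
  simp only [p1, mul_ent, map_add, map_mul]; ring

lemma p2_mul (n : ℕ) (γ δ : Gam) (b : Fin 2) :
    p2 r n (γ * δ) b = p2 r n γ 0 * J r (δ 0 b) + p2 r n γ 1 * J r (δ 1 b) := by
  simp only [p2, mul_ent, map_add, map_mul]; ring

lemma pos_of_det {a b c d : ℝ} (h : a * d - b * c = 1) : 0 < a ^ 2 + c ^ 2 := by
  by_contra hn
  have h1 : a = 0 := by nlinarith
  have h2 : c = 0 := by nlinarith
  simp [h1, h2] at h

lemma red_real {a b c d : ℝ} (h : a * d - b * c = 1) (q : ℝ) : (b - a * q) ^ 2 + (d - c * q) ^ 2 =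
    |(a * b + c * d) / (a ^ 2 + c ^ 2) - q| ^ 2 * (a ^ 2 + c ^ 2) + 1 / (a ^ 2 + c ^ 2) := by
  have := pos_of_det h
  rw [sq_abs]
  field_simp
  linear_combination (a * d - b * c + 1) * h

lemma red_bound {x y s t R : ℝ} (hx : 0 < x) (hy : 0 < y) (h1 : y ≤ x) (h2 : x ≤ 1296 * y)
    (hs0 : 0 ≤ s) (ht0 : 0 ≤ t) (hs : s ≤ 5 / 4) (ht : t ≤ 5 / 4) (hst : s * t ≤ 1 / 2)
    (hR : 1 ≤ R) (h3 : 1 / R ^ 4 ≤ x * y) (h4 : x * y ≤ 2 * ((s ^ 2 * x + 1 / x) * (t ^ 2 * y + 1 / y))) :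
    x ≤ (128 * R) ^ 2 ∧ y ≤ (128 * R) ^ 2 ∧ s ^ 2 * x + 1 / x ≤ (128 * R) ^ 2 ∧
      t ^ 2 * y + 1 / y ≤ (128 * R) ^ 2 := by
  have e : (s ^ 2 * x + 1 / x) * (t ^ 2 * y + 1 / y) =
      (s * t) ^ 2 * (x * y) + s ^ 2 * (x / y) + t ^ 2 * (y / x) + 1 / (x * y) := by field_simp; ring
  have a1 : (s * t) ^ 2 * (x * y) ≤ (1 / 2) ^ 2 * (x * y) := by gcongr
  have a2 : s ^ 2 * (x / y) ≤ (5 / 4) ^ 2 * 1296 := by gcongr; rwa [div_le_iff₀ hy]
  have a3 : t ^ 2 * (y / x) ≤ (5 / 4) ^ 2 * 1 := by gcongr; rwa [div_le_one hx]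
  have a4 : x * y ≤ 8200 := by
    by_contra hn
    have : 1 / (x * y) ≤ 1 := by rw [div_le_one (by positivity)]; linarith
    linarith
  have a5 : x ≤ 3300 := by nlinarith
  have a6 : 1 / y ≤ 36 * R ^ 2 := by
    rw [div_le_iff₀ (by positivity)] at h3 ⊢
    refine abs_le_of_sq_le_sq' ?_ (by positivity) |>.2
    nlinarith [mul_le_mul_of_nonneg_right h2 (by positivity : 0 ≤ y * R ^ 4)]
  have a7 : 1 / x ≤ 1 / y := by gcongr
  have a8 : s ^ 2 * x ≤ (5 / 4) ^ 2 * 3300 := by gcongr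
  have a9 : t ^ 2 * y ≤ (5 / 4) ^ 2 * 3300 := by gcongr; linarith
  have : 1 ≤ R ^ 2 := one_le_pow₀ hR
  refine ⟨?_, ?_, ?_, ?_⟩ <;> nlinarith

theorem reduction {n : ℕ} {x R : ℝ} (hR : 1 ≤ R) (h : ∀ γ, 1 / R ^ 4 ≤ Ht r n x γ) :
    ∃ δ, Adm r n x δ (128 * R) := by
  have hb : BddBelow (range (Ht r n x)) := ⟨_, by rintro _ ⟨γ, rfl⟩; exact h γ⟩
  have h0 : 0 < iInf (Ht r n x) := lt_of_lt_of_le (by positivity) (le_ciInf h)
  obtain ⟨γ0, h1⟩ := exists_lt_of_ciInf_lt (by linarith : iInf (Ht r n x) < 2 * iInf (Ht r n x))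
  have hx := fun γ => pos_of_det (p_det r n x γ)
  have hy := fun γ => pos_of_det (J_det r.bar γ)
  obtain ⟨u, u', hu, h2, h3, h4⟩ := exists_unit r (div_pos (hx γ0) (hy γ0)) four_ne_zero
  obtain ⟨γ, e1, e2⟩ : ∃ γ : Gam, p1 r n x γ 0 ^ 2 + p2 r n γ 0 ^ 2 =
      (p1 r n x γ0 0 ^ 2 + p2 r n γ0 0 ^ 2) * J r u ^ 2 ∧ J r.bar (γ 0 0) ^ 2 + J r.bar (γ 1 0) ^ 2 =
      (J r.bar (γ0 0 0) ^ 2 + J r.bar (γ0 1 0) ^ 2) * J r.bar u ^ 2 :=
    ⟨γ0 * dU u u' hu, by simp [p1_mul, p2_mul, dU]; ring, by simp [mul_ent, dU]; ring⟩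
  have e3 : Ht r n x γ = Ht r n x γ0 := by
    rw [Ht, e1, e2, mul_mul_mul_comm, ← mul_pow, h2, one_pow, mul_one, Ht]
  have e4 : (p1 r n x γ0 0 ^ 2 + p2 r n γ0 0 ^ 2) / (J r.bar (γ0 0 0) ^ 2 + J r.bar (γ0 1 0) ^ 2) *
      J r u ^ 4 = (p1 r n x γ 0 ^ 2 + p2 r n γ 0 ^ 2) /
        (J r.bar (γ 0 0) ^ 2 + J r.bar (γ 1 0) ^ 2) := by
    have := hy γ0
    have := left_ne_zero_of_mul_eq_one h2
    rw [e1, e2, eq_inv_of_mul_eq_one_right h2]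
    field_simp
  rw [e4, le_div_iff₀ (hy γ), one_mul] at h3
  rw [e4, div_le_iff₀ (hy γ)] at h4
  obtain ⟨q, q1, q2, q3⟩ := round_J r
    ((p1 r n x γ 0 * p1 r n x γ 1 + p2 r n γ 0 * p2 r n γ 1) / (p1 r n x γ 0 ^ 2 + p2 r n γ 0 ^ 2))
    ((J r.bar (γ 0 0) * J r.bar (γ 0 1) + J r.bar (γ 1 0) * J r.bar (γ 1 1)) /
      (J r.bar (γ 0 0) ^ 2 + J r.bar (γ 1 0) ^ 2))
  have f1 := red_real (p_det r n x γ) (J r q)
  have f2 := red_real (J_det r.bar γ) (J r.bar q)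
  have h5 := ciInf_le hb (γ * up (-q) * ww)
  obtain ⟨w1, w2, w3, w4⟩ := ww_ent
  have e5 : Ht r n x (γ * up (-q) * ww) = ((p1 r n x γ 1 - p1 r n x γ 0 * J r q) ^ 2 +
      (p2 r n γ 1 - p2 r n γ 0 * J r q) ^ 2) * ((J r.bar (γ 0 1) - J r.bar (γ 0 0) * J r.bar q) ^ 2
        + (J r.bar (γ 1 1) - J r.bar (γ 1 0) * J r.bar q) ^ 2) := by
    simp only [Ht, p1_mul, p2_mul, mul_ent, w1, w3]
    simp [up]; ring
  rw [e5, f1, f2] at h5
  obtain ⟨b1, b2, b3, b4⟩ := red_bound (hx γ) (hy γ) h3 (by linarith) (abs_nonneg _) (abs_nonneg _)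
    q1 q2 q3 hR (h γ) (by rw [← e3] at h1; exact h1.le.trans (by linarith))
  rw [← f1] at b3
  rw [← f2] at b4
  have k1 : ∀ a b : ℝ, a ^ 2 + b ^ 2 ≤ (128 * R) ^ 2 → |a| ≤ 128 * R ∧ |b| ≤ 128 * R :=
    fun a b h => ⟨abs_le_of_sq_le_sq (by nlinarith) (by positivity),
      abs_le_of_sq_le_sq (by nlinarith) (by positivity)⟩
  refine ⟨γ * up (-q), Fin.forall_fin_two.2 ⟨⟨?_, Fin.forall_fin_two.2 ?_⟩, ?_,
    Fin.forall_fin_two.2 ?_⟩⟩
  · simpa [p1_mul, p2_mul, up] using k1 _ _ b1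
  · simpa [mul_ent, up] using k1 _ _ b2
  · simpa [p1_mul, p2_mul, up, sub_eq_neg_add] using k1 _ _ b3
  · simpa [mul_ent, up, sub_eq_neg_add] using k1 _ _ b4

lemma bad_measure (n : ℕ) {R : ℝ} (hR : 1 ≤ R) :
    volume {x | |x| ≤ 2 ∧ ∃ γ, Ht r n x γ < 1 / R ^ 4} ≤ ENNReal.ofReal (10 ^ 7 / R ^ 4) := by
  classical
  have key : ∀ x ∈ {x | |x| ≤ 2 ∧ ∃ γ, Ht r n x γ < 1 / R ^ 4}, ∃ a c : ℤ√2, 1 / 6 ≤ |J r c| ∧
      |J r c| ≤ 2 ^ n / R ^ 2 ∧ |J r.bar c| ≤ 6 ∧ |J r a| ≤ 8 * |J r c| ∧ |J r.bar a| ≤ 6 ∧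
      x ∈ Metric.closedBall (J r a / J r c) (1 / (2 ^ n * R ^ 2 * |J r c|)) := by
    rintro x ⟨hx, γ0, h0⟩
    obtain ⟨u, u', hu, h2, h3, h4⟩ := exists_unit r.bar (pos_of_det (J_det r.bar γ0)) two_ne_zero
    rw [r.bar_bar] at h2
    obtain ⟨γ, e1, e2⟩ : ∃ γ : Gam, Ht r n x γ = Ht r n x γ0 ∧
        J r.bar (γ 0 0) ^ 2 + J r.bar (γ 1 0) ^ 2 =
        (J r.bar (γ0 0 0) ^ 2 + J r.bar (γ0 1 0) ^ 2) * J r.bar u ^ 2 :=
      ⟨γ0 * dU u u' hu, by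
        rw [← mul_one (Ht r n x γ0), ← one_pow 2, ← h2]
        simp [Ht, p1_mul, p2_mul, mul_ent, dU]; ring, by simp [mul_ent, dU]; ring⟩
    rw [← e1] at h0
    rw [← e2] at h3 h4
    have p0 : (1 : ℝ) ≤ 2 ^ n := one_le_pow₀ one_le_two
    have hR4 : 1 / R ^ 4 ≤ 1 := by rw [div_le_one (by positivity)]; exact one_le_pow₀ hR
    have hc : γ 1 0 ≠ 0 := fun hc => by
      have h5 := J_unit r (x := γ 0 0) (y := γ 1 1) (by simpa [hc] using det_ent γ)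
      have : Ht r n x γ = (2 ^ n) ^ 2 * (|J r (γ 0 0)| * |J r.bar (γ 0 0)|) ^ 2 := by
        simp [Ht, p1, p2, hc, mul_pow]; ring
      rw [h5] at this
      nlinarith
    have h5 : p1 r n x γ 0 ^ 2 + p2 r n γ 0 ^ 2 ≤ (1 / R ^ 2) ^ 2 := by
      rw [div_pow, ← pow_mul, one_pow]
      exact le_trans (le_mul_of_one_le_right (by positivity) h3) h0.le
    have h6 : |p1 r n x γ 0| ≤ 1 / R ^ 2 := abs_le_of_sq_le_sq (by nlinarith) (by positivity)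
    have h7 : |p2 r n γ 0| ≤ 1 / R ^ 2 := abs_le_of_sq_le_sq (by nlinarith) (by positivity)
    have h8 : |J r.bar (γ 1 0)| ≤ 6 := abs_le_of_sq_le_sq (by nlinarith) (by positivity)
    have h9 : 1 / 6 ≤ |J r (γ 1 0)| := by nlinarith [one_le_J r hc, abs_nonneg (J r (γ 1 0))]
    rw [p1, abs_mul, abs_of_pos (by positivity)] at h6
    rw [p2, abs_div, abs_of_pos (by positivity : (0 : ℝ) < 2 ^ n), div_le_iff₀ (by positivity)] at h7
    have hR2 : 1 / R ^ 2 ≤ 1 := by rw [div_le_one (by positivity)]; exact one_le_pow₀ hR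
    refine ⟨γ 0 0, γ 1 0, h9, h7.trans (le_of_eq (by ring)), h8, ?_,
      abs_le_of_sq_le_sq (by nlinarith) (by positivity), ?_⟩
    · have := abs_sub_abs_le_abs_sub (J r (γ 0 0)) (x * J r (γ 1 0))
      rw [abs_mul] at this
      nlinarith [abs_nonneg (J r (γ 0 0) - x * J r (γ 1 0))]
    · have := J_ne r hc
      have e : J r (γ 0 0) / J r (γ 1 0) - x = (J r (γ 0 0) - x * J r (γ 1 0)) / J r (γ 1 0) := by
        field_simp
      rw [Metric.mem_closedBall', Real.dist_eq, e, abs_div, div_le_div_iff₀ (by linarith)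
        (by positivity)]
      rw [le_div_iff₀ (by positivity)] at h6
      nlinarith
  by_cases hQ : 1 / 6 ≤ 2 ^ n / R ^ 2
  swap
  · refine le_trans (measure_mono (t := ∅) fun x hx => ?_) (by simp)
    obtain ⟨a, c, h1, h2, -⟩ := key x hx
    exact (hQ (h1.trans h2)).elim
  obtain ⟨s, hs, hs'⟩ := box r hQ
  choose! t ht ht' using fun c (h : 1 / 6 ≤ |J r c|) => box r (Y := 8 * |J r c|) (by linarith)
  calc _ ≤ volume (⋃ c ∈ s.filter fun c => 1 / 6 ≤ |J r c|, ⋃ a ∈ t c,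
          Metric.closedBall (J r a / J r c) (1 / (2 ^ n * R ^ 2 * |J r c|))) := by
        refine measure_mono fun x hx => ?_
        obtain ⟨a, c, h1, h2, h3, h4, h5, h6⟩ := key x hx
        exact mem_biUnion (Finset.mem_filter.2 ⟨hs c h2 h3, h1⟩) (mem_biUnion (ht c h1 a h4 h5) h6)
    _ ≤ ∑ c ∈ s.filter fun c => 1 / 6 ≤ |J r c|, ENNReal.ofReal (10 ^ 4 / (2 ^ n * R ^ 2)) := by
        refine (measure_biUnion_finset_le _ _).trans (Finset.sum_le_sum fun c hc => ?_)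
        have h1 := (Finset.mem_filter.1 hc).2
        refine (measure_biUnion_finset_le _ _).trans ?_
        simp only [Real.volume_closedBall, Finset.sum_const, nsmul_eq_mul]
        rw [← ENNReal.ofReal_natCast, ← ENNReal.ofReal_mul (by positivity)]
        refine ENNReal.ofReal_le_ofReal ((mul_le_mul_of_nonneg_right (ht' c h1)
          (by positivity)).trans ?_)
        have : 0 < |J r c| := by linarith
        field_simp
        norm_num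
    _ ≤ _ := by
        rw [Finset.sum_const, nsmul_eq_mul, ← ENNReal.ofReal_natCast,
          ← ENNReal.ofReal_mul (by positivity)]
        refine ENNReal.ofReal_le_ofReal ((mul_le_mul_of_nonneg_right ((Nat.cast_le.2
          (Finset.card_filter_le _ _)).trans hs') (by positivity)).trans ?_)
        field_simp
        norm_num

/-- Most points have geodesics with slowly growing excursions. -/
theorem good_measure {ε : ℝ} (hε : 0 < ε) : ∃ c : ℝ,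
    volume {x | |x| ≤ 2 ∧ ¬∀ n : ℕ, ∃ δ, Adm r n x δ (c * (n + 1))} ≤ ENNReal.ofReal ε := by
  have hs : Summable fun n : ℕ => 1 / ((n : ℝ) + 1) ^ 2 := by
    exact_mod_cast (summable_nat_add_iff 1).2 (Real.summable_one_div_nat_pow.2 one_lt_two)
  set W := ∑' n : ℕ, 1 / ((n : ℝ) + 1) ^ 2
  have hW : 0 ≤ W := tsum_nonneg fun n => by positivity
  set M := 1 + 10 ^ 7 * W / ε
  have hM : 1 ≤ M := le_add_of_nonneg_right (by positivity)
  have h1 : ∀ n : ℕ, (1 : ℝ) ≤ n + 1 := fun n => by simp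
  refine ⟨128 * M, ?_⟩
  calc _ ≤ volume (⋃ n : ℕ, {x | |x| ≤ 2 ∧ ∃ γ, Ht r n x γ < 1 / (M * (n + 1)) ^ 4}) := by
        refine measure_mono fun x ⟨hx, h⟩ => ?_
        obtain ⟨n, hn⟩ := not_forall.1 h
        refine mem_iUnion.2 ⟨n, hx, by_contra fun h2 => hn ?_⟩
        rw [mul_assoc]
        exact reduction r (one_le_mul_of_one_le_of_one_le hM (h1 n)) (by simpa using h2)
    _ ≤ ∑' n : ℕ, ENNReal.ofReal (10 ^ 7 / M * (1 / ((n : ℝ) + 1) ^ 2)) := by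
        refine (measure_iUnion_le _).trans (ENNReal.tsum_le_tsum fun n =>
          (bad_measure r n (one_le_mul_of_one_le_of_one_le hM (h1 n))).trans
            (ENNReal.ofReal_le_ofReal ?_))
        rw [div_mul_div_comm, mul_one, mul_pow]
        gcongr
        · exact le_self_pow₀ hM four_ne_zero
        · exact h1 n
        · norm_num
    _ ≤ _ := by
        rw [← ENNReal.ofReal_tsum_of_nonneg (fun n => by positivity) (hs.mul_left _), tsum_mul_left]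
        refine ENNReal.ofReal_le_ofReal ?_
        rw [div_mul_eq_mul_div, div_le_iff₀ (by positivity)]
        simp only [M]
        field_simp
        linarith

end Pool.Agent.P.MP_d1f122_gt
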