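import Mathlib
import Pool.Agent.P.MP_d1f122_gt.Reduce

/-! Vanishing of Banach-valued cocycles by means of a boundary map. -/

namespace Pool.Agent.P.MP_d1f122_gt

open Matrix MeasureTheory Set Filter Topology

variable {Z : Type*} [NormedAddCommGroup Z] [NormedSpace ℝ Z] (r : Rt)

/-- Denominator of the Möbius action. -/
noncomputable def den (γ : Gam) (x : ℝ) : ℝ := J r (γ 1 0) * x + J r (γ 1 1)

/-- The Möbius action. -/
noncomputable def mob (γ : Gam) (x : ℝ) : ℝ := (J r (γ 0 0) * x + J r (γ 0 1)) / den r γ x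

/-- The functional attached to a boundary point. -/
def ell (x : ℝ) (z : Fin 2 → Z) : Z := z 0 - x • z 1

/-- Cocycles for the tensor product of the standard representation with `π`. -/
structure Coc (π : Gam →* Z →L[ℝ] Z) (β : Gam → Fin 2 → Z) : Prop where
  bd : ∀ (γ : Gam) (X : ℝ), (∀ a b, |J r.bar (γ a b)| ≤ X) → ‖π γ‖ ≤ 2 * X
  mul : ∀ γ δ a, β (γ * δ) a = β γ a + (J r (γ a 0) • π γ (β δ 0) + J r (γ a 1) • π γ (β δ 1))

/-- Values of the boundary map. -/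
def Lim (β : Gam → Fin 2 → Z) (x : ℝ) (φ : Z) : Prop := ∃ (c : ℝ) (δ : ℕ → Gam),
  (∀ n, Adm r n x (δ n) (c * (n + 1))) ∧ Tendsto (fun n => ell x (β (δ n))) atTop (𝓝 φ)

/-- The orbit of `z` under the sequence `b` returns close to compact sets. -/
def Rec (π : Gam →* Z →L[ℝ] Z) (b : ℕ → Gam) (z : Z) : Prop :=
  ∀ ε > 0, ∃ C, IsCompact C ∧ ∃ᶠ n in atTop, ∃ κ ∈ C, ‖π (b n) z - κ‖ ≤ ε

lemma exists_sz (γ : Gam) : ∃ j : ℕ, Sz r γ (2 ^ j) := by
  obtain ⟨j, hj⟩ := pow_unbounded_of_one_lt (∑ a, ∑ b, (|J r (γ a b)| + |J r.bar (γ a b)|))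
    (one_lt_two (α := ℝ))
  refine ⟨j, fun a b => ?_⟩
  simp only [Fin.sum_univ_two] at hj
  have := fun a b => abs_nonneg (J r (γ a b))
  have := fun a b => abs_nonneg (J r.bar (γ a b))
  fin_cases a <;> fin_cases b <;> constructor <;> simp <;> grind

variable {r} {π : Gam →* Z →L[ℝ] Z} {β : Gam → Fin 2 → Z}

lemma pre_le {f : ℝ → ℝ} {I : Set ℝ} {K : ℝ}
    (h : ∀ x ∈ I, ∀ y ∈ I, |x - y| ≤ K * |f x - f y|) (A : Set ℝ) :
    volume (I ∩ f ⁻¹' A) ≤ ENNReal.ofReal K * volume A := by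
  have hi : InjOn f I := fun x hx y hy e => by
    simpa [e, sub_eq_zero] using h x hx y hy
  have hl : LipschitzOnWith K.toNNReal (Function.invFunOn f I) (A ∩ f '' I) :=
    .of_dist_le' (by
      rintro _ ⟨-, x, hx, rfl⟩ _ ⟨-, y, hy, rfl⟩
      rw [hi.leftInvOn_invFunOn hx, hi.leftInvOn_invFunOn hy]
      exact h x hx y hy)
  have := hl.hausdorffMeasure_image_le zero_le_one
  rw [hausdorffMeasure_real, ENNReal.rpow_one] at this
  refine (measure_mono fun x hx => ?_).trans (this.trans ?_)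
  · exact ⟨f x, ⟨hx.2, x, hx.1, rfl⟩, hi.leftInvOn_invFunOn hx.1⟩
  · exact mul_le_mul_right (measure_mono inter_subset_left) _

lemma mob_lip {γ : Gam} {x y L : ℝ} (hx : 0 < den r γ x) (hy : 0 < den r γ y)
    (hx' : den r γ x ≤ L) (hy' : den r γ y ≤ L) : |x - y| ≤ L ^ 2 * |mob r γ x - mob r γ y| := by
  have e : x - y = den r γ x * den r γ y * (mob r γ x - mob r γ y) := by
    simp only [mob]
    field_simp
    simp only [den]
    linear_combination (y - x) * J_det r γ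
  rw [e, abs_mul, abs_of_pos (mul_pos hx hy), sq]
  gcongr
  linarith

lemma solve_two {a b c d s t X : ℝ} (h : a * d - b * c = 1) (ha : |a| ≤ X) (hb : |b| ≤ X)
    (hc : |c| ≤ X) (hd : |d| ≤ X) (hu : |a * s + b * t| ≤ X) (hv : |c * s + d * t| ≤ X) :
    |s| ≤ 2 * X ^ 2 ∧ |t| ≤ 2 * X ^ 2 := by
  have key : ∀ p q u v : ℝ, |p| ≤ X → |q| ≤ X → |u| ≤ X → |v| ≤ X → |p * u - q * v| ≤ 2 * X ^ 2 :=
    fun p q u v h1 h2 h3 h4 => (abs_sub _ _).trans (by
      rw [abs_mul, abs_mul]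
      nlinarith [mul_le_mul h1 h3 (abs_nonneg _) ((abs_nonneg _).trans ha),
        mul_le_mul h2 h4 (abs_nonneg _) ((abs_nonneg _).trans ha)])
  constructor
  · convert key _ _ _ _ hd hb hu hv using 2; linear_combination -s * h
  · convert key _ _ _ _ ha hc hv hu using 2; linear_combination -t * h

lemma Adm.nonneg {n : ℕ} {x X : ℝ} {δ : Gam} (h : Adm r n x δ X) : 0 ≤ X :=
  (abs_nonneg _).trans (h 0).1.1

lemma Adm.mono {n : ℕ} {x X Y : ℝ} {δ : Gam} (h : Adm r n x δ X) (h' : X ≤ Y) : Adm r n x δ Y :=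
  fun b => ⟨⟨(h b).1.1.trans h', (h b).1.2.trans h'⟩, fun a => ((h b).2 a).trans h'⟩

lemma Adm.succ {n : ℕ} {x X : ℝ} {δ : Gam} (h : Adm r (n + 1) x δ X) : Adm r n x δ (2 * X) := by
  have h0 := h.nonneg
  intro b
  obtain ⟨⟨h1, h2⟩, h3⟩ := h b
  have e1 : p1 r (n + 1) x δ b = 2 * p1 r n x δ b := by simp only [p1]; ring
  have e2 : p2 r n δ b = 2 * p2 r (n + 1) δ b := by simp only [p2]; field_simp; ring
  rw [e1, abs_mul, abs_two] at h1
  exact ⟨⟨by linarith, by rw [e2, abs_mul, abs_two]; linarith⟩, fun a => by linarith [h3 a]⟩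

lemma Adm.sz {n : ℕ} {x X : ℝ} {δ : Gam} (h : Adm r n x δ X) (hx : |x| ≤ 2) :
    Sz r δ (3 * 2 ^ n * X) := by
  have h0 := h.nonneg
  have p0 : (1 : ℝ) ≤ 2 ^ n := one_le_pow₀ one_le_two
  intro a b
  obtain ⟨⟨h1, h2⟩, h3⟩ := h b
  rw [p1, abs_mul, abs_of_pos (by positivity)] at h1
  rw [p2, abs_div, abs_of_pos (by positivity : (0 : ℝ) < 2 ^ n), div_le_iff₀ (by positivity)] at h2
  refine ⟨?_, by nlinarith [h3 a]⟩
  have := abs_sub_abs_le_abs_sub (J r (δ 0 b)) (x * J r (δ 1 b))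
  rw [abs_mul] at this
  fin_cases a
  · change |J r (δ 0 b)| ≤ _
    nlinarith [abs_nonneg (J r (δ 0 b) - x * J r (δ 1 b)),
      mul_le_mul hx h2 (abs_nonneg _) zero_le_two]
  · change |J r (δ 1 b)| ≤ _
    nlinarith

lemma mob_row {γ : Gam} {x : ℝ} (hx : den r γ x ≠ 0) :
    J r (γ 0 0) - mob r γ x * J r (γ 1 0) = (den r γ x)⁻¹ ∧
      J r (γ 0 1) - mob r γ x * J r (γ 1 1) = -((den r γ x)⁻¹ * x) := by
  simp only [mob]
  constructor <;> field_simp <;> simp only [den]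
  · linear_combination J_det r γ
  · linear_combination -x * J_det r γ

lemma adm_mob (γ : Gam) {x : ℝ} (hx : den r γ x ≠ 0) : ∃ K, ∀ n δ X, Adm r n x δ X →
    Adm r n (mob r γ x) (γ * δ) (K * X) := by
  have h0 : ∀ a, 0 ≤ |J r.bar (γ a 0)| + |J r.bar (γ a 1)| := fun a => by positivity
  refine ⟨|(den r γ x)⁻¹| + (|J r (γ 1 0)| + |den r γ x|) +
    ∑ a, (|J r.bar (γ a 0)| + |J r.bar (γ a 1)|), fun n δ X h b => ?_⟩
  have h1 := h.nonneg
  have h2 := Finset.sum_nonneg fun a (_ : a ∈ Finset.univ) => h0 a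
  obtain ⟨⟨h3, h4⟩, h5⟩ := h b
  obtain ⟨m1, m2⟩ := mob_row hx
  have e1 : p1 r n (mob r γ x) (γ * δ) b = (den r γ x)⁻¹ * p1 r n x δ b := by
    simp only [p1, mul_ent, map_add, map_mul]
    linear_combination 2 ^ n * J r (δ 0 b) * m1 + 2 ^ n * J r (δ 1 b) * m2
  have e2 : p2 r n (γ * δ) b =
      J r (γ 1 0) * (p1 r n x δ b / (2 ^ n) ^ 2) + den r γ x * p2 r n δ b := by
    simp only [p1, p2, mul_ent, map_add, map_mul, den]; field_simp; ring
  refine ⟨⟨?_, ?_⟩, fun a => ?_⟩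
  · rw [e1, abs_mul]
    gcongr
    linarith [abs_nonneg (J r (γ 1 0)), abs_nonneg (den r γ x)]
  · have h6 : |p1 r n x δ b / (2 ^ n) ^ 2| ≤ X := by
      rw [abs_div, abs_of_pos (by positivity : (0 : ℝ) < (2 ^ n) ^ 2)]
      exact (div_le_self (abs_nonneg _) (one_le_pow₀ (one_le_pow₀ one_le_two))).trans h3
    rw [e2]
    refine (abs_add_le _ _).trans ?_
    rw [abs_mul, abs_mul]
    nlinarith [mul_le_mul_of_nonneg_left h6 (abs_nonneg (J r (γ 1 0))), mul_nonneg h2 h1,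
      mul_le_mul_of_nonneg_left h4 (abs_nonneg (den r γ x)),
      mul_nonneg (abs_nonneg (den r γ x)⁻¹) h1]
  · rw [mul_ent, map_add, map_mul, map_mul]
    refine (abs_add_le _ _).trans ?_
    rw [abs_mul, abs_mul]
    have := mul_le_mul_of_nonneg_right (Finset.single_le_sum (fun a _ => h0 a) (Finset.mem_univ a)) h1
    nlinarith [mul_le_mul_of_nonneg_left (h5 0) (abs_nonneg (J r.bar (γ a 0))),
      mul_le_mul_of_nonneg_left (h5 1) (abs_nonneg (J r.bar (γ a 1))),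
      mul_nonneg (abs_nonneg (den r γ x)⁻¹) h1, mul_nonneg (abs_nonneg (den r γ x)) h1,
      mul_nonneg (abs_nonneg (J r (γ 1 0))) h1]

namespace Coc

variable (h : Coc r π β)
include h

lemma norm_two {γ : Gam} {X Y s t : ℝ} (hγ : ∀ a b, |J r.bar (γ a b)| ≤ X) (hs : |s| ≤ Y)
    (ht : |t| ≤ Y) (z : Fin 2 → Z) : ‖s • π γ (z 0) + t • π γ (z 1)‖ ≤ 4 * (X * Y) * ‖z‖ := by
  have key : ∀ s a, |s| ≤ Y → ‖s • π γ (z a)‖ ≤ Y * (2 * X * ‖z‖) := fun s a hs => by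
    rw [norm_smul]
    exact mul_le_mul hs ((π γ).le_of_opNorm_le_of_le (h.bd γ X hγ) (norm_le_pi_norm z a))
      (norm_nonneg _) ((abs_nonneg _).trans hs)
  exact (norm_add_le_of_le (key s 0 hs) (key t 1 ht)).trans (le_of_eq (by ring))

lemma sub (γ δ : Gam) (X : ℝ) (hs : Sz r γ X) : ‖β (γ * δ)‖ ≤ ‖β γ‖ + 4 * X ^ 2 * ‖β δ‖ :=
  (pi_norm_le_iff_of_nonneg (by positivity)).2 fun a => by
    rw [h.mul, sq]
    exact norm_add_le_of_le (norm_le_pi_norm _ a)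
      (h.norm_two (fun a b => (hs a b).2) (hs a 0).1 (hs a 1).1 _)

lemma one : β 1 = 0 := by
  ext a
  have := h.mul 1 1 a
  fin_cases a <;> simpa using this

lemma inv {γ δ : Gam} (e : δ * γ = 1) (h0 : β γ = 0) : β δ = 0 := by
  ext a
  simpa [e, h.one, h0] using (h.mul δ γ a).symm

lemma ell_mul (γ δ : Gam) (x : ℝ) : ell x (β (γ * δ)) = ell x (β γ) +
    ((J r (γ 0 0) - x * J r (γ 1 0)) • π γ (β δ 0) +
      (J r (γ 0 1) - x * J r (γ 1 1)) • π γ (β δ 1)) := by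
  simp only [ell, h.mul]; module

lemma compare (c : ℝ) : ∃ K, 0 ≤ K ∧ ∀ (n : ℕ) x δ δ', Adm r n x δ (c * (n + 1)) →
    Adm r n x δ' (c * (n + 1)) → ‖ell x (β δ) - ell x (β δ')‖ ≤ K * (3 / 4) ^ n := by
  obtain ⟨C, hC⟩ := (finite_sz r 2).image (fun γ => ‖β γ‖) |>.bddAbove
  have h2 : Sm r Zsqrtd.sqrtd 2 := by
    have := r.abs_lt.2
    constructor <;> simp [J_apply, Rt.bar] <;> linarith
  have h3 : ∀ t, Sm r t 2 → ‖β (up t)‖ ≤ C ∧ ‖β (lo t)‖ ≤ C := fun t ht =>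
    ⟨hC ⟨_, sz_up ht one_le_two, rfl⟩, hC ⟨_, sz_lo ht one_le_two, rfl⟩⟩
  obtain ⟨K, hK, h4⟩ := growth' (fun γ => norm_nonneg (β γ)) h.sub
    (up_zero ▸ (h3 0 (sm_zero.mono zero_le_two)).1) (by
      rintro t (rfl | rfl | rfl | rfl)
      exacts [h3 _ (sm_one.mono one_le_two), h3 _ (sm_one.mono one_le_two).neg, h3 _ h2,
        h3 _ h2.neg]) (2 * c ^ 2)
  refine ⟨4 * c ^ 2 * K, by positivity, fun n x δ δ' hd hd' => ?_⟩
  obtain ⟨e, rfl⟩ : ∃ e, δ' = δ * e := ⟨δ⁻¹ * δ', by simp⟩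
  have h5 := h4 n e fun a b => by
    have k1 := solve_two (p_det r n x δ) (hd 0).1.1 (hd 1).1.1 (hd 0).1.2 (hd 1).1.2
      (p1_mul r n x δ e b ▸ (hd' b).1.1) (p2_mul r n δ e b ▸ (hd' b).1.2)
    have k2 := solve_two (J_det r.bar δ) ((hd 0).2 0) ((hd 1).2 0) ((hd 0).2 1) ((hd 1).2 1)
      (by simpa only [mul_ent, map_add, map_mul] using (hd' b).2 0)
      (by simpa only [mul_ent, map_add, map_mul] using (hd' b).2 1)
    rw [mul_pow, ← mul_assoc] at k1 k2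
    fin_cases a
    exacts [⟨k1.1, k2.1⟩, ⟨k1.2, k2.2⟩]
  have h6 : ∀ b, |J r (δ 0 b) - x * J r (δ 1 b)| ≤ c * (n + 1) / 2 ^ n := fun b => by
    have := (hd b).1.1
    rwa [p1, abs_mul, abs_of_pos (by positivity), mul_comm, ← le_div_iff₀ (by positivity)] at this
  rw [h.ell_mul, sub_add_cancel_left, norm_neg]
  refine (h.norm_two (fun a b => (hd b).2 a) (h6 0) (h6 1) _).trans ?_
  calc _ = 4 * c ^ 2 * (((n + 1) ^ 2 * ‖β e‖) / 2 ^ n) := by ring
    _ ≤ 4 * c ^ 2 * (K * (3 / 2) ^ n / 2 ^ n) := by gcongr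
    _ = _ := by rw [mul_div_assoc, ← div_pow, mul_assoc _ K]; norm_num

lemma exists_lim [CompleteSpace Z] (c : ℝ) : ∃ K, 0 ≤ K ∧ ∀ (x : ℝ) (δ : ℕ → Gam),
    (∀ n, Adm r n x (δ n) (c * (n + 1))) → ∃ φ, Tendsto (fun n => ell x (β (δ n))) atTop (𝓝 φ) ∧
      ∀ n, ‖φ - ell x (β (δ n))‖ ≤ K * (3 / 4) ^ n := by
  obtain ⟨K, hK, h1⟩ := h.compare (4 * c)
  refine ⟨4 * K, by positivity, fun x δ hd => ?_⟩
  have hc : 0 ≤ c := by simpa using (hd 0).nonneg
  have h2 : ∀ n, dist (ell x (β (δ n))) (ell x (β (δ (n + 1)))) ≤ K * (3 / 4) ^ n := fun n => by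
    have : (0 : ℝ) ≤ c * n := by positivity
    rw [dist_eq_norm]
    exact h1 n x _ _ ((hd n).mono (by nlinarith)) ((hd (n + 1)).succ.mono (by push_cast; nlinarith))
  obtain ⟨φ, hφ⟩ := cauchySeq_tendsto_of_complete (cauchySeq_of_le_geometric _ K (by norm_num) h2)
  refine ⟨φ, hφ, fun n => ?_⟩
  rw [← dist_eq_norm']
  exact (dist_le_of_le_geometric_of_tendsto _ K (by norm_num) h2 hφ n).trans (le_of_eq (by ring))

lemma lim_unique {x : ℝ} {φ ψ : Z} (h1 : Lim r β x φ) (h2 : Lim r β x ψ) : φ = ψ := by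
  obtain ⟨c, δ, hd, t1⟩ := h1
  obtain ⟨c', δ', hd', t2⟩ := h2
  obtain ⟨K, -, h3⟩ := h.compare (max c c')
  refine sub_eq_zero.1 (tendsto_nhds_unique (t1.sub t2) (squeeze_zero_norm (fun n => h3 n x _ _
    ((hd n).mono (by gcongr; exact le_max_left _ _))
    ((hd' n).mono (by gcongr; exact le_max_right _ _))) ?_))
  simpa using (tendsto_pow_atTop_nhds_zero_of_lt_one (by norm_num : (0 : ℝ) ≤ 3 / 4)
    (by norm_num)).const_mul K

lemma lim_mob {x : ℝ} {φ : Z} (h1 : Lim r β x φ) (γ : Gam) (hx : den r γ x ≠ 0) :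
    Lim r β (mob r γ x) (ell (mob r γ x) (β γ) + (den r γ x)⁻¹ • π γ φ) := by
  obtain ⟨c, δ, hd, t1⟩ := h1
  obtain ⟨K, hK⟩ := adm_mob γ hx
  refine ⟨K * c, fun n => γ * δ n, fun n => mul_assoc K c _ ▸ hK n _ _ (hd n), ?_⟩
  refine ((((π γ).continuous.tendsto φ).comp t1).const_smul _ |>.const_add _).congr fun n => ?_
  rw [h.ell_mul, (mob_row hx).1, (mob_row hx).2]
  simp only [Function.comp, ell, map_sub, map_smul]
  module

theorem vanish [CompleteSpace Z] (Z0 : Submodule ℝ Z) (hZ : IsClosed (Z0 : Set Z))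
    (hβ : ∀ γ a, β γ a ∈ Z0) {θ L : ℝ} (hθ : 3 / 4 ≤ θ) (hθ' : θ ≤ 2) {ι : Type} [Countable ι]
    {b : ι → ℕ → Gam} (hb0 : ∀ i n, β (b i n) = 0)
    (hb : ∀ i n x, |x| ≤ θ → 0 < den r (b i n) x ∧ den r (b i n) x ≤ L ∧ |mob r (b i n) x| ≤ θ)
    (kill : ∀ z ∈ Z0, (∀ i, Rec π (b i) z) → z = 0) (γ : Gam) : β γ = 0 := by
  let G : ℝ → ℝ → Prop := fun c x => ∀ n : ℕ, ∃ δ, Adm r n x δ (c * (n + 1))
  have null : ∀ (K : ℝ) (A : Set ℝ), 0 ≤ K → (∀ c, volume A ≤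
      ENNReal.ofReal K * volume {x | |x| ≤ 2 ∧ ¬G c x}) → volume A = 0 := fun K A hK hA => by
    refine le_antisymm (ENNReal.le_of_forall_pos_le_add fun ε hε _ => ?_) zero_le
    obtain ⟨c, hc⟩ := good_measure r (ε := ε / (K + 1)) (by positivity)
    refine (hA c).trans ((mul_le_mul_right hc _).trans ?_)
    rw [← ENNReal.ofReal_mul hK, zero_add, ← ENNReal.ofReal_coe_nnreal, ← mul_div_assoc]
    exact ENNReal.ofReal_le_ofReal (by rw [div_le_iff₀ (by positivity)]; nlinarith [ε.coe_nonneg])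
  have n1 : volume {x | |x| ≤ θ ∧ ∀ c, ¬G c x} = 0 := null 1 _ zero_le_one fun c => by
    rw [ENNReal.ofReal_one, one_mul]
    exact measure_mono fun x hx => ⟨hx.1.trans hθ', hx.2 c⟩
  have n2 : ∀ i, volume {x | |x| ≤ θ ∧ ∀ c, ∀ᶠ n in atTop, ¬G c (mob r (b i n) x)} = 0 := fun i =>
    null (L ^ 2) _ (sq_nonneg _) fun c => by
      have hm : Monotone fun N => {x | |x| ≤ θ ∧ ∀ n ≥ N, ¬G c (mob r (b i n) x)} :=
        fun N M hN x hx => ⟨hx.1, fun n hn => hx.2 n (hN.trans hn)⟩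
      refine (measure_mono fun x hx => ?_).trans (hm.measure_iUnion.trans_le (iSup_le fun N =>
        (measure_mono fun x hx => ?_).trans (pre_le (f := mob r (b i N)) (I := {x | |x| ≤ θ})
          (fun x hx y hy => mob_lip (hb i N x hx).1 (hb i N y hy).1 (hb i N x hx).2.1
            (hb i N y hy).2.1) _)))
      · obtain ⟨N, hN⟩ := eventually_atTop.1 (hx.2 c)
        exact mem_iUnion.2 ⟨N, hx.1, hN⟩
      · exact ⟨hx.1, (hb i N x hx.1).2.2.trans hθ', hx.2 N le_rfl⟩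
  have n3 : volume {x | |x| ≤ θ ∧ ¬Lim r β x 0} = 0 := by
    refine measure_mono_null (fun x hx => by_contra fun hn => hx.2 ?_)
      (measure_union_null n1 (measure_iUnion_null n2))
    simp only [mem_union, mem_iUnion, mem_ofPred_eq, hx.1, true_and, not_or, not_exists,
      not_forall, not_not, not_eventually] at hn
    obtain ⟨⟨c, hc⟩, h2⟩ := hn
    choose δ hδ using hc
    obtain ⟨φ, hφ, -⟩ := (h.exists_lim c).choose_spec.2 x δ hδ
    suffices φ = 0 from this ▸ ⟨c, δ, hδ, hφ⟩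
    refine kill φ (hZ.mem_of_tendsto hφ (.of_forall fun n =>
      Z0.sub_mem (hβ _ _) (Z0.smul_mem _ (hβ _ _)))) fun i ε hε => ?_
    obtain ⟨c', h3⟩ := h2 i
    obtain ⟨K, hK, h4⟩ := h.exists_lim c'
    have hL : 0 < L := (hb i 0 x hx.1).1.trans_le (hb i 0 x hx.1).2.1
    obtain ⟨N, hN⟩ := exists_pow_lt_of_lt_one (by positivity : 0 < ε / (L * K + 1))
      (by norm_num : (3 / 4 : ℝ) < 1)
    refine ⟨⋃ δ ∈ {δ | Sz r δ (3 * 2 ^ N * (c' * (N + 1)))},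
      (fun p : ℝ × ℝ => p.1 • ell p.2 (β δ)) '' (Icc 0 L ×ˢ Icc (-2) 2),
      (finite_sz r _).isCompact_biUnion fun δ _ => (isCompact_Icc.prod isCompact_Icc).image
        (by unfold ell; fun_prop), h3.mono fun n hn => ?_⟩
    obtain ⟨d0, d1, d2⟩ := hb i n x hx.1
    choose δ' hδ' using hn
    obtain ⟨ψ, hψ, h5⟩ := h4 _ δ' hδ'
    have e := h.lim_unique ⟨c', δ', hδ', hψ⟩ (h.lim_mob ⟨c, δ, hδ, hφ⟩ _ d0.ne')
    refine ⟨_, mem_biUnion ((hδ' N).sz (d2.trans hθ')) ⟨(den r (b i n) x, mob r (b i n) x),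
      ⟨⟨d0.le, d1⟩, abs_le.1 (d2.trans hθ')⟩, rfl⟩, ?_⟩
    have e2 : π (b i n) φ = den r (b i n) x • ψ := by simp [e, hb0, ell, d0.ne']
    rw [e2, ← smul_sub, norm_smul, Real.norm_of_nonneg d0.le]
    rw [lt_div_iff₀ (by positivity)] at hN
    nlinarith [mul_le_mul d1 (h5 N) (norm_nonneg _) hL.le, pow_pos (by norm_num : (0 : ℝ) < 3 / 4) N]
  have van : ∀ γ u v, u < v → (∀ x ∈ Icc u v, |x| ≤ 3 / 4 ∧ |mob r γ x| ≤ 3 / 4 ∧ 0 < den r γ x ∧
      den r γ x ≤ 2) → β γ = 0 := fun γ u v huv hI => by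
    have hl := fun x hx y hy => mob_lip (hI x hx).2.2.1 (hI y hy).2.2.1 (hI x hx).2.2.2
      (hI y hy).2.2.2
    have n4 := pre_le hl {x | |x| ≤ θ ∧ ¬Lim r β x 0}
    rw [n3, mul_zero, nonpos_iff_eq_zero] at n4
    have h1 : ¬(Icc u v \ (_ ∪ _)).Subsingleton := fun hs => by
      have := hs.measure_zero volume
      rw [measure_sdiff_null (measure_union_null n3 n4), Real.volume_Icc, ENNReal.ofReal_eq_zero]
        at this
      linarith
    obtain ⟨x, hx, y, hy, hxy⟩ := not_subsingleton_iff.1 h1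
    have key : ∀ x ∈ Icc u v \ ({x | |x| ≤ θ ∧ ¬Lim r β x 0} ∪
        Icc u v ∩ mob r γ ⁻¹' {x | |x| ≤ θ ∧ ¬Lim r β x 0}), ell (mob r γ x) (β γ) = 0 :=
      fun x hx => by
        obtain ⟨a1, a2, a3, -⟩ := hI x hx.1
        have b1 : Lim r β x 0 := by_contra fun hn => hx.2 (.inl ⟨a1.trans hθ, hn⟩)
        have b2 : Lim r β (mob r γ x) 0 := by_contra fun hn => hx.2 (.inr ⟨hx.1, a2.trans hθ, hn⟩)
        simpa using h.lim_unique (h.lim_mob b1 γ a3.ne') b2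
    have h2 : mob r γ x - mob r γ y ≠ 0 := fun h0 => by
      have := hl x hx.1 y hy.1
      rw [h0, abs_zero, mul_zero, abs_nonpos_iff, sub_eq_zero] at this
      exact hxy this
    have h3 : β γ 1 = 0 := (smul_eq_zero_iff_right h2).1 (by
      have := key y hy ▸ key x hx ▸ (show ell (mob r γ y) (β γ) - ell (mob r γ x) (β γ) =
        (mob r γ x - mob r γ y) • β γ 1 by simp only [ell]; module)
      simpa using this.symm)
    have h4 : β γ 0 = 0 := by simpa [ell, h3] using key x hx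
    ext a
    fin_cases a
    exacts [h4, h3]
  have hs : ∀ t, |J r t| ≤ 10 / 7 → β (up t) = 0 ∧ β (lo t) = 0 := fun t ht => by
    rw [abs_le] at ht
    refine ⟨van _ (-J r t / 2 - 1 / 50) (-J r t / 2 + 1 / 50) (by linarith) fun x hx => ?_,
      van _ (-1 / 4) (1 / 4) (by norm_num) fun x hx => ?_⟩
    · simp only [mob, den, up, abs_le]
      simp
      refine ⟨⟨?_, ?_⟩, ?_, ?_⟩ <;> linarith [hx.1, hx.2]
    · have h1 : 1 / 2 ≤ J r t * x + 1 := by nlinarith [hx.1, hx.2]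
      have e : den r (lo t) x = J r t * x + 1 := by simp [den, lo]
      have e' : mob r (lo t) x = x / (J r t * x + 1) := by rw [mob, e]; simp [lo]
      rw [e, e', abs_div, div_le_iff₀ (abs_pos.2 (by linarith)), abs_of_pos (a := _ + 1) (by linarith)]
      have := abs_le.2 ⟨neg_div (4 : ℝ) 1 ▸ hx.1, hx.2⟩
      exact ⟨by linarith, by linarith, by linarith, by nlinarith [hx.1, hx.2]⟩
  obtain ⟨j, hj⟩ := exists_sz r γ
  have := growth (C := 0) (fun γ => norm_nonneg (β γ)) h.sub (by simp [h.one]) (fun t ht => by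
    have : |J r t| ≤ 10 / 7 := by
      rcases ht with rfl | rfl | rfl | rfl <;> simp [J_apply] <;> linarith [r.abs_lt.2]
    simp [hs t this]) hj
  simpa using this

end Coc

end Pool.Agent.P.MP_d1f122_gt
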