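import Mathlib
import Pool.Agent.P.MP_d1f122_gt.Defs

/-! Periodic functions, lifts. -/

namespace Pool.Agent.P.MP_d1f122_gt

open Set Filter Topology
open scoped ContDiff

lemma proj_add (x y : V) : proj (x + y) = proj x + proj y := by
  ext i; simp [proj]

lemma proj_zero : proj 0 = 0 := by ext i; simp [proj]

lemma proj_neg (x : V) : proj (-x) = -proj x := by ext i; simp [proj]

lemma proj_sub (x y : V) : proj (x - y) = proj x - proj y := by ext i; simp [proj]

lemma continuous_proj : Continuous proj :=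
  continuous_pi fun i => (AddCircle.continuous_mk' 1).comp (continuous_apply i)

lemma proj_eq_zero {x : V} : proj x = 0 ↔ ∀ i, ∃ n : ℤ, x i = n := by
  simp only [funext_iff, proj, Pi.zero_apply, AddCircle.coe_eq_zero_iff]
  refine forall_congr' fun i => exists_congr fun n => ?_
  simp [eq_comm]

lemma isOpenQuotientMap_proj : IsOpenQuotientMap proj :=
  IsOpenQuotientMap.piMap (fun _ : Fin 4 => QuotientAddGroup.isOpenQuotientMap_mk)

lemma proj_surj : Function.Surjective proj := isOpenQuotientMap_proj.surjective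

lemma exists_proj_ball (t : T) : ∃ x : V, ‖x‖ ≤ 1 ∧ proj x = t := by
  obtain ⟨x, rfl⟩ := proj_surj t
  refine ⟨fun i => Int.fract (x i), ?_, ?_⟩
  · refine (pi_norm_le_iff_of_nonneg zero_le_one).2 fun i => ?_
    rw [Real.norm_eq_abs, abs_of_nonneg (Int.fract_nonneg _)]
    exact (Int.fract_lt_one _).le
  · rw [← sub_eq_zero, ← proj_sub, proj_eq_zero]
    intro i
    exact ⟨-⌊x i⌋, by simp only [Pi.sub_apply, Int.fract]; push_cast; ring⟩

/-- A lattice vector of norm `< 1` vanishes. -/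
lemma eq_zero_of_proj {x : V} (h : proj x = 0) (hx : ‖x‖ < 1) : x = 0 := by
  ext i
  obtain ⟨n, hn⟩ := proj_eq_zero.1 h i
  have h1 : |x i| < 1 := lt_of_le_of_lt (norm_le_pi_norm x i) hx
  rw [hn] at h1 ⊢
  have : |n| < 1 := by exact_mod_cast h1
  have : n = 0 := by rw [abs_lt] at this; omega
  simp [this]

/-- A continuous lattice-valued function is constant. -/
lemma const_of_proj {X : Type*} [TopologicalSpace X] [PreconnectedSpace X] {f : X → V}
    (hf : Continuous f) (h : ∀ x, proj (f x) = 0) (x y : X) : f x = f y := by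
  have : IsLocallyConstant f := by
    rw [IsLocallyConstant.iff_eventually_eq]
    intro z
    have : ∀ᶠ w in 𝓝 z, ‖f w - f z‖ < 1 := by
      have h1 : Continuous fun w => ‖f w - f z‖ := by fun_prop
      exact h1.continuousAt.eventually_lt continuousAt_const (by simp)
    filter_upwards [this] with w hw
    exact sub_eq_zero.1 (eq_zero_of_proj (by rw [proj_sub, h, h, sub_zero]) hw)
  exact this.apply_eq_of_preconnectedSpace x y

lemma linV_apply (A : Matrix (Fin 4) (Fin 4) ℤ) (x : V) (i : Fin 4) :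
    linV A x i = ∑ j, (A i j : ℝ) * x j := by
  simp [linV, Matrix.mulVec, dotProduct]

lemma linV_mul (A B : Matrix (Fin 4) (Fin 4) ℤ) (x : V) : linV (A * B) x = linV A (linV B x) := by
  have : (A * B).map (Int.cast : ℤ → ℝ) = A.map Int.cast * B.map Int.cast :=
    Matrix.map_mul (f := Int.castRingHom ℝ)
  simp [linV, this]

lemma linV_one (x : V) : linV 1 x = x := by
  have : (1 : Matrix (Fin 4) (Fin 4) ℤ).map (Int.cast : ℤ → ℝ) = 1 :=
    Matrix.map_one _ (by simp) (by simp)
  simp [linV, this]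

lemma isLift_lin (A : Matrix (Fin 4) (Fin 4) ℤ) : IsLift (linT A) (linV A) := by
  intro x
  ext i
  simp only [linT, proj, linV_apply]
  rw [← QuotientAddGroup.mk'_apply, map_sum]
  refine Finset.sum_congr rfl fun j _ => ?_
  rw [← zsmul_eq_mul, map_zsmul]; rfl

lemma proj_linV_zero (A : Matrix (Fin 4) (Fin 4) ℤ) {l : V} (h : proj l = 0) :
    proj (linV A l) = 0 := by
  rw [← isLift_lin A l, h]; ext i; simp [linT]

section Q

variable (Q : V ≃L[ℝ] V)

/-- The projection in adapted coordinates. -/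
def pq (y : V) : T := proj (Q y)

/-- Periodic functions. -/
def Per {E : Type*} (f : V → E) : Prop := ∀ l, pq Q l = 0 → ∀ y, f (y + l) = f y

variable {Q}

lemma pq_add (x y : V) : pq Q (x + y) = pq Q x + pq Q y := by simp [pq, proj_add]
lemma pq_sub (x y : V) : pq Q (x - y) = pq Q x - pq Q y := by simp [pq, proj_sub]
lemma pq_zero : pq Q 0 = 0 := by simp [pq, proj_zero]
lemma continuous_pq : Continuous (pq Q) := continuous_proj.comp Q.continuous

lemma isQuotientMap_pq : IsQuotientMap (pq Q) :=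
  isOpenQuotientMap_proj.isQuotientMap.comp Q.toHomeomorph.isQuotientMap

lemma pq_surj : Function.Surjective (pq Q) := isQuotientMap_pq.surjective

lemma Per.eq {E : Type*} {f : V → E} (hf : Per Q f) {x y : V} (h : pq Q x = pq Q y) :
    f x = f y := by
  have := hf (x - y) (by rw [pq_sub, h, sub_self]) y
  simpa using this

lemma exists_cpt (Q : V ≃L[ℝ] V) : ∃ R : ℝ, ∀ y, ∃ z, ‖z‖ ≤ R ∧ pq Q z = pq Q y := by
  refine ⟨‖(Q.symm : V →L[ℝ] V)‖, fun y => ?_⟩
  obtain ⟨x, hx, h⟩ := exists_proj_ball (pq Q y)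
  refine ⟨Q.symm x, ?_, by simp [pq, h]⟩
  calc ‖Q.symm x‖ ≤ ‖(Q.symm : V →L[ℝ] V)‖ * ‖x‖ := (Q.symm : V →L[ℝ] V).le_opNorm x
    _ ≤ _ := mul_le_of_le_one_right (norm_nonneg _) hx

variable (Q) in
/-- The function on the torus induced by a periodic function. -/
noncomputable def desc {E : Type*} (f : V → E) (t : T) : E := f (Function.surjInv (pq_surj (Q := Q)) t)

lemma Per.desc_pq {E : Type*} {f : V → E} (hf : Per Q f) (y : V) : desc Q f (pq Q y) = f y :=
  hf.eq (Function.surjInv_eq _ _)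

lemma Per.continuous_desc {E : Type*} [TopologicalSpace E] {f : V → E} (hf : Per Q f)
    (hc : Continuous f) : Continuous (desc Q f) := by
  rw [isQuotientMap_pq.continuous_iff (f := pq Q)]
  convert hc using 1
  ext y; exact hf.desc_pq y

lemma Per.bdd {E : Type*} [SeminormedAddCommGroup E] {f : V → E} (hf : Per Q f)
    (hc : Continuous f) : ∃ M, 0 ≤ M ∧ ∀ y, ‖f y‖ ≤ M := by
  obtain ⟨M, hM⟩ := isCompact_univ.exists_bound_of_continuousOn (hf.continuous_desc hc).continuousOn
  refine ⟨max M 0, le_max_right _ _, fun y => ?_⟩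
  rw [← hf.desc_pq y]
  exact (hM _ (mem_univ _)).trans (le_max_left _ _)

/-- Uniform continuity with parameters. -/
lemma per_unif {P E : Type*} [PseudoMetricSpace P] [PseudoMetricSpace E] {g : V → P → E}
    {K : Set P} (hK : IsCompact K) (hc : ContinuousOn (fun x : V × P => g x.1 x.2) (univ ×ˢ K))
    (hp : ∀ p ∈ K, Per Q (fun z => g z p)) {ε : ℝ} (hε : 0 < ε) :
    ∃ δ > 0, ∀ z d, ∀ p ∈ K, ‖d‖ < δ → dist (g (z + d) p) (g z p) < ε := by
  obtain ⟨R, hR⟩ := exists_cpt Q
  have hcpt : IsCompact (Metric.closedBall (0 : V) (R + 1) ×ˢ K) :=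
    (isCompact_closedBall _ _).prod hK
  have hu := hcpt.uniformContinuousOn_of_continuous
    (hc.mono (prod_mono (subset_univ _) subset_rfl))
  obtain ⟨δ, hδ, h⟩ := Metric.uniformContinuousOn_iff.1 hu ε hε
  refine ⟨min δ 1, lt_min hδ one_pos, fun z d p hpK hd => ?_⟩
  obtain ⟨z', hz', e⟩ := hR z
  have e1 : g (z + d) p = g (z' + d) p := (hp p hpK).eq (by rw [pq_add, pq_add, e])
  have e2 : g z p = g z' p := (hp p hpK).eq e.symm
  rw [e1, e2]
  have hd1 := (lt_min_iff.1 hd).2
  refine h (z' + d, p) ⟨?_, hpK⟩ (z', p) ⟨?_, hpK⟩ ?_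
  · rw [mem_closedBall_zero_iff]; exact (norm_add_le _ _).trans (by linarith)
  · rw [mem_closedBall_zero_iff]; linarith
  · rw [Prod.dist_eq]; simp [dist_eq_norm, (lt_min_iff.1 hd).1]

lemma Per.unif {E : Type*} [PseudoMetricSpace E] {f : V → E} (hf : Per Q f) (hc : Continuous f)
    {ε : ℝ} (hε : 0 < ε) : ∃ δ > 0, ∀ z d, ‖d‖ < δ → dist (f (z + d)) (f z) < ε := by
  obtain ⟨δ, hδ, h⟩ := per_unif (Q := Q) (g := fun z (_ : ℝ) => f z) (K := {0}) isCompact_singleton
    (by fun_prop) (fun _ _ => hf) hε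
  exact ⟨δ, hδ, fun z d hd => h z d 0 rfl hd⟩

lemma Per.fderiv {E : Type*} [NormedAddCommGroup E] [NormedSpace ℝ E] {f : V → E} (hf : Per Q f) :
    Per Q (fderiv ℝ f) := by
  intro l hl y
  have : (fun x => f (x + l)) = f := funext (hf l hl)
  rw [← fderiv_comp_add_right, this]

end Q

/-- Maximum principle for a bounded function along a self-map. -/
lemma sup_le {X : Type*} {f : X → ℝ} (τ : X → X) {κ b M : ℝ} (h0 : 0 ≤ κ) (h1 : κ < 1)
    (hM : ∀ x, f x ≤ M) (h : ∀ x, f x ≤ κ * f (τ x) + b) (x : X) : f x ≤ b / (1 - κ) := by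
  have hb : BddAbove (range f) := ⟨M, by rintro _ ⟨y, rfl⟩; exact hM y⟩
  have : Nonempty X := ⟨x⟩
  have hs : iSup f ≤ κ * iSup f + b := ciSup_le fun y =>
    (h y).trans (by gcongr; exact le_ciSup hb _)
  have : iSup f ≤ b / (1 - κ) := by rw [le_div_iff₀ (by linarith)]; linarith
  exact (le_ciSup hb x).trans this

end Pool.Agent.P.MP_d1f122_gt
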