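import Mathlib
import Pool.Agent.P.MP_d1f122_gt.Torus

/-! Structural stability of hyperbolic diagonal maps. -/

namespace Pool.Agent.P.MP_d1f122_gt

open Set Filter Topology BoundedContinuousFunction

/-- Strongly hyperbolic positive diagonal. -/
def Hyp (μ : V) : Prop := ∀ j, 0 < μ j ∧ (4 ≤ μ j ∨ μ j ≤ 1 / 4)

lemma abs_le_norm (v : V) (j : Fin 4) : |v j| ≤ ‖v‖ := norm_le_pi_norm v j

lemma norm_le_of_abs {v : V} {r : ℝ} (h : ∀ j, |v j| ≤ r) : ‖v‖ ≤ r :=
  (pi_norm_le_iff_of_nonneg ((abs_nonneg _).trans (h 0))).2 h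

lemma expans {X : Type*} {μ : V} (hμ : Hyp μ) {τ : X → X} (hτ : Function.Surjective τ)
    {d : X → V} {M ε : ℝ} (hM : ∀ x, ‖d x‖ ≤ M)
    (h : ∀ x, ‖d (τ x) - μ * d x‖ ≤ 1 / 4 * ‖d x‖ + ε) (x : X) : ‖d x‖ ≤ 2 * ε := by
  have hb : BddAbove (range fun x => ‖d x‖) := ⟨M, by rintro _ ⟨y, rfl⟩; exact hM y⟩
  have : Nonempty X := ⟨x⟩
  set s := ⨆ x, ‖d x‖
  have hs : ∀ x, ‖d x‖ ≤ s := le_ciSup hb
  have hj : ∀ x j, |d (τ x) j - μ j * d x j| ≤ 1 / 4 * s + ε := fun x j =>
    (abs_le_norm (d (τ x) - μ * d x) j).trans ((h x).trans (by linarith [hs x]))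
  have h0 : 0 ≤ s := (norm_nonneg _).trans (hs x)
  have hε : 0 ≤ 1 / 4 * s + ε := (abs_nonneg _).trans (hj x 0)
  have : s ≤ s / 2 + ε := ciSup_le fun y => norm_le_of_abs fun j => by
    obtain ⟨hp, h4 | h4⟩ := hμ j
    · have h1 := hj y j
      have h2 := (abs_le_norm (d (τ y)) j).trans (hs _)
      have h3 : |μ j * d y j| ≤ s + (1 / 4 * s + ε) := by
        have := abs_sub_abs_le_abs_sub (μ j * d y j) (d (τ y) j)
        rw [abs_sub_comm] at this; linarith
      rw [abs_mul, abs_of_pos hp] at h3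
      nlinarith [abs_nonneg (d y j)]
    · obtain ⟨y, rfl⟩ := hτ y
      have h1 := hj y j
      have h2 := (abs_le_norm (d y) j).trans (hs _)
      have h3 := abs_sub_abs_le_abs_sub (d (τ y) j) (μ j * d y j)
      rw [abs_mul, abs_of_pos hp] at h3
      nlinarith [abs_nonneg (d y j)]
  linarith [hs x]

lemma sol {μ : V} (hμ : Hyp μ) {φ ψ : V → V} (hφ : Continuous φ) (hψ : Continuous ψ)
    (hψφ : ∀ z, ψ (φ z) = z) {n : V → V → V} (hn : Continuous fun p : V × V => n p.1 p.2)
    {M : ℝ} (hM : ∀ z a, ‖n z a‖ ≤ M) (hl : ∀ z a b, ‖n z a - n z b‖ ≤ 1 / 4 * ‖a - b‖) :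
    ∃ v : V → V, Continuous v ∧ (∃ M, ∀ z, ‖v z‖ ≤ M) ∧
      ∀ z, μ * v z - v (φ z) = n z (v z) := by
  classical
  let f : (V →ᵇ V) → V → V := fun v z j =>
    if 4 ≤ μ j then (μ j)⁻¹ * (v (φ z) j + n z (v z) j)
    else μ j * v (ψ z) j - n (ψ z) (v (ψ z)) j
  have hfc : ∀ v, Continuous (f v) := fun v => continuous_pi fun j => by
    have h1 : Continuous fun z => n z (v z) := hn.comp (continuous_id.prodMk v.continuous)
    have h2 := v.continuous
    simp only [f]
    split_ifs
    · fun_prop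
    · have h3 := h1.comp hψ
      exact (continuous_const.mul ((continuous_apply j).comp (h2.comp hψ))).sub
        ((continuous_apply j).comp h3)
  have hd : ∀ (v w : V →ᵇ V) (z : V) (n' : V → V → V) (c : ℝ), 0 ≤ c →
      (∀ z, ‖n z (v z) - n' z (w z)‖ ≤ c) → ∀ j, |f v z j -
      (if 4 ≤ μ j then (μ j)⁻¹ * (w (φ z) j + n' z (w z) j)
        else μ j * w (ψ z) j - n' (ψ z) (w (ψ z)) j)| ≤ 1 / 4 * dist v w + c := by
    intro v w z n' c hc hn' j
    have e1 : ∀ y, |v y j - w y j| ≤ dist v w := fun y =>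
      (abs_le_norm (v y - w y) j).trans (by rw [← dist_eq_norm]; exact dist_coe_le_dist y)
    have e2 : ∀ y, |n y (v y) j - n' y (w y) j| ≤ c := fun y =>
      (abs_le_norm (n y (v y) - n' y (w y)) j).trans (hn' y)
    simp only [f]
    obtain ⟨hp, h4⟩ := hμ j
    split_ifs with h
    · rw [← mul_sub, abs_mul, abs_of_pos (inv_pos.2 hp)]
      have h5 : (μ j)⁻¹ ≤ 1 / 4 := by rw [one_div]; exact inv_anti₀ (by norm_num) h
      have h6 : |v (φ z) j + n z (v z) j - (w (φ z) j + n' z (w z) j)| ≤ dist v w + c := by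
        rw [add_sub_add_comm]; exact (abs_add_le _ _).trans (add_le_add (e1 _) (e2 _))
      calc _ ≤ 1 / 4 * (dist v w + c) := by gcongr
        _ ≤ _ := by linarith
    · have h5 : μ j ≤ 1 / 4 := h4.resolve_left h
      rw [sub_sub_sub_comm, ← mul_sub]
      refine (abs_sub _ _).trans (add_le_add ?_ (e2 _))
      rw [abs_mul, abs_of_pos hp]
      gcongr; exact e1 _
  have hM0 : 0 ≤ M := (norm_nonneg _).trans (hM 0 0)
  have hfb : ∀ v z, ‖f v z‖ ≤ 1 / 4 * dist v 0 + M := fun v z => norm_le_of_abs fun j => by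
    have := hd v 0 z (fun _ _ => 0) M hM0 (fun z => by simpa using hM z _) j
    simpa using this
  let Φ : (V →ᵇ V) → (V →ᵇ V) := fun v => ofNormedAddCommGroup (f v) (hfc v) _ (hfb v)
  have hΦ : ContractingWith (1 / 2) Φ := by
    refine ⟨by norm_num, LipschitzWith.of_dist_le_mul fun v w => ?_⟩
    refine (dist_le (by positivity)).2 fun z => ?_
    rw [dist_eq_norm]
    refine norm_le_of_abs fun j => ?_
    have := hd v w z n (1 / 4 * dist v w) (by positivity) (fun z => (hl z _ _).trans (by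
      gcongr; rw [← dist_eq_norm]; exact dist_coe_le_dist z)) j
    push_cast
    exact this.trans (by linarith)
  let v := hΦ.fixedPoint Φ
  have hv : ∀ z, f v z = v z := fun z => congrFun (congrArg DFunLike.coe hΦ.fixedPoint_isFixedPt) z
  refine ⟨v, v.continuous, ⟨‖v‖, v.norm_coe_le_norm⟩, fun z => ?_⟩
  ext j
  have hp := (hμ j).1
  by_cases h : 4 ≤ μ j
  · have := congrFun (hv z) j
    simp only [f, if_pos h] at this
    simp only [Pi.sub_apply, Pi.mul_apply]
    rw [← this]; field_simp; ring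
  · have := congrFun (hv (φ z)) j
    simp only [f, if_neg h, hψφ] at this
    simp only [Pi.sub_apply, Pi.mul_apply]
    rw [← this]; ring

lemma norm_mul_le_V (μ v : V) : ‖μ * v‖ ≤ ‖μ‖ * ‖v‖ := norm_mul_le μ v

/-- Structural stability. -/
theorem stab {Q : V ≃L[ℝ] V} {μ : V} (hμ : Hyp μ) {F G : V → V} (hF : Continuous F)
    (hG : Continuous G) (hGF : ∀ x, G (F x) = x) (hFG : ∀ x, F (G x) = x)
    (hper : Per Q fun x => F x - μ * x) (hlat : ∀ l, pq Q l = 0 → pq Q (μ * l) = 0)
    (hGper : ∀ x y, pq Q x = pq Q y → pq Q (G x) = pq Q (G y))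
    {η : ℝ} (h0 : ∀ x, ‖F x - μ * x‖ ≤ η)
    (h1 : ∀ x y, ‖F x - F y - μ * (x - y)‖ ≤ 1 / 4 * ‖x - y‖) :
    ∃ H k : V → V, Continuous H ∧ Continuous k ∧ (∀ x, H (k x) = x) ∧ (∀ x, k (H x) = x) ∧
      Per Q (fun x => H x - x) ∧ (∀ x, ‖H x - x‖ ≤ 2 * η) ∧ (∀ x, H (F x) = μ * H x) := by
  have hne : ∀ j, μ j ≠ 0 := fun j => (hμ j).1.ne'
  have hinv : ∀ z : V, μ⁻¹ * (μ * z) = z := fun z => by ext j; simp [hne j]
  have hinv' : ∀ z : V, μ * (μ⁻¹ * z) = z := fun z => by ext j; simp [hne j]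
  obtain ⟨w, hw, ⟨Mw, hMw⟩, ew⟩ := sol hμ hF hG hGF (n := fun z _ => F z - μ * z) (by fun_prop)
    (fun z _ => h0 z) (fun z a b => by simp)
  obtain ⟨v, hv, ⟨Mv, hMv⟩, ev⟩ := sol hμ (φ := fun z => μ * z) (ψ := fun z => μ⁻¹ * z)
    (by fun_prop) (by fun_prop) hinv (n := fun z a => -(F (z + a) - μ * (z + a))) (by fun_prop)
    (fun z a => by rw [norm_neg]; exact h0 _) (fun z a b => by
      have := h1 (z + b) (z + a)
      rw [norm_sub_rev a b]
      convert this using 2
      · ring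
      · congr 1; ring)
  have eH : ∀ x, F x + w (F x) = μ * (x + w x) := fun x => by
    have := ew x; linear_combination -this
  have ek : ∀ z, μ * z + v (μ * z) = F (z + v z) := fun z => by
    have := ev z; linear_combination -this
  have hFs : Function.Surjective F := fun y => ⟨G y, hFG y⟩
  have hBs : Function.Surjective fun z : V => μ * z := fun y => ⟨μ⁻¹ * y, hinv' y⟩
  have hb : ∀ (a b : V → V) (x y : V), (∀ z, ‖a z‖ ≤ Mw) → (∀ z, ‖b z‖ ≤ Mv) →
      ‖b x + a y‖ ≤ Mv + Mw := fun a b x y ha hb => (norm_add_le _ _).trans (add_le_add (hb _) (ha _))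
  refine ⟨fun x => x + w x, fun z => z + v z, by fun_prop, by fun_prop, fun x => ?_, fun x => ?_,
    fun l hl y => ?_, fun x => ?_, eH⟩
  · have := expans hμ hBs (d := fun z => v z + w (z + v z)) (ε := 0)
      (fun z => hb w v _ _ hMw hMv) (fun z => by
        have e : v (μ * z) + w (μ * z + v (μ * z)) - μ * (v z + w (z + v z)) = 0 := by
          rw [ek]; linear_combination eH (z + v z) + ek z
        rw [e]; simp) x
    have : v x + w (x + v x) = 0 := norm_le_zero_iff.1 (by simpa using this)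
    linear_combination this
  · have := expans hμ hFs (d := fun z => v (z + w z) + w z) (ε := 0)
      (fun z => hb w v _ _ hMw hMv) (fun z => by
        have e : v (F z + w (F z)) + w (F z) - μ * (v (z + w z) + w z) =
            F (z + w z + v (z + w z)) - F z - μ * (z + w z + v (z + w z) - z) := by
          rw [eH]; linear_combination eH z + ek (z + w z)
        rw [e, add_zero]
        convert h1 _ _ using 3
        ring) x
    have : v (x + w x) + w x = 0 := norm_le_zero_iff.1 (by simpa using this)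
    linear_combination this
  · have hFp : ∀ x y, pq Q x = pq Q y → pq Q (F x) = pq Q (F y) := fun x y h => by
      have e1 := hper.eq h
      have e2 := hlat (x - y) (by rw [pq_sub, h, sub_self])
      have : F x - F y = μ * (x - y) := by linear_combination e1
      rw [← sub_eq_zero, ← pq_sub, this, e2]
    let X := {p : V × V // pq Q p.1 = pq Q p.2}
    have := expans (X := X) hμ (τ := fun p => ⟨(F p.1.1, F p.1.2), hFp _ _ p.2⟩)
      (fun p => ⟨⟨(G p.1.1, G p.1.2), hGper _ _ p.2⟩, by ext <;> simp [hFG]⟩)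
      (d := fun p => w p.1.1 - w p.1.2) (ε := 0) (M := Mw + Mw)
      (fun p => (norm_sub_le _ _).trans (add_le_add (hMw _) (hMw _))) (fun p => by
        have e : w (F p.1.1) - w (F p.1.2) - μ * (w p.1.1 - w p.1.2) = 0 := by
          linear_combination ew p.1.2 - ew p.1.1 - hper.eq p.2
        simp only [e]; simp) ⟨(y + l, y), by rw [pq_add, hl, add_zero]⟩
    have : w (y + l) - w y = 0 := norm_le_zero_iff.1 (by simpa using this)
    linear_combination this
  · have := expans hμ hFs (d := w) (ε := η) hMw (fun z => by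
      rw [norm_sub_rev, ew]; exact (h0 z).trans (by linarith [norm_nonneg (w z)])) x
    simpa using this

/-- Maps commuting with `F` are conjugated to their linear parts. -/
lemma stab_comm {μ ν : V} (hμ : Hyp μ) {F F' H : V → V} (hFs : Function.Surjective F)
    (hc : ∀ x, F' (F x) = F (F' x)) {M M' : ℝ} (hH : ∀ x, ‖H x - x‖ ≤ M)
    (h0 : ∀ x, ‖F' x - ν * x‖ ≤ M') (eH : ∀ x, H (F x) = μ * H x) (x : V) :
    H (F' x) = ν * H x := by
  have := expans hμ hFs (d := fun x => H (F' x) - ν * H x) (ε := 0) (M := M + M' + ‖ν‖ * M)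
    (fun x => by
      have e : H (F' x) - ν * H x = (H (F' x) - F' x) + (F' x - ν * x) - ν * (H x - x) := by ring
      rw [e]
      refine (norm_sub_le _ _).trans (add_le_add ((norm_add_le _ _).trans
        (add_le_add (hH _) (h0 _))) ((norm_mul_le _ _).trans (by gcongr; exact hH _))))
    (fun x => by
      have e : H (F' (F x)) - ν * H (F x) - μ * (H (F' x) - ν * H x) = 0 := by
        rw [hc, eH, eH]; ring
      rw [e]; simp) x
  exact sub_eq_zero.1 (norm_le_zero_iff.1 (by simpa using this))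

end Pool.Agent.P.MP_d1f122_gt
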