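import Mathlib
import Pool.Agent.P.MP_d1f122_gt.Stab

/-! Invariant curves: cones and tangent directions. -/

namespace Pool.Agent.P.MP_d1f122_gt

open Set Filter Topology

/-- `F` is `C¹`-close to the diagonal map `μ`, with Lipschitz derivative. -/
structure Nice (F : V → V) (μ : V) (η : ℝ) : Prop where
  diff : Differentiable ℝ F
  close : ∀ p v, ‖fderiv ℝ F p v - μ * v‖ ≤ η * ‖v‖
  lip : ∃ K, 0 ≤ K ∧ ∀ p q, ‖fderiv ℝ F p - fderiv ℝ F q‖ ≤ K * ‖p - q‖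

lemma Nice.nonneg {F : V → V} {μ : V} {η : ℝ} (h : Nice F μ η) : 0 ≤ η := by
  simpa using (norm_nonneg _).trans (h.close 0 1)

lemma Nice.mono {F : V → V} {μ : V} {η η' : ℝ} (h : Nice F μ η) (hη : η ≤ η') : Nice F μ η' :=
  ⟨h.diff, fun p v => (h.close p v).trans (by gcongr), h.lip⟩

lemma Nice.lipu {F : V → V} {μ : V} {η : ℝ} (h : Nice F μ η) (x y : V) :
    ‖F x - F y - μ * (x - y)‖ ≤ η * ‖x - y‖ :=
  convex_univ.norm_image_sub_le_of_norm_fderiv_le' (φ := ContinuousLinearMap.mul ℝ V μ)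
    (fun z _ => h.diff z)
    (fun z _ => ContinuousLinearMap.opNorm_le_bound _ h.nonneg (h.close z)) (mem_univ y)
    (mem_univ x)

lemma Nice.taylor {F : V → V} {μ : V} {η : ℝ} (h : Nice F μ η) :
    ∃ K, 0 ≤ K ∧ ∀ p q, ‖F q - F p - fderiv ℝ F p (q - p)‖ ≤ K * ‖q - p‖ * ‖q - p‖ := by
  obtain ⟨K, hK, hl⟩ := h.lip
  refine ⟨K, hK, fun p q => (convex_closedBall p ‖q - p‖).norm_image_sub_le_of_norm_fderiv_le'
    (fun z _ => h.diff z) (fun z hz => (hl z p).trans ?_)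
    (Metric.mem_closedBall_self (norm_nonneg _)) (by rw [mem_closedBall_iff_norm])⟩
  gcongr
  exact mem_closedBall_iff_norm.1 hz

lemma exists_abs_eq_norm (v : V) : ∃ j, |v j| = ‖v‖ := by
  obtain ⟨j, hj⟩ := Finite.exists_max fun j => |v j|
  exact ⟨j, le_antisymm (abs_le_norm v j) (norm_le_of_abs hj)⟩

/-- The basis vector. -/
abbrev ee (i : Fin 4) : V := Pi.single i 1

lemma norm_smul_ee (i : Fin 4) (t : ℝ) : ‖t • ee i‖ = |t| := by
  rw [norm_smul, Pi.norm_single]; simp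

lemma mul_ee (μ z : V) (i : Fin 4) (t : ℝ) : μ * (z + t • ee i) = μ * z + (μ i * t) • ee i := by
  ext j
  by_cases h : j = i
  · subst h; simp; ring
  · simp [h]

/-- Increment of `k` along a coordinate line. -/
def dl (k : V → V) (i : Fin 4) (z : V) (t : ℝ) : V := k (z + t • ee i) - k z

lemma dl_conj {k F : V → V} {μ : V} (h : ∀ z, F (k z) = k (μ * z)) (i : Fin 4) (z : V) (t : ℝ) :
    dl k i (μ * z) (μ i * t) = F (k (z + t • ee i)) - F (k z) := by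
  rw [h, h, mul_ee, dl]

lemma dl_bound {k : V → V} {M : ℝ} (hM : ∀ z, ‖k z - z‖ ≤ M) (i : Fin 4) (z : V) (t : ℝ) :
    ‖dl k i z t - t • ee i‖ ≤ 2 * M := by
  have : dl k i z t - t • ee i = (k (z + t • ee i) - (z + t • ee i)) - (k z - z) := by
    simp only [dl]; ring
  rw [this]
  exact (norm_sub_le _ _).trans (by linarith [hM (z + t • ee i), hM z])

lemma inv_mul_V {μ : V} (h : ∀ j, 0 < μ j) (z : V) : μ⁻¹ * (μ * z) = z := by
  ext j; simp [(h j).ne']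

lemma mul_inv_V {μ : V} (h : ∀ j, 0 < μ j) (z : V) : μ * (μ⁻¹ * z) = z := by
  ext j; simp [(h j).ne']

/-- Increments along an expanded coordinate line lie in the unstable cone. -/
lemma cone {k F : V → V} {μ : V} {M : ℝ} (hM : ∀ z, ‖k z - z‖ ≤ M) (hμ : Hyp μ) {i : Fin 4}
    (hi : 4 ≤ μ i) (hF : Nice F μ (1 / 4)) (h : ∀ z, F (k z) = k (μ * z)) (z : V) (t : ℝ)
    (j : Fin 4) (hj : μ j ≤ 1 / 4) : |dl k i z t j| ≤ ‖dl k i z t‖ / 4 := by
  have hp : ∀ j, 0 < μ j := fun j => (hμ j).1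
  have key : ∀ z t l, |dl k i (μ * z) (μ i * t) l - μ l * dl k i z t l| ≤ 1 / 4 * ‖dl k i z t‖ :=
    fun z t l => by
      rw [dl_conj h]
      exact (abs_le_norm (_ - μ * _) l).trans (hF.lipu _ _)
  have kS : ∀ z t l, μ l ≤ 1 / 4 → |dl k i (μ * z) (μ i * t) l| ≤ ‖dl k i z t‖ / 2 :=
    fun z t l hl => by
      have h1 := key z t l
      have h2 := abs_sub_abs_le_abs_sub (dl k i (μ * z) (μ i * t) l) (μ l * dl k i z t l)
      rw [abs_mul, abs_of_pos (hp l)] at h2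
      nlinarith [abs_le_norm (dl k i z t) l, abs_nonneg (dl k i z t l)]
  let Gd : V → ℝ → Prop := fun z t => ∃ l, 4 ≤ μ l ∧ |dl k i z t l| = ‖dl k i z t‖
  have s1 : ∀ z t, Gd z t → ∀ l, μ l ≤ 1 / 4 →
      |dl k i (μ * z) (μ i * t) l| ≤ ‖dl k i (μ * z) (μ i * t)‖ / 4 := by
    rintro z t ⟨m, hm, e⟩ l hl
    have h1 := key z t m
    have h2 := abs_sub_abs_le_abs_sub (μ m * dl k i z t m) (dl k i (μ * z) (μ i * t) m)
    rw [abs_mul, abs_of_pos (hp m), abs_sub_comm, e] at h2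
    nlinarith [kS z t l hl, abs_le_norm (dl k i (μ * z) (μ i * t)) m, norm_nonneg (dl k i z t)]
  have s2 : ∀ z t, ¬ Gd (μ * z) (μ i * t) →
      ¬ Gd z t ∧ ‖dl k i (μ * z) (μ i * t)‖ ≤ ‖dl k i z t‖ / 2 := by
    intro z t hn
    obtain ⟨l, hl⟩ := exists_abs_eq_norm (dl k i (μ * z) (μ i * t))
    have hl' : μ l ≤ 1 / 4 := (hμ l).2.resolve_left fun h4 => hn ⟨l, h4, hl⟩
    refine ⟨fun hg => hn ⟨i, hi, le_antisymm (abs_le_norm _ _) ?_⟩, hl ▸ kS z t l hl'⟩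
    have := s1 z t hg l hl'
    linarith [abs_nonneg (dl k i (μ * z) (μ i * t) i), norm_nonneg (dl k i (μ * z) (μ i * t))]
  have hb : ∀ z t, μ * (μ⁻¹ * z) = z ∧ μ i * (t / μ i) = t := fun z t =>
    ⟨mul_inv_V hp z, mul_div_cancel₀ _ (hp i).ne'⟩
  have all : ∀ z t, Gd z t := by
    intro z t
    by_contra hn
    let X := {x : V × ℝ // |x.2| ≤ |t| ∧ ¬ Gd x.1 x.2}
    have s3 : ∀ x : X, ¬ Gd (μ⁻¹ * x.1.1) (x.1.2 / μ i) ∧
        ‖dl k i x.1.1 x.1.2‖ ≤ ‖dl k i (μ⁻¹ * x.1.1) (x.1.2 / μ i)‖ / 2 := fun x => by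
      have := s2 (μ⁻¹ * x.1.1) (x.1.2 / μ i) (by rw [(hb _ 0).1, (hb 0 _).2]; exact x.2.2)
      rwa [(hb _ 0).1, (hb 0 _).2] at this
    have := sup_le (X := X) (f := fun x => ‖dl k i x.1.1 x.1.2‖)
      (fun x => ⟨(μ⁻¹ * x.1.1, x.1.2 / μ i), by
        refine ⟨le_trans ?_ x.2.1, (s3 x).1⟩
        rw [abs_div, abs_of_pos (hp i)]
        exact div_le_self (abs_nonneg _) (by linarith)⟩) (κ := 1 / 2) (b := 0) (M := |t| + 2 * M)
      (by norm_num) (by norm_num) (fun x => by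
        have h1 := dl_bound hM i x.1.1 x.1.2
        have h2 := norm_sub_norm_le (dl k i x.1.1 x.1.2) (x.1.2 • ee i)
        rw [norm_smul_ee] at h2
        linarith [x.2.1]) (fun x => by linarith [(s3 x).2]) ⟨(z, t), le_rfl, hn⟩
    exact hn ⟨i, hi, le_antisymm (abs_le_norm _ _) (le_trans (by simpa using this) (abs_nonneg _))⟩
  have := s1 (μ⁻¹ * z) (t / μ i) (all _ _) j hj
  rwa [(hb _ 0).1, (hb 0 _).2] at this

lemma slope_step {μ ξ ξ' s s' : V} {i : Fin 4} {L m ε : ℝ} (hp : ∀ j, 0 < μ j)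
    (hL : ∀ j, j ≠ i → μ j ≤ L) (hL0 : 0 ≤ L) (hs : s i = s' i) (hm : 0 < m) (hξ : m ≤ ξ i)
    (hξ' : ξ' i ≠ 0) (h1 : ‖(ξ' i)⁻¹ • ξ'‖ ≤ 1) (h : ‖ξ - ξ' - μ * (s - s')‖ ≤ ε) :
    ‖(ξ i)⁻¹ • ξ - (ξ' i)⁻¹ • ξ'‖ ≤ (L * ‖s - s'‖ + 2 * ε) / m := by
  have hx : 0 < ξ i := hm.trans_le hξ
  have e0 : ∀ j, |ξ j - ξ' j - μ j * (s j - s' j)| ≤ ε := fun j =>
    (abs_le_norm (ξ - ξ' - μ * (s - s')) j).trans h
  have ei : |ξ i - ξ' i| ≤ ε := by simpa [hs] using e0 i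
  have hε : 0 ≤ ε := (abs_nonneg _).trans ei
  refine norm_le_of_abs fun j => ?_
  have ej : |ξ j - ξ' j| ≤ L * ‖s - s'‖ + ε := by
    by_cases hj : j = i
    · subst hj; exact ei.trans (le_add_of_nonneg_left (by positivity))
    · have h2 := abs_sub_abs_le_abs_sub (ξ j - ξ' j) (μ j * (s j - s' j))
      rw [abs_mul, abs_of_pos (hp j)] at h2
      have h3 : μ j * |s j - s' j| ≤ L * ‖s - s'‖ :=
        mul_le_mul (hL j hj) (abs_le_norm (s - s') j) (abs_nonneg _) hL0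
      linarith [e0 j]
  have hw : |(ξ' i)⁻¹ * ξ' j| ≤ 1 := (abs_le_norm ((ξ' i)⁻¹ • ξ') j).trans h1
  have e : ((ξ i)⁻¹ • ξ - (ξ' i)⁻¹ • ξ') j =
      ((ξ j - ξ' j) - (ξ' i)⁻¹ * ξ' j * (ξ i - ξ' i)) / ξ i := by
    simp only [Pi.sub_apply, Pi.smul_apply, smul_eq_mul]; field_simp; ring
  rw [e, abs_div, abs_of_pos hx]
  refine div_le_div₀ (by positivity) ((abs_sub _ _).trans ?_) hm hξ
  rw [abs_mul]
  nlinarith [mul_le_mul hw ei (abs_nonneg _) zero_le_one]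

/-- Hypotheses on the conjugacy along the `i`-th coordinate lines. -/
structure Leafy (Q : V ≃L[ℝ] V) (k : V → V) (i : Fin 4) : Prop where
  cont : Continuous k
  inj : Function.Injective k
  per : Per Q fun z => k z - z
  cone : ∀ z t j, j ≠ i → |dl k i z t j| ≤ ‖dl k i z t‖ / 4

/-- The slope of a secant. -/
noncomputable def sl (k : V → V) (i : Fin 4) (z : V) (t : ℝ) : V := (dl k i z t i)⁻¹ • dl k i z t

namespace Leafy

variable {Q : V ≃L[ℝ] V} {k : V → V} {i : Fin 4} (hk : Leafy Q k i)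
include hk

lemma bdd : ∃ M, 0 ≤ M ∧ ∀ z, ‖k z - z‖ ≤ M := hk.per.bdd (hk.cont.sub continuous_id)

lemma abs_eq (z : V) (t : ℝ) : |dl k i z t i| = ‖dl k i z t‖ := by
  obtain ⟨l, hl⟩ := exists_abs_eq_norm (dl k i z t)
  by_cases h : l = i
  · rw [← hl, h]
  · have := hk.cone z t l h
    exact le_antisymm (abs_le_norm _ _)
      (by linarith [abs_nonneg (dl k i z t i), norm_nonneg (dl k i z t)])

lemma ne_zero (z : V) {t : ℝ} (ht : t ≠ 0) : dl k i z t i ≠ 0 := by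
  intro h
  have h1 := hk.abs_eq z t
  rw [h, abs_zero, eq_comm, norm_eq_zero, dl, sub_eq_zero] at h1
  have := congrFun (hk.inj h1) i
  simp [ht] at this

lemma cont_dl : Continuous fun x : V × ℝ => dl k i x.1 x.2 := by
  have := hk.cont
  unfold dl; fun_prop

lemma pos (z : V) {t : ℝ} (ht : 0 < t) : 0 < dl k i z t i := by
  obtain ⟨M, hM0, hM⟩ := hk.bdd
  by_contra hn
  have h1 := (abs_le_norm _ i).trans (dl_bound hM i z (t + 2 * M + 1))
  have h2 : 0 ≤ dl k i z (t + 2 * M + 1) i := by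
    simp only [Pi.sub_apply, Pi.smul_apply, Pi.single_eq_same, smul_eq_mul, mul_one] at h1
    linarith [(abs_le.1 h1).1]
  have hc : Continuous fun s => dl k i z s i :=
    (continuous_apply i).comp (hk.cont_dl.comp (continuous_const.prodMk continuous_id))
  obtain ⟨s, hs, h0⟩ := intermediate_value_Icc (show t ≤ t + 2 * M + 1 by linarith) hc.continuousOn
    ⟨not_lt.1 hn, h2⟩
  exact hk.ne_zero z (ht.trans_le hs.1).ne' h0

lemma per_dl {l : V} (hl : pq Q l = 0) (z : V) (t : ℝ) : dl k i (z + l) t = dl k i z t := by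
  have h1 := hk.per l hl z
  have h2 := hk.per l hl (z + t • ee i)
  simp only [dl, add_right_comm z l]
  linear_combination h2 - h1

lemma small {ε : ℝ} (hε : 0 < ε) : ∃ δ > 0, ∀ z t, |t| < δ → |dl k i z t i| < ε := by
  obtain ⟨δ, hδ, h⟩ := hk.per.unif (hk.cont.sub continuous_id) (half_pos hε)
  refine ⟨min δ (ε / 2), lt_min hδ (half_pos hε), fun z t ht => ?_⟩
  have h1 := h z (t • ee i) (by rw [norm_smul_ee]; exact (lt_min_iff.1 ht).1)
  rw [dist_eq_norm] at h1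
  have e : dl k i z t = (k (z + t • ee i) - (z + t • ee i) - (k z - z)) + t • ee i := by
    simp only [dl]; ring
  rw [hk.abs_eq, e]
  refine (norm_add_le _ _).trans_lt ?_
  rw [norm_smul_ee]
  linarith [(lt_min_iff.1 ht).2]

lemma sl_i (z : V) {t : ℝ} (ht : t ≠ 0) : sl k i z t i = 1 := by
  simp [sl, hk.ne_zero z ht]

lemma norm_sl (z : V) {t : ℝ} (ht : t ≠ 0) : ‖sl k i z t‖ = 1 := by
  rw [sl, norm_smul, norm_inv, Real.norm_eq_abs, ← hk.abs_eq,
    inv_mul_cancel₀ (abs_ne_zero.2 (hk.ne_zero z ht))]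

lemma sl_cone (z : V) {t : ℝ} (ht : t ≠ 0) {j : Fin 4} (hj : j ≠ i) : |sl k i z t j| ≤ 1 / 4 := by
  have h := hk.cone z t j hj
  have h0 := abs_pos.2 (hk.ne_zero z ht)
  rw [← hk.abs_eq] at h
  simp only [sl, Pi.smul_apply, smul_eq_mul, abs_mul, abs_inv]
  rw [inv_mul_le_iff₀ h0]; linarith

lemma smul_sl (z : V) {t : ℝ} (ht : t ≠ 0) : dl k i z t i • sl k i z t = dl k i z t := by
  rw [sl, smul_inv_smul₀ (hk.ne_zero z ht)]

/-- One step of the dynamics on secants. -/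
lemma step {F : V → V} {μ : V} {η : ℝ} (hF : Nice F μ η) (h : ∀ z, F (k z) = k (μ * z)) :
    ∃ K, 0 ≤ K ∧ ∀ z t, t ≠ 0 → ∃ ξ : V, dl k i (μ * z) (μ i * t) = dl k i z t i • ξ ∧
      |ξ i - μ i| ≤ η ∧ ‖ξ - fderiv ℝ F (k z) (sl k i z t)‖ ≤ K * |dl k i z t i| := by
  obtain ⟨K, hK, hT⟩ := hF.taylor
  refine ⟨K, hK, fun z t ht => ⟨(dl k i z t i)⁻¹ • dl k i (μ * z) (μ i * t),
    (smul_inv_smul₀ (hk.ne_zero z ht) _).symm, ?_, ?_⟩⟩
  · have h0 := abs_pos.2 (hk.ne_zero z ht)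
    have h1 := (abs_le_norm _ i).trans (hF.lipu (k (z + t • ee i)) (k z))
    rw [← dl_conj h, ← dl, ← hk.abs_eq] at h1
    have e : ((dl k i z t i)⁻¹ • dl k i (μ * z) (μ i * t)) i - μ i =
        (dl k i (μ * z) (μ i * t) - μ * dl k i z t) i / dl k i z t i := by
      have := hk.ne_zero z ht
      simp only [Pi.smul_apply, smul_eq_mul, Pi.sub_apply, Pi.mul_apply]; field_simp
    rwa [e, abs_div, div_le_iff₀ h0]
  · have h0 := abs_pos.2 (hk.ne_zero z ht)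
    have h1 := hT (k z) (k (z + t • ee i))
    rw [← dl_conj h, ← dl, ← hk.abs_eq] at h1
    rw [sl, map_smul, ← smul_sub, norm_smul, norm_inv, Real.norm_eq_abs, inv_mul_le_iff₀ h0]
    linarith

/-- Secants based at the same point have close slopes. -/
lemma sl_close {F : V → V} {μ : V} (hp : ∀ j, 0 < μ j) (hi : 4 ≤ μ i)
    (hj : ∀ j, j ≠ i → μ j ≤ μ i / 8) (hF : Nice F μ (1 / 4)) (h : ∀ z, F (k z) = k (μ * z)) :
    ∃ K, 0 ≤ K ∧ ∀ z t t' τ, t ≠ 0 → t' ≠ 0 → |dl k i z t i| ≤ τ → |dl k i z t' i| ≤ τ →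
      ‖sl k i z t - sl k i z t'‖ ≤ K * τ := by
  obtain ⟨K, hK, hs⟩ := hk.step hF h
  refine ⟨8 * K, by positivity, fun z t t' τ ht ht' h1 h1' => ?_⟩
  have hτ : 0 ≤ τ := (abs_nonneg _).trans h1
  have back : ∀ z t, t ≠ 0 → ∃ ξ : V, sl k i z t = (ξ i)⁻¹ • ξ ∧ 15 / 16 * μ i ≤ ξ i ∧
      |dl k i (μ⁻¹ * z) (t / μ i) i| ≤ |dl k i z t i| ∧
      ‖ξ - fderiv ℝ F (k (μ⁻¹ * z)) (sl k i (μ⁻¹ * z) (t / μ i))‖ ≤
        K * |dl k i (μ⁻¹ * z) (t / μ i) i| := by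
    intro z t ht
    have ht1 := div_ne_zero ht (hp i).ne'
    obtain ⟨ξ, e, h2, h3⟩ := hs (μ⁻¹ * z) (t / μ i) ht1
    rw [mul_inv_V hp, mul_div_cancel₀ _ (hp i).ne'] at e
    have h4 : 15 / 16 * μ i ≤ ξ i := by linarith [(abs_le.1 h2).1]
    refine ⟨ξ, ?_, h4, ?_, h3⟩
    · have := hk.ne_zero (μ⁻¹ * z) ht1
      rw [sl, e, smul_smul]
      congr 1
      simp only [Pi.smul_apply, smul_eq_mul]; field_simp
    · rw [e, Pi.smul_apply, smul_eq_mul, abs_mul, abs_of_pos (by linarith : 0 < ξ i)]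
      exact le_mul_of_one_le_right (abs_nonneg _) (by linarith)
  let X := {x : V × ℝ × ℝ // x.2.1 ≠ 0 ∧ x.2.2 ≠ 0 ∧ |dl k i x.1 x.2.1 i| ≤ τ ∧
    |dl k i x.1 x.2.2 i| ≤ τ}
  have := sup_le (X := X) (f := fun x => ‖sl k i x.1.1 x.1.2.1 - sl k i x.1.1 x.1.2.2‖)
    (fun x => ⟨(μ⁻¹ * x.1.1, x.1.2.1 / μ i, x.1.2.2 / μ i), div_ne_zero x.2.1 (hp i).ne',
      div_ne_zero x.2.2.1 (hp i).ne', (back _ _ x.2.1).choose_spec.2.2.1.trans x.2.2.2.1,
      (back _ _ x.2.2.1).choose_spec.2.2.1.trans x.2.2.2.2⟩) (κ := 1 / 2) (b := 4 * K * τ) (M := 2)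
    (by norm_num) (by norm_num) (fun x => (norm_sub_le _ _).trans (by
      rw [hk.norm_sl _ x.2.1, hk.norm_sl _ x.2.2.1]; norm_num)) (fun x => by
      obtain ⟨⟨z, t, t'⟩, ht, ht', h1, h1'⟩ := x
      obtain ⟨ξ, e, h2, h3, h4⟩ := back z t ht
      obtain ⟨ξ', e', h2', h3', h4'⟩ := back z t' ht'
      simp only
      set s := sl k i (μ⁻¹ * z) (t / μ i)
      set s' := sl k i (μ⁻¹ * z) (t' / μ i)
      have h5 : ‖ξ - ξ' - μ * (s - s')‖ ≤ 1 / 4 * ‖s - s'‖ + 2 * (K * τ) := by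
        have e : ξ - ξ' - μ * (s - s') = (fderiv ℝ F (k (μ⁻¹ * z)) (s - s') - μ * (s - s')) +
            ((ξ - fderiv ℝ F (k (μ⁻¹ * z)) s) - (ξ' - fderiv ℝ F (k (μ⁻¹ * z)) s')) := by
          rw [map_sub]; ring
        rw [e]
        refine (norm_add_le _ _).trans (add_le_add (hF.close _ _) ((norm_sub_le _ _).trans ?_))
        linarith [mul_le_mul_of_nonneg_left (h3.trans h1) hK,
          mul_le_mul_of_nonneg_left (h3'.trans h1') hK]
      have h6 := slope_step hp hj (by linarith) ((hk.sl_i _ (div_ne_zero ht (hp i).ne')).trans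
        (hk.sl_i _ (div_ne_zero ht' (hp i).ne')).symm) (by linarith) h2 (by linarith)
        (by rw [← e', hk.norm_sl _ ht']) h5
      rw [e, e']
      refine h6.trans ?_
      rw [div_le_iff₀ (by linarith)]
      nlinarith [norm_nonneg (s - s'), mul_nonneg hK hτ]) ⟨(z, t, t'), ht, ht', h1, h1'⟩
  exact this.trans (le_of_eq (by ring))

/-- The tangent direction of the invariant curves. -/
lemma tangent {F : V → V} {μ : V} (hp : ∀ j, 0 < μ j) (hi : 4 ≤ μ i)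
    (hj : ∀ j, j ≠ i → μ j ≤ μ i / 8) (hF : Nice F μ (1 / 4)) (h : ∀ z, F (k z) = k (μ * z)) :
    ∃ (v : V → V) (K : ℝ), 0 ≤ K ∧ Continuous v ∧ (∀ z, v z i = 1) ∧
      (∀ z j, j ≠ i → |v z j| ≤ 1 / 4) ∧
      ∀ z t, t ≠ 0 → ‖sl k i z t - v z‖ ≤ K * |dl k i z t i| := by
  obtain ⟨K, hK, hs⟩ := hk.sl_close hp hi hj hF h
  let u : ℕ → ℝ := fun n => 1 / ((n : ℝ) + 1)
  have hu : ∀ n, u n ≠ 0 := fun n => by positivity
  have hsm : ∀ ε > 0, ∀ᶠ n in atTop, ∀ z, |dl k i z (u n) i| < ε := fun ε hε => by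
    obtain ⟨δ, hδ, h⟩ := hk.small hε
    filter_upwards [(tendsto_one_div_add_atTop_nhds_zero_nat (𝕜 := ℝ)).eventually_lt_const hδ]
      with n hn z using h z _ (by rwa [abs_of_pos (by positivity)])
  have hc : ∀ z, CauchySeq fun n => sl k i z (u n) := fun z => by
    refine Metric.cauchySeq_iff.2 fun ε hε => ?_
    obtain ⟨N, hN⟩ := eventually_atTop.1 (hsm (ε / (K + 1)) (by positivity))
    refine ⟨N, fun m hm n hn => ?_⟩
    rw [dist_eq_norm]
    refine (hs z _ _ _ (hu m) (hu n) (hN m hm z).le (hN n hn z).le).trans_lt ?_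
    rw [← mul_div_assoc, div_lt_iff₀ (by positivity)]; nlinarith
  choose v hv using fun z => cauchySeq_tendsto_of_complete (hc z)
  have hb : ∀ z t, t ≠ 0 → ‖sl k i z t - v z‖ ≤ K * |dl k i z t i| := fun z t ht => by
    refine le_of_tendsto ((tendsto_const_nhds.sub (hv z)).norm) ?_
    filter_upwards [hsm _ (abs_pos.2 (hk.ne_zero z ht))] with n hn using
      hs z _ _ _ ht (hu n) le_rfl (hn z).le
  refine ⟨v, K, hK, ?_, fun z => ?_, fun z j hj => ?_, hb⟩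
  · refine TendstoUniformly.continuous (F := fun n z => sl k i z (u n)) (p := atTop) ?_
      (Eventually.frequently (Eventually.of_forall fun n => ?_))
    · refine Metric.tendstoUniformly_iff.2 fun ε hε => ?_
      filter_upwards [hsm (ε / (K + 1)) (by positivity)] with n hn z
      rw [dist_comm, dist_eq_norm]
      refine (hb z _ (hu n)).trans_lt ((mul_le_mul_of_nonneg_left (hn z).le hK).trans_lt ?_)
      rw [← mul_div_assoc, div_lt_iff₀ (by positivity)]; nlinarith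
    · have h1 : Continuous fun z => dl k i z (u n) :=
        hk.cont_dl.comp (continuous_id.prodMk continuous_const)
      exact (((continuous_apply i).comp h1).inv₀ fun z => hk.ne_zero z (hu n)).smul h1
  · have := ((continuous_apply i).tendsto _).comp (hv z)
    exact tendsto_nhds_unique this (tendsto_const_nhds.congr fun n => (hk.sl_i z (hu n)).symm)
  · exact le_of_tendsto' (((continuous_apply j).tendsto _).comp (hv z)).abs
      fun n => hk.sl_cone z (hu n) hj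

end Leafy

end Pool.Agent.P.MP_d1f122_gt
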