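import Mathlib
import Pool.Agent.P.MP_d1f122_gt.Cone

/-! The conjugacy is differentiable along the coordinate lines (normal form argument). -/

namespace Pool.Agent.P.MP_d1f122_gt

open Set Filter Topology

lemma abs_log_sub_le {a b m : ℝ} (hm : 0 < m) (ha : m ≤ a) (hb : m ≤ b) :
    |Real.log a - Real.log b| ≤ |a - b| / m := by
  have key : ∀ a b, m ≤ a → m ≤ b → Real.log a - Real.log b ≤ |a - b| / m := fun a b ha hb => by
    have hb0 := hm.trans_le hb
    rw [← Real.log_div (hm.trans_le ha).ne' hb0.ne']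
    refine (Real.log_le_sub_one_of_pos (div_pos (hm.trans_le ha) hb0)).trans ?_
    rw [div_sub_one hb0.ne']
    exact (div_le_div_of_nonneg_right (le_abs_self _) hb0.le).trans
      (div_le_div_of_nonneg_left (abs_nonneg _) hm hb)
  refine abs_le.2 ⟨?_, key a b ha hb⟩
  have := key b a hb ha
  rw [abs_sub_comm] at this; linarith

/-- A function with the twisted additivity and a scaling law is the identity. -/
lemma psi_eq {ψ : ℝ → ℝ} {L : ℝ} (hL : 1 < L) (hc : ContinuousOn ψ (Ioi 0)) (h1 : ψ 1 = 1)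
    (h0 : Tendsto ψ (𝓝[>] 0) (𝓝 0)) (hp : ∀ t, 0 < t → 0 < ψ t)
    (hadd : ∀ t s, 0 < t → 0 < s → ψ (t + s) = ψ t + ψ s * (ψ (t + 1) - ψ t))
    (hsc : ∀ t, 0 < t → ψ (L * t) = ψ L * ψ t) {t : ℝ} (ht : 0 < t) : ψ t = t := by
  have hL0 : 0 < L := by linarith
  set κ : ℝ → ℝ := fun t => ψ (t + 1) - ψ t with hκ
  have k1 : ∀ t, 0 < t → κ (L * t) = κ t := fun t ht => by
    have e1 := hadd (L * t) L (by positivity) hL0
    have e2 := hsc (t + 1) (by positivity)
    rw [mul_add, mul_one, e1, hsc t ht] at e2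
    have := hp L hL0
    apply mul_left_cancel₀ this.ne'
    simp only [hκ, hsc t ht]; linarith
  have k2 : ∀ t, 0 < t → κ t = 1 := fun t ht => by
    have e : ∀ n : ℕ, κ (L⁻¹ ^ n * t) = κ t := fun n => by
      induction n with
      | zero => simp
      | succ n ih =>
        rw [← ih, ← k1 _ (by positivity)]; congr 1; rw [pow_succ]; field_simp
    have t0 : Tendsto (fun n : ℕ => L⁻¹ ^ n * t) atTop (𝓝 0) := by
      simpa using (tendsto_pow_atTop_nhds_zero_of_lt_one (inv_pos.2 hL0).le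
        (inv_lt_one_of_one_lt₀ hL)).mul_const t
    have t1 : Tendsto (fun n : ℕ => ψ (L⁻¹ ^ n * t)) atTop (𝓝 0) := h0.comp
      (tendsto_nhdsWithin_iff.2 ⟨t0, Eventually.of_forall fun n => by
        simp only [mem_Ioi]; positivity⟩)
    have t2 : Tendsto (fun n : ℕ => ψ (L⁻¹ ^ n * t + 1)) atTop (𝓝 1) := by
      have := (hc.continuousAt (Ioi_mem_nhds one_pos)).tendsto.comp
        (by simpa only [zero_add] using t0.add_const 1)
      rwa [h1] at this
    have := t2.sub t1
    rw [sub_zero] at this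
    exact tendsto_nhds_unique (tendsto_const_nhds.congr fun n => (e n).symm) this
  have ad : ∀ t s, 0 < t → 0 < s → ψ (t + s) = ψ t + ψ s := fun t s ht hs => by
    have := k2 t ht
    simp only [hκ] at this
    rw [hadd t s ht hs, this, mul_one]
  have mul : ∀ (n : ℕ) s, 0 < s → ψ ((n + 1) * s) = (n + 1) * ψ s := fun n s hs => by
    induction n with
    | zero => simp
    | succ n ih =>
      push_cast
      rw [add_mul, one_mul, ad _ _ (by positivity) hs, ih]; ring
  have mono : ∀ a b, 0 < a → a ≤ b → ψ a ≤ ψ b := fun a b ha hab => by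
    rcases hab.eq_or_lt with rfl | h
    · rfl
    · have := ad a (b - a) ha (by linarith)
      rw [add_sub_cancel] at this
      linarith [hp (b - a) (by linarith)]
  have bd : ∀ s, 1 ≤ s → |ψ s - s| ≤ 1 := fun s hs => by
    obtain ⟨n, hn⟩ : ∃ n : ℕ, ⌊s⌋₊ = n + 1 := Nat.exists_eq_succ_of_ne_zero (Nat.floor_pos.2 hs).ne'
    have a1 : ((n : ℝ) + 1) ≤ s := by exact_mod_cast hn ▸ Nat.floor_le (by linarith : 0 ≤ s)
    have a2 : s < (n : ℝ) + 1 + 1 := by exact_mod_cast hn ▸ Nat.lt_floor_add_one s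
    have b1 := mul n 1 one_pos
    have b2 := mul (n + 1) 1 one_pos
    push_cast at b2
    rw [mul_one, h1, mul_one] at b1 b2
    have c1 := mono _ _ (by positivity) a1
    have c2 := mono _ _ (by linarith) a2.le
    rw [abs_le]; constructor <;> linarith
  by_contra hne
  have hd : 0 < |ψ t - t| := abs_pos.2 (sub_ne_zero.2 hne)
  obtain ⟨n, hn⟩ := exists_nat_gt (max (1 / t) (1 / |ψ t - t|))
  have h2 : 1 ≤ ((n : ℝ) + 1) * t := by
    have := (max_lt_iff.1 hn).1
    rw [div_lt_iff₀ ht] at this; linarith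
  have h3 := bd _ h2
  rw [mul n t ht, ← mul_sub, abs_mul, abs_of_pos (by positivity)] at h3
  have := (max_lt_iff.1 hn).2
  rw [div_lt_iff₀ hd] at this; linarith

/-- Logarithm of the ratio of two secant lengths. -/
noncomputable def bb (k : V → V) (i : Fin 4) (z : V) (t t' : ℝ) : ℝ :=
  Real.log (dl k i z t i) - Real.log (dl k i z t' i)

namespace Leafy

variable {Q : V ≃L[ℝ] V} {k : V → V} {i : Fin 4} (hk : Leafy Q k i)
include hk

lemma dist_step {v : V → V} {K1 : ℝ} (hK1 : 0 ≤ K1) (hv : ∀ z, v z i = 1) (hv1 : ∀ z, ‖v z‖ ≤ 1)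
    (hb : ∀ z t, t ≠ 0 → ‖sl k i z t - v z‖ ≤ K1 * |dl k i z t i|)
    {F : V → V} {μ : V} {η : ℝ} (hF : Nice F μ η) (hp : 0 < μ i) (hη : 2 * η ≤ μ i)
    (h : ∀ z, F (k z) = k (μ * z)) : ∃ K, 0 ≤ K ∧ ∀ z t t', 0 < t → 0 < t' →
      |bb k i (μ * z) (μ i * t) (μ i * t') - bb k i z t t'| ≤
        K * (dl k i z t i + dl k i z t' i) := by
  obtain ⟨K, hK, hs⟩ := hk.step hF h
  have h0 := hF.nonneg
  refine ⟨(K + (η + ‖μ‖) * K1) / (μ i / 2), by positivity, fun z t t' ht ht' => ?_⟩
  set J := fderiv ℝ F (k z) (v z) i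
  have hJ : μ i / 2 ≤ J := by
    have h1 := (abs_le_norm _ i).trans ((hF.close (k z) (v z)).trans
      (mul_le_of_le_one_right h0 (hv1 z)))
    simp only [Pi.sub_apply, Pi.mul_apply, hv, mul_one] at h1
    linarith [(abs_le.1 h1).1]
  have key : ∀ t, 0 < t → |Real.log (dl k i (μ * z) (μ i * t) i) - Real.log (dl k i z t i) -
      Real.log J| ≤ (K + (η + ‖μ‖) * K1) / (μ i / 2) * dl k i z t i := fun t ht => by
    obtain ⟨ξ, e, h1, h2⟩ := hs z t ht.ne'
    have hσ := hk.pos z ht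
    have hξ : μ i / 2 ≤ ξ i := by linarith [(abs_le.1 h1).1]
    rw [e, Pi.smul_apply, smul_eq_mul, Real.log_mul hσ.ne' (by linarith), add_sub_cancel_left]
    refine (abs_log_sub_le (half_pos hp) hξ hJ).trans ?_
    rw [div_mul_eq_mul_div]
    gcongr
    have h3 := hb z t ht.ne'
    rw [abs_of_pos hσ] at h2 h3
    have h4 : ‖fderiv ℝ F (k z) (sl k i z t - v z)‖ ≤ (η + ‖μ‖) * ‖sl k i z t - v z‖ := by
      have := norm_sub_norm_le (fderiv ℝ F (k z) (sl k i z t - v z)) (μ * (sl k i z t - v z))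
      linarith [hF.close (k z) (sl k i z t - v z), norm_mul_le μ (sl k i z t - v z)]
    have e2 : ξ i - J = ((ξ - fderiv ℝ F (k z) (sl k i z t)) +
        fderiv ℝ F (k z) (sl k i z t - v z)) i := by rw [map_sub]; simp [J]
    rw [e2]
    refine (abs_le_norm _ i).trans ((norm_add_le _ _).trans ?_)
    have := mul_le_mul_of_nonneg_left h3 (by positivity : 0 ≤ η + ‖μ‖)
    linarith
  have a1 := abs_le.1 (key t ht)
  have a2 := abs_le.1 (key t' ht')
  rw [abs_le, bb, bb, mul_add]
  constructor <;> linarith [a1.1, a1.2, a2.1, a2.2]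

/-- Differentiability along the `i`-th coordinate lines. -/
theorem leaf {μ : ℤ × ℤ → V} (hp : ∀ a j, 0 < μ a j) (hadd : ∀ a b, μ (a + b) = μ a * μ b)
    (hlat : ∀ a l, pq Q l = 0 → pq Q (μ a * l) = 0) {F : ℤ × ℤ → V → V}
    (hconj : ∀ a z, F a (k z) = k (μ a * z)) {η : ℝ}
    (h1 : Nice (F (1, 0)) (μ (1, 0)) η) (h1' : 2 * η ≤ μ (1, 0) i)
    (h2 : Nice (F (0, 1)) (μ (0, 1)) η) (h2' : 2 * η ≤ μ (0, 1) i)
    {c : ℤ × ℤ} (hc : Nice (F c) (μ c) (1 / 4)) (hi : 4 ≤ μ c i)
    (hj : ∀ j, j ≠ i → μ c j ≤ μ c i / 8) {j : Fin 4} {an : ℕ → ℤ × ℤ} {L0 : ℝ}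
    (han : ∀ n, 1 ≤ μ (an n) i ∧ μ (an n) i ≤ L0) (han' : Tendsto (fun n => μ (an n) j) atTop (𝓝 0))
    (hdense : ∀ φ : V → ℝ, Continuous φ → Per Q φ → (∀ z (s : ℝ), φ (z + s • ee j) = φ z) →
      ∀ z, φ z = φ 0) :
    ∃ G : V → V, Continuous G ∧ (∀ z, 0 < G z i) ∧ (∀ z l, l ≠ i → |G z l| ≤ G z i / 4) ∧
      ∀ ε > 0, ∃ δ > 0, ∀ z t, |t| < δ → ‖dl k i z t - t • G z‖ ≤ ε * |t| := by
  obtain ⟨M, hM0, hM⟩ := hk.bdd
  obtain ⟨v, K1, hK1, hvc, hv, hvj, hb⟩ := hk.tangent (hp c) hi hj hc (hconj c)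
  have hv1 : ∀ z, ‖v z‖ ≤ 1 := fun z => norm_le_of_abs fun l => by
    by_cases h : l = i
    · simp [h, hv]
    · linarith [hvj z l h]
  have h0 : μ 0 = 1 := by
    have := hadd 0 0
    rw [add_zero] at this
    ext l
    exact (mul_eq_left₀ (hp 0 l).ne').1 (congrFun this l).symm
  have hinv : ∀ a, μ (-a) = (μ a)⁻¹ := fun a => by
    have := hadd a (-a)
    rw [add_neg_cancel, h0] at this
    ext l
    exact eq_inv_of_mul_eq_one_right (congrFun this l).symm
  set ν := μ c
  set L := ν i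
  have hL : 0 < L := hp c i
  have hσT : ∀ z t, dl k i z t i ≤ t + 2 * M := fun z t => by
    have h1 := (abs_le_norm _ i).trans (dl_bound hM i z t)
    simp only [Pi.sub_apply, Pi.smul_apply, Pi.single_eq_same, smul_eq_mul, mul_one] at h1
    linarith [(abs_le.1 h1).2]
  -- backward orbits
  have b1 : ∀ (n : ℕ) (z : V), ν * (ν⁻¹ ^ (n + 1) * z) = ν⁻¹ ^ n * z := fun n z => by
    rw [pow_succ', mul_assoc, mul_inv_V (hp c)]
  have b2 : ∀ (n : ℕ) (t : ℝ), L * (L⁻¹ ^ (n + 1) * t) = L⁻¹ ^ n * t := fun n t => by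
    rw [pow_succ']; field_simp
  have hdec : ∀ (n : ℕ) z t, 0 < t →
      dl k i (ν⁻¹ ^ n * z) (L⁻¹ ^ n * t) i ≤ dl k i z t i / 2 ^ n := fun n z t ht => by
    obtain ⟨K, -, hs⟩ := hk.step hc (hconj c)
    induction n with
    | zero => simp
    | succ n ih =>
      obtain ⟨ξ, e, h3, -⟩ := hs (ν⁻¹ ^ (n + 1) * z) (L⁻¹ ^ (n + 1) * t) (by positivity)
      rw [b1, b2] at e
      rw [e, Pi.smul_apply, smul_eq_mul] at ih
      have h4 := hk.pos (ν⁻¹ ^ (n + 1) * z) (t := L⁻¹ ^ (n + 1) * t) (by positivity)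
      rw [pow_succ 2, ← div_div]
      nlinarith [(abs_le.1 h3).1]
  let bn : ℕ → V → ℝ → ℝ → ℝ := fun n z t t' =>
    bb k i (ν⁻¹ ^ n * z) (L⁻¹ ^ n * t) (L⁻¹ ^ n * t')
  obtain ⟨K, hK, hKs⟩ := hk.dist_step hK1 hv hv1 hb hc hL (by linarith) (hconj c)
  have hstep : ∀ z t t', 0 < t → 0 < t' → ∀ n, dist (bn n z t t') (bn (n + 1) z t t') ≤
      K * (dl k i z t i + dl k i z t' i) / 2 / 2 ^ n := fun z t t' ht ht' n => by
    have := hKs (ν⁻¹ ^ (n + 1) * z) (L⁻¹ ^ (n + 1) * t) (L⁻¹ ^ (n + 1) * t') (by positivity)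
      (by positivity)
    rw [b1, b2, b2] at this
    rw [Real.dist_eq]
    refine this.trans ((mul_le_mul_of_nonneg_left (add_le_add (hdec _ _ _ ht) (hdec _ _ _ ht'))
      hK).trans (le_of_eq ?_))
    rw [pow_succ]; field_simp
  let R : V → ℝ → ℝ → ℝ := fun z t t' => limUnder atTop fun n => bn n z t t'
  have hR : ∀ z t t', 0 < t → 0 < t' → Tendsto (fun n => bn n z t t') atTop (𝓝 (R z t t')) :=
    fun z t t' ht ht' => (cauchySeq_of_le_geometric_two (hstep z t t' ht ht')).tendsto_limUnder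
  have R1 : ∀ z t t' T, 0 < t → 0 < t' → t ≤ T → t' ≤ T → ∀ n,
      |bn n z t t' - R z t t'| ≤ K * (2 * T + 4 * M) / 2 ^ n := fun z t t' T ht ht' h h' n => by
    refine (dist_le_of_le_geometric_two_of_tendsto (hstep z t t' ht ht') (hR z t t' ht ht')
      n).trans (div_le_div_of_nonneg_right (mul_le_mul_of_nonneg_left ?_ hK) (by positivity))
    linarith [hσT z t, hσT z t']
  have R2 : ∀ z t t' t'', 0 < t → 0 < t' → 0 < t'' → R z t t'' = R z t t' + R z t' t'' :=
    fun z t t' t'' h h' h'' => tendsto_nhds_unique (hR z t t'' h h'')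
      (((hR z t t' h h').add (hR z t' t'' h' h'')).congr fun n => by simp [bn, bb])
  let Inv : ℤ × ℤ → Prop := fun a => ∀ z t t', 0 < t → 0 < t' →
    R (μ a * z) (μ a i * t) (μ a i * t') = R z t t'
  have geo : ∀ C : ℝ, Tendsto (fun n : ℕ => C / 2 ^ n) atTop (𝓝 0) := fun C =>
    tendsto_const_nhds.div_atTop (tendsto_pow_atTop_atTop_of_one_lt one_lt_two)
  have R3 : ∀ a η, Nice (F a) (μ a) η → 2 * η ≤ μ a i → Inv a := fun a η hF hη z t t' ht ht' => by
    obtain ⟨K', hK', hs⟩ := hk.dist_step hK1 hv hv1 hb hF (hp a i) hη (hconj a)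
    have := hp a i
    refine tendsto_nhds_unique (hR _ _ _ (by positivity) (by positivity)) ?_
    refine (hR z t t' ht ht').congr_dist (squeeze_zero (fun _ => dist_nonneg) (fun n => ?_)
      (geo (K' * (dl k i z t i + dl k i z t' i))))
    have := hs (ν⁻¹ ^ n * z) (L⁻¹ ^ n * t) (L⁻¹ ^ n * t') (by positivity) (by positivity)
    rw [dist_comm, Real.dist_eq]
    simp only [bn]
    rw [mul_left_comm _ (μ a), mul_left_comm _ (μ a i), mul_left_comm _ (μ a i)]
    refine this.trans ((mul_le_mul_of_nonneg_left (add_le_add (hdec _ _ _ ht) (hdec _ _ _ ht'))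
      hK').trans (le_of_eq (by ring)))
  have R3' : ∀ a, Inv a := by
    let S : AddSubgroup (ℤ × ℤ) :=
      { carrier := {a | Inv a}
        zero_mem' := fun z t t' _ _ => by simp [h0]
        add_mem' := fun {a b} ha hb z t t' ht ht' => by
          have := hp b i
          rw [hadd, Pi.mul_apply, mul_assoc, mul_assoc, mul_assoc, ha _ _ _ (by positivity)
            (by positivity), hb _ _ _ ht ht']
        neg_mem' := fun {a} ha z t t' ht ht' => by
          have := hp a i
          have h3 := hp (-a) i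
          rw [← ha _ _ _ (by positivity) (by positivity), hinv, mul_inv_V (hp a), Pi.inv_apply,
            mul_inv_cancel_left₀ this.ne', mul_inv_cancel_left₀ this.ne'] }
    intro a
    have : a = a.1 • ((1, 0) : ℤ × ℤ) + a.2 • ((0, 1) : ℤ × ℤ) := by ext <;> simp
    rw [this]
    exact S.add_mem (S.zsmul_mem (R3 _ _ h1 h1') _) (S.zsmul_mem (R3 _ _ h2 h2') _)
  have R4 : ∀ T, ContinuousOn (fun x : V × ℝ × ℝ => R x.1 x.2.1 x.2.2)
      (univ ×ˢ Ioc 0 T ×ˢ Ioc 0 T) := fun T => by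
    refine TendstoUniformlyOn.continuousOn (F := fun n x => bn n x.1 x.2.1 x.2.2) (p := atTop) ?_
      (Eventually.frequently (Eventually.of_forall fun n => ?_))
    · refine Metric.tendstoUniformlyOn_iff.2 fun ε hε => ?_
      filter_upwards [(geo (K * (2 * T + 4 * M))).eventually_lt_const hε] with n hn x hx
      rw [dist_comm, Real.dist_eq]
      exact (R1 _ _ _ T hx.2.1.1 hx.2.2.1 hx.2.1.2 hx.2.2.2 n).trans_lt hn
    · have hd : Continuous fun x : V × ℝ => dl k i (ν⁻¹ ^ n * x.1) (L⁻¹ ^ n * x.2) i :=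
        (continuous_apply i).comp (hk.cont_dl.comp
          (by fun_prop : Continuous fun x : V × ℝ => (ν⁻¹ ^ n * x.1, L⁻¹ ^ n * x.2)))
      refine ContinuousOn.sub (ContinuousOn.log (hd.comp
        (by fun_prop : Continuous fun x : V × ℝ × ℝ => (x.1, x.2.1))).continuousOn fun x hx => ?_)
        (ContinuousOn.log (hd.comp
        (by fun_prop : Continuous fun x : V × ℝ × ℝ => (x.1, x.2.2))).continuousOn fun x hx => ?_)
      · have := hx.2.1.1
        exact (hk.pos _ (by positivity)).ne'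
      · have := hx.2.2.1
        exact (hk.pos _ (by positivity)).ne'
  have R5 : ∀ t t', Per Q fun z => R z t t' := fun t t' l hl z => by
    have : ∀ n : ℕ, pq Q (ν⁻¹ ^ n * l) = 0 := fun n => by
      induction n with
      | zero => simpa using hl
      | succ n ih =>
        have := hlat (-c) _ ih
        rwa [hinv, ← mul_assoc, ← pow_succ'] at this
    simp only [R, bn, bb, mul_add, hk.per_dl (this _)]
  -- independence of the base point
  have R6 : ∀ z t, 0 < t → R z t 1 = R 0 t 1 := fun z t ht => by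
    have hL0 : 1 ≤ L0 := (han 0).1.trans (han 0).2
    refine hdense (fun z => R z t 1) ?_ (R5 t 1) (fun z s => ?_) z
    · exact (R4 (max t 1)).comp_continuous (f := fun z : V => (z, t, (1 : ℝ))) (by fun_prop)
        fun z => ⟨mem_univ _, ⟨ht, le_max_left _ _⟩, one_pos, le_max_right _ _⟩
    · refine eq_of_forall_dist_le fun ε hε => ?_
      obtain ⟨δ, hδ, hu⟩ := per_unif (Q := Q) (g := fun z (p : ℝ × ℝ) => R z p.1 p.2)
        (K := Icc t (L0 * t) ×ˢ Icc 1 L0) (isCompact_Icc.prod isCompact_Icc)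
        ((R4 (max (L0 * t) L0)).mono (prod_mono subset_rfl (prod_mono
          (fun x hx => ⟨ht.trans_le hx.1, hx.2.trans (le_max_left _ _)⟩)
          (fun x hx => ⟨one_pos.trans_le hx.1, hx.2.trans (le_max_right _ _)⟩))))
        (fun p _ => R5 p.1 p.2) hε
      have : Tendsto (fun n => |μ (an n) j * s|) atTop (𝓝 0) := by
        simpa using (han'.mul_const s).abs
      obtain ⟨n, hn⟩ := (this.eventually_lt_const hδ).exists
      rw [← R3' (an n) _ _ _ ht one_pos, ← R3' (an n) z _ _ ht one_pos, mul_ee]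
      refine (hu _ _ (_, _) ⟨⟨?_, ?_⟩, ?_, ?_⟩ (by rwa [norm_smul_ee])).le
      · exact le_mul_of_one_le_left ht.le (han n).1
      · exact mul_le_mul_of_nonneg_right (han n).2 ht.le
      · simpa using (han n).1
      · simpa using (han n).2
  have hexp : ∀ z t, 0 < t → Tendsto (fun n : ℕ => dl k i (ν⁻¹ ^ n * z) (L⁻¹ ^ n * t) i /
      dl k i (ν⁻¹ ^ n * z) (L⁻¹ ^ n * 1) i) atTop (𝓝 (Real.exp (R 0 t 1))) := fun z t ht => by
    rw [← R6 z t ht]
    refine ((Real.continuous_exp.tendsto _).comp (hR z t 1 ht one_pos)).congr fun n => ?_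
    simp only [Function.comp, bn, bb]
    rw [Real.exp_sub, Real.exp_log (hk.pos _ (by positivity)),
      Real.exp_log (hk.pos _ (by positivity))]
  have hψ : ∀ t, 0 < t → Real.exp (R 0 t 1) = t := by
    intro t ht
    refine psi_eq (ψ := fun t => Real.exp (R 0 t 1)) (L := L) (by linarith) ?_ ?_ ?_
      (fun t _ => Real.exp_pos _) (fun t s ht hs => ?_) (fun t ht => ?_) ht
    · intro t ht
      have h3 : ContinuousOn (fun s => R 0 s 1) (Ioc 0 (max (t + 1) 1)) :=
        (R4 (max (t + 1) 1)).comp (f := fun s : ℝ => ((0 : V), s, (1 : ℝ))) (by fun_prop)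
          fun s hs => ⟨mem_univ _, hs, one_pos, le_max_right _ _⟩
      exact ((h3.continuousAt (Ioc_mem_nhds ht
        (lt_max_of_lt_left (lt_add_one t)))).rexp).continuousWithinAt
    · have := R2 0 1 1 1 one_pos one_pos one_pos
      simp only [Real.exp_eq_one_iff]; linarith
    · have t1 : Tendsto (fun t => dl k i 0 t i) (𝓝[>] 0) (𝓝 0) := by
        have hc : Continuous fun s => dl k i 0 s i :=
          (continuous_apply i).comp (hk.cont_dl.comp (continuous_const.prodMk continuous_id))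
        simpa [dl] using (hc.tendsto 0).mono_left nhdsWithin_le_nhds
      have t2 := t1.mul_const (Real.exp (K * (2 * 1 + 4 * M) / 2 ^ 0 - Real.log (dl k i 0 1 i)))
      rw [zero_mul] at t2
      refine squeeze_zero' (Eventually.of_forall fun t => (Real.exp_pos _).le) ?_ t2
      filter_upwards [Ioc_mem_nhdsGT one_pos] with t ht
      have := (abs_le.1 (R1 0 t 1 1 ht.1 one_pos ht.2 le_rfl 0)).1
      simp only [bn, bb, pow_zero, one_mul] at this
      rw [← Real.exp_log (hk.pos 0 ht.1), ← Real.exp_add, Real.exp_le_exp]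
      simp only [pow_zero]; linarith
    · refine tendsto_nhds_unique (hexp 0 (t + s) (by positivity)) (((hexp 0 t ht).add
        ((hexp (0 + t • ee i) s hs).mul ((hexp 0 (t + 1) (by positivity)).sub
          (hexp 0 t ht)))).congr fun n => ?_)
      have e : ∀ s, dl k i (ν⁻¹ ^ n * (0 + t • ee i)) (L⁻¹ ^ n * s) i =
          dl k i (ν⁻¹ ^ n * 0) (L⁻¹ ^ n * (t + s)) i - dl k i (ν⁻¹ ^ n * 0) (L⁻¹ ^ n * t) i := by
        intro s
        rw [mul_ee]
        simp [dl, L, mul_add, add_smul]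
      have p1 := hk.pos (ν⁻¹ ^ n * (0 + t • ee i)) (t := L⁻¹ ^ n * 1) (by positivity)
      have p2 := hk.pos (ν⁻¹ ^ n * 0) (t := L⁻¹ ^ n * 1) (by positivity)
      rw [← sub_div, ← e 1, e s, div_mul_div_cancel₀ p1.ne']
      ring
    · have e := R3' c 0 t 1 ht one_pos
      rw [mul_zero, mul_one] at e
      rw [← Real.exp_add, R2 0 (L * t) L 1 (by positivity) hL one_pos, e, add_comm]
  let ρ : V → ℝ → ℝ := fun y τ => Real.log (dl k i y τ i) - Real.log τ
  set C := K * (2 * L + 4 * M)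
  have hρ : ∀ (n : ℕ) y t, 0 < t → t ≤ L → |ρ y (L⁻¹ ^ n * t) - ρ y (L⁻¹ ^ n * 1)| ≤ C / 2 ^ n := by
    intro n y t ht htL
    have := R1 (ν ^ n * y) t 1 L ht one_pos htL (by linarith) n
    have e : ν⁻¹ ^ n * (ν ^ n * y) = y := by
      rw [inv_pow]; exact inv_mul_V (fun l => by simpa using pow_pos (hp c l) n) y
    rw [R6 _ _ ht, ← Real.log_exp (R 0 t 1), hψ t ht] at this
    simp only [bn, bb, e] at this
    simp only [ρ]
    rw [Real.log_mul (by positivity) ht.ne', Real.log_mul (by positivity) one_ne_zero]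
    convert this using 2
    simp only [Real.log_one]; ring
  have hγs : ∀ y n, dist (ρ y (L⁻¹ ^ n * 1)) (ρ y (L⁻¹ ^ (n + 1) * 1)) ≤ 2 * C / 2 / 2 ^ n := by
    intro y n
    have := hρ n y L⁻¹ (by positivity) ((inv_le_one_of_one_le₀ (by linarith)).trans (by linarith))
    rw [dist_comm, Real.dist_eq, pow_succ, mul_one (_ * _)]
    exact this.trans (le_of_eq (by ring))
  choose γ hγ using fun y => cauchySeq_tendsto_of_complete (cauchySeq_of_le_geometric_two (hγs y))
  have hγ1 : ∀ y n, |ρ y (L⁻¹ ^ n * 1) - γ y| ≤ 2 * C / 2 ^ n := fun y n =>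
    dist_le_of_le_geometric_two_of_tendsto (hγs y) (hγ y) n
  have hγ2 : ∀ (n : ℕ) y τ, 0 < τ → τ ≤ L⁻¹ ^ n → |ρ y τ - γ y| ≤ 3 * C / 2 ^ n := by
    intro n y τ hτ h
    have h3 := hρ n y (τ / L⁻¹ ^ n) (by positivity)
      (((div_le_one (by positivity)).2 h).trans (by linarith))
    rw [mul_div_cancel₀ _ (by positivity)] at h3
    refine (abs_sub_le _ _ _).trans ((add_le_add h3 (hγ1 y n)).trans (le_of_eq (by ring)))
  have hγc : Continuous γ := by
    refine TendstoUniformly.continuous (F := fun n y => ρ y (L⁻¹ ^ n * 1)) (p := atTop) ?_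
      (Eventually.frequently (Eventually.of_forall fun n => ?_))
    · refine Metric.tendstoUniformly_iff.2 fun ε hε => ?_
      filter_upwards [(geo (2 * C)).eventually_lt_const hε] with n hn y
      rw [dist_comm, Real.dist_eq]; exact (hγ1 y n).trans_lt hn
    · exact (((continuous_apply i).comp (hk.cont_dl.comp (continuous_id.prodMk
        continuous_const))).log fun y => (hk.pos y (by positivity)).ne').sub continuous_const
  have hg : ∀ y, Real.exp (γ y) ≤ Real.exp (2 * M + 2 * C) := fun y => by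
    have h3 := (abs_le.1 (hγ1 y 0)).1
    have h4 := Real.log_le_sub_one_of_pos (hk.pos y one_pos)
    simp only [ρ, pow_zero, mul_one, Real.log_one, div_one] at h3
    exact Real.exp_le_exp.2 (by linarith [hσT y 1])
  set B := Real.exp (2 * M + 2 * C)
  have hB : 0 < B := Real.exp_pos _
  have right : ∀ ε > 0, ∃ δ > 0, ∀ z t, 0 < t → t < δ →
      ‖dl k i z t - t • (Real.exp (γ z) • v z)‖ ≤ ε * t := fun ε hε => by
    obtain ⟨n, hn⟩ := ((geo (3 * C)).eventually_lt_const
      (lt_min one_pos (show 0 < ε / (4 * B) by positivity))).exists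
    refine ⟨min (L⁻¹ ^ n) (ε / (2 * (K1 + 1) * (3 * B) ^ 2)), by positivity, fun z t ht h => ?_⟩
    have h3 := (hγ2 n z t ht (lt_min_iff.1 h).1.le).trans hn.le
    have hσ := hk.pos z ht
    have e1 : dl k i z t i - t * Real.exp (γ z) =
        t * Real.exp (γ z) * (Real.exp (ρ z t - γ z) - 1) := by
      simp only [ρ]
      rw [Real.exp_sub, Real.exp_sub, Real.exp_log hσ, Real.exp_log ht]; field_simp
    have h4 : |dl k i z t i - t * Real.exp (γ z)| ≤ t * B * (2 * min 1 (ε / (4 * B))) := by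
      rw [e1, abs_mul, abs_of_pos (by positivity)]
      gcongr
      · exact hg z
      · exact (Real.abs_exp_sub_one_le (h3.trans (min_le_left _ _))).trans (by linarith)
    have h5 : dl k i z t i ≤ 3 * B * t := by
      have := mul_le_mul_of_nonneg_left (min_le_left 1 (ε / (4 * B))) (by positivity : 0 ≤ t * B)
      nlinarith [(abs_le.1 h4).2, mul_le_mul_of_nonneg_left (hg z) ht.le]
    have h6 : t * B * (2 * min 1 (ε / (4 * B))) ≤ ε / 2 * t :=
      (mul_le_mul_of_nonneg_left (mul_le_mul_of_nonneg_left (min_le_right _ _) two_pos.le)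
        (by positivity)).trans (le_of_eq (by field_simp; ring))
    have e2 : dl k i z t - t • (Real.exp (γ z) • v z) = dl k i z t i • (sl k i z t - v z) +
        (dl k i z t i - t * Real.exp (γ z)) • v z := by
      rw [smul_sub, hk.smul_sl z ht.ne', sub_smul, smul_smul]; abel
    rw [e2]
    refine (norm_add_le _ _).trans ?_
    rw [norm_smul, norm_smul, Real.norm_eq_abs, Real.norm_eq_abs]
    have h7 := hb z t ht.ne'
    rw [abs_of_pos hσ] at h7 ⊢
    have h8 := (lt_min_iff.1 h).2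
    rw [lt_div_iff₀ (by positivity)] at h8
    have h9 : dl k i z t i * ‖sl k i z t - v z‖ ≤ 3 * B * t * (K1 * (3 * B * t)) := by
      gcongr; exact h7.trans (by gcongr)
    have h10 := mul_le_of_le_one_right (abs_nonneg (dl k i z t i - t * Real.exp (γ z))) (hv1 z)
    nlinarith [mul_pos ht (by positivity : 0 < (3 * B) ^ 2 * t)]
  have hGc : Continuous fun z => Real.exp (γ z) • v z := hγc.rexp.smul hvc
  have hGp : Per Q fun z => Real.exp (γ z) • v z := fun l hl z => by
    refine eq_of_forall_dist_le fun ε hε => ?_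
    obtain ⟨δ, hδ, h⟩ := right (ε / 2) (half_pos hε)
    have h3 := h z (δ / 2) (half_pos hδ) (half_lt_self hδ)
    have h4 := h (z + l) (δ / 2) (half_pos hδ) (half_lt_self hδ)
    rw [hk.per_dl hl] at h4
    have h5 := (norm_sub_le _ _).trans (add_le_add h3 h4)
    rw [sub_sub_sub_cancel_left, ← smul_sub, norm_smul, Real.norm_eq_abs,
      abs_of_pos (half_pos hδ)] at h5
    rw [dist_eq_norm]
    nlinarith
  refine ⟨fun z => Real.exp (γ z) • v z, hGc, fun z => by simpa [hv] using Real.exp_pos _,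
    fun z l hl => ?_, fun ε hε => ?_⟩
  · simp only [Pi.smul_apply, smul_eq_mul, hv, mul_one, abs_mul, abs_of_pos (Real.exp_pos _)]
    nlinarith [hvj z l hl, Real.exp_pos (γ z)]
  · obtain ⟨δ, hδ, h⟩ := right (ε / 2) (half_pos hε)
    obtain ⟨δ', hδ', h'⟩ := hGp.unif hGc (half_pos hε)
    refine ⟨min δ δ', lt_min hδ hδ', fun z t ht => ?_⟩
    rcases lt_trichotomy t 0 with h3 | rfl | h3
    · have h4 := h (z + t • ee i) (-t) (by linarith) ((neg_le_abs t).trans_lt (lt_min_iff.1 ht).1)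
      have h5 := h' z (t • ee i) (by rw [norm_smul_ee]; exact (lt_min_iff.1 ht).2)
      rw [dist_eq_norm] at h5
      have e : dl k i z t - t • (Real.exp (γ z) • v z) =
          -(dl k i (z + t • ee i) (-t) - (-t) • (Real.exp (γ (z + t • ee i)) • v (z + t • ee i))) +
          t • (Real.exp (γ (z + t • ee i)) • v (z + t • ee i) - Real.exp (γ z) • v z) := by
        simp only [dl, neg_smul, add_neg_cancel_right, smul_sub]; abel
      rw [e]
      refine (norm_add_le _ _).trans ?_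
      rw [norm_neg, norm_smul, Real.norm_eq_abs, abs_of_neg h3]
      nlinarith
    · simp [dl]
    · rw [abs_of_pos h3]
      exact (h z t h3 ((le_abs_self t).trans_lt (lt_min_iff.1 ht).1)).trans (by nlinarith)

end Leafy

end Pool.Agent.P.MP_d1f122_gt
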