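import Mathlib
import Pool.Agent.P.MP_d1f122_gt.Leaf

/-! The conjugacy is `C^{1,1/2}`. -/

namespace Pool.Agent.P.MP_d1f122_gt

open Set Filter Topology

lemma norm_partial_le (h : V) (s : Finset (Fin 4)) : ‖∑ i ∈ s, h i • ee i‖ ≤ ‖h‖ :=
  norm_le_of_abs fun j => by
    simp only [Finset.sum_apply, Pi.smul_apply, smul_eq_mul, Pi.single_apply, mul_ite, mul_one,
      mul_zero, Finset.sum_ite_eq]
    split_ifs
    · exact abs_le_norm h j
    · simp

lemma sum_ee (h : V) : ∑ i, h i • ee i = h := by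
  ext j; simp [Finset.sum_apply, Pi.single_apply]

lemma telescope {E : Type*} [SeminormedAddCommGroup E] (f : V → E) (g : Fin 4 → E) (z h : V)
    {b : ℝ} (hb : ∀ i y, ‖y - z‖ ≤ ‖h‖ → ‖f (y + h i • ee i) - f y - g i‖ ≤ b) :
    ‖f (z + h) - f z - ∑ i, g i‖ ≤ 4 * b := by
  have : ∀ s : Finset (Fin 4), ‖f (z + ∑ i ∈ s, h i • ee i) - f z - ∑ i ∈ s, g i‖ ≤ s.card * b := by
    intro s
    induction s using Finset.induction_on with
    | empty => simp
    | insert a s ha ih =>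
      have h1 := hb a (z + ∑ i ∈ s, h i • ee i) (by simpa using norm_partial_le h s)
      rw [Finset.sum_insert ha, Finset.sum_insert ha, Finset.card_insert_of_notMem ha,
        add_comm (h a • ee a), ← add_assoc]
      have := (norm_add_le _ _).trans (add_le_add h1 ih)
      push_cast
      exact le_trans (le_of_eq (by congr 1; abel)) (this.trans (le_of_eq (by ring)))
  simpa [sum_ee] using this Finset.univ

/-- The linear map with prescribed columns. -/
noncomputable def cols (G : Fin 4 → V) : V →L[ℝ] V :=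
  ∑ i, (ContinuousLinearMap.proj i : V →L[ℝ] ℝ).smulRight (G i)

lemma cols_apply (G : Fin 4 → V) (h : V) : cols G h = ∑ i, h i • G i := by simp [cols]

lemma cols_ee (G : Fin 4 → V) (i : Fin 4) : cols G (ee i) = G i := by
  simp [cols_apply, Pi.single_apply]

lemma hasFDerivAt_cols {k : V → V} {G : Fin 4 → V → V} (hG : ∀ i, Continuous (G i))
    (h : ∀ i, ∀ ε > 0, ∃ δ > 0, ∀ z t, |t| < δ → ‖dl k i z t - t • G i z‖ ≤ ε * |t|) (z : V) :
    HasFDerivAt k (cols fun i => G i z) z := by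
  rw [hasFDerivAt_iff_isLittleO_nhds_zero, Asymptotics.isLittleO_iff]
  intro ε hε
  choose δ hδ hk using fun i => h i (ε / 8) (by positivity)
  choose δ' hδ' hc using fun i => Metric.continuous_iff.1 (hG i) z (ε / 8) (by positivity)
  have : ∀ᶠ d in 𝓝 (0 : V), ∀ i, ‖d‖ < δ i ∧ ‖d‖ < δ' i := eventually_all.2 fun i =>
    (continuous_norm.continuousAt.eventually_lt continuousAt_const (by simpa using hδ i)).and
      (continuous_norm.continuousAt.eventually_lt continuousAt_const (by simpa using hδ' i))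
  filter_upwards [this] with d hd
  rw [cols_apply]
  refine (telescope k (fun i => d i • G i z) z d (b := ε / 4 * ‖d‖) fun i y hy => ?_).trans
    (le_of_eq (by ring))
  have h1 := hk i y (d i) ((abs_le_norm d i).trans_lt (hd i).1)
  have h2 := hc i y (by rw [dist_eq_norm]; exact hy.trans_lt (hd i).2)
  rw [dist_eq_norm] at h2
  have e : k (y + d i • ee i) - k y - d i • G i z =
      (dl k i y (d i) - d i • G i y) + d i • (G i y - G i z) := by rw [dl, smul_sub]; abel
  rw [e]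
  refine (norm_add_le _ _).trans ?_
  rw [norm_smul, Real.norm_eq_abs]
  nlinarith [abs_le_norm d i, abs_nonneg (d i), norm_nonneg (G i y - G i z)]

lemma cols_lower {G : Fin 4 → V} {c : ℝ} (hc : 0 ≤ c) (h1 : ∀ i, c ≤ G i i)
    (h2 : ∀ i l, l ≠ i → |G i l| ≤ G i i / 4) (h : V) : c / 4 * ‖h‖ ≤ ‖cols G h‖ := by
  obtain ⟨l, hl⟩ := Finite.exists_max fun i => |h i| * G i i
  have h3 : ∀ i, c * |h i| ≤ |h l| * G l l := fun i =>
    le_trans (by nlinarith [h1 i, abs_nonneg (h i)]) (hl i)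
  obtain ⟨m, hm⟩ := exists_abs_eq_norm h
  have h4 : |∑ i ∈ Finset.univ.erase l, h i * G i l| ≤ 3 * (|h l| * G l l / 4) := by
    refine (Finset.abs_sum_le_sum_abs _ _).trans
      ((Finset.sum_le_card_nsmul _ _ (|h l| * G l l / 4) fun i hi => ?_).trans (by simp))
    rw [abs_mul]
    nlinarith [h2 i l (Finset.ne_of_mem_erase hi).symm, hl i, abs_nonneg (h i)]
  have e : cols G h l = h l * G l l + ∑ i ∈ Finset.univ.erase l, h i * G i l := by
    rw [cols_apply, Finset.sum_apply, ← Finset.add_sum_erase _ _ (Finset.mem_univ l)]; rfl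
  have h5 := abs_le_norm (cols G h) l
  have h6 := abs_add_le (h l * G l l + ∑ i ∈ Finset.univ.erase l, h i * G i l)
    (-∑ i ∈ Finset.univ.erase l, h i * G i l)
  rw [add_neg_cancel_right, abs_neg, abs_mul, abs_of_nonneg (hc.trans (h1 l)), ← e] at h6
  have h7 := h3 m
  rw [hm] at h7
  linarith

/-- Hölder continuity with exponent `1/2`. -/
def Hol {E : Type*} [SeminormedAddCommGroup E] (f : V → E) : Prop :=
  ∃ C, 0 ≤ C ∧ ∀ x y, ‖f x - f y‖ ≤ C * √‖x - y‖

lemma hol_of_local {E : Type*} [SeminormedAddCommGroup E] {f : V → E} {M C : ℝ} (hC : 0 ≤ C)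
    (hM : ∀ x, ‖f x‖ ≤ M) (h : ∀ x y, ‖x - y‖ ≤ 1 → ‖f x - f y‖ ≤ C * √‖x - y‖) : Hol f := by
  have hM0 : 0 ≤ M := (norm_nonneg _).trans (hM 0)
  refine ⟨C + 2 * M, by positivity, fun x y => ?_⟩
  rcases le_total ‖x - y‖ 1 with h1 | h1
  · exact (h x y h1).trans (by gcongr; linarith)
  · have := Real.one_le_sqrt.2 h1
    nlinarith [norm_sub_le (f x) (f y), hM x, hM y]

lemma le_sqrt_of_le_one {x : ℝ} (h0 : 0 ≤ x) (h : x ≤ 1) : x ≤ √x :=
  Real.le_sqrt_of_sq_le (by nlinarith)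

lemma hol_boot {φ : V → V} {ν : V} {s κ K : ℝ} (hp : ∀ j, 0 < ν j) (hs : 1 < s)
    (hL : ∀ j, (ν j)⁻¹ ≤ s ^ 2) (hκ0 : 0 ≤ κ) (hκ : κ * s ≤ 1 / 2) (hK : 0 ≤ K)
    (h1 : ∀ z, ‖φ z‖ ≤ 1)
    (h : ∀ z z', ‖φ (ν * z) - φ (ν * z')‖ ≤ κ * ‖φ z - φ z'‖ + K * ‖z - z'‖) : Hol φ := by
  set C := 2 + 2 * K * s ^ 2
  have key : ∀ n : ℕ, ∀ r, (s⁻¹) ^ n ≤ r → ∀ z z', ‖z - z'‖ ≤ r ^ 2 → ‖φ z - φ z'‖ ≤ C * r := by
    have big : ∀ r, 1 ≤ r → ∀ z z', ‖φ z - φ z'‖ ≤ C * r := fun r hr z z' => by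
      have : 2 ≤ C := le_add_of_nonneg_right (by positivity)
      nlinarith [norm_sub_le (φ z) (φ z'), h1 z, h1 z']
    intro n
    induction n with
    | zero => exact fun r hr z z' _ => big r (by simpa using hr) z z'
    | succ n ih =>
      intro r hr z z' hz
      have hr0 : 0 ≤ r := le_trans (by positivity) hr
      rcases le_total 1 r with h2 | h2
      · exact big r h2 z z'
      have h3 : ‖ν⁻¹ * z - ν⁻¹ * z'‖ ≤ (s * r) ^ 2 := by
        rw [← mul_sub, mul_pow]
        refine (norm_mul_le _ _).trans (mul_le_mul (norm_le_of_abs fun j => ?_) hz (norm_nonneg _)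
          (by positivity))
        rw [Pi.inv_apply, abs_of_pos (inv_pos.2 (hp j))]; exact hL j
      have h4 := ih (s * r) (by
        rw [pow_succ', inv_mul_le_iff₀ (by linarith)] at hr; exact hr) _ _ h3
      have h5 := h (ν⁻¹ * z) (ν⁻¹ * z')
      rw [mul_inv_V hp, mul_inv_V hp] at h5
      have h6 : κ * ‖φ (ν⁻¹ * z) - φ (ν⁻¹ * z')‖ ≤ C * r / 2 :=
        (mul_le_mul_of_nonneg_left h4 hκ0).trans (by
          nlinarith [mul_le_mul_of_nonneg_right hκ (by positivity : 0 ≤ C * r)])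
      have h7 : K * ‖ν⁻¹ * z - ν⁻¹ * z'‖ ≤ K * s ^ 2 * r :=
        (mul_le_mul_of_nonneg_left h3 hK).trans (by
          nlinarith [mul_le_mul_of_nonneg_left h2 (by positivity : 0 ≤ K * s ^ 2 * r)])
      simp only [C] at h6 ⊢
      nlinarith
  refine ⟨C, by positivity, fun z z' => ?_⟩
  rcases eq_or_ne z z' with rfl | hne
  · simp
  obtain ⟨n, hn⟩ := exists_pow_lt_of_lt_one (Real.sqrt_pos.2 (norm_pos_iff.2 (sub_ne_zero.2 hne)))
    (inv_lt_one_of_one_lt₀ hs)
  exact key n _ hn.le z z' (Real.sq_sqrt (norm_nonneg _)).ge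

lemma hol_coh {Q : V ≃L[ℝ] V} {ψ φ : V → ℝ} {B : V} (hψ : Per Q ψ) (hc : Continuous ψ)
    (hφ : Hol φ) (h : ∀ z, ψ (B * z) - ψ z = φ z) {j : Fin 4} (h0 : 0 < B j) (h1 : B j ≤ 1 / 4) :
    ∃ C, 0 ≤ C ∧ ∀ z (s : ℝ), |ψ (z + s • ee j) - ψ z| ≤ C * √|s| := by
  obtain ⟨C, hC, hφ⟩ := hφ
  refine ⟨2 * C, by positivity, fun z s => le_of_forall_pos_le_add fun ε hε => ?_⟩
  obtain ⟨δ, hδ, hu⟩ := hψ.unif hc hε
  have key : ∀ n : ℕ, ∀ z (s : ℝ), |s| < 4 ^ n * δ →
      |ψ (z + s • ee j) - ψ z| ≤ 2 * C * √|s| + ε := by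
    intro n
    induction n with
    | zero =>
      intro z s hs
      exact (hu z _ (by rw [norm_smul_ee]; simpa using hs)).le.trans
        (le_add_of_nonneg_left (by positivity))
    | succ n ih =>
      intro z s hs
      have h2 : |B j * s| ≤ |s| / 4 := by
        rw [abs_mul, abs_of_pos h0]; nlinarith [abs_nonneg s]
      have h3 := ih (B * z) (B j * s) (by rw [pow_succ] at hs; linarith)
      have h4 : √|B j * s| ≤ √|s| / 2 := by
        refine Real.sqrt_le_iff.2 ⟨by positivity, ?_⟩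
        rw [div_pow, Real.sq_sqrt (abs_nonneg _)]; linarith
      have h5 := hφ (z + s • ee j) z
      rw [add_sub_cancel_left, norm_smul_ee, Real.norm_eq_abs, ← h, ← h, mul_ee] at h5
      have h6 := mul_le_mul_of_nonneg_left h4 (by positivity : 0 ≤ 2 * C)
      rw [abs_le] at h3 h5 ⊢
      constructor <;> linarith [h3.1, h3.2, h5.1, h5.2]
  obtain ⟨n, hn⟩ := pow_unbounded_of_one_lt (|s| / δ) (by norm_num : (1 : ℝ) < 4)
  exact key n z s (by rwa [div_lt_iff₀ hδ] at hn)

lemma hol_of_dir {ψ : V → ℝ}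
    (h : ∀ j, ∃ C, 0 ≤ C ∧ ∀ z (s : ℝ), |ψ (z + s • ee j) - ψ z| ≤ C * √|s|) : Hol ψ := by
  choose C hC h using h
  refine ⟨4 * ∑ j, C j, by have := Finset.sum_nonneg fun j (_ : j ∈ Finset.univ) => hC j; positivity,
    fun x y => ?_⟩
  have := telescope ψ (fun _ => 0) y (x - y) (b := (∑ j, C j) * √‖x - y‖) fun i z _ => by
    rw [sub_zero, Real.norm_eq_abs]
    exact (h i z _).trans (mul_le_mul (Finset.single_le_sum (fun j _ => hC j) (Finset.mem_univ i))
      (Real.sqrt_le_sqrt (abs_le_norm _ i)) (Real.sqrt_nonneg _)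
      (Finset.sum_nonneg fun j _ => hC j))
  simpa [mul_assoc] using this

/-- Hölder continuity of the derivative of `k` along one direction. -/
lemma hol_col {Q : V ≃L[ℝ] V} {k G : V → V} {i : Fin 4} {Lk : ℝ} (hLk : 0 ≤ Lk)
    (hk : ∀ x y, ‖k x - k y‖ ≤ Lk * ‖x - y‖) (hG : Continuous G) (hGp : Per Q G)
    (h1 : ∀ z, 0 < G z i) (h2 : ∀ z l, l ≠ i → |G z l| ≤ G z i / 4)
    {Fc : V → V} {ν : V} {s : ℝ} (hp : ∀ j, 0 < ν j) (hs : 8 ≤ s) (hsi : s ^ 2 = ν i)
    (hL : ∀ j, (ν j)⁻¹ ≤ ν i) (hj : ∀ j, j ≠ i → ν j ≤ s / 8) (hc : Nice Fc ν (1 / 4))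
    (ec : ∀ z, fderiv ℝ Fc (k z) (G z) = ν i • G (ν * z))
    (hB : ∀ j, ∃ (F : V → V) (B : V) (η : ℝ), Nice F B η ∧ 0 < B i ∧ 2 * η ≤ B i ∧ 0 < B j ∧
      B j ≤ 1 / 4 ∧ ∀ z, fderiv ℝ F (k z) (G z) = B i • G (B * z)) : Hol G := by
  let v : V → V := fun z => (G z i)⁻¹ • G z
  have hvi : ∀ z, v z i = 1 := fun z => by simp [v, (h1 z).ne']
  have hv1 : ∀ z, ‖v z‖ ≤ 1 := fun z => norm_le_of_abs fun l => by
    by_cases h : l = i
    · rw [h, hvi, abs_one]
    · simp only [v, Pi.smul_apply, smul_eq_mul, abs_mul, abs_inv, abs_of_pos (h1 z)]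
      rw [inv_mul_le_iff₀ (h1 z)]; linarith [h2 z l h, h1 z]
  have hJ : ∀ {F : V → V} {B : V}, (∀ z, fderiv ℝ F (k z) (G z) = B i • G (B * z)) → ∀ z,
      fderiv ℝ F (k z) (v z) = (B i * G (B * z) i / G z i) • v (B * z) := fun e z => by
    have := h1 z
    simp only [v]
    rw [map_smul, e, smul_smul, smul_smul, div_mul_eq_mul_div, mul_inv_cancel_right₀ (h1 _).ne',
      div_eq_inv_mul]
  have hJl : ∀ {F : V → V} {B : V} {η : ℝ}, Nice F B η → ∀ z,
      B i - η ≤ fderiv ℝ F (k z) (v z) i := fun hF z => by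
    have h3 := (abs_le_norm _ i).trans ((hF.close (k z) (v z)).trans
      (mul_le_of_le_one_right hF.nonneg (hv1 z)))
    simp only [Pi.sub_apply, Pi.mul_apply, hvi, mul_one] at h3
    linarith [(abs_le.1 h3).1]
  have hD : ∀ {F : V → V} {B : V} {η K : ℝ}, Nice F B η → 0 ≤ K →
      (∀ p q, ‖fderiv ℝ F p - fderiv ℝ F q‖ ≤ K * ‖p - q‖) → ∀ z z',
      ‖fderiv ℝ F (k z) (v z) - fderiv ℝ F (k z') (v z') - B * (v z - v z')‖ ≤
        η * ‖v z - v z'‖ + K * Lk * ‖z - z'‖ := fun {F B η K} hF hK hl z z' => by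
    have e : fderiv ℝ F (k z) (v z) - fderiv ℝ F (k z') (v z') - B * (v z - v z') =
        (fderiv ℝ F (k z) (v z - v z') - B * (v z - v z')) +
          (fderiv ℝ F (k z) - fderiv ℝ F (k z')) (v z') := by
      rw [map_sub, sub_apply]; abel
    rw [e]
    refine (norm_add_le _ _).trans (add_le_add (hF.close _ _)
      ((ContinuousLinearMap.le_opNorm _ _).trans ((mul_le_of_le_one_right (norm_nonneg _)
        (hv1 _)).trans ((hl _ _).trans ?_))))
    rw [mul_assoc]; exact mul_le_mul_of_nonneg_left (hk _ _) hK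
  have hvH : Hol v := by
    obtain ⟨K, hK, hl⟩ := hc.lip
    have hν : 64 ≤ ν i := by nlinarith
    refine hol_boot (κ := (s / 8 + 1 / 2) / (15 / 16 * s ^ 2)) (K := 2 * K * Lk) hp
      (by linarith : 1 < s) (hsi ▸ hL) (by positivity) ?_ (by positivity) hv1 fun z z' => ?_
    · rw [div_mul_eq_mul_div, div_le_iff₀ (by positivity)]; nlinarith
    · have e : ∀ z, v (ν * z) = (fderiv ℝ Fc (k z) (v z) i)⁻¹ • fderiv ℝ Fc (k z) (v z) :=
        fun z => by
          have := hJl hc z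
          rw [hJ ec] at this ⊢
          rw [Pi.smul_apply, hvi, smul_eq_mul, mul_one] at this ⊢
          rw [inv_smul_smul₀ (by linarith)]
      have h3 := slope_step (m := 15 / 16 * s ^ 2) hp hj (by linarith) ((hvi z).trans (hvi z').symm)
        (by positivity) (by linarith [hJl hc z]) (by linarith [hJl hc z']) (e z' ▸ hv1 _)
        (hD hc hK hl z z')
      rw [e z, e z']
      refine h3.trans ?_
      rw [div_le_iff₀ (by positivity), add_mul, mul_right_comm (_ / _),
        div_mul_cancel₀ _ (by positivity)]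
      have : 0 ≤ K * Lk * ‖z - z'‖ := by positivity
      nlinarith
  have hgc : Continuous fun z => G z i := (continuous_apply i).comp hG
  have hgH : Hol fun z => Real.log (G z i) := hol_of_dir fun j => by
    obtain ⟨F, B, η, hF, hB0, hη, hj0, hj1, e⟩ := hB j
    obtain ⟨K, hK, hl⟩ := hF.lip
    obtain ⟨C, hC, hv⟩ := hvH
    have h0 := hF.nonneg
    refine hol_coh (Q := Q) (φ := fun z => Real.log (fderiv ℝ F (k z) (v z) i) - Real.log (B i))
      (fun l hl z => by simp only [hGp l hl z]) (hgc.log fun z => (h1 z).ne') ?_ (fun z => ?_)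
      hj0 hj1
    · refine hol_of_local (M := η / (B i / 2)) (C := ((η + ‖B‖) * C + K * Lk) / (B i / 2))
        (by positivity) (fun z => ?_) fun z z' hz => ?_
      · refine (abs_log_sub_le (half_pos hB0) (by linarith [hJl hF z]) (by linarith)).trans ?_
        gcongr
        have h3 := (abs_le_norm _ i).trans ((hF.close (k z) (v z)).trans
          (mul_le_of_le_one_right hF.nonneg (hv1 z)))
        simpa only [Pi.sub_apply, Pi.mul_apply, hvi, mul_one] using h3
      · rw [sub_sub_sub_cancel_right, div_mul_eq_mul_div]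
        refine (abs_log_sub_le (half_pos hB0) (by linarith [hJl hF z])
          (by linarith [hJl hF z'])).trans ?_
        gcongr
        have h3 := (abs_le_norm _ i).trans (hD hF hK hl z z')
        simp only [Pi.sub_apply, Pi.mul_apply, hvi, sub_self, mul_zero, sub_zero] at h3
        have h4 := le_sqrt_of_le_one (norm_nonneg _) hz
        nlinarith [mul_le_mul_of_nonneg_left (hv z z') h0, norm_nonneg B,
          mul_le_mul_of_nonneg_left h4 (mul_nonneg hK hLk), mul_nonneg hC (Real.sqrt_nonneg ‖z - z'‖)]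
    · have := h1 z
      have := h1 (B * z)
      rw [hJ e, Pi.smul_apply, hvi, smul_eq_mul, mul_one, Real.log_div (by positivity) (by positivity),
        Real.log_mul (by positivity) (by positivity)]
      ring
  obtain ⟨M, hM0, hM⟩ := hGp.bdd hG
  obtain ⟨C, hC, hv⟩ := hvH
  obtain ⟨C', hC', hg⟩ := hgH
  have hM' : ∀ z, G z i ≤ M := fun z => (le_abs_self _).trans ((abs_le_norm _ i).trans (hM z))
  have key : ∀ x y, G x i - G y i ≤ M * (C' * √‖x - y‖) := fun x y => by
    have h3 := Real.log_le_sub_one_of_pos (div_pos (h1 y) (h1 x))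
    rw [Real.log_div (h1 y).ne' (h1 x).ne', div_sub_one (h1 x).ne', le_div_iff₀ (h1 x)] at h3
    have h4 := (le_abs_self _).trans (hg x y)
    nlinarith [mul_le_mul (hM' x) h4, h1 x, mul_le_mul_of_nonneg_left h4 (h1 x).le,
      mul_le_mul_of_nonneg_right (hM' x) (by positivity : 0 ≤ C' * √‖x - y‖)]
  refine ⟨M * C + M * C', by positivity, fun x y => ?_⟩
  have e : G x - G y = G x i • (v x - v y) + (G x i - G y i) • v y := by
    simp only [v, smul_sub, sub_smul, smul_inv_smul₀ (h1 _).ne']; abel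
  have h5 : |G x i - G y i| ≤ M * (C' * √‖x - y‖) :=
    abs_sub_le_iff.2 ⟨key x y, norm_sub_rev x y ▸ key y x⟩
  rw [e]
  refine (norm_add_le _ _).trans ?_
  rw [norm_smul, norm_smul, Real.norm_eq_abs, Real.norm_eq_abs, abs_of_pos (h1 x)]
  nlinarith [mul_le_mul (hM' x) (hv x y) (norm_nonneg _) hM0,
    mul_le_of_le_one_right (abs_nonneg (G x i - G y i)) (hv1 y)]

/-- The inverse of `k` has an invertible Hölder derivative. -/
lemma second_diff {Q : V ≃L[ℝ] V} {k H : V → V} {G : Fin 4 → V → V} (hH : Continuous H)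
    (hkH : ∀ x, k (H x) = x) (hd : ∀ z, HasFDerivAt k (cols fun i => G i z) z)
    (hG : ∀ i, Continuous (G i)) (hGp : ∀ i, Per Q (G i)) (h1 : ∀ i z, 0 < G i z i)
    (h2 : ∀ i z l, l ≠ i → |G i z l| ≤ G i z i / 4) (hol : ∀ i, Hol (G i)) :
    (∀ x, ∃ e : V ≃L[ℝ] V, HasFDerivAt H (e : V →L[ℝ] V) x) ∧
      ∃ C, 0 ≤ C ∧ ∀ x d, ‖H (x + d) + H (x - d) - 2 * H x‖ ≤ C * √‖d‖ * ‖d‖ := by
  obtain ⟨M, hM0, hM⟩ := Per.bdd (Q := Q) (f := fun z => fun i => (G i z i)⁻¹)
    (fun l hl z => by simp only [hGp _ l hl z])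
    (continuous_pi fun i => ((continuous_apply i).comp (hG i)).inv₀ fun z => (h1 i z).ne')
  have hc : ∀ z h, (M + 1)⁻¹ / 4 * ‖h‖ ≤ ‖cols (fun i => G i z) h‖ := fun z =>
    cols_lower (by positivity) (fun i => inv_le_of_inv_le₀ (h1 i z) (by
      linarith [(le_abs_self _).trans ((abs_le_norm _ i).trans (hM z))])) fun i => h2 i z
  have hinj : ∀ z, Function.Injective (cols fun i => G i z) := fun z =>
    (injective_iff_map_eq_zero _).2 fun h h0 => by
      have := hc z h
      rw [h0, norm_zero] at this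
      exact norm_le_zero_iff.1 (le_of_mul_le_mul_left (by simpa using this)
        (by positivity : 0 < (M + 1)⁻¹ / 4))
  let e : V → V ≃L[ℝ] V := fun z =>
    (LinearEquiv.ofInjectiveEndo (cols fun i => G i z).toLinearMap (hinj z)).toContinuousLinearEquiv
  have he : ∀ z h, e z h = cols (fun i => G i z) h := fun z h => rfl
  have hdH : ∀ x, HasFDerivAt H ((e (H x)).symm : V →L[ℝ] V) x := fun x =>
    HasFDerivAt.of_local_left_inverse hH.continuousAt (hd (H x)) (Eventually.of_forall hkH)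
  have hE : ∀ z w, ‖(e z).symm w‖ ≤ 4 * (M + 1) * ‖w‖ := fun z w => by
    have := hc z ((e z).symm w)
    rw [← he, ContinuousLinearEquiv.apply_symm_apply, div_mul_eq_mul_div, div_le_iff₀ four_pos,
      inv_mul_le_iff₀ (by positivity)] at this
    linarith
  have hHl : ∀ x y, ‖H x - H y‖ ≤ 4 * (M + 1) * ‖x - y‖ := fun x y =>
    convex_univ.norm_image_sub_le_of_norm_hasFDerivWithin_le (fun z _ => (hdH z).hasFDerivWithinAt)
      (fun z _ => ContinuousLinearMap.opNorm_le_bound _ (by positivity) (hE _)) (mem_univ y)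
      (mem_univ x)
  choose C hC hol using hol
  have hS : 0 ≤ ∑ i, C i := Finset.sum_nonneg fun i _ => hC i
  refine ⟨fun x => ⟨_, hdH x⟩, 4 * (M + 1) * ((∑ i, C i) * √(4 * (M + 1))) * (4 * (M + 1)),
    by positivity, fun x d => ?_⟩
  have := convex_univ.norm_image_sub_le_of_norm_hasFDerivWithin_le
    (f := fun y => H (y + d) - H y)
    (C := 4 * (M + 1) * ((∑ i, C i) * √(4 * (M + 1))) * (4 * (M + 1)) * √‖d‖)
    (fun y _ => (((hdH (y + d)).comp y ((hasFDerivAt_id y).add_const d)).sub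
      (hdH y)).hasFDerivWithinAt)
    (fun y _ => ContinuousLinearMap.opNorm_le_bound _ (by positivity) fun w => ?_) (mem_univ (x - d))
      (mem_univ x)
  · rw [sub_add_cancel, sub_sub_cancel] at this
    exact le_trans (le_of_eq (by congr 1; ring)) this
  · set a := H (y + d)
    set b := H y
    have e1 : (e a).symm w - (e b).symm w =
        (e a).symm (∑ i, (e b).symm w i • (G i b - G i a)) := by
      apply (e a).injective
      rw [map_sub, ContinuousLinearEquiv.apply_symm_apply, ContinuousLinearEquiv.apply_symm_apply]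
      simp only [smul_sub, Finset.sum_sub_distrib, ← cols_apply, ← he,
        ContinuousLinearEquiv.apply_symm_apply]
    have h3 : √‖b - a‖ ≤ √(4 * (M + 1)) * √‖d‖ := by
      rw [← Real.sqrt_mul (by positivity)]
      exact Real.sqrt_le_sqrt (by simpa using hHl y (y + d))
    have h4 : ‖∑ i, (e b).symm w i • (G i b - G i a)‖ ≤
        (∑ i, C i) * (√(4 * (M + 1)) * √‖d‖) * (4 * (M + 1) * ‖w‖) := by
      rw [Finset.sum_mul, Finset.sum_mul]
      refine norm_sum_le_of_le _ fun i _ => ?_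
      rw [norm_smul, mul_comm]
      have := hC i
      exact mul_le_mul ((hol i b a).trans (by gcongr)) ((norm_le_pi_norm _ i).trans (hE b w))
        (norm_nonneg _) (by positivity)
    change ‖(e a).symm w - (e b).symm w‖ ≤ _
    rw [e1]
    exact (hE a _).trans ((mul_le_mul_of_nonneg_left h4 (by positivity)).trans (le_of_eq (by ring)))

end Pool.Agent.P.MP_d1f122_gt
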