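import Mathlib
import Pool.Agent.P.MP_d1f122_gt.C1

/-! Fourier series of periodic functions: basic facts. -/

namespace Pool.Agent.P.MP_d1f122_gt

open Set Filter Topology MeasureTheory UnitAddTorus Matrix

/-- Haar probability measure on the torus. -/
noncomputable def mT : Measure T := Measure.pi fun _ => AddCircle.haarAddCircle

instance : IsProbabilityMeasure mT := by unfold mT; infer_instance
instance : mT.IsAddHaarMeasure := by unfold mT; infer_instance

/-- The exponential `e^{2 π i s}`. -/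
noncomputable def ex (s : ℝ) : ℂ := Complex.exp (2 * Real.pi * Complex.I * s)

lemma norm_ex (s : ℝ) : ‖ex s‖ = 1 := by
  rw [ex, Complex.norm_exp]; simp

lemma ex_add (s t : ℝ) : ex (s + t) = ex s * ex t := by
  rw [ex, ex, ex, ← Complex.exp_add]; push_cast; ring_nf

lemma hasDerivAt_ex {φ : ℝ → ℝ} {φ' t : ℝ} (h : HasDerivAt φ φ' t) :
    HasDerivAt (fun s => ex (φ s)) (ex (φ t) * (2 * Real.pi * Complex.I * φ')) t :=
  (h.ofReal_comp.const_mul _).cexp

variable (Q : V ≃L[ℝ] V)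

/-- The frequency vector in adapted coordinates. -/
noncomputable def fr (n : Fin 4 → ℤ) : V := fun j => ∑ i, (n i : ℝ) * Q (ee j) i

/-- Characters. -/
noncomputable def ch (n : Fin 4 → ℤ) (y : V) : ℂ := mFourier n (pq Q y)

/-- Mean value. -/
noncomputable def IT (g : V → ℂ) : ℂ := ∫ t, desc Q g t ∂mT

/-- Fourier coefficients. -/
noncomputable def co (g : V → ℂ) (n : Fin 4 → ℤ) : ℂ := IT Q fun y => ch Q (-n) y * g y

/-- Squared `L²` norm. -/
noncomputable def N2 (g : V → ℂ) : ℝ := ∫ t, ‖desc Q g t‖ ^ 2 ∂mT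

/-- Periodic and continuous. -/
structure PC (g : V → ℂ) : Prop where
  per : Per Q g
  cont : Continuous g

variable {Q}

lemma fr_dot (n : Fin 4 → ℤ) (y : V) : fr Q n ⬝ᵥ y = ∑ i, (n i : ℝ) * Q y i := by
  conv_rhs => rw [← sum_ee y, map_sum]
  simp only [dotProduct, fr, Finset.sum_mul, Finset.sum_apply, Finset.mul_sum, map_smul,
    Pi.smul_apply, smul_eq_mul]
  rw [Finset.sum_comm]
  exact Finset.sum_congr rfl fun _ _ => Finset.sum_congr rfl fun _ _ => by ring

lemma fr_neg (n : Fin 4 → ℤ) : fr Q (-n) = -fr Q n := by ext j; simp [fr]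

lemma fr_zero : fr Q 0 = 0 := by ext j; simp [fr]

lemma ch_eq (n : Fin 4 → ℤ) (y : V) : ch Q n y = ex (fr Q n ⬝ᵥ y) := by
  rw [fr_dot, ex, ch, mFourier, ContinuousMap.coe_mk]
  simp only [pq, proj, fourier_coe_apply, ← Complex.exp_sum]
  congr 1
  push_cast
  rw [Finset.mul_sum]
  exact Finset.sum_congr rfl fun _ _ => by ring

lemma norm_ch (n : Fin 4 → ℤ) (y : V) : ‖ch Q n y‖ = 1 := by rw [ch_eq, norm_ex]

lemma ch_add (n : Fin 4 → ℤ) (y d : V) : ch Q n (y + d) = ch Q n y * ch Q n d := by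
  rw [ch_eq, ch_eq, ch_eq, dotProduct_add, ex_add]

lemma abs_dot_le (a y : V) : |a ⬝ᵥ y| ≤ 4 * (‖a‖ * ‖y‖) := by
  refine (Finset.abs_sum_le_sum_abs _ _).trans ((Finset.sum_le_card_nsmul _ _ (‖a‖ * ‖y‖)
    fun j _ => ?_).trans (by simp))
  rw [abs_mul]
  exact mul_le_mul (abs_le_norm _ _) (abs_le_norm _ _) (abs_nonneg _) (norm_nonneg _)

lemma summable_fr : Summable fun n => ((1 + ‖fr Q n‖) ^ 8)⁻¹ := by
  classical
  set C := 1 + 4 * ‖(Q.symm : V →L[ℝ] V)‖
  have hC : 1 ≤ C := le_add_of_nonneg_right (by positivity)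
  have h1 : ∀ (n : Fin 4 → ℤ) i, 1 + |(n i : ℝ)| ≤ C * (1 + ‖fr Q n‖) := fun n i => by
    have h := abs_dot_le (fr Q n) (Q.symm (ee i))
    rw [fr_dot] at h
    simp only [ContinuousLinearEquiv.apply_symm_apply, Pi.single_apply, mul_ite, mul_one, mul_zero,
      Finset.sum_ite_eq', Finset.mem_univ, if_true] at h
    have h2 : ‖Q.symm (ee i)‖ ≤ ‖(Q.symm : V →L[ℝ] V)‖ := by
      simpa [Pi.norm_single] using (Q.symm : V →L[ℝ] V).le_opNorm (ee i)
    have := mul_le_mul_of_nonneg_left h2 (norm_nonneg (fr Q n))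
    simp only [C]
    nlinarith [norm_nonneg (fr Q n), norm_nonneg (Q.symm : V →L[ℝ] V)]
  have hg : Summable fun m : ℤ => ((1 + |(m : ℝ)|) ^ 2)⁻¹ := by
    refine .of_norm_bounded_eventually (Real.summable_one_div_int_pow.2 one_lt_two) ?_
    filter_upwards [eventually_cofinite_ne 0] with m hm
    have : 0 < |(m : ℝ)| := abs_pos.2 (by exact_mod_cast hm)
    rw [Real.norm_of_nonneg (by positivity), one_div, ← sq_abs (m : ℝ)]
    gcongr; linarith
  refine summable_of_sum_le (c := C ^ 8 * (∑' m : ℤ, ((1 + |(m : ℝ)|) ^ 2)⁻¹) ^ 4)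
    (fun n => by positivity) fun A => ?_
  calc _ ≤ ∑ n ∈ A, C ^ 8 * ∏ i, ((1 + |(n i : ℝ)|) ^ 2)⁻¹ := Finset.sum_le_sum fun n _ => by
        rw [Finset.prod_inv_distrib, ← div_eq_mul_inv, le_div_iff₀ (by positivity),
          inv_mul_le_iff₀ (by positivity)]
        refine (Finset.prod_le_prod (fun _ _ => by positivity) fun i _ =>
          pow_le_pow_left₀ (by positivity) (h1 n i) 2).trans (le_of_eq ?_)
        simp; ring
    _ ≤ C ^ 8 * ∑ n ∈ Fintype.piFinset fun i => A.image fun m : Fin 4 → ℤ => m i,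
          ∏ i, ((1 + |((n i : ℤ) : ℝ)|) ^ 2)⁻¹ := by
        rw [← Finset.mul_sum]
        gcongr with n
        intro n hn
        exact Fintype.mem_piFinset.2 fun i => Finset.mem_image_of_mem _ hn
    _ ≤ _ := by
        rw [← Finset.prod_univ_sum (f := fun _ (m : ℤ) => ((1 + |(m : ℝ)|) ^ 2)⁻¹)]
        gcongr
        refine (Finset.prod_le_prod (fun _ _ => by positivity) fun i _ =>
          hg.sum_le_tsum _ fun _ _ => by positivity).trans (by simp)

lemma desc_ch (n : Fin 4 → ℤ) (t : T) : desc Q (ch Q n) t = mFourier n t := by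
  rw [desc, ch, Function.surjInv_eq (pq_surj (Q := Q))]

lemma co_eq (g : V → ℂ) (n : Fin 4 → ℤ) : co Q g n = mFourierCoeff (desc Q g) n :=
  integral_congr_ae (Eventually.of_forall fun t => by
    change desc Q (ch Q (-n)) t * _ = _
    rw [desc_ch]; rfl)

lemma pc_ch (n : Fin 4 → ℤ) : PC Q (ch Q n) :=
  ⟨fun l hl y => by rw [ch, pq_add, hl, add_zero, ch], (mFourier n).continuous.comp continuous_pq⟩

lemma pc_const (c : ℂ) : PC Q fun _ => c := ⟨fun _ _ _ => rfl, continuous_const⟩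

namespace PC

variable {g h : V → ℂ}

lemma add (hg : PC Q g) (hh : PC Q h) : PC Q fun y => g y + h y :=
  ⟨fun l hl y => by simp only [hg.per l hl y, hh.per l hl y], hg.cont.add hh.cont⟩

lemma sub (hg : PC Q g) (hh : PC Q h) : PC Q fun y => g y - h y :=
  ⟨fun l hl y => by simp only [hg.per l hl y, hh.per l hl y], hg.cont.sub hh.cont⟩

lemma mul (hg : PC Q g) (hh : PC Q h) : PC Q fun y => g y * h y :=
  ⟨fun l hl y => by simp only [hg.per l hl y, hh.per l hl y], hg.cont.mul hh.cont⟩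

lemma shift (hg : PC Q g) (d : V) : PC Q fun y => g (y + d) :=
  ⟨fun l hl y => by simp only [add_right_comm y l, hg.per l hl], hg.cont.comp (by fun_prop)⟩

lemma sum {ι : Type*} (A : Finset ι) {g : ι → V → ℂ} (hg : ∀ i, PC Q (g i)) :
    PC Q fun y => ∑ i ∈ A, g i y :=
  ⟨fun l hl y => by simp only [(hg _).per l hl y], continuous_finsetSum _ fun i _ => (hg i).cont⟩

lemma comp (hg : PC Q g) {F : V → V} (hF : Continuous F)
    (hp : ∀ x y, pq Q x = pq Q y → pq Q (F x) = pq Q (F y)) : PC Q fun y => g (F y) :=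
  ⟨fun l hl y => hg.per.eq (hp _ _ (by rw [pq_add, hl, add_zero])), hg.cont.comp hF⟩

lemma integrable (hg : PC Q g) : Integrable (desc Q g) mT :=
  (hg.per.continuous_desc hg.cont).integrable_of_hasCompactSupport (.of_compactSpace _)

lemma IT_shift (hg : PC Q g) (d : V) : IT Q (fun y => g (y + d)) = IT Q g := by
  rw [IT, IT, ← integral_add_right_eq_self (desc Q g) (pq Q d)]
  congr 1
  ext t
  obtain ⟨y, rfl⟩ := pq_surj (Q := Q) t
  rw [(hg.shift d).per.desc_pq, ← pq_add, hg.per.desc_pq]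

lemma parseval (hg : PC Q g) : HasSum (fun n => ‖co Q g n‖ ^ 2) (N2 Q g) := by
  let f : C(T, ℂ) := ⟨_, hg.per.continuous_desc hg.cont⟩
  have : HasSum (fun n => ‖mFourierCoeff (f.toLp 2 mT ℂ) n‖ ^ 2)
    (∫ t, ‖f.toLp 2 mT ℂ t‖ ^ 2 ∂mT) := hasSum_sq_mFourierCoeff (f.toLp 2 mT ℂ)
  have e : ∀ n, mFourierCoeff (f.toLp 2 mT ℂ) n = co Q g n := fun n =>
    (mFourierCoeff_toLp f n).trans (co_eq g n).symm
  simp only [e] at this
  convert this using 1
  refine integral_congr_ae ?_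
  filter_upwards [ContinuousMap.coeFn_toLp (p := 2) (𝕜 := ℂ) mT f] with t ht
  rw [ht]; rfl

lemma hasSum (hg : PC Q g) (hs : Summable (co Q g)) (y : V) :
    HasSum (fun n => co Q g n * ch Q n y) (g y) := by
  let f : C(T, ℂ) := ⟨_, hg.per.continuous_desc hg.cont⟩
  have e : mFourierCoeff f = co Q g := funext fun n => (co_eq g n).symm
  have := hasSum_mFourier_series_apply_of_summable (f := f) (e ▸ hs) (pq Q y)
  rw [e] at this
  exact hg.per.desc_pq y ▸ this

end PC

lemma IT_add {g h : V → ℂ} (hg : PC Q g) (hh : PC Q h) :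
    IT Q (fun y => g y + h y) = IT Q g + IT Q h := integral_add hg.integrable hh.integrable

lemma IT_sub {g h : V → ℂ} (hg : PC Q g) (hh : PC Q h) :
    IT Q (fun y => g y - h y) = IT Q g - IT Q h := integral_sub hg.integrable hh.integrable

lemma IT_mul (c : ℂ) (g : V → ℂ) : IT Q (fun y => c * g y) = c * IT Q g :=
  integral_const_mul c (desc Q g)

lemma IT_sum {ι : Type*} (A : Finset ι) {g : ι → V → ℂ} (hg : ∀ i, PC Q (g i)) :
    IT Q (fun y => ∑ i ∈ A, g i y) = ∑ i ∈ A, IT Q (g i) :=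
  integral_finsetSum A fun i _ => (hg i).integrable

lemma norm_IT_le {g : V → ℂ} {M : ℝ} (h : ∀ y, ‖g y‖ ≤ M) : ‖IT Q g‖ ≤ M := by
  simpa [IT] using norm_integral_le_of_norm_le_const (μ := mT) (f := desc Q g) (C := M)
    (Eventually.of_forall fun t => h _)

lemma norm_co_le {g : V → ℂ} {M : ℝ} (h : ∀ y, ‖g y‖ ≤ M) (n : Fin 4 → ℤ) : ‖co Q g n‖ ≤ M :=
  norm_IT_le fun y => by rw [norm_mul, norm_ch, one_mul]; exact h y

lemma N2_le {g : V → ℂ} {M : ℝ} (h : ∀ y, ‖g y‖ ≤ M) : N2 Q g ≤ M ^ 2 := by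
  refine (le_abs_self _).trans ?_
  simpa [N2] using norm_integral_le_of_norm_le_const (μ := mT) (f := fun t => ‖desc Q g t‖ ^ 2)
    (C := M ^ 2) (Eventually.of_forall fun t => by
      rw [Real.norm_of_nonneg (by positivity)]; exact pow_le_pow_left₀ (norm_nonneg _) (h _) 2)

lemma co_add {g h : V → ℂ} (hg : PC Q g) (hh : PC Q h) (n : Fin 4 → ℤ) :
    co Q (fun y => g y + h y) n = co Q g n + co Q h n := by
  simp only [co, mul_add]; exact IT_add ((pc_ch _).mul hg) ((pc_ch _).mul hh)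

lemma co_sub {g h : V → ℂ} (hg : PC Q g) (hh : PC Q h) (n : Fin 4 → ℤ) :
    co Q (fun y => g y - h y) n = co Q g n - co Q h n := by
  simp only [co, mul_sub]; exact IT_sub ((pc_ch _).mul hg) ((pc_ch _).mul hh)

lemma co_mul (c : ℂ) (g : V → ℂ) (n : Fin 4 → ℤ) : co Q (fun y => c * g y) n = c * co Q g n := by
  simp only [co, mul_left_comm _ c]; exact IT_mul _ _

lemma co_sum {ι : Type*} (A : Finset ι) {g : ι → V → ℂ} (hg : ∀ i, PC Q (g i)) (n : Fin 4 → ℤ) :
    co Q (fun y => ∑ i ∈ A, g i y) n = ∑ i ∈ A, co Q (g i) n := by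
  simp only [co, Finset.mul_sum]; exact IT_sum A fun i => (pc_ch _).mul (hg i)

lemma co_shift {g : V → ℂ} (hg : PC Q g) (d : V) (n : Fin 4 → ℤ) :
    co Q (fun y => g (y + d)) n = ch Q n d * co Q g n := by
  rw [co, co, ← ((pc_ch (-n)).mul hg).IT_shift d, ← IT_mul]
  congr 1
  ext y
  have : ch Q n d * ch Q (-n) d = 1 := by
    rw [ch, ch, ← mFourier_add, add_neg_cancel, mFourier_zero]; rfl
  rw [ch_add]
  linear_combination -ch Q (-n) y * g (y + d) * this

lemma co_ch (m n : Fin 4 → ℤ) : co Q (ch Q m) n = if n = m then 1 else 0 := by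
  classical
  have := orthonormal_iff_ite.1 (orthonormal_mFourier (d := Fin 4)) n m
  rw [ContinuousMap.inner_toLp] at this
  rw [co_eq, mFourierCoeff]
  simp only [desc_ch, mFourier_neg, smul_eq_mul, mul_comm (starRingEnd ℂ _)]
  convert this

lemma co_poly (A : Finset (Fin 4 → ℤ)) (a : (Fin 4 → ℤ) → ℂ) (n : Fin 4 → ℤ) :
    co Q (fun y => ∑ m ∈ A, a m * ch Q m y) n = if n ∈ A then a n else 0 := by
  rw [co_sum A fun m => (pc_const _).mul (pc_ch m)]
  simp [co_mul, co_ch]

/-- The mean of a directional derivative vanishes. -/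
lemma IT_deriv {b b' : V → ℂ} {j : Fin 4} (hb : PC Q b) (hb' : PC Q b')
    (h : ∀ y, HasDerivAt (fun t : ℝ => b (y + t • ee j)) (b' y) 0) : IT Q b' = 0 := by
  refine norm_le_zero_iff.1 (le_of_forall_pos_le_add fun ε hε => ?_)
  obtain ⟨δ, hδ, hu⟩ := hb'.per.unif hb'.cont hε
  have h1 : ∀ y (s : ℝ), HasDerivAt (fun t : ℝ => b (y + t • ee j)) (b' (y + s • ee j)) s := by
    intro y s
    have := HasDerivAt.comp_sub_const s s ((sub_self s).symm ▸ h (y + s • ee j))
    simpa [add_assoc, ← add_smul] using this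
  have h2 : ∀ y, ‖b (y + (δ / 2) • ee j) - b y - (δ / 2 : ℝ) * b' y‖ ≤ ε * (δ / 2) := fun y => by
    have := (convex_Icc 0 (δ / 2)).norm_image_sub_le_of_norm_hasDerivWithin_le
      (f := fun t : ℝ => b (y + t • ee j) - t * b' y) (C := ε)
      (fun s _ => ((h1 y s).sub ((hasDerivAt_id s).ofReal_comp.mul_const (b' y))).hasDerivWithinAt)
      (fun s hs => by
        have := hu y (s • ee j) (by rw [norm_smul_ee, abs_of_nonneg hs.1]; linarith [hs.2])
        simpa [dist_eq_norm] using this.le)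
      (left_mem_Icc.2 (half_pos hδ).le) (right_mem_Icc.2 (half_pos hδ).le)
    rw [sub_zero, Real.norm_of_nonneg (half_pos hδ).le] at this
    refine le_trans (le_of_eq ?_) this
    congr 1
    simp; ring
  have h3 := norm_IT_le (Q := Q) h2
  rw [IT_sub ((hb.shift _).sub hb) ((pc_const _).mul hb'), IT_sub (hb.shift _) hb, hb.IT_shift,
    IT_mul, sub_self, zero_sub, norm_neg, norm_mul, Complex.norm_real,
    Real.norm_of_nonneg (half_pos hδ).le] at h3
  nlinarith

/-- Composition with a diffeomorphism whose Jacobian is at least `1/2`. -/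
lemma N2_comp {g : V → ℂ} (hg : PC Q g) {F : V → V} (hF : Differentiable ℝ F)
    (hb : Function.Bijective F) (hp : ∀ x y, pq Q (F x) = pq Q (F y) ↔ pq Q x = pq Q y)
    (hd : ∀ x, 1 / 2 ≤ |(fderiv ℝ F x).det|) : N2 Q (fun y => g (F y)) ≤ 2 * N2 Q g := by
  let D : Set V := {x | ∀ i, x i ∈ Ioc (0 : ℝ) (0 + 1)}
  have hD : MeasurableSet D := MeasurableSet.univ_pi' fun i => measurableSet_Ioc
  let L : AddSubgroup V := (AddMonoidHom.mk' proj proj_add).ker
  have hL : ∀ l : L, proj l = 0 := fun l => l.2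
  have : Countable L := by
    choose n hn using fun l : L => proj_eq_zero.1 (hL l)
    exact Function.Injective.countable (f := n) fun a b h => by ext i; rw [hn, hn, h]
  have hinj : ∀ x ∈ D, ∀ y ∈ D, proj x = proj y → x = y := fun x hx y hy h => by
    ext i; exact (AddCircle.coe_eq_coe_iff_of_mem_Ioc (hx i) (hy i)).1 (congrFun h i)
  have hsur : ∀ x, ∃ y ∈ D, proj y = proj x := fun x =>
    ⟨fun i => (AddCircle.equivIoc 1 0 (proj x i)).1, fun i => (AddCircle.equivIoc 1 0 _).2,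
      funext fun i => (AddCircle.equivIoc 1 0).symm_apply_apply _⟩
  have fd : ∀ G : V → V, Function.Surjective G → (∀ x y, proj (G x) = proj (G y) ↔ proj x = proj y) →
      MeasurableSet (G '' D) → IsAddFundamentalDomain L (G '' D) volume := fun G hs hG hm =>
    .mk' hm.nullMeasurableSet fun z => by
      obtain ⟨x, rfl⟩ := hs z
      obtain ⟨y, hy, e⟩ := hsur x
      refine ⟨⟨G y - G x, (proj_sub _ _).trans (sub_eq_zero.2 ((hG _ _).2 e))⟩,
        ⟨y, hy, (sub_add_cancel _ _).symm⟩, ?_⟩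
      rintro l ⟨y', hy', e'⟩
      change G y' = l + G x at e'
      obtain rfl := hinj y hy y' hy' ((hG _ _).1 (by rw [e', proj_add, hL, zero_add, (hG _ _).2 e]))
      exact Subtype.ext (eq_sub_of_add_eq e'.symm)
  let G : V → V := fun x => Q (F (Q.symm x))
  have hG : ∀ x, HasFDerivAt G ((Q : V →L[ℝ] V).comp ((fderiv ℝ F (Q.symm x)).comp
      (Q.symm : V →L[ℝ] V))) x := fun x =>
    Q.hasFDerivAt.comp x ((hF _).hasFDerivAt.comp x Q.symm.hasFDerivAt)
  have hGi : Function.Bijective G := Q.bijective.comp (hb.comp Q.symm.bijective)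
  have hGp : ∀ x y, proj (G x) = proj (G y) ↔ proj x = proj y := fun x y => by
    simpa [pq] using hp (Q.symm x) (Q.symm y)
  let φ : V → ENNReal := fun x => ENNReal.ofReal (‖g (Q.symm x)‖ ^ 2)
  have e1 := (fd G hGi.2 hGp (measurable_image_of_fderivWithin hD
    (fun x _ => (hG x).hasFDerivWithinAt) hGi.1.injOn)).setLIntegral_eq
    (fd id Function.surjective_id (fun _ _ => Iff.rfl) (by simpa using hD)) φ fun l x => by
      simp only [φ]
      rw [hg.per.eq (x := Q.symm (l +ᵥ x)) (y := Q.symm x)]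
      simp only [pq, ContinuousLinearEquiv.apply_symm_apply]
      exact (proj_add _ _).trans (by rw [hL, zero_add])
  rw [lintegral_image_eq_lintegral_abs_det_fderiv_mul _ hD (fun x _ => (hG x).hasFDerivWithinAt)
    hGi.1.injOn, image_id] at e1
  have e2 : ∀ g : V → ℂ, PC Q g → ENNReal.ofReal (N2 Q g) =
      ∫⁻ x in D, ENNReal.ofReal (‖g (Q.symm x)‖ ^ 2) := fun g hg => by
    rw [N2, ofReal_integral_eq_lintegral_ofReal (f := fun t => ‖desc Q g t‖ ^ 2)
      (((hg.per.continuous_desc hg.cont).norm.pow 2).integrable_of_hasCompactSupport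
        (.of_compactSpace _)) (Eventually.of_forall fun _ => by positivity)]
    refine (lintegral_preimage _ fun _ => 0).trans (lintegral_congr fun x => ?_)
    rw [← hg.per.desc_pq (Q.symm x)]
    simp only [pq, ContinuousLinearEquiv.apply_symm_apply]
    rfl
  have h0 : 0 ≤ N2 Q g := integral_nonneg fun _ => by positivity
  rw [← ENNReal.ofReal_le_ofReal_iff (by positivity), ENNReal.ofReal_mul zero_le_two,
    e2 g hg, e2 _ (hg.comp hF.continuous fun x y => (hp x y).2), ← e1,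
    ← lintegral_const_mul' _ _ ENNReal.ofReal_ne_top]
  refine lintegral_mono fun x => ?_
  have e3 : ((Q : V →L[ℝ] V).comp ((fderiv ℝ F (Q.symm x)).comp (Q.symm : V →L[ℝ] V))).det =
      (fderiv ℝ F (Q.symm x)).det := LinearMap.det_conj _ Q.toLinearEquiv
  simp only [φ, G, e3, ContinuousLinearEquiv.symm_apply_apply]
  rw [← mul_assoc, ← ENNReal.ofReal_mul zero_le_two]
  refine le_mul_of_one_le_left zero_le (ENNReal.one_le_ofReal.2 ?_)
  linarith [hd (Q.symm x)]

end Pool.Agent.P.MP_d1f122_gt
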