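import Mathlib
import Pool.Agent.P.MP_d1f122_gt.Four1

/-! Non-stationary phase, and smoothness from decay of Fourier coefficients. -/

namespace Pool.Agent.P.MP_d1f122_gt

open Set Filter Topology Matrix
open scoped ContDiff

/-- Admissible families of amplitudes. -/
inductive Amp (Q : V ≃L[ℝ] V) {ι : Type} (ψ : ι → V → ℝ) : (ι → V → ℝ) → Prop
  | base (c : ι → ℝ) (g : V → ℝ) (M : ℝ) (hc : ∀ p, |c p| ≤ M) (hg : ContDiff ℝ ∞ g)
      (hp : Per Q g) : Amp Q ψ fun p y => c p * g y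
  | inv : Amp Q ψ fun p y => (ψ p y)⁻¹
  | add {a b : ι → V → ℝ} : Amp Q ψ a → Amp Q ψ b → Amp Q ψ fun p y => a p y + b p y
  | mul {a b : ι → V → ℝ} : Amp Q ψ a → Amp Q ψ b → Amp Q ψ fun p y => a p y * b p y

variable {Q : V ≃L[ℝ] V}

lemma hasDerivAt_dir {E : Type*} [NormedAddCommGroup E] [NormedSpace ℝ E] {g : V → E}
    (hg : Differentiable ℝ g) (y v : V) :
    HasDerivAt (fun t : ℝ => g (y + t • v)) (fderiv ℝ g y v) 0 := by
  have h1 : HasDerivAt (fun t : ℝ => y + t • v) v 0 := by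
    simpa using ((hasDerivAt_id (0 : ℝ)).smul_const v).const_add y
  exact (hg y).hasFDerivAt.comp_hasDerivAt_of_eq 0 h1 (by simp)

lemma contDiff_dir {E : Type*} [NormedAddCommGroup E] [NormedSpace ℝ E] {g : V → E}
    (hg : ContDiff ℝ ∞ g) (v : V) : ContDiff ℝ ∞ fun y => fderiv ℝ g y v :=
  (hg.fderiv_right (m := ∞) le_rfl).clm_apply contDiff_const

lemma Amp.sum {ι κ : Type} {ψ : ι → V → ℝ} (A : Finset κ) {a : κ → ι → V → ℝ}
    (h : ∀ i, Amp Q ψ (a i)) : Amp Q ψ fun p y => ∑ i ∈ A, a i p y := by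
  classical
  induction A using Finset.induction_on with
  | empty =>
    simpa using Amp.base (Q := Q) (ψ := ψ) (fun _ => 0) (fun _ => 0) 0 (by simp)
      contDiff_const fun _ _ _ => rfl
  | insert i s hi ih => simpa [Finset.sum_insert hi] using (h i).add ih

lemma Amp.good {ι : Type} {ψ ψ' : ι → V → ℝ} {j : Fin 4} (h1 : ∀ p y, 1 / 2 ≤ |ψ p y|)
    (h2 : ∀ p, Per Q (ψ p) ∧ Continuous (ψ p)) (h3 : Amp Q ψ ψ')
    (h4 : ∀ p y, HasDerivAt (fun t : ℝ => ψ p (y + t • ee j)) (ψ' p y) 0) {a : ι → V → ℝ}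
    (ha : Amp Q ψ a) : (∃ M, 0 ≤ M ∧ ∀ p y, |a p y| ≤ M) ∧ (∀ p, Per Q (a p) ∧ Continuous (a p)) ∧
      ∃ a', Amp Q ψ a' ∧ ∀ p y, HasDerivAt (fun t : ℝ => a p (y + t • ee j)) (a' p y) 0 := by
  have h0 : ∀ p y, ψ p y ≠ 0 := fun p y => abs_pos.1 (by linarith [h1 p y])
  induction ha with
  | base c g M hc hg hp =>
    obtain ⟨M', hM0, hM'⟩ := hp.bdd hg.continuous
    refine ⟨⟨|M| * M', by positivity, fun p y => ?_⟩,
      fun p => ⟨fun l hl y => by simp only [hp l hl y], continuous_const.mul hg.continuous⟩,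
      _, .base c _ M hc (contDiff_dir hg (ee j)) fun l hl y => by simp only [hp.fderiv l hl y],
      fun p y => (hasDerivAt_dir (hg.differentiable (by simp)) y _).const_mul _⟩
    rw [abs_mul]
    exact mul_le_mul ((hc p).trans (le_abs_self _)) (hM' y) (abs_nonneg _) (abs_nonneg _)
  | inv =>
    refine ⟨⟨2, zero_le_two, fun p y => ?_⟩,
      fun p => ⟨fun l hl y => by simp only [(h2 p).1 l hl y], (h2 p).2.inv₀ (h0 p)⟩,
      _, (Amp.base (fun _ => -1) (fun _ => 1) 1 (by simp) contDiff_const fun _ _ _ => rfl).mul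
        (h3.mul (Amp.inv.mul .inv)), fun p y => ?_⟩
    · rw [abs_inv]; exact inv_le_of_inv_le₀ two_pos (by linarith [h1 p y])
    · refine ((h4 p y).fun_inv (by simpa using h0 p y)).congr_deriv ?_
      simp; field_simp
  | add _ _ iha ihb =>
    obtain ⟨⟨M, hM0, hM⟩, ha, a', ha', da⟩ := iha
    obtain ⟨⟨N, hN0, hN⟩, hb, b', hb', db⟩ := ihb
    exact ⟨⟨M + N, by positivity, fun p y => (abs_add_le _ _).trans (add_le_add (hM p y) (hN p y))⟩,
      fun p => ⟨fun l hl y => by simp only [(ha p).1 l hl y, (hb p).1 l hl y],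
        (ha p).2.add (hb p).2⟩, _, ha'.add hb', fun p y => (da p y).add (db p y)⟩
  | mul ha0 hb0 iha ihb =>
    obtain ⟨⟨M, hM0, hM⟩, ha, a', ha', da⟩ := iha
    obtain ⟨⟨N, hN0, hN⟩, hb, b', hb', db⟩ := ihb
    exact ⟨⟨M * N, by positivity, fun p y => by
        rw [abs_mul]; exact mul_le_mul (hM p y) (hN p y) (abs_nonneg _) hM0⟩,
      fun p => ⟨fun l hl y => by simp only [(ha p).1 l hl y, (hb p).1 l hl y],
        (ha p).2.mul (hb p).2⟩, _, (ha'.mul hb0).add (ha0.mul hb'), fun p y =>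
          ((da p y).fun_mul (db p y)).congr_deriv (by simp)⟩

lemma pc_ofReal {a : V → ℝ} (h : Per Q a ∧ Continuous a) : PC Q fun y => (a y : ℂ) :=
  ⟨fun l hl y => by simp only [h.1 l hl y], Complex.continuous_ofReal.comp h.2⟩

lemma nsp {ι : Type} {ψ ψ' : ι → V → ℝ} {j : Fin 4} (h1 : ∀ p y, 1 / 2 ≤ |ψ p y|)
    (h2 : ∀ p, Per Q (ψ p) ∧ Continuous (ψ p)) (h3 : Amp Q ψ ψ')
    (h4 : ∀ p y, HasDerivAt (fun t : ℝ => ψ p (y + t • ee j)) (ψ' p y) 0) {e : ι → V → ℂ}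
    {D : ι → ℝ} (hD : ∀ p, 0 < D p) (he : ∀ p, PC Q (e p)) (hn : ∀ p y, ‖e p y‖ = 1)
    (hd : ∀ p y, HasDerivAt (fun t : ℝ => e p (y + t • ee j))
      (e p y * (2 * Real.pi * Complex.I * (D p * ψ p y : ℝ))) 0) (k : ℕ) :
    ∀ a, Amp Q ψ a → ∃ C, 0 ≤ C ∧ ∀ p, ‖IT Q fun y => a p y * e p y‖ ≤ C / D p ^ k := by
  have h0 : ∀ p y, ψ p y ≠ 0 := fun p y => abs_pos.1 (by linarith [h1 p y])
  induction k with
  | zero =>
    intro a ha
    obtain ⟨⟨M, hM0, hM⟩, -⟩ := Amp.good h1 h2 h3 h4 ha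
    exact ⟨M, hM0, fun p => norm_IT_le fun y => by simpa [hn] using hM p y⟩
  | succ k ih =>
    intro a ha
    obtain ⟨-, hb, b', hb', db⟩ := Amp.good h1 h2 h3 h4 (ha.mul .inv)
    obtain ⟨C, hC, h⟩ := ih b' hb'
    refine ⟨C, hC, fun p => ?_⟩
    have p1 := (pc_ofReal ((Amp.good h1 h2 h3 h4 hb').2.1 p)).mul (he p)
    have p2 := (pc_const (2 * Real.pi * Complex.I * D p)).mul
      ((pc_ofReal ((Amp.good h1 h2 h3 h4 ha).2.1 p)).mul (he p))
    have := IT_deriv (j := j) ((pc_ofReal (hb p)).mul (he p)) (p1.add p2) fun y => by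
      refine ((db p y).ofReal_comp.fun_mul (hd p y)).congr_deriv ?_
      have : (ψ p y : ℂ) ≠ 0 := by exact_mod_cast h0 p y
      simp; field_simp
    rw [IT_add p1 p2, IT_mul, add_eq_zero_iff_eq_neg] at this
    have h5 := h p
    rw [this, norm_neg, norm_mul] at h5
    simp only [norm_mul, Complex.norm_real, Complex.norm_I, Complex.norm_ofNat,
      Real.norm_of_nonneg Real.pi_pos.le, Real.norm_of_nonneg (hD p).le] at h5
    rw [pow_succ, ← div_div, le_div_iff₀ (hD p)]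
    nlinarith [Real.two_le_pi, mul_nonneg (norm_nonneg (IT Q fun y => a p y * e p y)) (hD p).le]

/-- Oscillatory integrals without stationary points. -/
lemma osc {F : V → V} {μ : V} {η L : ℝ} (hF : ContDiff ℝ ∞ F) (hper : Per Q fun x => F x - μ * x)
    (hp : ∀ x y, pq Q x = pq Q y → pq Q (F x) = pq Q (F y))
    (hc : ∀ p v, ‖fderiv ℝ F p v - μ * v‖ ≤ η * ‖v‖) (hη : 8 * L * η ≤ 1) {a : V → ℝ}
    (ha : ContDiff ℝ ∞ a) (hap : Per Q a) (k : ℕ) : ∃ C, 0 ≤ C ∧ ∀ m n,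
      0 < ‖μ * fr Q m - fr Q n‖ → ‖fr Q m‖ ≤ L * ‖μ * fr Q m - fr Q n‖ →
      ‖co Q (fun y => a y * ch Q m (F y)) n‖ ≤ C / ‖μ * fr Q m - fr Q n‖ ^ k := by
  let D : (Fin 4 → ℤ) × (Fin 4 → ℤ) → ℝ := fun p => ‖μ * fr Q p.1 - fr Q p.2‖
  have hFd := hF.differentiable (by simp)
  have hf : ContDiff ℝ ∞ fun x => F x - μ * x := hF.sub (contDiff_const.mul contDiff_id)
  have key : ∀ j, ∃ C, 0 ≤ C ∧ ∀ p : {p // 0 < D p ∧ ‖fr Q p.1‖ ≤ L * D p ∧
      |(μ * fr Q p.1 - fr Q p.2) j| = D p},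
      ‖IT Q fun y => (1 * a y : ℝ) * (ch Q (-p.1.2) y * ch Q p.1.1 (F y))‖ ≤ C / D p.1 ^ k := by
    intro j
    let g : V → V := fun y => fderiv ℝ (fun x => F x - μ * x) y (ee j)
    have hg : ∀ y, g y = fderiv ℝ F y (ee j) - μ * ee j := fun y => by
      have := (hFd y).hasFDerivAt.sub (ContinuousLinearMap.mul ℝ V μ).hasFDerivAt
      exact congrArg (· (ee j)) this.fderiv
    have hgs : ∀ i, ContDiff ℝ ∞ fun y => g y i := contDiff_pi.1 (contDiff_dir hf _)
    have hgp : ∀ i, Per Q fun y => g y i := fun i l hl y => by simp only [g, hper.fderiv l hl y]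
    refine nsp (j := j) (ψ := fun p y => (μ * fr Q p.1.1 - fr Q p.1.2) j / D p.1 +
        ∑ i, fr Q p.1.1 i / D p.1 * g y i)
      (ψ' := fun p y => ∑ i, fr Q p.1.1 i / D p.1 * fderiv ℝ (fun y => g y i) y (ee j))
      (fun p y => ?_) (fun p => ⟨fun l hl y => by simp only [hgp _ l hl y], continuous_const.add
        (continuous_finsetSum _ fun i _ => continuous_const.mul (hgs i).continuous)⟩)
      (.sum _ fun i => .base _ _ L (fun p => ?_) (contDiff_dir (hgs i) _)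
        fun l hl y => by simp only [(hgp i).fderiv l hl y])
      (fun p y => (HasDerivAt.fun_sum fun i _ =>
        (hasDerivAt_dir ((hgs i).differentiable (by simp)) y _).const_mul _).const_add _)
      (fun p => p.2.1) (fun p => (pc_ch _).mul ((pc_ch _).comp hF.continuous hp))
      (fun p y => by simp [norm_ch]) (fun p y => ?_) k _ (.base _ _ 1 (by simp) ha hap)
    · obtain ⟨p, h0, h1, h2⟩ := p
      have h3 := abs_dot_le (fr Q p.1) (g y)
      have h4 : ‖g y‖ ≤ η := by simpa [hg, Pi.norm_single] using hc y (ee j)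
      have h5 : ‖fr Q p.1‖ * ‖g y‖ ≤ L * D p * η :=
        mul_le_mul h1 h4 (norm_nonneg _) ((norm_nonneg _).trans h1)
      simp only [div_mul_eq_mul_div, ← Finset.sum_div, ← add_div]
      rw [abs_div, abs_of_pos h0, le_div_iff₀ h0]
      have h6 := abs_add_le ((μ * fr Q p.1 - fr Q p.2) j + fr Q p.1 ⬝ᵥ g y) (-(fr Q p.1 ⬝ᵥ g y))
      rw [add_neg_cancel_right, abs_neg, h2] at h6
      change _ ≤ |_ + fr Q p.1 ⬝ᵥ g y|
      nlinarith
    · rw [abs_div, abs_of_pos p.2.1, div_le_iff₀ p.2.1]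
      exact (abs_le_norm _ i).trans p.2.2.1
    · obtain ⟨p, h0, -⟩ := p
      have d1 : HasDerivAt (fun t : ℝ => fr Q (-p.2) ⬝ᵥ (y + t • ee j) + fr Q p.1 ⬝ᵥ F (y + t • ee j))
          (fr Q (-p.2) ⬝ᵥ ee j + fr Q p.1 ⬝ᵥ fderiv ℝ F y (ee j)) 0 := by
        refine .add (.fun_sum fun i _ => .const_mul _ ?_) (.fun_sum fun i _ => .const_mul _ ?_)
        · simpa using ((hasDerivAt_id (0 : ℝ)).mul_const (ee j i)).const_add (y i)
        · exact hasDerivAt_pi.1 (hasDerivAt_dir hFd y _) i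
      simp only [ch_eq, ← ex_add]
      refine (hasDerivAt_ex d1).congr_deriv ?_
      rw [zero_smul, add_zero]
      congr 3
      simp only [div_mul_eq_mul_div, ← Finset.sum_div, ← add_div]
      rw [mul_div_cancel₀ _ h0.ne']
      change _ = _ + fr Q p.1 ⬝ᵥ g y
      rw [hg, dotProduct_sub, fr_neg]
      have : μ * ee j = μ j • ee j := by simpa using mul_ee μ 0 j 1
      simp [this]
      ring
  choose C hC h using key
  refine ⟨∑ j, C j, Finset.sum_nonneg fun j _ => hC j, fun m n h0 h1 => ?_⟩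
  obtain ⟨j, hj⟩ := exists_abs_eq_norm (μ * fr Q m - fr Q n)
  have := h j ⟨(m, n), h0, h1, hj⟩
  simp only [one_mul, mul_left_comm (_ : ℂ) (ch Q (-n) _)] at this
  exact this.trans (div_le_div_of_nonneg_right
    (Finset.single_le_sum (fun j _ => hC j) (Finset.mem_univ j)) (by positivity))

lemma iteratedDeriv_ex (c : ℂ) (k : ℕ) : iteratedDeriv k (fun s => c * ex s) =
    fun s => c * (2 * Real.pi * Complex.I) ^ k * ex s := by
  induction k with
  | zero => simp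
  | succ k ih =>
    rw [iteratedDeriv_succ, ih]
    ext s
    rw [((hasDerivAt_ex (hasDerivAt_id' s)).const_mul _).deriv]
    simp; ring

/-- Rapid decay of the Fourier coefficients implies smoothness. -/
lemma smooth_of_decay {w : V → ℂ} (hw : PC Q w)
    (h : ∀ N : ℕ, ∃ C, ∀ n, 1 ≤ ‖fr Q n‖ → ‖co Q w n‖ ^ 2 ≤ C / ‖fr Q n‖ ^ N) :
    ContDiff ℝ ∞ w := by
  obtain ⟨M, hM0, hM⟩ := hw.per.bdd hw.cont
  have h1 : ∀ k : ℕ, Summable fun n => ‖co Q w n‖ * (1 + ‖fr Q n‖) ^ k := fun k => by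
    obtain ⟨C, hC⟩ := h (2 * (k + 8))
    refine .of_nonneg_of_le (fun n => by positivity) (fun n => ?_)
      ((summable_fr (Q := Q)).mul_left ((M + √C) * 2 ^ (k + 8)))
    rw [← div_eq_mul_inv, le_div_iff₀ (by positivity), mul_assoc, ← pow_add]
    rcases le_total 1 ‖fr Q n‖ with hn | hn
    · have h2 : ‖co Q w n‖ * ‖fr Q n‖ ^ (k + 8) ≤ √C := Real.le_sqrt_of_sq_le (by
        have := hC n hn
        rwa [le_div_iff₀ (by positivity), mul_comm 2, pow_mul, ← mul_pow] at this)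
      calc _ ≤ ‖co Q w n‖ * (‖fr Q n‖ * 2) ^ (k + 8) := by gcongr; linarith
        _ ≤ _ := by rw [mul_pow, ← mul_assoc]; gcongr; linarith
    · have := norm_co_le (Q := Q) hM n
      gcongr
      · linarith [Real.sqrt_nonneg C]
      · linarith
  have e : w = fun y => ∑' n, co Q w n * ch Q n y := funext fun y =>
    (hw.hasSum (.of_norm (by simpa using h1 0)) y).tsum_eq.symm
  let Λ : (Fin 4 → ℤ) → V →L[ℝ] ℝ := fun n => ∑ j, fr Q n j • ContinuousLinearMap.proj j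
  have hΛ : ∀ n y, Λ n y = fr Q n ⬝ᵥ y := fun n y => by simp [Λ, dotProduct]
  have e2 : ∀ n, (fun y => co Q w n * ch Q n y) = (fun s => co Q w n * ex s) ∘ Λ n := fun n => by
    ext y; simp [hΛ, ch_eq]
  have hs : ∀ c : ℂ, ContDiff ℝ ∞ fun s => c * ex s := fun c =>
    contDiff_const.mul ((contDiff_const.mul Complex.ofRealCLM.contDiff).cexp)
  rw [e]
  refine contDiff_tsum (v := fun k n => 28 ^ k * (‖co Q w n‖ * (1 + ‖fr Q n‖) ^ k))
    (fun n => e2 n ▸ (hs _).comp (Λ n).contDiff) (fun k _ => (h1 k).mul_left _) fun k n y _ => ?_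
  rw [e2, (Λ n).iteratedFDeriv_comp_right (hs _) y (by exact_mod_cast le_top)]
  refine (ContinuousMultilinearMap.norm_compContinuousLinearMap_le _ _).trans ?_
  have h3 : ‖Λ n‖ ≤ 4 * (1 + ‖fr Q n‖) := ContinuousLinearMap.opNorm_le_bound _ (by positivity)
    fun y => by
      rw [hΛ]; exact (abs_dot_le _ _).trans (by nlinarith [norm_nonneg y])
  rw [norm_iteratedFDeriv_eq_norm_iteratedDeriv, iteratedDeriv_ex]
  simp only [norm_mul, norm_pow, norm_ex, Complex.norm_real, Complex.norm_I, Complex.norm_ofNat,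
    Real.norm_of_nonneg Real.pi_pos.le, Finset.prod_const, Finset.card_univ, Fintype.card_fin,
    mul_one]
  calc _ ≤ ‖co Q w n‖ * 7 ^ k * (4 * (1 + ‖fr Q n‖)) ^ k := by
        gcongr; linarith [Real.pi_lt_d2]
    _ = _ := by rw [mul_pow, show (28 : ℝ) = 7 * 4 by norm_num, mul_pow]; ring

/-- A periodic function invariant along a totally irrational direction is constant. -/
lemma const_of_dir {j : Fin 4} (hj : ∀ n, fr Q n j = 0 → n = 0) {φ : V → ℝ} (hc : Continuous φ)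
    (hp : Per Q φ) (h : ∀ z (s : ℝ), φ (z + s • ee j) = φ z) (z : V) : φ z = φ 0 := by
  have hw := pc_ofReal ⟨hp, hc⟩
  have h0 : ∀ n, n ≠ 0 → co Q (fun y => (φ y : ℂ)) n = 0 := fun n hn => by
    have h1 : fr Q n j ≠ 0 := fun h => hn (hj n h)
    have := co_shift hw ((1 / 2 / fr Q n j) • ee j) n
    simp only [h] at this
    have e : ch Q n ((1 / 2 / fr Q n j) • ee j) = -1 := by
      rw [ch_eq, dotProduct_smul, dotProduct_single, mul_one, smul_eq_mul, div_mul_cancel₀ _ h1, ex,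
        ← Complex.exp_pi_mul_I]
      congr 1; push_cast; ring
    linear_combination (this + e * co Q (fun y => (φ y : ℂ)) n) / 2
  have h1 : ∀ y, (φ y : ℂ) = co Q (fun y => (φ y : ℂ)) 0 := fun y => by
    have := (hw.hasSum (summable_of_ne_finset_zero (s := {0}) (by simpa using h0)) y).unique
      (hasSum_single 0 fun n hn => by rw [h0 n hn, zero_mul])
    simpa [ch_eq, fr_zero, ex] using this
  exact_mod_cast (h1 z).trans (h1 0).symm

end Pool.Agent.P.MP_d1f122_gt
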