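import Mathlib
import Pool.Agent.P.MP_d1f122_gt.Four2

/-! Bootstrapping the decay of Fourier coefficients in invariant cones. -/

namespace Pool.Agent.P.MP_d1f122_gt

open Set Filter Topology Matrix
open scoped ContDiff

variable {Q : V ≃L[ℝ] V}

lemma rec_le {E : ℝ → ℝ} {κ l C : ℝ} {N : ℕ} (hκ : 0 ≤ κ) (hl : 1 ≤ l) (hC : 0 ≤ C)
    (h1 : 2 * κ ≤ l ^ N) (h : ∀ R, 1 ≤ R → E R ≤ κ * E (l * R) + C / R ^ N)
    (h0 : ∀ R, 1 ≤ R → ∀ ε > 0, ∃ k : ℕ, κ ^ k * E (l ^ k * R) ≤ ε) (R : ℝ) (hR : 1 ≤ R) :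
    E R ≤ 2 * C / R ^ N := by
  have key : ∀ k : ℕ, ∀ R, 1 ≤ R → E R ≤ κ ^ k * E (l ^ k * R) + 2 * C / R ^ N := by
    intro k
    induction k with
    | zero => intro R hR; simp; positivity
    | succ k ih =>
      intro R hR
      have h2 := mul_le_mul_of_nonneg_left (ih (l * R) (by nlinarith)) hκ
      have h3 : κ * (2 * C / (l * R) ^ N) ≤ C / R ^ N := by
        rw [mul_pow, ← mul_div_assoc, div_le_div_iff₀ (by positivity) (by positivity)]
        nlinarith [mul_le_mul_of_nonneg_right h1 (by positivity : 0 ≤ C * R ^ N)]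
      have e : l ^ k * (l * R) = l ^ (k + 1) * R := by ring
      rw [e] at h2
      have := h R hR
      rw [mul_div_assoc, pow_succ κ]
      nlinarith
  refine le_of_forall_pos_le_add fun ε hε => ?_
  obtain ⟨k, hk⟩ := h0 R hR ε hε
  linarith [key k R hR]

/-- Decay given by the second differences. -/
lemma init_decay {w : V → ℂ} (hw : PC Q w) {C : ℝ}
    (h : ∀ x d, ‖w (x + d) + w (x - d) - 2 * w x‖ ≤ C * √‖d‖ * ‖d‖) (B : Finset (Fin 4 → ℤ))
    (R : ℝ) (hR : 1 ≤ R) (hB : ∀ n ∈ B, R ≤ ‖fr Q n‖) :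
    ∑ n ∈ B, ‖co Q w n‖ ^ 2 ≤ 2 * (4 * C ^ 2) / R ^ 3 := by
  refine le_trans (le_of_eq (Finset.sum_congr rfl fun n hn => (if_pos (hB n hn)).symm))
    (rec_le (E := fun R => ∑ n ∈ B, if R ≤ ‖fr Q n‖ then ‖co Q w n‖ ^ 2 else 0) (κ := 1) (l := 2)
      zero_le_one one_le_two (by positivity) (by norm_num) (fun R hR => ?_) (fun R hR ε hε => ?_)
      R hR)
  · let d : Fin 4 → V := fun j => (1 / (4 * R)) • ee j
    let g : Fin 4 → V → ℂ := fun j y => w (y + d j) + w (y + -d j) - 2 * w y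
    have hg : ∀ j, PC Q (g j) := fun j => ((hw.shift _).add (hw.shift _)).sub ((pc_const _).mul hw)
    have h1 : ∀ j, ∑ n ∈ B, ‖co Q (g j) n‖ ^ 2 ≤ C ^ 2 / R ^ 3 := fun j => by
      refine (sum_le_hasSum B (fun _ _ => by positivity) (hg j).parseval).trans
        ((N2_le fun y => by simpa only [g, ← sub_eq_add_neg] using h y (d j)).trans ?_)
      rw [norm_smul_ee, abs_of_pos (by positivity), mul_pow, mul_pow, Real.sq_sqrt (by positivity),
        mul_assoc, ← pow_succ', div_eq_mul_one_div (C ^ 2), ← _root_.one_div_pow]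
      gcongr; linarith
    have h2 : ∀ n, (if R ≤ ‖fr Q n‖ then ‖co Q w n‖ ^ 2 else 0) ≤
        (if 2 * R ≤ ‖fr Q n‖ then ‖co Q w n‖ ^ 2 else 0) + ∑ j, ‖co Q (g j) n‖ ^ 2 := fun n => by
      have h3 : 0 ≤ ∑ j, ‖co Q (g j) n‖ ^ 2 := Finset.sum_nonneg fun _ _ => by positivity
      split_ifs with ha hb hb
      · linarith
      · obtain ⟨j, hj⟩ := exists_abs_eq_norm (fr Q n)
        refine le_trans ?_ ((Finset.single_le_sum (f := fun j => ‖co Q (g j) n‖ ^ 2)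
          (fun _ _ => by positivity) (Finset.mem_univ j)).trans (zero_add _).ge)
        have e : co Q (g j) n = (ch Q n (d j) + ch Q n (-d j) - 2) * co Q w n := by
          rw [co_sub ((hw.shift _).add (hw.shift _)) ((pc_const _).mul hw),
            co_add (hw.shift _) (hw.shift _), co_shift hw, co_shift hw, co_mul]
          ring
        have h4 : ∀ s : ℝ, 1 / 4 ≤ |s| → |s| ≤ 1 / 2 → (ex s).re ≤ 0 := fun s h5 h6 => by
          have : ex s = Complex.exp ((2 * Real.pi * s : ℝ) * Complex.I) := by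
            rw [ex]; congr 1; push_cast; ring
          rw [this, Complex.exp_ofReal_mul_I_re, ← Real.cos_abs, abs_mul,
            abs_of_pos Real.two_pi_pos]
          exact Real.cos_nonpos_of_pi_div_two_le_of_le (by nlinarith [Real.pi_pos])
            (by nlinarith [Real.pi_pos])
        have h5 : |fr Q n ⬝ᵥ d j| = ‖fr Q n‖ / (4 * R) := by
          simp only [d, dotProduct_smul, dotProduct_single, mul_one, smul_eq_mul, abs_mul, hj]
          rw [abs_of_pos (by positivity)]; ring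
        have h6 : 1 / 4 ≤ ‖fr Q n‖ / (4 * R) := by rw [le_div_iff₀ (by positivity)]; linarith
        have h7 : ‖fr Q n‖ / (4 * R) ≤ 1 / 2 := by rw [div_le_iff₀ (by positivity)]; linarith
        have h8 := h4 _ (h5 ▸ h6) (h5 ▸ h7)
        have h9 := h4 (-(fr Q n ⬝ᵥ d j)) (by rwa [abs_neg, h5]) (by rwa [abs_neg, h5])
        have h10 := (neg_le_abs _).trans
          (Complex.abs_re_le_norm (ch Q n (d j) + ch Q n (-d j) - 2))
        rw [ch_eq, ch_eq, dotProduct_neg] at h10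
        simp only [Complex.sub_re, Complex.add_re, Complex.re_ofNat] at h10
        rw [e, norm_mul, ch_eq, ch_eq, dotProduct_neg]
        exact pow_le_pow_left₀ (norm_nonneg _)
          (le_mul_of_one_le_left (norm_nonneg _) (by linarith)) 2
      · positivity
      · linarith
    refine (Finset.sum_le_sum fun n _ => h2 n).trans ?_
    rw [Finset.sum_add_distrib, Finset.sum_comm, one_mul]
    gcongr
    refine (Finset.sum_le_card_nsmul _ _ _ fun j _ => h1 j).trans (le_of_eq ?_)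
    simp; ring
  · obtain ⟨k, hk⟩ := pow_unbounded_of_one_lt (∑ n ∈ B, ‖fr Q n‖) (one_lt_two (α := ℝ))
    refine ⟨k, le_trans (le_of_eq ?_) hε.le⟩
    rw [one_pow, one_mul]
    refine Finset.sum_eq_zero fun n hn => if_neg (not_le.2 ?_)
    have := Finset.single_le_sum (f := fun n => ‖fr Q n‖) (fun _ _ => norm_nonneg _) hn
    nlinarith [pow_pos (two_pos (α := ℝ)) k]

/-- The cone of frequencies whose largest coordinate is contracted. -/
def Kc (μ : V) (L R : ℝ) (y : V) : Prop := R ≤ ‖y‖ ∧ ∃ j, μ j ≤ L⁻¹ ∧ |y j| = ‖y‖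

lemma cone_gap {μ x y : V} {L R : ℝ} (hL : 4 ≤ L) (hμ : ∀ j, 0 < μ j ∧ (L ≤ μ j ∨ μ j ≤ L⁻¹))
    (hy : Kc μ L R y) (hx : ¬Kc μ L (L / 2 * R) x) :
    ‖y‖ ≤ 2 * ‖μ * x - y‖ ∧ ‖x‖ ≤ L * ‖μ * x - y‖ := by
  obtain ⟨hR, j, hj, e⟩ := hy
  have h0 : ∀ j, abs (μ j * |x j| - |y j|) ≤ ‖μ * x - y‖ := fun j => by
    refine le_trans ?_ (abs_le_norm _ j)
    have := abs_abs_sub_abs_le_abs_sub (μ j * x j) (y j)
    rwa [abs_mul, abs_of_pos (hμ j).1] at this
  have h1 : μ j * |x j| ≤ L⁻¹ * ‖x‖ := mul_le_mul hj (abs_le_norm _ _) (abs_nonneg _) (by positivity)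
  have h2 := (abs_le.1 (h0 j)).1
  have h3 : L⁻¹ ≤ 1 / 4 := by rw [one_div]; gcongr
  have hx0 := norm_nonneg x
  have hD := norm_nonneg (μ * x - y)
  rcases lt_or_ge ‖x‖ (L / 2 * R) with h | h
  · have h4 : ‖x‖ ≤ L / 2 * ‖y‖ := h.le.trans (by gcongr)
    have h5 : L⁻¹ * ‖x‖ ≤ ‖y‖ / 2 := by rw [inv_mul_le_iff₀ (by linarith)]; linarith
    exact ⟨by linarith, by nlinarith⟩
  · obtain ⟨i, hi⟩ := exists_abs_eq_norm x
    have h4 := (hμ i).2.resolve_right fun h' => hx ⟨h, i, h', hi⟩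
    have h5 := (abs_le.1 (h0 i)).2
    rw [hi] at h5
    have h7 := abs_le_norm y i
    have h8 : 4 * ‖x‖ ≤ μ i * ‖x‖ := by gcongr; linarith
    have h9 := mul_le_mul_of_nonneg_right h3 hx0
    have h6 : ‖x‖ ≤ ‖μ * x - y‖ := by linarith
    exact ⟨by nlinarith, by nlinarith⟩

lemma norm_sq_four (a b c d : ℂ) :
    ‖a + b + c + d‖ ^ 2 ≤ 4 * (‖a‖ ^ 2 + ‖b‖ ^ 2 + ‖c‖ ^ 2 + ‖d‖ ^ 2) := by
  have h : ‖a + b + c + d‖ ≤ ‖a‖ + ‖b‖ + ‖c‖ + ‖d‖ :=
    (norm_add_le _ _).trans (add_le_add norm_add₃_le le_rfl)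
  refine (pow_le_pow_left₀ (norm_nonneg _) h 2).trans ?_
  nlinarith [sq_nonneg (‖a‖ - ‖b‖), sq_nonneg (‖a‖ - ‖c‖), sq_nonneg (‖a‖ - ‖d‖),
    sq_nonneg (‖b‖ - ‖c‖), sq_nonneg (‖b‖ - ‖d‖), sq_nonneg (‖c‖ - ‖d‖)]

theorem decay_cone {F : V → V} {μ : V} {η L Λ c C0 : ℝ} (hF : ContDiff ℝ ∞ F)
    (hb : Function.Bijective F) (hper : Per Q fun x => F x - μ * x)
    (hp : ∀ x y, pq Q (F x) = pq Q (F y) ↔ pq Q x = pq Q y)
    (hd : ∀ x, 1 / 2 ≤ |(fderiv ℝ F x).det|)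
    (hc : ∀ p v, ‖fderiv ℝ F p v - μ * v‖ ≤ η * ‖v‖) (hη : 8 * L * η ≤ 1) (hL : 4 ≤ L)
    (hμ : ∀ j, 0 < μ j ∧ (L ≤ μ j ∨ μ j ≤ L⁻¹)) (hΛ : 128 * Λ ^ 2 ≤ L ^ 3) (hΛc : 1 ≤ Λ * c)
    {a : V → ℝ} (ha : ContDiff ℝ ∞ a) (hap : Per Q a) {w : V → ℂ} (hw : PC Q w)
    (he : ∀ y, c * w y = w (F y) + a y)
    (h2 : ∀ x d, ‖w (x + d) + w (x - d) - 2 * w x‖ ≤ C0 * √‖d‖ * ‖d‖) (N : ℕ) :
    ∃ C, 0 ≤ C ∧ ∀ n, Kc μ L 1 (fr Q n) → ‖co Q w n‖ ^ 2 ≤ C / ‖fr Q n‖ ^ N := by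
  classical
  wlog hN : 3 ≤ N generalizing N
  · obtain ⟨C, hC, h⟩ := this 3 le_rfl
    exact ⟨C, hC, fun n hn => (h n hn).trans (div_le_div_of_nonneg_left hC
      (pow_pos (by linarith [hn.1]) _) (pow_le_pow_right₀ hn.1 (by omega)))⟩
  have hp' := fun x y => (hp x y).2
  let u := fun n => ‖co Q w n‖ ^ 2
  let E : ℝ → ℝ := fun R => ∑' n, if Kc μ L R (fr Q n) then u n else 0
  have hs : ∀ R, Summable fun n => if Kc μ L R (fr Q n) then u n else 0 := fun R =>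
    .of_nonneg_of_le (fun n => by positivity) (fun n => by split_ifs; exacts [le_rfl, by positivity])
      hw.parseval.summable
  have hE1 : ∀ R (B : Finset _), (∀ n ∈ B, Kc μ L R (fr Q n)) → ∑ n ∈ B, u n ≤ E R := fun R B hB =>
    (Finset.sum_congr rfl fun n hn => (if_pos (hB n hn)).symm).trans_le
      ((hs R).sum_le_tsum B fun _ _ => by positivity)
  have hE2 : ∀ R x, (∀ B : Finset _, (∀ n ∈ B, Kc μ L R (fr Q n)) → ∑ n ∈ B, u n ≤ x) → E R ≤ x :=
    fun R x h => (hs R).tsum_le_of_sum_le fun B => by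
      rw [← Finset.sum_filter]; exact h _ fun n hn => (Finset.mem_filter.1 hn).2
  let wt := fun n => ((1 + ‖fr Q n‖) ^ 8)⁻¹
  have hwt : ∀ n, wt n ≤ 1 := fun n => inv_le_one_of_one_le₀ (one_le_pow₀ (by simp))
  set W := ∑' n, wt n
  have hW : ∀ B : Finset _, ∑ n ∈ B, wt n ≤ W := fun B =>
    summable_fr.sum_le_tsum B fun _ _ => by positivity
  have hW0 : 0 ≤ W := by simpa using hW ∅
  have ho : ∀ a : V → ℝ, ContDiff ℝ ∞ a → Per Q a → ∃ C, 0 ≤ C ∧ ∀ R m n, 1 ≤ R →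
      Kc μ L R (fr Q n) → ¬Kc μ L (L / 2 * R) (fr Q m) →
      ‖co Q (fun y => a y * ch Q m (F y)) n‖ ≤ C * wt m * (wt n / R ^ N) := fun a ha hap => by
    obtain ⟨C, hC, h⟩ := osc hF hper hp' hc hη ha hap (8 + (8 + N))
    refine ⟨C * (2 + L) ^ (8 + (8 + N)), by positivity, fun R m n hR hn hm => ?_⟩
    obtain ⟨h3, h4⟩ := cone_gap hL hμ hn hm
    have h5 := hn.1
    have h6 : 0 < ‖μ * fr Q m - fr Q n‖ := by linarith
    refine (h m n h6 h4).trans ?_
    have : (1 + ‖fr Q m‖) ^ 8 * ((1 + ‖fr Q n‖) ^ 8 * R ^ N) ≤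
        ((2 + L) * ‖μ * fr Q m - fr Q n‖) ^ (8 + (8 + N)) := by
      rw [pow_add, pow_add]
      gcongr <;> nlinarith
    simp only [wt]
    rw [div_eq_mul_inv _ (R ^ N), mul_assoc, ← mul_inv, ← mul_inv, ← div_eq_mul_inv,
      div_le_div_iff₀ (by positivity) (by positivity), mul_assoc, ← mul_pow]
    gcongr
  obtain ⟨C1, hC1, o1⟩ := ho (fun _ => 1) contDiff_const fun _ _ _ => rfl
  obtain ⟨C2, hC2, o2⟩ := ho a ha hap
  obtain ⟨M, hM0, hM⟩ := hw.per.bdd hw.cont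
  have hl : 1 ≤ L / 2 := by linarith
  have hκ : 2 * (8 * Λ ^ 2) ≤ (L / 2) ^ 3 := by linarith
  have main := rec_le (E := E) (κ := 8 * Λ ^ 2) (N := N)
    (C := 4 * Λ ^ 2 * (((M * C1 * W) ^ 2 + C2 ^ 2) * W)) (by positivity) hl (by positivity)
    (hκ.trans (pow_le_pow_right₀ hl hN)) (fun R hR => hE2 _ _ fun B hB => ?_) fun R hR ε hε => ?_
  · refine ⟨_, by positivity, fun n hn => le_trans ?_ (main _ hn.1)⟩
    simpa using hE1 ‖fr Q n‖ {n} (by simpa using ⟨le_rfl, hn.2⟩)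
  · refine le_of_forall_pos_le_add fun ε hε => ?_
    have hΛ0 : 0 < Λ ^ 2 := sq_pos_of_ne_zero (by rintro rfl; norm_num at hΛc)
    obtain ⟨A, hA⟩ := (hw.parseval.eventually (lt_mem_nhds
      (sub_lt_self (N2 Q w) (by positivity : 0 < ε / (8 * Λ ^ 2))))).exists
    let P : Finset (Fin 4 → ℤ) → V → ℂ := fun A y => ∑ m ∈ A, co Q w m * ch Q m y
    have hP : ∀ A, PC Q (P A) := fun A => .sum A fun m => (pc_const _).mul (pc_ch m)
    have nP : ∀ A, HasSum (fun n => if n ∈ A then u n else 0) (∑ n ∈ A, u n) := fun A =>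
      Finset.sum_congr rfl (fun n hn => if_pos hn : ∀ n ∈ A, (if n ∈ A then u n else 0) = u n) ▸
        hasSum_sum_of_ne_finset_zero fun n hn => if_neg hn
    have n1 : ∀ A, N2 Q (P A) = ∑ n ∈ A, u n := fun A => (hP A).parseval.unique (by
      convert nP A with n
      rw [co_poly]; split_ifs <;> simp [u])
    have n2 : N2 Q (fun y => w y - P A y) = N2 Q w - ∑ n ∈ A, u n :=
      (hw.sub (hP A)).parseval.unique ((hw.parseval.sub (nP A)).congr_fun fun n => by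
        rw [co_sub hw (hP A), co_poly]; split_ifs <;> simp [u])
    have bes : ∀ g, PC Q g → ∑ n ∈ B, ‖co Q (fun y => g (F y)) n‖ ^ 2 ≤ 2 * N2 Q g := fun g hg =>
      (sum_le_hasSum B (fun _ _ => by positivity) (hg.comp hF.continuous hp').parseval).trans
        (N2_comp hg (hF.differentiable (by simp)) hb hp hd)
    let A1 := A.filter fun m => Kc μ L (L / 2 * R) (fr Q m)
    let A2 := A.filter fun m => ¬Kc μ L (L / 2 * R) (fr Q m)
    have cF := fun g (hg : PC Q g) => hg.comp hF.continuous hp'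
    have pa := pc_ofReal ⟨hap, ha.continuous⟩
    have e : ∀ n, c * co Q w n = co Q (fun y => w (F y) - P A (F y)) n + co Q (fun y => P A1 (F y)) n
        + co Q (fun y => P A2 (F y)) n + co Q (fun y => a y) n := fun n => by
      rw [← co_add (cF _ (hw.sub (hP A))) (cF _ (hP A1)), ← co_add ((cF _ (hw.sub (hP A))).add
        (cF _ (hP A1))) (cF _ (hP A2)), ← co_add (((cF _ (hw.sub (hP A))).add
        (cF _ (hP A1))).add (cF _ (hP A2))) pa, ← co_mul]
      congr 1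
      ext y
      rw [he, add_assoc (_ - _), Finset.sum_filter_add_sum_filter_not, sub_add_cancel]
    have hq : ∀ n x, 0 ≤ x → ∀ C, x ≤ C * (wt n / R ^ N) → x ^ 2 ≤ C ^ 2 * (wt n / R ^ N) :=
      fun n x hx C h => (pow_le_pow_left₀ hx h 2).trans (by
        rw [mul_pow]
        refine mul_le_mul_of_nonneg_left (pow_le_of_le_one (by positivity) ?_ two_ne_zero)
          (sq_nonneg _)
        exact div_le_one_of_le₀ ((hwt n).trans (one_le_pow₀ hR)) (by positivity))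
    have h3 : ∀ n ∈ B, ‖co Q (fun y => P A2 (F y)) n‖ ^ 2 ≤ (M * C1 * W) ^ 2 * (wt n / R ^ N) :=
      fun n hn => hq n _ (norm_nonneg _) _ (by
        rw [co_sum A2 fun m => cF _ ((pc_const _).mul (pc_ch m))]
        refine (norm_sum_le_of_le _ (n := fun m => M * (C1 * wt m * (wt n / R ^ N)))
          fun m hm => ?_).trans ?_
        · rw [co_mul, norm_mul]
          exact mul_le_mul (norm_co_le hM m)
            (by simpa using o1 R m n hR (hB n hn) (Finset.mem_filter.1 hm).2) (norm_nonneg _) hM0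
        · rw [← Finset.mul_sum, ← Finset.sum_mul, ← Finset.mul_sum, mul_assoc M, mul_assoc M]
          gcongr
          exact hW _)
    have h4 : ∀ n ∈ B, ‖co Q (fun y => a y) n‖ ^ 2 ≤ C2 ^ 2 * (wt n / R ^ N) :=
      fun n hn => hq n _ (norm_nonneg _) _ (by
        have := o2 R 0 n hR (hB n hn) fun h => by
          have := h.1
          rw [fr_zero, norm_zero] at this
          nlinarith
        simpa [wt, ch_eq, fr_zero, ex] using this)
    have h5 : ∀ n ∈ B, u n ≤ 4 * Λ ^ 2 * (‖co Q (fun y => w (F y) - P A (F y)) n‖ ^ 2 +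
        ‖co Q (fun y => P A1 (F y)) n‖ ^ 2 + ((M * C1 * W) ^ 2 + C2 ^ 2) * (wt n / R ^ N)) :=
      fun n hn => by
        have h6 := norm_sq_four _ _ _ _ |>.trans' (congrArg (‖·‖ ^ 2) (e n)).le
        rw [norm_mul, mul_pow, Complex.norm_real, Real.norm_eq_abs, sq_abs] at h6
        have h7 : 1 ≤ Λ ^ 2 * c ^ 2 := by rw [← mul_pow]; exact one_le_pow₀ hΛc
        have h8 := mul_le_mul_of_nonneg_left h6 hΛ0.le
        have h9 := mul_le_mul_of_nonneg_left (add_le_add (h3 n hn) (h4 n hn)) hΛ0.le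
        simp only [u]
        nlinarith [sq_nonneg ‖co Q w n‖]
    refine (Finset.sum_le_sum h5).trans ?_
    rw [← Finset.mul_sum, Finset.sum_add_distrib, Finset.sum_add_distrib, ← Finset.mul_sum,
      ← Finset.sum_div]
    have b1 := bes _ (hw.sub (hP A))
    have b2 := bes _ (hP A1)
    rw [n2] at b1
    rw [n1] at b2
    have b3 := hE1 _ A1 fun n hn => (Finset.mem_filter.1 hn).2
    have b4 : ((M * C1 * W) ^ 2 + C2 ^ 2) * ((∑ n ∈ B, wt n) / R ^ N) ≤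
        ((M * C1 * W) ^ 2 + C2 ^ 2) * W / R ^ N := by
      rw [mul_div_assoc]; gcongr; exact hW _
    calc _ ≤ 4 * Λ ^ 2 * (2 * (ε / (8 * Λ ^ 2)) + 2 * E (L / 2 * R) +
          ((M * C1 * W) ^ 2 + C2 ^ 2) * W / R ^ N) := by gcongr <;> linarith
      _ = _ := by
        have : Λ ≠ 0 := by rintro rfl; norm_num at hΛc
        field_simp; ring
  · obtain ⟨k, hk⟩ := exists_pow_lt_of_lt_one (by positivity : 0 < ε / (8 * C0 ^ 2 + 1))
      (by norm_num : (1 / 2 : ℝ) < 1)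
    have h3 : 1 ≤ (L / 2) ^ k := one_le_pow₀ hl
    have h4 := hE2 ((L / 2) ^ k * R) _ fun B hB =>
      init_decay hw h2 B _ (by nlinarith) fun n hn => (hB n hn).1
    refine ⟨k, (mul_le_mul_of_nonneg_left h4 (by positivity)).trans ?_⟩
    rw [lt_div_iff₀ (by positivity)] at hk
    have h5 : (8 * Λ ^ 2) ^ k ≤ (1 / 2) ^ k * ((L / 2) ^ k * R) ^ 3 := by
      calc _ ≤ (1 / 2 * (L / 2) ^ 3) ^ k := pow_le_pow_left₀ (by positivity) (by linarith) k
        _ = (1 / 2) ^ k * ((L / 2) ^ k * 1) ^ 3 := by rw [mul_pow, mul_one, pow_right_comm]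
        _ ≤ _ := by gcongr
    rw [← mul_div_assoc, div_le_iff₀ (by positivity)]
    have h6 : 0 < ((L / 2) ^ k * R) ^ 3 := by positivity
    nlinarith [mul_le_mul_of_nonneg_right h5 (sq_nonneg C0), pow_pos (one_half_pos (α := ℝ)) k]

end Pool.Agent.P.MP_d1f122_gt
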