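import Mathlib
import Pool.Agent.P.MP_d1f122_gt.Four3

/-! Cartan data, closeness of maps. -/

namespace Pool.Agent.P.MP_d1f122_gt

open Set Filter Topology Matrix
open scoped ContDiff

/-- The opposite Lyapunov exponent. -/
def pt : Fin 4 → Fin 4 := ![1, 0, 3, 2]

/-- An index in the other pair. -/
def ot : Fin 4 → Fin 4 := ![2, 2, 0, 0]

lemma pt_cover : ∀ i j : Fin 4, j ≠ i → j ≠ pt i → ∀ l, l = i ∨ l = pt i ∨ l = j ∨ l = pt j := by
  decide

lemma ot_ne : ∀ i, ot i ≠ i ∧ ot i ≠ pt i := by decide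

/-- The multipliers. -/
noncomputable def mu (χ : Fin 4 → ℤ × ℤ →+ ℝ) (a : ℤ × ℤ) : V := fun j => Real.exp (χ j a)

/-- A symplectic Cartan action without rank one factors. -/
structure Cartan (Q : V ≃L[ℝ] V) (χ : Fin 4 → ℤ × ℤ →+ ℝ) : Prop where
  neg : ∀ i a, χ (pt i) a = -χ i a
  det : χ 0 (1, 0) * χ 2 (0, 1) - χ 0 (0, 1) * χ 2 (1, 0) ≠ 0
  irr : ∀ i a, χ i a = 0 → a = 0
  lat : ∀ a l, pq Q l = 0 → pq Q (mu χ a * l) = 0

variable {Q : V ≃L[ℝ] V} {χ : Fin 4 → ℤ × ℤ →+ ℝ}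

lemma mu_pos (a : ℤ × ℤ) (j : Fin 4) : 0 < mu χ a j := Real.exp_pos _

lemma mu_add (a b : ℤ × ℤ) : mu χ (a + b) = mu χ a * mu χ b := by
  ext j; simp [mu, Real.exp_add]

lemma mu_zero : mu χ 0 = 1 := by ext j; simp [mu]

lemma hom_eq (α : ℤ × ℤ →+ ℝ) (m n : ℤ) : α (m, n) = m * α (1, 0) + n * α (0, 1) := by
  rw [← zsmul_eq_mul, ← zsmul_eq_mul, ← map_zsmul, ← map_zsmul, ← map_add]; simp

lemma round_two {α β : ℤ × ℤ →+ ℝ} (h : α (1, 0) * β (0, 1) - α (0, 1) * β (1, 0) ≠ 0) :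
    ∃ r, 0 ≤ r ∧ ∀ x y, ∃ a, |α a - x| ≤ r ∧ |β a - y| ≤ r := by
  refine ⟨|α (1, 0)| + |α (0, 1)| + (|β (1, 0)| + |β (0, 1)|), by positivity, fun x y => ?_⟩
  set u := (x * β (0, 1) - y * α (0, 1)) / (α (1, 0) * β (0, 1) - α (0, 1) * β (1, 0))
  set v := (y * α (1, 0) - x * β (1, 0)) / (α (1, 0) * β (0, 1) - α (0, 1) * β (1, 0))
  have key : ∀ (γ : ℤ × ℤ →+ ℝ) z, z = u * γ (1, 0) + v * γ (0, 1) →
      |γ (round u, round v) - z| ≤ |γ (1, 0)| + |γ (0, 1)| := fun γ z hz => by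
    have e : γ (round u, round v) - z = -((u - round u) * γ (1, 0) + (v - round v) * γ (0, 1)) := by
      rw [hom_eq, hz]; ring
    rw [e, abs_neg]
    refine (abs_add_le _ _).trans ?_
    rw [abs_mul, abs_mul]
    nlinarith [abs_sub_round u, abs_sub_round v, abs_nonneg (γ (1, 0)), abs_nonneg (γ (0, 1))]
  exact ⟨(round u, round v),
    (key α x (by simp only [u, v, div_mul_eq_mul_div, ← add_div]; rw [eq_div_iff h]; ring)).trans
      (le_add_of_nonneg_right (by positivity)),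
    (key β y (by simp only [u, v, div_mul_eq_mul_div, ← add_div]; rw [eq_div_iff h]; ring)).trans
      (le_add_of_nonneg_left (by positivity))⟩

lemma Cartan.round (h : Cartan Q χ) : ∃ r, 0 ≤ r ∧ ∀ i j, j ≠ i → j ≠ pt i → ∀ x y,
    ∃ a, |χ i a - x| ≤ r ∧ |χ j a - y| ≤ r := by
  obtain ⟨r, hr, h1⟩ := round_two h.det
  have h2 : ∀ i j, (∀ x y, ∃ a, |χ i a - x| ≤ r ∧ |χ j a - y| ≤ r) →
      ∀ x y, ∃ a, |χ j a - x| ≤ r ∧ |χ (pt i) a - y| ≤ r := fun i j h' x y => by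
    obtain ⟨a, h3, h4⟩ := h' (-y) x
    exact ⟨a, h4, by rw [h.neg, ← abs_neg]; convert h3 using 2; ring⟩
  have h3 : ∀ i j, (∀ x y, ∃ a, |χ i a - x| ≤ r ∧ |χ j a - y| ≤ r) →
      ∀ x y, ∃ a, |χ j a - x| ≤ r ∧ |χ i a - y| ≤ r := fun i j h' x y => by
    obtain ⟨a, h3, h4⟩ := h' y x
    exact ⟨a, h4, h3⟩
  have a21 := h2 0 2 h1
  have a13 := h2 2 1 a21
  have a30 := h2 1 3 a13
  refine ⟨r, hr, fun i j => ?_⟩
  fin_cases i <;> fin_cases j <;> intro hi hj <;>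
    first | exact absurd rfl hi | exact absurd rfl hj | assumption | exact h3 _ _ ‹_›

lemma finite_fr (R : ℝ) : {n | ‖fr Q n‖ ≤ R}.Finite := by
  have := (summable_fr (Q := Q)).tendsto_cofinite_zero.eventually
    (gt_mem_nhds (by positivity : 0 < ((1 + |R|) ^ 8)⁻¹))
  refine (eventually_cofinite.1 this).subset fun n hn => not_lt.2 ?_
  gcongr
  exact le_trans hn (le_abs_self _)

lemma fr_symm (n : Fin 4 → ℤ) (i : Fin 4) : fr Q n ⬝ᵥ Q.symm (ee i) = n i := by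
  simp [fr_dot, Pi.single_apply]

/-- The eigendirections are totally irrational. -/
lemma Cartan.fr_ne (h : Cartan Q χ) (j : Fin 4) (n : Fin 4 → ℤ) (hn : fr Q n j = 0) : n = 0 := by
  obtain ⟨r, hr, h1⟩ := h.round
  have h2 : ∀ a, ∃ m, fr Q m = mu χ a * fr Q n := fun a => by
    have : ∀ i, ∃ m : ℤ, fr Q n ⬝ᵥ (mu χ a * Q.symm (ee i)) = m := fun i => by
      choose c hc using proj_eq_zero.1 (h.lat a (Q.symm (ee i)) (proj_eq_zero.2 fun l =>
        ⟨if l = i then 1 else 0, by simp [Pi.single_apply]⟩))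
      exact ⟨∑ l, n l * c l, by simp [fr_dot, hc]⟩
    choose m hm using this
    refine ⟨m, funext fun l => ?_⟩
    have e : ee l = ∑ i, Q (ee l) i • Q.symm (ee i) := by
      simp only [← map_smul, ← map_sum, sum_ee, ContinuousLinearEquiv.symm_apply_apply]
    have : (mu χ a * fr Q n) l = fr Q n ⬝ᵥ (mu χ a * ee l) := by
      simp [dotProduct, Pi.single_apply, mul_comm]
    rw [this, e, Finset.mul_sum, dotProduct_sum]
    simp [fr, ← hm, mul_comm]
  choose m hm using h2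
  choose a ha ha' using fun k : ℕ => h1 j (ot j) (ot_ne j).1 (ot_ne j).2 ((2 * r + 1) * k) 0
  refine (Set.Finite.exists_lt_map_eq_of_forall_mem (f := fun k => m (a k))
    (fun k => ?_) (finite_fr (Q := Q) (Real.exp r * ‖fr Q n‖))).elim fun k ⟨l, hkl, e⟩ => ?_
  swap
  · have hne : a k - a l ≠ 0 := fun h0 => by
      have h3 := abs_le.1 (ha k)
      have h4 := abs_le.1 (ha l)
      rw [sub_eq_zero.1 h0] at h3
      have : (k : ℝ) + 1 ≤ l := by exact_mod_cast hkl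
      nlinarith
    have h0 : fr Q n = 0 := funext fun i => by
      have := congrFun ((hm (a k)).symm.trans (e ▸ hm (a l))) i
      refine (mul_eq_mul_right_iff.1 this).resolve_left fun h5 => hne (h.irr i _ ?_)
      rw [map_sub, Real.exp_injective h5, sub_self]
    ext i
    have := fr_symm (Q := Q) n i
    rw [h0, zero_dotProduct] at this
    exact_mod_cast this.symm
  · rw [mem_ofPred_eq, hm]
    refine norm_le_of_abs fun i => ?_
    rw [Pi.mul_apply, abs_mul, abs_of_pos (mu_pos _ _)]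
    have h3 := abs_le.1 (ha k)
    have h4 := abs_le.1 (ha' k)
    have h5 : 0 ≤ (2 * r + 1) * k := by positivity
    rcases pt_cover j _ (ot_ne j).1 (ot_ne j).2 i with rfl | hi
    · rw [hn]; simp; positivity
    refine mul_le_mul (Real.exp_le_exp.2 ?_) (abs_le_norm _ _) (abs_nonneg _) (by positivity)
    rcases hi with rfl | rfl | rfl
    · rw [h.neg]; linarith
    · linarith
    · rw [h.neg]; linarith

/-- `C¹`-closeness to a linear map. -/
def Cl (F : V → V) (A : V →L[ℝ] V) (η : ℝ) : Prop :=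
  ∀ x, ‖F x - A x‖ ≤ η ∧ ‖fderiv ℝ F x - A‖ ≤ η

lemma Cl.mono {F : V → V} {A : V →L[ℝ] V} {η η' : ℝ} (h : Cl F A η) (hη : η ≤ η') : Cl F A η' :=
  fun x => ⟨(h x).1.trans hη, (h x).2.trans hη⟩

lemma Cl.comp {F G : V → V} {A B : V →L[ℝ] V} {η : ℝ} (hF : Cl F A η) (hG : Cl G B η) (hη : η ≤ 1)
    (dF : Differentiable ℝ F) (dG : Differentiable ℝ G) :
    Cl (F ∘ G) (A * B) ((1 + ‖A‖ + ‖B‖) * η) := fun x => by
  have h0 : 0 ≤ η := (norm_nonneg _).trans (hF 0).1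
  constructor
  · have e : (F ∘ G) x - (A * B) x = (F (G x) - A (G x)) + A (G x - B x) := by simp
    rw [e]
    refine (norm_add_le _ _).trans ((add_le_add (hF _).1 (A.le_of_opNorm_le_of_le le_rfl
      (hG x).1)).trans ?_)
    nlinarith [norm_nonneg B]
  · have e : fderiv ℝ (F ∘ G) x - A * B = (fderiv ℝ F (G x) - A) * (fderiv ℝ G x - B) +
        (fderiv ℝ F (G x) - A) * B + A * (fderiv ℝ G x - B) := by
      rw [fderiv_comp x (dF _) (dG _), ← ContinuousLinearMap.mul_def]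
      simp only [mul_sub, sub_mul]; abel
    rw [e]
    refine norm_add₃_le.trans ((add_le_add (add_le_add (norm_mul_le_of_le (hF _).2 (hG _).2)
      (norm_mul_le_of_le (hF _).2 le_rfl)) (norm_mul_le_of_le le_rfl (hG _).2)).trans ?_)
    nlinarith

lemma Cl.inv {F G : V → V} {A B : V →L[ℝ] V} {η : ℝ} (hF : Cl F A η) (hη : 2 * ‖B‖ * η ≤ 1)
    (hAB : B * A = 1) (dF : Differentiable ℝ F) (dG : Differentiable ℝ G) (h : ∀ x, F (G x) = x) :
    Cl G B ((‖B‖ + 2 * ‖B‖ ^ 2) * η) := fun x => by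
  have h0 : 0 ≤ η := (norm_nonneg _).trans (hF 0).1
  constructor
  · have e : G x - B x = -B (F (G x) - A (G x)) := by
      rw [map_sub, h, ← mul_apply_eq_comp, hAB]; simp
    rw [e, norm_neg]
    exact (B.le_of_opNorm_le_of_le le_rfl (hF _).1).trans (by nlinarith [sq_nonneg ‖B‖])
  · have e1 : fderiv ℝ F (G x) * fderiv ℝ G x = 1 := by
      rw [ContinuousLinearMap.mul_def, ← fderiv_comp x (dF _) (dG _),
        show F ∘ G = id from funext h, fderiv_id]; rfl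
    have e : fderiv ℝ G x - B = -(B * (fderiv ℝ F (G x) - A) * (fderiv ℝ G x - B)) -
        B * (fderiv ℝ F (G x) - A) * B := by
      rw [← neg_add', ← mul_add, sub_add_cancel, mul_sub, sub_mul, hAB, mul_assoc, e1]; simp
    have := (congrArg norm e).trans_le (norm_sub_le _ _)
    rw [norm_neg] at this
    have h1 := norm_mul_le_of_le (le_refl ‖B‖) (hF (G x)).2
    have h2 := norm_mul_le_of_le h1 (le_refl ‖fderiv ℝ G x - B‖)
    have h3 := norm_mul_le_of_le h1 (le_refl ‖B‖)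
    nlinarith [norm_nonneg (fderiv ℝ G x - B), norm_nonneg B]

lemma propagate {G ι : Type*} [Group G] {S : Set G} (hS : Subgroup.closure S = ⊤)
    (σ : G →* V →L[ℝ] V) {𝓕 : Filter ι} {R : ι → G → (V → V) → Prop}
    (hR : ∀ᶠ d in 𝓕, R d 1 id ∧ (∀ g h F F', R d g F → R d h F' → R d (g * h) (F ∘ F')) ∧
      (∀ g F, R d g F → ∃ F', R d g⁻¹ F' ∧ ∀ x, F (F' x) = x) ∧
      ∀ g F, R d g F → Differentiable ℝ F)
    (h : ∀ s ∈ S, ∀ η > 0, ∀ᶠ d in 𝓕, ∃ F, R d s F ∧ Cl F (σ s) η) (g : G) :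
    ∀ η > 0, ∀ᶠ d in 𝓕, ∃ F, R d g F ∧ Cl F (σ g) η := by
  have hm : ∀ c : ℝ, 0 ≤ c → ∀ η > 0, ∀ c' ≥ 0, ∃ η' > 0, c * η' ≤ η ∧ c' * η' ≤ 1 :=
    fun c hc η hη c' hc' => ⟨min (η / (c + 1)) (1 / (c' + 1)), by positivity,
      (mul_le_mul_of_nonneg_left (min_le_left _ _) hc).trans (by
        rw [← mul_div_assoc, div_le_iff₀ (by positivity)]; linarith),
      (mul_le_mul_of_nonneg_left (min_le_right _ _) hc').trans (by
        rw [← mul_div_assoc, div_le_iff₀ (by positivity)]; linarith)⟩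
  induction (hS ▸ Subgroup.mem_top g : g ∈ Subgroup.closure S) using Subgroup.closure_induction with
  | mem s hs => exact h s hs
  | one =>
    intro η hη
    filter_upwards [hR] with d hd
    exact ⟨id, hd.1, fun x => by simpa [← ContinuousLinearMap.one_def] using hη.le⟩
  | mul a b _ _ ha hb =>
    intro η hη
    obtain ⟨η', h0, h1, h2⟩ := hm (1 + ‖σ a‖ + ‖σ b‖) (by positivity) η hη 1 zero_le_one
    filter_upwards [hR, ha η' h0, hb η' h0] with d hd ⟨F, hF, cF⟩ ⟨F', hF', cF'⟩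
    exact ⟨_, hd.2.1 _ _ _ _ hF hF', map_mul σ a b ▸ (cF.comp cF' (by linarith) (hd.2.2.2 _ _ hF)
      (hd.2.2.2 _ _ hF')).mono h1⟩
  | inv a _ ha =>
    intro η hη
    obtain ⟨η', h0, h1, h2⟩ := hm (‖σ a⁻¹‖ + 2 * ‖σ a⁻¹‖ ^ 2) (by positivity) η hη (2 * ‖σ a⁻¹‖)
      (by positivity)
    filter_upwards [hR, ha η' h0] with d hd ⟨F, hF, cF⟩
    obtain ⟨F', hF', e⟩ := hd.2.2.1 _ _ hF
    exact ⟨_, hF', (cF.inv h2 (by rw [← map_mul, inv_mul_cancel, map_one]) (hd.2.2.2 _ _ hF)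
      (hd.2.2.2 _ _ hF') e).mono h1⟩

/-- Multiplication by a diagonal matrix. -/
noncomputable abbrev dg (μ : V) : V →L[ℝ] V := ContinuousLinearMap.mul ℝ V μ

lemma Cl.close {F : V → V} {μ : V} {η : ℝ} (h : Cl F (dg μ) η) (p v : V) :
    ‖fderiv ℝ F p v - μ * v‖ ≤ η * ‖v‖ :=
  (fderiv ℝ F p - dg μ).le_of_opNorm_le (h p).2 v

lemma per_fderiv {F : V → V} {A : V →L[ℝ] V} (hF : Differentiable ℝ F)
    (hp : Per Q fun x => F x - A x) : Per Q (fderiv ℝ F) := fun l hl y => by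
  have := hp.fderiv l hl y
  rw [((hF _).hasFDerivAt.fun_sub A.hasFDerivAt).fderiv,
    ((hF _).hasFDerivAt.fun_sub A.hasFDerivAt).fderiv] at this
  exact sub_left_injective this

lemma Cl.nice {F : V → V} {μ : V} {η : ℝ} (h : Cl F (dg μ) η) (hF : ContDiff ℝ ∞ F)
    (hp : Per Q fun x => F x - μ * x) : Nice F μ η := by
  have h1 : ContDiff ℝ ∞ (fderiv ℝ F) := hF.fderiv_right (m := ∞) le_rfl
  obtain ⟨M, hM0, hM⟩ := (per_fderiv (A := dg μ) (hF.differentiable (by simp)) hp).fderiv.bdd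
    (h1.continuous_fderiv (by simp))
  exact ⟨hF.differentiable (by simp), h.close, M, hM0, fun p q =>
    convex_univ.norm_image_sub_le_of_norm_fderiv_le (fun z _ => h1.differentiable (by simp) z)
      (fun z _ => hM z) (mem_univ q) (mem_univ p)⟩

lemma Cartan.det_ge (h : Cartan Q χ) (a : ℤ × ℤ) : ∃ η > 0, ∀ A : V →L[ℝ] V,
    ‖A - dg (mu χ a)‖ ≤ η → 1 / 2 ≤ |A.det| := by
  have e : (dg (mu χ a)).det = 1 := by
    have : (dg (mu χ a)).toLinearMap = Matrix.toLin' (Matrix.diagonal (mu χ a)) := by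
      refine LinearMap.ext fun v => funext fun j => ?_
      simp [Matrix.mulVec_diagonal]
    have h1 := h.neg 0 a
    have h2 := h.neg 2 a
    rw [ContinuousLinearMap.det, this, LinearMap.det_toLin', Matrix.det_diagonal]
    simp only [mu, ← Real.exp_sum, Fin.sum_univ_four, Real.exp_eq_one_iff]
    change χ 1 a = _ at h1
    change χ 3 a = _ at h2
    linarith
  obtain ⟨η, hη, h1⟩ := Metric.continuous_iff.1 ContinuousLinearMap.continuous_det
    (dg (mu χ a)) (1 / 2) one_half_pos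
  refine ⟨η / 2, half_pos hη, fun A hA => ?_⟩
  have := h1 A (by rw [dist_eq_norm]; linarith)
  rw [e, Real.dist_eq, abs_lt] at this
  exact le_trans (by linarith) (le_abs_self _)

end Pool.Agent.P.MP_d1f122_gt
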