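import Mathlib
import Pool.Agent.P.MP_d1f122_gt.Bdry
import Pool.Agent.P.MP_d1f122_gt.Torus

/-! Extension of a rational representation to the real points. -/

namespace Pool.Agent.P.MP_d1f122_gt

open Matrix Polynomial

/-- Real two by two matrices. -/
abbrev M2 : Type := Matrix (Fin 2) (Fin 2) ℝ

/-- Real four by four matrices. -/
abbrev M4 : Type := Matrix (Fin 4) (Fin 4) ℝ

/-- Entrywise derivative. -/
def HD (f : ℝ → M4) (A : M4) (s : ℝ) : Prop := ∀ i j, HasDerivAt (fun t => f t i j) (A i j) s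

lemma HD.mul {f g : ℝ → M4} {A B : M4} {s : ℝ} (hf : HD f A s) (hg : HD g B s) :
    HD (fun t => f t * g t) (A * g s + f s * B) s := fun i j => by
  simpa [Matrix.mul_apply, Finset.sum_add_distrib] using
    HasDerivAt.fun_sum (u := Finset.univ) fun k _ => (hf i k).fun_mul (hg k j)

lemma hd_const (C : M4) (s : ℝ) : HD (fun _ => C) 0 s := fun _ _ => hasDerivAt_const _ _

lemma HD.scale {f : ℝ → M4} {A : M4} (hf : HD f A 0) (c : ℝ) :
    HD (fun t => f (c * t)) (c • A) 0 := fun i j => by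
  exact (HasDerivAt.comp_of_eq 0 (hf i j) ((hasDerivAt_id' (0 : ℝ)).const_mul c)
    (mul_zero c).symm).congr_deriv (by simp [mul_comm])

lemma HD.unique {f g : ℝ → M4} {A B : M4} {s : ℝ} (hf : HD f A s) (hg : HD g B s)
    (h : ∀ t, f t = g t) : A = B := by
  ext i j; exact (hf i j).unique (funext h ▸ hg i j)

lemma one_param {u : ℝ → M4} {X : M4} (h0 : u 0 = 1) (hu : ∀ s t, u (s + t) = u s * u t)
    (hd : HD u X 0) (hX : X * X = 0) (s : ℝ) : u s = 1 + s • X := by
  have h1 : ∀ s, HD u (u s * X) s := fun s i j => by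
    have := HasDerivAt.comp_sub_const s s ((sub_self s).symm ▸ ((hd_const (u s) 0).mul hd) i j)
    simpa [← hu] using this
  have key : ∀ f : ℝ → M4, (∀ s, HD f 0 s) → ∀ s, f s = f 0 := fun f hf s => by
    ext i j
    exact is_const_of_deriv_eq_zero (fun t => (hf t i j).differentiableAt)
      (fun t => (hf t i j).deriv) s 0
  have h2 := key (fun t => u t * X) fun s => by
    simpa [Matrix.mul_assoc, hX] using (h1 s).mul (hd_const X s)
  have h3 := key (fun t => u t - t • X) (fun s i j => by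
    simpa [h2, h0] using (h1 s i j).fun_sub ((hasDerivAt_id' s).mul_const (X i j))) s
  rw [h0, zero_smul, sub_zero] at h3
  exact eq_add_of_sub_eq h3

lemma poly_line {K ι : Type*} [CommRing K] [Algebra ℚ K] [Algebra K ℝ] [IsScalarTower ℚ K ℝ]
    (c c' : ι → K) (φ : MvPolynomial ι ℚ) : ∃ q : K[X], ∀ s : ℝ,
      MvPolynomial.aeval (fun p => algebraMap K ℝ (c p) + s * algebraMap K ℝ (c' p)) φ =
        aeval s q := by
  induction φ using MvPolynomial.induction_on with
  | C a => exact ⟨C (algebraMap ℚ K a), fun s => by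
      rw [MvPolynomial.aeval_C, aeval_C, IsScalarTower.algebraMap_apply ℚ K ℝ]⟩
  | add p q hp hq =>
    obtain ⟨a, ha⟩ := hp
    obtain ⟨b, hb⟩ := hq
    exact ⟨a + b, fun s => by rw [map_add, map_add, ha, hb]⟩
  | mul_X p i hp =>
    obtain ⟨a, ha⟩ := hp
    exact ⟨a * (C (c i) + X * C (c' i)), fun s => by rw [map_mul, ha]; simp [mul_comm s]⟩

/-- Three eigenvalues in geometric progression. -/
lemma chain {D X : Matrix (Fin 4) (Fin 4) ℂ} {κ : ℂ} (h : D * X = κ • (X * D)) (hX : X * X ≠ 0) :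
    ∃ l, D.charpoly.IsRoot l ∧ D.charpoly.IsRoot (κ * l) ∧ D.charpoly.IsRoot (κ * (κ * l)) := by
  let I : Ideal ℂ[X] :=
    { carrier := {q | X * X * aeval D q = 0}
      zero_mem' := by simp
      add_mem' := fun {a b} ha hb => by simp_all [Matrix.mul_add]
      smul_mem' := fun c a ha => by
        change X * X * aeval D (c * a) = 0
        rw [mul_comm c, map_mul, ← Matrix.mul_assoc, ha, Matrix.zero_mul] }
  have h1 : ∀ q : ℂ[X], aeval D q * X = X * aeval D (q.comp (C κ * Polynomial.X)) := fun q => by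
    induction q using Polynomial.induction_on with
    | C a => simp [Algebra.commutes]
    | add p q hp hq => simp [Matrix.add_mul, Matrix.mul_add, hp, hq]
    | monomial n a ih =>
      rw [pow_succ, ← mul_assoc, mul_comp, map_mul _ _ Polynomial.X, map_mul _ (Polynomial.comp _ _),
        ← Matrix.mul_assoc, ← ih, aeval_X, Matrix.mul_assoc, h, Matrix.mul_assoc]
      simp [Algebra.algebraMap_eq_smul_one]
  have h2 := D.aeval_self_charpoly
  have m0 : D.charpoly ∈ I := show X * X * _ = 0 by rw [h2, Matrix.mul_zero]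
  have m1 : D.charpoly.comp (C κ * Polynomial.X) ∈ I := show X * X * _ = 0 by
    rw [Matrix.mul_assoc, ← h1, h2, Matrix.zero_mul, Matrix.mul_zero]
  have m2 : (D.charpoly.comp (C κ * Polynomial.X)).comp (C κ * Polynomial.X) ∈ I :=
    show X * X * _ = 0 by
      rw [Matrix.mul_assoc, ← h1, ← Matrix.mul_assoc, ← h1, h2, Matrix.zero_mul, Matrix.zero_mul]
  rw [Submodule.IsPrincipal.mem_iff_generator_dvd] at m0 m1 m2
  obtain ⟨l, hl⟩ := IsAlgClosed.exists_root (Submodule.IsPrincipal.generator I) fun h0 => by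
    have : (1 : ℂ[X]) ∈ I := (Submodule.IsPrincipal.mem_iff_generator_dvd I).2
      (isUnit_iff_degree_eq_zero.2 h0).dvd
    exact hX (by simpa using (show X * X * aeval D 1 = 0 from this))
  exact ⟨l, hl.dvd m0, by simpa using hl.dvd m1, by simpa using hl.dvd m2⟩

lemma no_chains {D D' X X' : M4} (hD : D * D' = 1) (h : D * X = (4 : ℝ) • (X * D))
    (h' : D * X' = (9 : ℝ) • (X' * D)) (hX : X * X ≠ 0) (hX' : X' * X' ≠ 0) : False := by
  let f : M4 →ₐ[ℝ] Matrix (Fin 4) (Fin 4) ℂ := Complex.ofRealAm.mapMatrix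
  have hf : Function.Injective f := Matrix.map_injective Complex.ofReal_injective
  have key : ∀ (κ : ℝ) X, D * X = κ • (X * D) → X * X ≠ 0 → _ := fun κ X h hX =>
    chain (D := f D) (X := f X) (κ := κ) (by rw [← map_mul, h, map_smul, map_mul]; rfl)
      (by rwa [← map_mul, map_ne_zero_iff _ hf])
  obtain ⟨l, l1, l2, l3⟩ := key _ _ h hX
  obtain ⟨m, m1, m2, m3⟩ := key _ _ h' hX'
  have h0 : ¬(f D).charpoly.IsRoot 0 := by
    rw [IsRoot, eval_charpoly, map_zero, zero_sub, det_neg]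
    have := congrArg det (congrArg f hD)
    rw [map_mul, det_mul, map_one, det_one] at this
    simpa using left_ne_zero_of_mul_eq_one this
  have hl : l ≠ 0 := by rintro rfl; exact h0 l1
  have hm : m ≠ 0 := by rintro rfl; exact h0 m1
  push_cast at l2 l3 m2 m3
  have h1 : (({l, 4 * l, 4 * (4 * l)} ∪ {m, 9 * m, 9 * (9 * m)} : Finset ℂ)).card ≤ 4 := by
    refine le_trans (card_le_degree_of_subset_roots fun x hx => ?_)
      ((f D).charpoly_natDegree_eq_dim.trans (by simp)).le
    rw [mem_roots (f D).charpoly_monic.ne_zero]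
    simp only [Finset.mem_val, Finset.mem_union, Finset.mem_insert, Finset.mem_singleton] at hx
    rcases hx with (rfl | rfl | rfl) | rfl | rfl | rfl <;> assumption
  have h2 := Finset.card_union_add_card_inter ({l, 4 * l, 4 * (4 * l)} : Finset ℂ)
    {m, 9 * m, 9 * (9 * m)}
  have h3 : (({l, 4 * l, 4 * (4 * l)} ∩ {m, 9 * m, 9 * (9 * m)} : Finset ℂ)).card ≤ 1 :=
    Finset.card_le_one.2 fun a ha b hb => by
      simp only [Finset.mem_inter, Finset.mem_insert, Finset.mem_singleton] at ha hb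
      grind
  rw [Finset.card_eq_three.2 ⟨l, _, _, by grind, by grind, by grind, rfl⟩,
    Finset.card_eq_three.2 ⟨m, _, _, by grind, by grind, by grind, rfl⟩] at h2
  omega

variable (r : Rt)

/-- The embedding in the product of two copies of `SL(2, ℝ)`. -/
noncomputable def emb : Gam →* M2 × M2 where
  toFun γ := (γ.1.map (J r), γ.1.map (J r.bar))
  map_one' := by simp
  map_mul' γ δ := by simp [Matrix.map_mul]

/-- Real coordinates on pairs of matrices. -/
noncomputable def crd (g : M2 × M2) (p : Fin 2 × Fin 2 × Bool) : ℝ :=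
  if p.2.2 then (g.1 p.1 p.2.1 - g.2 p.1 p.2.1) * r.1 / 4 else (g.1 p.1 p.2.1 + g.2 p.1 p.2.1) / 2

lemma crd_emb (γ : Gam) : crd r (emb r γ) = fun p => algebraMap ℚ ℝ (coords γ p) := by
  ext ⟨a, b, c⟩
  cases c <;> simp [crd, emb, coords, J_apply, Rt.bar]
  · ring
  · linear_combination ((γ.1 a b).im : ℝ) / 2 * r.sq

lemma crd_line (A B : M2 × M2) (s : ℝ) : crd r (A + s • B) = fun p => crd r A p + s * crd r B p := by
  ext ⟨a, b, c⟩
  cases c <;> simp [crd] <;> ring

/-- The polynomial extension. -/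
noncomputable def ext (φ : Fin 4 → Fin 4 → MvPolynomial (Fin 2 × Fin 2 × Bool) ℚ) (g : M2 × M2) :
    M4 := of fun i j => MvPolynomial.aeval (crd r g) (φ i j)

/-- Polynomial curves. -/
def MP (f : ℝ → M4) : Prop := ∃ P : Matrix (Fin 4) (Fin 4) ℝ[X], ∀ s, f s = P.map (evalRingHom s)

lemma mp_const (A : M4) : MP fun _ => A := ⟨A.map C, fun s => by ext; simp⟩

lemma MP.mul {f g : ℝ → M4} (hf : MP f) (hg : MP g) : MP fun s => f s * g s := by
  obtain ⟨P, hP⟩ := hf
  obtain ⟨P', hP'⟩ := hg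
  exact ⟨P * P', fun s => by rw [Matrix.map_mul, ← hP, ← hP']⟩

lemma MP.eq {f g : ℝ → M4} (hf : MP f) (hg : MP g) (h : ∀ n : ℤ, f n = g n) (s : ℝ) :
    f s = g s := by
  obtain ⟨P, hP⟩ := hf
  obtain ⟨P', hP'⟩ := hg
  rw [hP, hP', show P = P' from Matrix.ext fun i j => eq_of_infinite_eval_eq _ _
    ((Set.infinite_range_of_injective Int.cast_injective).mono ?_)]
  rintro _ ⟨n, rfl⟩
  simpa [hP, hP'] using congrFun₂ (h n) i j

lemma MP.hd {f : ℝ → M4} (hf : MP f) : ∃ A, HD f A 0 := by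
  obtain ⟨P, hP⟩ := hf
  exact ⟨of fun i j => _, fun i j => by simpa [hP] using (P i j).hasDerivAt 0⟩

variable (φ : Fin 4 → Fin 4 → MvPolynomial (Fin 2 × Fin 2 × Bool) ℚ)

lemma mp_ext (A B : M2 × M2) : MP fun s => ext r φ (A + s • B) := by
  choose q hq using fun i j => poly_line (crd r A) (crd r B) (φ i j)
  exact ⟨of q, fun s => by ext i j; simpa [ext, crd_line] using hq i j s⟩

lemma hd_rat {γ : Gam} {N : M2 × M2} (h : emb r γ = 1 + N) :
    ∃ A : Matrix (Fin 4) (Fin 4) ℚ, HD (fun s => ext r φ (1 + s • N)) (A.map (↑)) 0 := by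
  choose q hq using fun i j => poly_line (coords 1) (coords γ - coords 1) (φ i j)
  refine ⟨of fun i j => (derivative (q i j)).eval 0, fun i j => ?_⟩
  have e1 := crd_emb r 1
  have e2 := crd_line r 1 N 1
  rw [one_smul, ← h, crd_emb] at e2
  rw [map_one] at e1
  have e : ∀ s, ext r φ (1 + s • N) i j = aeval s (q i j) := fun s => by
    rw [← hq, ext, of_apply, crd_line]
    congr 2
    ext p
    rw [Pi.sub_apply, map_sub, congrFun e2 p, e1]; ring
  simpa [e, ← coeff_zero_eq_eval_zero, ← coeff_zero_eq_aeval_zero'] using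
    (q i j).hasDerivAt_aeval (0 : ℝ)

/-- The monoid generated by the real unipotent one-parameter groups. -/
def GG : Submonoid (M2 × M2) :=
  .closure {x | ∃ (N : M2 × M2) (s : ℝ), x = 1 + s • N ∧ ∀ n : ℤ, ∃ γ, emb r γ = 1 + (n : ℝ) • N}

variable {r φ}

theorem ext_mul {R : Gam →* M4} (hR : ∀ γ, ext r φ (emb r γ) = R γ) {g h : M2 × M2}
    (hg : g ∈ GG r) (hh : h ∈ GG r) : ext r φ (g * h) = ext r φ g * ext r φ h := by
  have h1 : ext r φ 1 = 1 := by simpa using hR 1
  have s1 : ∀ g ∈ GG r, ∀ δ, ext r φ (g * emb r δ) = ext r φ g * R δ := fun g hg => by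
    induction hg using Submonoid.closure_induction_right with
    | one => simp [hR, h1]
    | mul_right g _ y hy ih =>
      obtain ⟨N, s, rfl, hN⟩ := hy
      intro δ
      have := (mp_ext r φ (g * emb r δ) (g * N * emb r δ)).eq
        ((mp_ext r φ g (g * N)).mul (mp_const (R δ))) (fun n => by
          obtain ⟨γ, hγ⟩ := hN n
          have := ih (γ * δ)
          rw [map_mul, map_mul, ← Matrix.mul_assoc, ← ih, hγ] at this
          simpa [mul_add, add_mul, mul_assoc] using this) s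
      simpa [mul_add, add_mul, mul_assoc] using this
  induction hh using Submonoid.closure_induction_left generalizing g with
  | one => simp [h1]
  | mul_left y hy h _ ih =>
    obtain ⟨N, s, rfl, hN⟩ := hy
    have := (mp_ext r φ (g * h) (g * N * h)).eq
      ((mp_const (ext r φ g)).mul (mp_ext r φ h (N * h))) (fun n => by
        obtain ⟨γ, hγ⟩ := hN n
        have m : emb r γ ∈ GG r := Submonoid.subset_closure ⟨N, n, hγ, hN⟩
        have := ih (mul_mem hg m)
        rw [s1 g hg, Matrix.mul_assoc, ← hR, ← ih m, hγ] at this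
        simpa [mul_add, add_mul, mul_assoc] using this) s
    simpa [mul_add, add_mul, mul_assoc] using this

lemma unip_mem {e : M2} (he : e * e = 0) {u : ℤ√2 → Gam}
    (hu : ∀ t, emb r (u t) = (1 + J r t • e, 1 + J r.bar t • e)) (s t : ℝ) :
    (1 + s • e, 1 + t • e) ∈ GG r := by
  have e1 : (1 + s • e, 1 + t • e) = (1 + ((s + t) / 2) • (e, e)) *
      (1 + ((s - t) * r.1 / 4) • (r.1 • e, -r.1 • e)) := by
    have h1 : s = (s + t) / 2 + (s - t) * r.1 / 4 * r.1 := by linear_combination (t - s) / 4 * r.sq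
    have h2 : t = (s + t) / 2 + (s - t) * r.1 / 4 * -r.1 := by linear_combination (s - t) / 4 * r.sq
    ext1 <;> simp only [Prod.fst_mul, Prod.snd_mul, Prod.fst_add, Prod.snd_add, Prod.smul_mk,
      Prod.fst_one, Prod.snd_one, mul_add, add_mul, smul_mul_assoc, mul_smul_comm, he, smul_smul,
      smul_zero, one_mul, mul_one, add_zero, add_assoc, ← add_smul, ← h1, ← h2]
  rw [e1]
  exact mul_mem (Submonoid.subset_closure ⟨_, _, rfl, fun n => ⟨u n, by rw [hu]; simp; rfl⟩⟩)
    (Submonoid.subset_closure ⟨_, _, rfl, fun n => ⟨u ⟨0, n⟩, by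
      rw [hu]; ext1 <;> simp [J_apply, Rt.bar, smul_smul]⟩⟩)

lemma rat_indep {A B : Matrix (Fin 4) (Fin 4) ℚ} (r : Rt)
    (h : A.map (↑) + r.1 • B.map (↑) = (0 : M4)) : A.map (↑) + r.bar.1 • B.map (↑) = (0 : M4) := by
  have hr : Irrational r.1 := by
    rcases mul_self_eq_mul_self_iff.1 (r.sq.trans (Real.mul_self_sqrt zero_le_two).symm) with h | h
    · exact h ▸ irrational_sqrt_two
    · exact h ▸ irrational_sqrt_two.neg
  ext i j
  have h1 : (A i j : ℝ) + r.1 * B i j = 0 := congrFun₂ h i j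
  have h2 : B i j = 0 := by_contra fun h0 =>
    ((hr.mul_ratCast h0).ratCast_add (A i j)).ne_zero h1
  simpa [h2] using h1

theorem root {R : Gam →* M4} (hR : ∀ γ, ext r φ (emb r γ) = R γ) {e : M2} (he : e * e = 0)
    {u : ℤ√2 → Gam} (hu : ∀ t, emb r (u t) = (1 + J r t • e, 1 + J r.bar t • e)) {D D' : M2 × M2}
    (hD : D ∈ GG r) (hD' : D' ∈ GG r) (h1 : D * D' = 1) (h2 : D.1 * e = (4 : ℝ) • (e * D.1))
    (h3 : D.2 * e = (9 : ℝ) • (e * D.2)) : ∃ X X' : M4, X * X = 0 ∧ X' * X' = 0 ∧ (X = 0 ↔ X' = 0) ∧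
      (∀ s : ℝ, ext r φ (1 + s • e, 1) = 1 + s • X) ∧ ∀ s : ℝ, ext r φ (1, 1 + s • e) = 1 + s • X' := by
  have e0 : ext r φ 1 = 1 := by simpa using hR 1
  have hm := unip_mem he hu
  let f : ℝ → ℝ → M4 := fun s t => ext r φ (1 + s • e, 1 + t • e)
  have fa : ∀ s t s' t', f (s + s') (t + t') = f s t * f s' t' := fun s t s' t' => by
    rw [← ext_mul hR (hm _ _) (hm _ _)]
    simp [f, mul_add, add_mul, he, add_smul, add_assoc]
  have f0 : f 0 0 = 1 := by simpa [f, Prod.one_eq_mk] using e0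
  obtain ⟨X, hX⟩ : ∃ X, HD (fun s => f s 0) X 0 := by
    simpa [f, Prod.one_eq_mk] using (mp_ext r φ 1 (e, 0)).hd
  obtain ⟨X', hX'⟩ : ∃ X, HD (fun s => f 0 s) X 0 := by
    simpa [f, Prod.one_eq_mk] using (mp_ext r φ 1 (0, e)).hd
  have d1 : ∀ a b : ℝ, HD (fun s => f (a * s) (b * s)) (a • X + b • X') 0 := fun a b => by
    simpa [← fa, f0] using (hX.scale a).mul (hX'.scale b)
  have c1 : ∀ s t, ext r φ D * f s t = f (4 * s) (9 * t) * ext r φ D := fun s t => by
    rw [← ext_mul hR hD (hm _ _), ← ext_mul hR (hm _ _) hD]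
    congr 1
    ext1 <;> simp [mul_add, add_mul, h2, h3, smul_smul, mul_comm]
  have c2 : ext r φ D * X = (4 : ℝ) • (X * ext r φ D) := by
    simpa using ((hd_const _ 0).mul hX).unique ((d1 4 0).mul (hd_const _ 0)) fun s => by
      simpa using c1 s 0
  have c3 : ext r φ D * X' = (9 : ℝ) • (X' * ext r φ D) := by
    simpa using ((hd_const _ 0).mul hX').unique ((d1 0 9).mul (hd_const _ 0)) fun s => by
      simpa using c1 0 s
  obtain ⟨A, hA⟩ := hd_rat r φ (γ := u 1) (N := (e, e)) (by rw [hu]; simp; rfl)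
  obtain ⟨B, hB⟩ := hd_rat r φ (γ := u ⟨0, 1⟩) (N := (r.1 • e, -r.1 • e)) (by
    rw [hu]; ext1 <;> simp [J_apply, Rt.bar])
  have a1 := hA.unique (d1 1 1) fun s => by simp [f, Prod.one_eq_mk]
  have a2 := hB.unique (d1 r.1 (-r.1)) fun s => by simp [f, Prod.one_eq_mk, smul_smul, mul_comm]
  have b1 : ∀ (r : Rt) (X X' : M4), A.map (↑) = X + X' → B.map (↑) = r.1 • X + -r.1 • X' →
      (X = 0 → X' = 0) ∧ (X * X = 0 → X' * X' = 0) := fun r X X' a1 a2 => by
    have e1 : (2 * A).map (↑) + r.1 • B.map (↑) = (4 : ℝ) • X := by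
      have : (2 * A).map ((↑) : ℚ → ℝ) = A.map (↑) + A.map (↑) := by ext; simp [two_mul]
      rw [this, a1, a2, smul_add, smul_smul, smul_smul, mul_neg, r.sq]; module
    have e2 : (2 * A).map (↑) + r.bar.1 • B.map (↑) = (4 : ℝ) • X' := by
      have : (2 * A).map ((↑) : ℚ → ℝ) = A.map (↑) + A.map (↑) := by ext; simp [two_mul]
      rw [this, a1, a2, smul_add, smul_smul, smul_smul, Rt.bar, neg_mul_neg, neg_mul, r.sq]; module
    have sq : ∀ (r : Rt) (A B : Matrix (Fin 4) (Fin 4) ℚ),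
        (A * A + (B * B + B * B)).map (↑) + r.1 • (A * B + B * A).map (↑) =
        (A.map (↑) + r.1 • B.map (↑)) * (A.map (↑) + r.1 • B.map (↑) : M4) := fun r A B => by
      have hm : ∀ A B : Matrix (Fin 4) (Fin 4) ℚ, (A * B).map ((↑) : ℚ → ℝ) = A.map (↑) * B.map (↑) :=
        fun A B => Matrix.map_mul (f := Rat.castHom ℝ)
      simp only [Matrix.map_add _ Rat.cast_add, hm, Matrix.mul_add, Matrix.add_mul, smul_add,
        smul_mul_assoc, mul_smul_comm, smul_smul, r.sq]
      module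
    refine ⟨fun h => ?_, fun h => ?_⟩
    · simpa [e2] using rat_indep r (e1.trans (by simp [h]))
    · have := rat_indep r ((sq r _ _).trans (by rw [e1]; simp [h]))
      rw [sq, e2] at this
      simpa using this
  have b2 := b1 r X X' (by simpa using a1) a2
  have b3 := b1 r.bar X' X (by simpa [add_comm] using a1) (by simpa [Rt.bar, add_comm] using a2)
  have b4 : X * X = 0 := by_contra fun h => no_chains (by rw [← ext_mul hR hD hD', h1, e0]) c2 c3 h
    fun h' => h (b3.2 h')
  refine ⟨X, X', b4, b2.2 b4, ⟨b2.1, b3.1⟩, fun s => ?_, fun s => ?_⟩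
  · simpa [f] using one_param (u := fun s => f s 0) f0 (fun s t => by simpa using fa s 0 t 0) hX b4 s
  · simpa [f] using one_param f0 (fun s t => by simpa using fa 0 s 0 t) hX' (b2.2 b4) s

end Pool.Agent.P.MP_d1f122_gt
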