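import Mathlib
import Pool.Agent.P.MP_d1f122_gt.Ext

/-! Classification of the rational irreducible representations on `ℤ⁴`. -/

namespace Pool.Agent.P.MP_d1f122_gt

open Matrix

lemma half_le {r : Rt} {γ : Gam} {X : ℝ} (h : ∀ a b, |J r (γ a b)| ≤ X) : 1 ≤ 2 * X := by
  have h0 := (abs_nonneg _).trans (h 0 0)
  have h1 := (le_abs_self _).trans (abs_sub (J r (γ 0 0) * J r (γ 1 1)) (J r (γ 0 1) * J r (γ 1 0)))
  rw [J_det, abs_mul, abs_mul] at h1
  nlinarith [mul_le_mul (h 0 0) (h 1 1) (abs_nonneg _) h0,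
    mul_le_mul (h 0 1) (h 1 0) (abs_nonneg _) h0]

/-- The positive square root of `2`. -/
noncomputable def r0 : Rt := ⟨√2, by simp⟩

/-- The group is generated by elementary matrices. -/
lemma gen {P : Gam → Prop} (hm : ∀ γ δ, P γ → P δ → P (γ * δ))
    (hu : ∀ t, t = 0 ∨ t = 1 ∨ t = -1 ∨ t = Zsqrtd.sqrtd ∨ t = -Zsqrtd.sqrtd → P (up t) ∧ P (lo t))
    (γ : Gam) : P γ := by
  classical
  obtain ⟨j, hj⟩ := exists_sz r0 γ
  have := growth (r := r0) (C := 0) (f := fun γ => if P γ then 0 else 1) (fun γ => by positivity)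
    (fun γ δ X hs => by
      have := half_le fun a b => (hs a b).1
      have := hm γ δ
      split_ifs <;> first | nlinarith | tauto)
    (if_pos (up_zero ▸ (hu 0 (.inl rfl)).1)).le (fun t ht => by simp [hu t (.inr ht)]) hj
  by_contra hn
  norm_num [hn] at this

lemma braid {X Y : M4} (hX : X * X = 0) (hY : Y * Y = 0)
    (h : ∀ s t : ℝ, s * t = -1 → (1 + s • X) * (1 + t • Y) * (1 + s • X) =
      (1 + t • Y) * (1 + s • X) * (1 + t • Y)) : X * Y * X = X ∧ Y * X * Y = Y := by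
  have h1 := h 1 (-1) (by norm_num)
  have h2 := h 2 (-1 / 2) (by norm_num)
  simp only [mul_add, add_mul, smul_mul_assoc, mul_smul_comm, one_mul, mul_one, hX, hY, smul_zero,
    add_zero, smul_add, smul_smul] at h1 h2
  constructor
  · linear_combination (norm := module) (1 / 3 : ℝ) • h1 - (2 / 3 : ℝ) • h2
  · linear_combination (norm := module) (-4 / 3 : ℝ) • h1 + (2 / 3 : ℝ) • h2

/-- A pair of matrices generating a sum of standard and trivial representations of `sl₂`. -/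
structure Sl (X Y : M4) : Prop where
  x : X * X = 0
  y : Y * Y = 0
  xyx : X * Y * X = X
  yxy : Y * X * Y = Y

/-- The real matrix of `ρ γ`. -/
noncomputable def RR (ρ : Gam →* GL (Fin 4) ℤ) : Gam →* M4 :=
  (Int.castRingHom ℝ).mapMatrix.toMonoidHom.comp ((Units.coeHom _).comp ρ)

theorem structure_thm (r : Rt) {ρ : Gam →* GL (Fin 4) ℤ} (hρ : IsRational ρ) :
    ∃ X Y X' Y' : M4, Sl X Y ∧ Sl X' Y' ∧ (X = 0 ↔ X' = 0) ∧ Commute X X' ∧ Commute X Y' ∧
      Commute Y X' ∧ Commute Y Y' ∧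
      (∀ t, RR ρ (up t) = (1 + J r t • X) * (1 + J r.bar t • X')) ∧
      ∀ t, RR ρ (lo t) = (1 + J r t • Y) * (1 + J r.bar t • Y') := by
  obtain ⟨φ, hφ⟩ := hρ
  have hR : ∀ γ, ext r φ (emb r γ) = RR ρ γ := fun γ => by
    ext i j
    rw [ext, of_apply, crd_emb]
    refine (MvPolynomial.aeval_algebraMap_apply ℝ (coords γ) (φ i j)).trans ?_
    rw [MvPolynomial.aeval_eq_eval, ← hφ]
    simp [RR]
  let e : M2 := !![0, 1; 0, 0]
  let f : M2 := !![0, 0; 1, 0]
  have he : e * e = 0 := by simp [e, ← Matrix.ext_iff, Fin.forall_fin_two]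
  have hf : f * f = 0 := by simp [f, ← Matrix.ext_iff, Fin.forall_fin_two]
  have hu : ∀ t, emb r (up t) = (1 + J r t • e, 1 + J r.bar t • e) := fun t => by
    ext a b <;> fin_cases a <;> fin_cases b <;> simp [emb, up, e]
  have hl : ∀ t, emb r (lo t) = (1 + J r t • f, 1 + J r.bar t • f) := fun t => by
    ext a b <;> fin_cases a <;> fin_cases b <;> simp [emb, lo, f]
  have me := unip_mem he hu
  have mf := unip_mem hf hl
  have hd : ∀ s : ℝ, s ≠ 0 → !![s, 0; 0, s⁻¹] = (1 + s • e) * (1 + (-s⁻¹) • f) * (1 + s • e) *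
      ((1 + (-1 : ℝ) • e) * (1 + (1 : ℝ) • f) * (1 + (-1 : ℝ) • e)) := fun s hs => by
    ext a b
    fin_cases a <;> fin_cases b <;> simp [e, f, Matrix.mul_apply, Fin.sum_univ_two, hs]
  have md : ∀ s t : ℝ, s ≠ 0 → t ≠ 0 → (!![s, 0; 0, s⁻¹], !![t, 0; 0, t⁻¹]) ∈ GG r :=
    fun s t hs ht => by
      rw [hd s hs, hd t ht]
      exact mul_mem (mul_mem (mul_mem (me _ _) (mf _ _)) (me _ _))
        (mul_mem (mul_mem (me _ _) (mf _ _)) (me _ _))
  have m1 := md 2 3 two_ne_zero three_ne_zero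
  have m2 := md 2⁻¹ 3⁻¹ (by norm_num) (by norm_num)
  obtain ⟨X, X', x1, x2, x3, x4, x5⟩ := root hR he hu m1 m2
    (by ext a b <;> fin_cases a <;> fin_cases b <;> simp)
    (by ext a b; fin_cases a <;> fin_cases b <;> norm_num [e])
    (by ext a b; fin_cases a <;> fin_cases b <;> norm_num [e])
  obtain ⟨Y, Y', y1, y2, -, y4, y5⟩ := root hR hf hl m2 m1
    (by ext a b <;> fin_cases a <;> fin_cases b <;> simp)
    (by ext a b; fin_cases a <;> fin_cases b <;> norm_num [f])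
    (by ext a b; fin_cases a <;> fin_cases b <;> norm_num [f])
  have e1 : ∀ s : ℝ, (1 + s • e, 1) ∈ GG r := fun s => by simpa using me s 0
  have e2 : ∀ s : ℝ, (1, 1 + s • e) ∈ GG r := fun s => by simpa using me 0 s
  have f1 : ∀ s : ℝ, (1 + s • f, 1) ∈ GG r := fun s => by simpa using mf s 0
  have f2 : ∀ s : ℝ, (1, 1 + s • f) ∈ GG r := fun s => by simpa using mf 0 s
  have br : ∀ s t : ℝ, s * t = -1 → (1 + s • e) * (1 + t • f) * (1 + s • e) =
      (1 + t • f) * (1 + s • e) * (1 + t • f) := fun s t h => by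
    ext a b
    fin_cases a <;> fin_cases b <;> simp [e, f, Matrix.mul_apply, Fin.sum_univ_two]
    all_goals exact .inl (by linarith)
  have cm : ∀ {g h : M2} {A B : M4}, (g, 1) ∈ GG r → (1, h) ∈ GG r →
      ext r φ (g, 1) = 1 + (1 : ℝ) • A → ext r φ (1, h) = 1 + (1 : ℝ) • B → Commute A B :=
    fun hg hh eg eh => by
      have := (ext_mul hR hg hh).symm.trans (by simpa using ext_mul hR hh hg)
      rw [eg, eh, one_smul, one_smul] at this
      change _ * _ = _ * _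
      linear_combination (norm := noncomm_ring) this
  obtain ⟨b1, b2⟩ := braid x1 y1 fun s t h => by
    rw [← x4, ← y4, ← ext_mul hR (e1 _) (f1 _), ← ext_mul hR (f1 _) (e1 _),
      ← ext_mul hR (mul_mem (e1 _) (f1 _)) (e1 _), ← ext_mul hR (mul_mem (f1 _) (e1 _)) (f1 _)]
    simp only [Prod.mk_mul_mk, br s t h]
  obtain ⟨b3, b4⟩ := braid x2 y2 fun s t h => by
    rw [← x5, ← y5, ← ext_mul hR (e2 _) (f2 _), ← ext_mul hR (f2 _) (e2 _),
      ← ext_mul hR (mul_mem (e2 _) (f2 _)) (e2 _), ← ext_mul hR (mul_mem (f2 _) (e2 _)) (f2 _)]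
    simp only [Prod.mk_mul_mk, br s t h]
  refine ⟨X, Y, X', Y', ⟨x1, y1, b1, b2⟩, ⟨x2, y2, b3, b4⟩, x3, cm (e1 _) (e2 _) (x4 1) (x5 1),
    cm (e1 _) (f2 _) (x4 1) (y5 1), cm (f1 _) (e2 _) (y4 1) (x5 1), cm (f1 _) (f2 _) (y4 1) (y5 1),
    fun t => ?_, fun t => ?_⟩
  · rw [← hR, hu, ← x4, ← x5, ← ext_mul hR (e1 _) (e2 _)]; simp
  · rw [← hR, hl, ← y4, ← y5, ← ext_mul hR (f1 _) (f2 _)]; simp

/-- Matrix units, first row. -/
def Eu (X Y : M4) : Fin 2 → M4 := ![X * Y, X]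

/-- Matrix units, second column. -/
def Ev (X Y : M4) : Fin 2 → M4 := ![X, Y * X]

lemma Sl.eu_ev {X Y : M4} (h : Sl X Y) (a b : Fin 2) :
    Eu X Y a * Ev X Y b = if a = b then X else 0 := by
  fin_cases a <;> fin_cases b <;> simp [Eu, Ev, h.x, h.xyx, ← Matrix.mul_assoc]
  rw [Matrix.mul_assoc X, h.y]; simp

lemma Sl.eu_up {X Y : M4} (h : Sl X Y) (r : Rt) (t : ℤ√2) (a : Fin 2) :
    Eu X Y a * (1 + J r t • X) = J r (up t a 0) • Eu X Y 0 + J r (up t a 1) • Eu X Y 1 := by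
  fin_cases a <;> simp [Eu, up, mul_add, h.x, h.xyx]

lemma Sl.eu_lo {X Y : M4} (h : Sl X Y) (r : Rt) (t : ℤ√2) (a : Fin 2) :
    Eu X Y a * (1 + J r t • Y) = J r (lo t a 0) • Eu X Y 0 + J r (lo t a 1) • Eu X Y 1 := by
  fin_cases a <;> simp [Eu, lo, mul_add, h.y, Matrix.mul_assoc, add_comm]

lemma comm_eu {X Y Z : M4} (h1 : Commute X Z) (h2 : Commute Y Z) (a : Fin 2) :
    Commute (Eu X Y a) Z := by
  fin_cases a
  exacts [h1.mul_left h2, h1]

lemma comm_ev {X Y Z : M4} (h1 : Commute X Z) (h2 : Commute Y Z) (a : Fin 2) :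
    Commute (Ev X Y a) Z := by
  fin_cases a
  exacts [h1, h2.mul_left h1]

lemma exists_one {X : M4} (h : X ≠ 0) : ∃ l v : V, l ⬝ᵥ X *ᵥ v = 1 := by
  obtain ⟨i, j, h⟩ : ∃ i j, X i j ≠ 0 := by simpa [← Matrix.ext_iff] using h
  exact ⟨Pi.single i (X i j)⁻¹, Pi.single j 1, by simp [h]⟩

lemma inj_of_dual {p w : Fin 2 → Fin 2 → V}
    (h : ∀ a a' b b', p a a' ⬝ᵥ w b b' = if a = b ∧ a' = b' then 1 else 0) (v : V)
    (hv : ∀ a a', p a a' ⬝ᵥ v = 0) : v = 0 := by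
  let P : Matrix (Fin 2 × Fin 2) (Fin 4) ℝ := of fun a => p a.1 a.2
  let W : Matrix (Fin 4) (Fin 2 × Fin 2) ℝ := of fun i b => w b.1 b.2 i
  have h1 : P * W = 1 := by
    ext a b
    exact (h a.1 a.2 b.1 b.2).trans (by simp [Matrix.one_apply, Prod.ext_iff])
  have h2 : P *ᵥ v = 0 := funext fun a => hv a.1 a.2
  rw [← one_mulVec v, ← (mul_eq_one_comm_of_equiv finProdFinEquiv).1 h1, ← mulVec_mulVec, h2,
    mulVec_zero]

theorem classify (r : Rt) {ρ : Gam →* GL (Fin 4) ℤ} (hρ : IsRational ρ) (hi : IsIrreducible ρ) :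
    ∃ p : Fin 2 → Fin 2 → V, (∀ v, (∀ a a', p a a' ⬝ᵥ v = 0) → v = 0) ∧
      (((∀ γ a, p 0 a ᵥ* RR ρ γ = J r (γ a 0) • p 0 0 + J r (γ a 1) • p 0 1) ∧
        ∀ γ a, p 1 a ᵥ* RR ρ γ = J r.bar (γ a 0) • p 1 0 + J r.bar (γ a 1) • p 1 1) ∨
      ∀ γ a a', p a a' ᵥ* RR ρ γ =
        J r (γ a 0) • (J r.bar (γ a' 0) • p 0 0 + J r.bar (γ a' 1) • p 0 1) +
        J r (γ a 1) • (J r.bar (γ a' 0) • p 1 0 + J r.bar (γ a' 1) • p 1 1)) := by
  obtain ⟨X, Y, X', Y', s, s', h0, c1, c2, c3, c4, hu, hl⟩ := structure_thm r hρ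
  have hX : X ≠ 0 := fun h => by
    have h' := h0.1 h
    have h1 : Y = 0 := by simpa [h] using s.yxy.symm
    have h2 : Y' = 0 := by simpa [h'] using s'.yxy.symm
    have h3 := gen (P := fun γ => RR ρ γ = 1) (fun γ δ a b => by rw [map_mul, a, b, one_mul])
      fun t _ => by simp [hu, hl, h, h', h1, h2]
    have h4 : ∀ γ, (ρ γ : Matrix (Fin 4) (Fin 4) ℤ) = 1 := fun γ =>
      Matrix.map_injective (Int.cast_injective (α := ℝ)) ((h3 γ).trans (by simp))
    rcases hi (LinearMap.ker (LinearMap.proj 0)) fun γ v hv => by simpa [h4] using hv with h5 | h5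
    · simpa using congrFun ((Submodule.eq_bot_iff _).1 h5 (Pi.single 1 1) (by simp)) 1
    · simpa using (Submodule.eq_top_iff'.1 h5 (Pi.single 0 1))
  by_cases hc : X * X' = 0
  · have key : ∀ (r : Rt) (X Y X' Y' : M4), Sl X Y → Sl X' Y' → X * X' = 0 → Commute X Y' →
        Commute Y X' → Commute Y Y' → (∀ t, RR ρ (up t) = (1 + J r.bar t • X') * (1 + J r t • X)) →
        (∀ t, RR ρ (lo t) = (1 + J r.bar t • Y') * (1 + J r t • Y)) →
        (∀ γ a, Eu X Y a * RR ρ γ = J r (γ a 0) • Eu X Y 0 + J r (γ a 1) • Eu X Y 1) ∧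
          ∀ a b, Eu X Y a * Ev X' Y' b = 0 := fun r X Y X' Y' s s' hc c2 c3 c4 hu hl => by
      have h1 : ∀ a, Eu X Y a * X' = 0 := fun a => by
        fin_cases a
        · simp [Eu, Matrix.mul_assoc, c3.eq, ← Matrix.mul_assoc X, hc]
        · exact hc
      have h2 : ∀ a, Eu X Y a * Y' = 0 := fun a => by
        rw [← s'.yxy, ← Matrix.mul_assoc, ← Matrix.mul_assoc, (comm_eu c2 c4 a).eq,
          Matrix.mul_assoc Y', h1]
        simp
      refine ⟨gen (fun γ δ hγ hδ a => ?_) fun t _ => ⟨fun a => ?_, fun a => ?_⟩, fun a b => ?_⟩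
      · simp only [map_mul, ← Matrix.mul_assoc, hγ, add_mul, smul_mul_assoc, hδ, mul_ent, map_add]
        module
      · rw [hu, ← Matrix.mul_assoc, ← s.eu_up]; simp [mul_add (Eu X Y a) 1, h1]
      · rw [hl, ← Matrix.mul_assoc, ← s.eu_lo]; simp [mul_add (Eu X Y a) 1, h2]
      · fin_cases b <;> simp [Ev, ← Matrix.mul_assoc, h1, h2]
    have cm : ∀ {A B : M4} (x y : ℝ), Commute A B → Commute (1 + x • A) (1 + y • B) :=
      fun x y h => (Commute.one_left _).add_left ((Commute.one_right _).add_right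
        ((h.smul_left x).smul_right y))
    obtain ⟨k1, k2⟩ := key r X Y X' Y' s s' hc c2 c3 c4 (fun t => by rw [hu, (cm _ _ c1).eq])
      fun t => by rw [hl, (cm _ _ c4).eq]
    obtain ⟨k3, k4⟩ := key r.bar X' Y' X Y s' s (c1.eq ▸ hc) c3.symm c2.symm c4.symm
      (by simpa [r.bar_bar] using hu) (by simpa [r.bar_bar] using hl)
    obtain ⟨l, v, e⟩ := exists_one hX
    obtain ⟨l', v', e'⟩ := exists_one (mt h0.2 hX)
    refine ⟨![fun a => l ᵥ* Eu X Y a, fun a => l' ᵥ* Eu X' Y' a],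
      inj_of_dual (w := ![fun b => Ev X Y b *ᵥ v, fun b => Ev X' Y' b *ᵥ v']) fun a a' b b' => ?_,
      .inl ⟨fun γ a => ?_, fun γ a => ?_⟩⟩
    · fin_cases a <;> fin_cases b <;>
        simp [← dotProduct_mulVec, s.eu_ev, s'.eu_ev, k2, k4] <;> split_ifs <;> simp [e, e']
    · simp [k1, vecMul_add, vecMul_smul]
    · simp [k3, vecMul_add, vecMul_smul]
  · obtain ⟨l, v, e⟩ := exists_one hc
    have c5 : ∀ {A : M4} (x : ℝ) a, Commute A X' → Commute A Y' →
        Commute (Eu X' Y' a) (1 + x • A) := fun x a h1 h2 =>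
      (Commute.one_right _).add_right ((comm_eu h1.symm h2.symm a).smul_right x)
    have key : ∀ γ a a', Eu X Y a * Eu X' Y' a' * RR ρ γ =
        J r (γ a 0) • (J r.bar (γ a' 0) • (Eu X Y 0 * Eu X' Y' 0) +
          J r.bar (γ a' 1) • (Eu X Y 0 * Eu X' Y' 1)) +
        J r (γ a 1) • (J r.bar (γ a' 0) • (Eu X Y 1 * Eu X' Y' 0) +
          J r.bar (γ a' 1) • (Eu X Y 1 * Eu X' Y' 1)) :=
      gen (fun γ δ hγ hδ a a' => by
        simp only [map_mul, ← Matrix.mul_assoc, hγ, add_mul, smul_mul_assoc, hδ, mul_ent, map_add]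
        module) fun t _ => ⟨fun a a' => by
          rw [hu, ← Matrix.mul_assoc, Matrix.mul_assoc (Eu X Y a), (c5 _ _ c1 c2).eq,
            ← Matrix.mul_assoc, Matrix.mul_assoc, s.eu_up, s'.eu_up]
          simp only [add_mul, mul_add, smul_mul_assoc, mul_smul_comm]
          module, fun a a' => by
          rw [hl, ← Matrix.mul_assoc, Matrix.mul_assoc (Eu X Y a), (c5 _ _ c3 c4).eq,
            ← Matrix.mul_assoc, Matrix.mul_assoc, s.eu_lo, s'.eu_lo]
          simp only [add_mul, mul_add, smul_mul_assoc, mul_smul_comm]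
          module⟩
    refine ⟨fun a a' => l ᵥ* (Eu X Y a * Eu X' Y' a'),
      inj_of_dual (w := fun b b' => (Ev X Y b * Ev X' Y' b') *ᵥ v) fun a a' b b' => ?_,
      .inr fun γ a a' => by simp [key, vecMul_add, vecMul_smul]⟩
    rw [← dotProduct_mulVec, mulVec_mulVec, ← Matrix.mul_assoc, Matrix.mul_assoc (Eu X Y a),
      (comm_eu (comm_ev c1 c3 b).symm (comm_ev c2 c4 b).symm a').eq, ← Matrix.mul_assoc,
      Matrix.mul_assoc, s.eu_ev, s'.eu_ev]
    by_cases h1 : a = b <;> by_cases h2 : a' = b' <;> simp [h1, h2, e]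

end Pool.Agent.P.MP_d1f122_gt
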