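import Mathlib
import Pool.Agent.P.MP_d1f122_gt.Cartan

/-! Smooth local rigidity of symplectic Cartan actions of `ℤ²` on the four-torus. -/

namespace Pool.Agent.P.MP_d1f122_gt

open Set Filter Topology Matrix
open scoped ContDiff

variable {Q : V ≃L[ℝ] V} {χ : Fin 4 → ℤ × ℤ →+ ℝ}

/-- A smooth `ℤ²`-action on `ℝ⁴` with linear part `mu χ`. -/
structure Act (Q : V ≃L[ℝ] V) (χ : Fin 4 → ℤ × ℤ →+ ℝ) (F : ℤ × ℤ → V → V) : Prop where
  zero : ∀ x, F 0 x = x
  add : ∀ a b x, F (a + b) x = F a (F b x)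
  smooth : ∀ a, ContDiff ℝ ∞ (F a)
  per : ∀ a, Per Q fun x => F a x - mu χ a * x

lemma exp_big {x t : ℝ} (h : t ≤ |x|) : Real.exp t ≤ Real.exp x ∨ Real.exp x ≤ (Real.exp t)⁻¹ := by
  rw [← Real.exp_neg, Real.exp_le_exp, Real.exp_le_exp]
  rcases le_abs.1 h with h | h
  exacts [.inl h, .inr (by linarith)]

lemma four_le_exp {x : ℝ} (h : 3 ≤ x) : 4 ≤ Real.exp x := by linarith [Real.add_one_le_exp x]

lemma exp_le_quarter {x : ℝ} (h : x ≤ -3) : Real.exp x ≤ 1 / 4 := by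
  rw [← neg_neg x, Real.exp_neg, one_div]
  exact inv_anti₀ four_pos (four_le_exp (by linarith))

lemma Cartan.all (h : Cartan Q χ) {i j : Fin 4} (h1 : j ≠ i) (h2 : j ≠ pt i) {a : ℤ × ℤ}
    {P : ℝ → Prop} (hi : P |χ i a|) (hj : P |χ j a|) (l : Fin 4) : P |χ l a| := by
  rcases pt_cover i j h1 h2 l with rfl | rfl | rfl | rfl <;> simp only [h.neg, abs_neg, hi, hj]

lemma Cartan.elt1 (h : Cartan Q χ) (i j : Fin 4) :
    ∃ a, Hyp (mu χ a) ∧ (j ≠ i → 4 ≤ mu χ a i) ∧ mu χ a j ≤ 1 / 4 := by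
  obtain ⟨r, hr, h1⟩ := h.round
  have key : ∀ i j, j ≠ i → j ≠ pt i → ∃ a, Hyp (mu χ a) ∧ 3 ≤ χ i a ∧ χ j a ≤ -3 :=
    fun i j hi hj => by
      obtain ⟨a, h2, h3⟩ := h1 i j hi hj (r + 3) (-(r + 3))
      have h4 : 3 ≤ χ i a := by linarith [(abs_le.1 h2).1]
      have h5 : χ j a ≤ -3 := by linarith [(abs_le.1 h3).2]
      refine ⟨a, fun l => ⟨mu_pos _ _, ?_⟩, h4, h5⟩
      rcases le_abs.1 (h.all hi hj (P := (3 ≤ ·)) (h4.trans (le_abs_self _))
        (le_abs.2 (.inr (by linarith))) l) with h6 | h6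
      exacts [.inl (four_le_exp h6), .inr (exp_le_quarter (by linarith))]
  by_cases hj : j = i
  · obtain ⟨a, h2, h3, -⟩ := key (pt j) _ (ot_ne _).1 (ot_ne _).2
    exact ⟨a, h2, fun h => absurd hj h, exp_le_quarter (by linarith [h.neg j a])⟩
  by_cases hj' : j = pt i
  · obtain ⟨a, h2, h3, -⟩ := key i _ (ot_ne _).1 (ot_ne _).2
    exact ⟨a, h2, fun _ => four_le_exp h3, exp_le_quarter (by rw [hj', h.neg]; linarith)⟩
  · obtain ⟨a, h2, h3, h4⟩ := key i j hj hj'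
    exact ⟨a, h2, fun _ => four_le_exp h3, exp_le_quarter h4⟩

lemma Cartan.elt2 (h : Cartan Q χ) (i : Fin 4) : ∃ (c : ℤ × ℤ) (s : ℝ), 8 ≤ s ∧ s ^ 2 = mu χ c i ∧
    (∀ j, (mu χ c j)⁻¹ ≤ mu χ c i) ∧ ∀ j, j ≠ i → mu χ c j ≤ s / 8 := by
  obtain ⟨r, hr, h1⟩ := h.round
  obtain ⟨c, h2, h3⟩ := h1 i _ (ot_ne _).1 (ot_ne _).2 (3 * r + 14) 0
  rw [sub_zero] at h3
  have h4 := (abs_le.1 h2).1
  have h5 : 8 * Real.exp r ≤ Real.exp (χ i c / 2) := by
    calc _ ≤ Real.exp 7 * Real.exp r := by gcongr; linarith [Real.add_one_le_exp 7]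
      _ ≤ _ := by rw [← Real.exp_add, Real.exp_le_exp]; linarith
  refine ⟨c, Real.exp (χ i c / 2), by linarith [Real.one_le_exp hr],
    by rw [← Real.exp_nat_mul, mu]; congr 1; push_cast; ring, fun j => ?_, fun j hj => ?_⟩
  · rw [mu, mu, ← Real.exp_neg, Real.exp_le_exp]
    refine (neg_le_abs _).trans (h.all (ot_ne i).1 (ot_ne i).2 (P := (· ≤ χ i c))
      (abs_of_nonneg (by linarith)).le (by linarith) j)
  · refine le_trans (Real.exp_le_exp.2 ?_) (by linarith : Real.exp r ≤ _)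
    rcases pt_cover i _ (ot_ne _).1 (ot_ne _).2 j with rfl | rfl | rfl | rfl
    · exact absurd rfl hj
    · rw [h.neg]; linarith
    · exact (le_abs_self _).trans h3
    · rw [h.neg]; exact (neg_le_abs _).trans h3

lemma Cartan.strip (h : Cartan Q χ) {i j : Fin 4} (hi : j ≠ i) (hj : j ≠ pt i) :
    ∃ (a : ℕ → ℤ × ℤ) (L : ℝ), (∀ n, 1 ≤ mu χ (a n) i ∧ mu χ (a n) i ≤ L) ∧
      Tendsto (fun n => mu χ (a n) j) atTop (𝓝 0) := by
  obtain ⟨r, hr, h1⟩ := h.round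
  choose a ha ha' using fun n : ℕ => h1 i j hi hj r (-n)
  refine ⟨a, Real.exp (2 * r), fun n => ⟨Real.one_le_exp (by linarith [(abs_le.1 (ha n)).1]),
    Real.exp_le_exp.2 (by linarith [(abs_le.1 (ha n)).2])⟩, Real.tendsto_exp_atBot.comp
      (tendsto_atBot_mono (f := fun n : ℕ => r + -(n : ℝ))
        (fun n => by linarith [(abs_le.1 (ha' n)).2]) ?_)⟩
  exact tendsto_atBot_add_const_left _ _ (tendsto_neg_atTop_atBot.comp tendsto_natCast_atTop_atTop)

lemma Cartan.elt5 (h : Cartan Q χ) : ∃ (a : ℤ × ℤ) (L Λ : ℝ), 4 ≤ L ∧ 128 * Λ ^ 2 ≤ L ^ 3 ∧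
    ∀ b, b = a ∨ b = -a → (∀ j, L ≤ mu χ b j ∨ mu χ b j ≤ L⁻¹) ∧ ∀ j, 1 ≤ Λ * mu χ b j := by
  obtain ⟨r, hr, h1⟩ := h.round
  obtain ⟨a, h2, h3⟩ := h1 0 2 (by decide) (by decide) (5 * r + 127) (5 * r + 127)
  have h4 : ∀ x, |x - (5 * r + 127)| ≤ r → 4 * r + 127 ≤ |x| ∧ |x| ≤ 6 * r + 127 := fun x hx => by
    rw [abs_le] at hx
    rw [abs_of_nonneg (by linarith)]
    constructor <;> linarith
  have h5 := h.all (i := 0) (j := 2) (by decide) (by decide)
    (P := fun x => 4 * r + 127 ≤ x ∧ x ≤ 6 * r + 127) (h4 _ h2) (h4 _ h3)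
  refine ⟨a, Real.exp (4 * r + 127), Real.exp (6 * r + 127), four_le_exp (by linarith), ?_,
    fun b hb => ?_⟩
  · calc _ ≤ Real.exp 127 * Real.exp (6 * r + 127) ^ 2 := by
          gcongr; linarith [Real.add_one_le_exp 127]
      _ = _ := by rw [← Real.exp_nat_mul, ← Real.exp_nat_mul, ← Real.exp_add]; congr 1; push_cast; ring
  · have h6 : ∀ j, |χ j b| = |χ j a| := fun j => by rcases hb with rfl | rfl <;> simp
    refine ⟨fun j => exp_big (h6 j ▸ (h5 j).1), fun j => ?_⟩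
    rw [mu, ← Real.exp_add]
    exact Real.one_le_exp (by linarith [neg_abs_le (χ j b), h6 j, (h5 j).2])

lemma Act.pq_iff (h : Cartan Q χ) {F : ℤ × ℤ → V → V} (hF : Act Q χ F) (a : ℤ × ℤ) (x y : V) :
    pq Q (F a x) = pq Q (F a y) ↔ pq Q x = pq Q y := by
  have key : ∀ a x y, pq Q x = pq Q y → pq Q (F a x) = pq Q (F a y) := fun a x y e => by
    have e1 := (hF.per a).eq e
    have e2 := h.lat a (x - y) (by rw [pq_sub, e, sub_self])
    have : F a x - F a y = mu χ a * (x - y) := by linear_combination e1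
    rw [← sub_eq_zero, ← pq_sub, this, e2]
  refine ⟨fun e => ?_, key a x y⟩
  simpa only [← hF.add, neg_add_cancel, hF.zero] using key (-a) _ _ e

theorem smooth_conj (h : Cartan Q χ) {ι : Type*} {𝓕 : Filter ι} {F : ι → ℤ × ℤ → V → V}
    (hF : ∀ᶠ d in 𝓕, Act Q χ (F d))
    (hc : ∀ a, ∀ η > 0, ∀ᶠ d in 𝓕, Cl (F d a) (dg (mu χ a)) η) {ε : ℝ} (hε : 0 < ε) :
    ∀ᶠ d in 𝓕, ∃ H k : V → V, ContDiff ℝ ∞ H ∧ ContDiff ℝ ∞ k ∧ (∀ x, H (k x) = x) ∧
      (∀ x, k (H x) = x) ∧ Per Q (fun x => H x - x) ∧ (∀ x, ‖H x - x‖ ≤ ε) ∧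
      ∀ a x, H (F d a x) = mu χ a * H x := by
  choose A hA1 hA2 hA3 using h.elt1
  choose c s hs1 hs2 hs3 hs4 using h.elt2
  obtain ⟨B, L, Λ, hL, hΛ, hB⟩ := h.elt5
  choose ηd hηd hdet using h.det_ge
  have hmu := fun a j => mu_pos (χ := χ) a j
  filter_upwards [hF, eventually_all.2 fun i => eventually_all.2 fun j =>
      (hc (A i j) _ (by norm_num : (0 : ℝ) < 1 / 4)).and (hc (A i j) _ (half_pos (hmu (A i j) i))),
    eventually_all.2 fun i => hc (c i) _ (by norm_num : (0 : ℝ) < 1 / 4),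
    eventually_all.2 fun i => hc (1, 0) _ (half_pos (lt_min (hmu (1, 0) i) (hmu (0, 1) i))),
    eventually_all.2 fun i => hc (0, 1) _ (half_pos (lt_min (hmu (1, 0) i) (hmu (0, 1) i))),
    hc (A 0 0) _ (half_pos hε), hc B _ (hηd B), hc (-B) _ (hηd (-B)),
    hc B (8 * L)⁻¹ (by positivity), hc (-B) (8 * L)⁻¹ (by positivity)]
    with d hF c1 c2 c3 c4 c5 c6 c7 c8 c9
  set F := F d
  have nice : ∀ {a η}, Cl (F a) (dg (mu χ a)) η → Nice (F a) (mu χ a) η := fun hc =>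
    hc.nice (hF.smooth _) (hF.per _)
  have inv1 : ∀ a x, F (-a) (F a x) = x := fun a x => by rw [← hF.add, neg_add_cancel, hF.zero]
  have inv2 : ∀ a x, F a (F (-a) x) = x := fun a x => by rw [← hF.add, add_neg_cancel, hF.zero]
  have bij : ∀ a, Function.Bijective (F a) := fun a =>
    ⟨Function.LeftInverse.injective (inv1 a), Function.RightInverse.surjective (inv2 a)⟩
  obtain ⟨H, k, hH, hk, hHk, hkH, hper, hε', eH⟩ := stab (hA1 0 0) (hF.smooth _).continuous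
    (hF.smooth _).continuous (inv1 _) (inv2 _) (hF.per _) (h.lat _)
    (fun x y => (hF.pq_iff h _ x y).2) (fun x => (c5 x).1) (nice (c1 0 0).1).lipu
  have eH' : ∀ a x, H (F a x) = mu χ a * H x := fun a => by
    obtain ⟨M, -, hM⟩ := (hF.per a).bdd ((hF.smooth a).continuous.sub (by fun_prop))
    exact stab_comm (hA1 0 0) (bij _).2 (fun x => by rw [← hF.add, ← hF.add, add_comm]) hε' hM eH
  have ek : ∀ a z, F a (k z) = k (mu χ a * z) := fun a z => by rw [← hkH (F a _), eH', hHk]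
  have kper : Per Q fun z => k z - z := fun l hl z => by
    have : H (k z + l) = z + l := by linear_combination hper l hl (k z) + hHk z
    simp only
    rw [← this, hkH, this]; ring
  have kb : ∀ z, ‖k z - z‖ ≤ 2 * (ε / 2) := fun z => by
    simpa only [hHk, norm_sub_rev] using hε' (k z)
  have lf : ∀ i, Leafy Q k i := fun i => ⟨hk, Function.LeftInverse.injective hHk, kper,
    fun z t j hj => cone kb (hA1 i j) (hA2 i j hj) (nice (c1 i j).1) (ek _) z t j (hA3 i j)⟩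
  have hG : ∀ i, ∃ G : V → V, Continuous G ∧ (∀ z, 0 < G z i) ∧
      (∀ z l, l ≠ i → |G z l| ≤ G z i / 4) ∧
      ∀ ε > 0, ∃ δ > 0, ∀ z t, |t| < δ → ‖dl k i z t - t • G z‖ ≤ ε * |t| := fun i => by
    obtain ⟨an, L0, h1, h2⟩ := h.strip (ot_ne i).1 (ot_ne i).2
    have h3 : 8 * s i ≤ mu χ (c i) i := by nlinarith [hs1 i, hs2 i]
    exact (lf i).leaf hmu mu_add h.lat ek (nice (c3 i))
      (by linarith [min_le_left (mu χ (1, 0) i) (mu χ (0, 1) i)])
      (nice (c4 i)) (by linarith [min_le_right (mu χ (1, 0) i) (mu χ (0, 1) i)]) (nice (c2 i))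
      (by linarith [hs1 i]) (fun j hj => by linarith [hs4 i j hj, hs1 i]) h1 h2
      fun φ h4 h5 h6 => const_of_dir (h.fr_ne _) h4 h5 h6
  choose G G1 G2 G3 G4 using hG
  have dk := hasFDerivAt_cols G1 G4
  have dk' : Differentiable ℝ k := fun z => (dk z).differentiableAt
  have Gp : ∀ i, Per Q (G i) := fun i l hl z => by
    have := per_fderiv (A := 1) dk' kper l hl z
    rw [(dk _).fderiv, (dk _).fderiv] at this
    simpa only [cols_ee] using congrArg (· (ee i)) this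
  have ec : ∀ a i z, fderiv ℝ (F a) (k z) (G i z) = mu χ a i • G i (mu χ a * z) := fun a i z => by
    have h1 := (((hF.smooth a).differentiable (by simp) _).hasFDerivAt.comp z (dk z))
    have h2 := (dk (mu χ a * z)).comp z (dg (mu χ a)).hasFDerivAt
    have h3 := congrArg (· (ee i)) (h1.unique (h2.congr_of_eventuallyEq (.of_forall (ek a))))
    have e : mu χ a * ee i = mu χ a i • ee i := by simpa using mul_ee (mu χ a) 0 i 1
    simpa only [ContinuousLinearMap.comp_apply, cols_ee, ContinuousLinearMap.mul_apply', e,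
      map_smul] using h3
  have kl : ∃ Lk, 0 ≤ Lk ∧ ∀ x y, ‖k x - k y‖ ≤ Lk * ‖x - y‖ := by
    choose M hM0 hM using fun i => (Gp i).bdd (G1 i)
    have := Finset.sum_nonneg fun i (_ : i ∈ Finset.univ) => hM0 i
    refine ⟨∑ i, M i, this, fun x y => convex_univ.norm_image_sub_le_of_norm_hasFDerivWithin_le
      (fun z _ => (dk z).hasFDerivWithinAt) (fun z _ => ContinuousLinearMap.opNorm_le_bound _ this
        fun v => ?_) (mem_univ y) (mem_univ x)⟩
    rw [cols_apply, Finset.sum_mul]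
    refine norm_sum_le_of_le _ fun i _ => ?_
    rw [norm_smul, mul_comm]
    exact mul_le_mul (hM i z) (norm_le_pi_norm v i) (norm_nonneg _) (hM0 i)
  obtain ⟨Lk, hLk, kl⟩ := kl
  obtain ⟨dH, C0, -, h2⟩ := second_diff hH hkH dk G1 Gp G2 G3 fun i =>
    hol_col hLk kl (G1 i) (Gp i) (G2 i) (G3 i) (hmu _) (hs1 i) (hs2 i) (hs3 i) (hs4 i) (nice (c2 i))
      (ec _ i) fun j => ⟨_, _, _, nice (c1 i j).2, hmu _ _, by linarith, hmu _ _, hA3 i j, ec _ i⟩
  have sm : ∀ i, ContDiff ℝ ∞ fun y => (((H y - y) i : ℝ) : ℂ) := fun i => by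
    have hw : PC Q fun y => (((H y - y) i : ℝ) : ℂ) := pc_ofReal (a := fun y => (H y - y) i)
      ⟨fun l hl y => by simp only [hper l hl y], by fun_prop⟩
    have key := fun b hb (h3 : Cl (F b) _ (ηd b)) (h4 : Cl (F b) _ (8 * L)⁻¹) =>
      decay_cone (C0 := C0) (hF.smooth b) (bij b) (hF.per b) (hF.pq_iff h b)
        (fun x => hdet b _ (h3 x).2) h4.close (mul_inv_cancel₀ (by positivity)).le hL
        (fun j => ⟨hmu b j, (hB b hb).1 j⟩) hΛ ((hB b hb).2 i) (a := fun y => (F b y - mu χ b * y) i)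
        (contDiff_pi.1 ((hF.smooth b).sub (contDiff_const.mul contDiff_id)) i)
        (fun l hl y => by simp only [hF.per b l hl y]) hw
        (fun y => by rw [eH']; simp; ring) fun x d => by
          refine le_trans (le_of_eq ?_) ((norm_le_pi_norm _ i).trans (h2 x d))
          rw [← Complex.norm_real]
          congr 1
          simp; ring
    refine smooth_of_decay hw fun N => ?_
    obtain ⟨C1, hC1, d1⟩ := key B (.inl rfl) c6 c8 N
    obtain ⟨C2, hC2, d2⟩ := key (-B) (.inr rfl) c7 c9 N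
    refine ⟨C1 + C2, fun n hn => ?_⟩
    obtain ⟨j, hj⟩ := exists_abs_eq_norm (fr Q n)
    rcases (hB B (.inl rfl)).1 j with h3 | h3
    · refine (d2 n ⟨hn, j, ?_, hj⟩).trans (by gcongr; linarith)
      rw [mu, map_neg, Real.exp_neg]
      exact inv_anti₀ (by linarith) h3
    · exact (d1 n ⟨hn, j, h3, hj⟩).trans (by gcongr; linarith)
  have sH : ContDiff ℝ ∞ H := by
    have := (contDiff_pi.2 fun i => Complex.reCLM.contDiff.comp (sm i)).add contDiff_id
    convert this using 1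
    ext y i; simp
  choose e he using dH
  exact ⟨H, k, sH, Homeomorph.contDiff_symm (⟨⟨H, k, hkH, hHk⟩, hH, hk⟩ : V ≃ₜ V) he sH, hHk, hkH,
    hper, fun x => (hε' x).trans (by linarith), eH'⟩

end Pool.Agent.P.MP_d1f122_gt
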