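import Mathlib
import Pool.Agent.P.MP_d1f122_gt.Classify
import Pool.Agent.P.MP_d1f122_gt.Smooth

/-! An anisotropic Cartan subgroup of `SL(2, ℤ[√2])`. -/

namespace Pool.Agent.P.MP_d1f122_gt

open Matrix Filter Topology

lemma pos_left {a b : ℝ} (h : 0 < a * b) (ha : 0 < a) : 0 < b := (mul_pos_iff_of_pos_left ha).1 h

/-- The totally positive non-square `2 + √2`. -/
def DD : ℤ√2 := ⟨2, 1⟩

variable (r : Rt)

/-- The fixed point on the boundary. -/
noncomputable def th : ℝ := √(J r DD)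

lemma J_DD : 9 / 16 ≤ J r DD ∧ J r DD ≤ 4 := by
  have := abs_lt.1 r.abs_lt.2
  simp only [J_apply, DD]
  push_cast
  constructor <;> linarith

lemma th_sq : th r * th r = J r DD := Real.mul_self_sqrt (by linarith [(J_DD r).1])

lemma th_bd : 3 / 4 ≤ th r ∧ th r ≤ 2 :=
  ⟨Real.le_sqrt_of_sq_le (by linarith [(J_DD r).1]), Real.sqrt_le_iff.2 ⟨zero_le_two,
    by linarith [(J_DD r).2]⟩⟩

/-- The eigenvalues. -/
noncomputable def lam (s : ℝ) (g : Gam) : ℝ := J r (g 0 0) + s * (J r (g 1 0) * th r)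

lemma lam_inv {g : Gam} (h1 : g 1 1 = g 0 0) (h2 : g 0 1 = g 1 0 * DD) :
    lam r 1 g * lam r (-1) g = 1 := by
  have := J_det r g
  rw [h1, h2, map_mul] at this
  simp only [lam]
  linear_combination this - J r (g 1 0) ^ 2 * th_sq r

lemma lam_mul {g h : Gam} (h1 : g 1 1 = g 0 0) (h2 : g 0 1 = g 1 0 * DD) :
    lam r 1 (g * h) = lam r 1 g * lam r 1 h := by
  simp only [lam, mul_ent, h1, h2, map_add, map_mul]
  linear_combination -J r (g 1 0) * J r (h 1 0) * th_sq r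

/-- The totally positive part of the centraliser of `[[0, D], [1, 0]]`. -/
def Cp : Subgroup Gam where
  carrier := {g | g 1 1 = g 0 0 ∧ g 0 1 = g 1 0 * DD ∧ ∀ r, 0 < lam r 1 g}
  one_mem' := by simp [lam]
  mul_mem' := fun {g h} ⟨g1, g2, g3⟩ ⟨h1, h2, h3⟩ => ⟨by simp only [mul_ent, g1, g2, h1, h2]; ring,
    by simp only [mul_ent, g1, g2, h1, h2]; ring,
    fun r => lam_mul r g1 g2 ▸ mul_pos (g3 r) (h3 r)⟩
  inv_mem' := fun {g} ⟨g1, g2, g3⟩ => by
    rw [SpecialLinearGroup.SL2_inv_expl]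
    refine ⟨by simp [g1], by simp [g2], fun r => ?_⟩
    have : 0 < lam r (-1) g := pos_left ((lam_inv r g1 g2).symm ▸ one_pos) (g3 r)
    simpa [lam, g1] using this

lemma mem_Cp {g : Gam} (h1 : g 1 1 = g 0 0) (h2 : g 0 1 = g 1 0 * DD) (h3 : ∀ r, 0 < J r (g 0 0)) :
    g ∈ Cp := ⟨h1, h2, fun r => by
  have h4 := lam_inv r h1 h2
  have h5 : lam r 1 g + lam r (-1) g = 2 * J r (g 0 0) := by simp only [lam]; ring
  by_contra hn
  nlinarith [h3 r]⟩

/-- First generator. -/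
def b1 : Gam := ⟨!![⟨17, -8⟩, ⟨16, -4⟩; ⟨20, -12⟩, ⟨17, -8⟩], by rw [det_fin_two_of]; decide⟩

/-- Second generator. -/
def b2 : Gam := ⟨!![⟨17, 8⟩, ⟨24, 20⟩; ⟨4, 8⟩, ⟨17, 8⟩], by rw [det_fin_two_of]; decide⟩

/-- The Cartan subgroup. -/
def ca (a : ℤ × ℤ) : Gam := b1 ^ a.1 * b2 ^ a.2

lemma comm_b : Commute b1 b2 := by
  ext1 a b
  rw [mul_ent, mul_ent]
  fin_cases a <;> fin_cases b <;> decide

lemma ca_add (a b : ℤ × ℤ) : ca (a + b) = ca a * ca b := by
  simp only [ca, Prod.fst_add, Prod.snd_add, _root_.zpow_add]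
  exact (comm_b.zpow_zpow _ _).mul_mul_mul_comm _ _

lemma ca_mem (a : ℤ × ℤ) : ca a ∈ Cp := by
  refine mul_mem (zpow_mem (mem_Cp rfl (by decide) fun r => ?_) _)
    (zpow_mem (mem_Cp rfl (by decide) fun r => ?_) _) <;>
  · have := abs_lt.1 r.abs_lt.2
    simp [J_apply, b1, b2]
    linarith

/-- The logarithm of the eigenvalue. -/
noncomputable def chi : ℤ × ℤ →+ ℝ := .mk' (fun a => Real.log (lam r 1 (ca a))) fun a b => by
  rw [ca_add, lam_mul r (ca_mem a).1 (ca_mem a).2.1,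
    Real.log_mul ((ca_mem a).2.2 r).ne' ((ca_mem b).2.2 r).ne']

lemma exp_chi (a : ℤ × ℤ) : Real.exp (chi r a) = lam r 1 (ca a) := Real.exp_log ((ca_mem a).2.2 r)

lemma exp_neg_chi (a : ℤ × ℤ) : Real.exp (-chi r a) = lam r (-1) (ca a) := by
  rw [Real.exp_neg, exp_chi]
  exact inv_eq_of_mul_eq_one_right (lam_inv r (ca_mem a).1 (ca_mem a).2.1)

lemma chi_pos (a : ℤ × ℤ) : (0 < chi r a ↔ 0 < J r (ca a 1 0)) ∧
    (chi r a < 0 ↔ J r (ca a 1 0) < 0) := by
  have h : Real.exp (chi r a) - Real.exp (-chi r a) = J r (ca a 1 0) * (2 * th r) := by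
    rw [exp_chi, exp_neg_chi]; simp only [lam]; ring
  have h0 : 0 < 2 * th r := by linarith [(th_bd r).1]
  constructor
  · rw [← mul_pos_iff_of_pos_right (a := J r _) h0, ← h, sub_pos, Real.exp_lt_exp, neg_lt_self_iff]
  · rw [← not_le, ← not_le, ← mul_nonneg_iff_of_pos_right (b := J r _) h0, ← h, sub_nonneg,
      Real.exp_le_exp, neg_le_self_iff]

lemma chi_det : chi r (1, 0) * chi r.bar (0, 1) - chi r (0, 1) * chi r.bar (1, 0) ≠ 0 := by
  have h1 : ∀ r, 0 < chi r (1, 0) := fun r => (chi_pos r _).1.2 (by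
    have := abs_lt.1 r.abs_lt.2
    simp [ca, b1, J_apply]; linarith)
  have h2 : ∀ r : Rt, J r (ca (0, 1) 1 0) = 4 + 8 * r.1 := fun r => by simp [ca, b2, J_apply]
  have h3 := h1 r
  have h4 := h1 r.bar
  rcases lt_abs.1 r.abs_lt.1 with h | h
  · have h5 := (chi_pos r (0, 1)).1.2 (by rw [h2]; linarith)
    have h6 := (chi_pos r.bar (0, 1)).2.2 (by rw [h2, Rt.bar]; linarith)
    nlinarith
  · have h5 := (chi_pos r (0, 1)).2.2 (by rw [h2]; linarith)
    have h6 := (chi_pos r.bar (0, 1)).1.2 (by rw [h2, Rt.bar]; linarith)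
    nlinarith

lemma irr_zero {a : ℤ × ℤ} (h : ca a 1 0 = 0) : a = 0 := by
  have h1 : ∀ r, chi r a = 0 := fun r => le_antisymm (not_lt.1 fun h' => by
    simpa [h] using (chi_pos r a).1.1 h') (not_lt.1 fun h' => by
      simpa [h] using (chi_pos r a).2.1 h')
  obtain ⟨m, n⟩ := a
  have h2 := h1 r0
  have h3 := h1 r0.bar
  rw [hom_eq] at h2 h3
  have hm : (m : ℝ) = 0 := (mul_eq_zero.1 (by
    linear_combination chi r0.bar (0, 1) * h2 - chi r0 (0, 1) * h3)).resolve_right (chi_det r0)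
  have hn : (n : ℝ) = 0 := (mul_eq_zero.1 (by
    linear_combination chi r0 (1, 0) * h3 - chi r0.bar (1, 0) * h2)).resolve_right (chi_det r0)
  exact Prod.ext (by exact_mod_cast hm) (by exact_mod_cast hn)

lemma irr_one {a : ℤ × ℤ} (h : chi r a = 0) : a = 0 :=
  irr_zero (J_inj r (by
    rw [map_zero]
    exact le_antisymm (not_lt.1 fun h' => ((chi_pos r a).1.2 h').ne' h)
      (not_lt.1 fun h' => ((chi_pos r a).2.2 h').ne h)))

lemma irr_two {a : ℤ × ℤ} (h : chi r a = chi r.bar a ∨ chi r a = -chi r.bar a) : a = 0 := by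
  have h1 : ∀ r, Real.exp (chi r a) + Real.exp (-chi r a) = 2 * J r (ca a 0 0) := fun r => by
    rw [exp_chi, exp_neg_chi]; simp only [lam]; ring
  have h2 : J r (ca a 0 0) = J r.bar (ca a 0 0) := by
    have h3 := h1 r
    have h4 := h1 r.bar
    rcases h with h | h <;> rw [h] at h3
    · linarith
    · rw [neg_neg] at h3; linarith
  have h3 : ∀ r : Rt, J r (ca a 0 0) ^ 2 - 1 = J r (ca a 1 0) ^ 2 * J r DD := fun r => by
    have := J_det r (ca a)
    rw [(ca_mem a).1, (ca_mem a).2.1, map_mul] at this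
    linear_combination this
  have h4 : J r (ca a 0 0) ^ 2 = (ca a 0 0).norm := by rw [← J_mul_bar r, ← h2, sq]
  have h5 : (((ca a 0 0).norm : ℝ) - 1) ^ 2 = ((ca a 1 0).norm : ℝ) ^ 2 * DD.norm := by
    have h7 := h3 r.bar
    rw [← h2] at h7
    rw [← J_mul_bar r (ca a 1 0), ← J_mul_bar r DD, ← h4, sq]
    exact (congrArg₂ (· * ·) (h3 r) h7).trans (by ring)
  have h6 : (⟨(ca a 0 0).norm - 1, (ca a 1 0).norm⟩ : ℤ√2) = 0 := by_contra fun hn =>
    norm_ne_zero hn (by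
      have : ((ca a 0 0).norm - 1) ^ 2 = (ca a 1 0).norm ^ 2 * DD.norm := by exact_mod_cast h5
      rw [show DD.norm = 2 by decide] at this
      rw [Zsqrtd.norm_def]
      linear_combination this)
  exact irr_zero (by_contra fun hn => norm_ne_zero hn (congrArg Zsqrtd.im h6))

lemma mob_Cp {g : Gam} (hg : g ∈ Cp) {x : ℝ} (hx : |x| ≤ th r) :
    0 < den r g x ∧ den r g x ≤ lam r 1 g + lam r (-1) g ∧ |mob r g x| ≤ th r := by
  obtain ⟨g1, g2, g3⟩ := hg
  have h1 := g3 r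
  have h2 : 0 < lam r (-1) g := pos_left ((lam_inv r g1 g2).symm ▸ one_pos) h1
  have h0 : 0 < th r := by linarith [(th_bd r).1]
  rw [abs_le] at hx
  have e : 2 * th r * den r g x = (th r + x) * lam r 1 g + (th r - x) * lam r (-1) g := by
    simp only [den, lam, g1]; ring
  have h3 : 0 < den r g x := by
    refine pos_left (a := 2 * th r) ?_ (by linarith)
    rw [e]
    rcases le_total 0 x with h | h <;> nlinarith
  refine ⟨h3, le_of_mul_le_mul_left (by rw [e]; nlinarith) (by linarith : 0 < 2 * th r), ?_⟩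
  rw [mob, abs_div, abs_of_pos h3, div_le_iff₀ h3, abs_le, g2, map_mul, ← th_sq]
  have e1 := mul_nonneg (sub_nonneg.2 hx.2) h2.le
  have e2 := mul_nonneg (neg_le_iff_add_nonneg'.1 hx.1) h1.le
  simp only [den, lam, g1] at e1 e2 ⊢
  constructor <;> nlinarith

lemma strips : ∃ (a : Bool → ℕ → ℤ × ℤ) (L : ℝ),
    (∀ i n, lam r 1 (ca (a i n)) + lam r (-1) (ca (a i n)) ≤ L) ∧
    Tendsto (fun n => chi r.bar (a true n)) atTop atTop ∧
    Tendsto (fun n => -chi r.bar (a false n)) atTop atTop := by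
  obtain ⟨c, -, h⟩ := round_two (chi_det r)
  choose a h1 h2 using fun (i : Bool) (n : ℕ) => h 0 (if i then n else -n)
  refine ⟨a, 2 * Real.exp c, fun i n => ?_, ?_, ?_⟩
  · have := abs_le.1 (h1 i n)
    rw [← exp_chi, ← exp_neg_chi, two_mul]
    gcongr <;> linarith
  all_goals
    refine tendsto_atTop_mono (f := fun n : ℕ => (n : ℝ) + -c) (fun n => ?_)
      (tendsto_atTop_add_const_right _ _ tendsto_natCast_atTop_atTop)
  · simpa using (abs_le.1 (h2 true n)).1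
  · have := (abs_le.1 (h2 false n)).2
    simp at this; linarith

end Pool.Agent.P.MP_d1f122_gt
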