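import Mathlib
import Pool.Agent.P.MP_d1f122_gt.Sub

/-! Vanishing of cocycles with values in spaces of continuous functions. -/

namespace Pool.Agent.P.MP_d1f122_gt

open Matrix Filter Topology Set

/-- Continuous actions. -/
structure Actn {K : Type} [TopologicalSpace K] (A : Gam → K → K) : Prop where
  cont : ∀ γ, Continuous (A γ)
  one : ∀ t, A 1 t = t
  mul : ∀ γ δ t, A (γ * δ) t = A γ (A δ t)

variable {K E : Type} [TopologicalSpace K] [CompactSpace K] [NormedAddCommGroup E]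
  [NormedSpace ℝ E] {A : Gam → K → K}

omit [CompactSpace K] in
lemma Actn.inv (hA : Actn A) (γ : Gam) (t : K) : A γ⁻¹ (A γ t) = t := by
  rw [← hA.mul, inv_mul_cancel, hA.one]

lemma Actn.bound (hA : Actn A) (τ : E →L[ℝ] E) (γ : Gam) (z : C(K, E)) :
    ‖(⟨fun t => τ (z (A γ t)), by have := hA.cont γ; fun_prop⟩ : C(K, E))‖ ≤ ‖τ‖ * ‖z‖ :=
  (ContinuousMap.norm_le _ (by positivity)).2 fun _ =>
    τ.le_of_opNorm_le_of_le le_rfl (z.norm_coe_le_norm _)

/-- The induced representation on continuous functions. -/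
noncomputable def piK (hA : Actn A) (τ : Gam →* E →L[ℝ] E) : Gam →* C(K, E) →L[ℝ] C(K, E) where
  toFun γ := LinearMap.mkContinuous
    { toFun := fun z => ⟨fun t => τ γ (z (A γ⁻¹ t)), by have := hA.cont γ⁻¹; fun_prop⟩
      map_add' := fun _ _ => by ext; simp
      map_smul' := fun _ _ => by ext; simp } ‖τ γ‖ (hA.bound (τ γ) γ⁻¹)
  map_one' := by ext z t; simp [hA.one]
  map_mul' γ δ := by ext z t; simp [hA.mul]

lemma piK_apply (hA : Actn A) (τ : Gam →* E →L[ℝ] E) (γ : Gam) (z : C(K, E)) (t : K) :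
    piK hA τ γ z t = τ γ (z (A γ⁻¹ t)) := rfl

theorem vanK [CompleteSpace E] (r : Rt) (hA : Actn A) {τ : Gam →* E →L[ℝ] E}
    (hτ : ∀ (γ : Gam) (X : ℝ), (∀ a b, |J r.bar (γ a b)| ≤ X) → ‖τ γ‖ ≤ 2 * X)
    {σ : Gam → V → V} {P : Fin 2 → V →L[ℝ] E}
    (hP : ∀ γ a y, P a (σ γ y) = J r (γ a 0) • τ γ (P 0 y) + J r (γ a 1) • τ γ (P 1 y))
    {v : Gam → K → V} (hc : ∀ γ, Continuous (v γ))
    (hv : ∀ γ δ t, v (γ * δ) t = σ γ (v δ t) + v γ (A δ t)) (h0 : ∀ a t, v (ca a) t = 0)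
    (D : Set K) (hD : ∀ γ, ∀ t ∈ D, A γ t ∈ D ∧ v γ t = 0)
    (kill : ∀ (z : C(K, E)) (a : Bool → ℕ → ℤ × ℤ), (∀ t ∈ D, z t = 0) →
      Tendsto (fun n => chi r.bar (a true n)) atTop atTop →
      Tendsto (fun n => -chi r.bar (a false n)) atTop atTop →
      (∀ i, Rec (piK hA τ) (fun n => ca (a i n)) z) → z = 0) (γ : Gam) (a : Fin 2) (t : K) :
    P a (v γ t) = 0 := by
  let β : Gam → Fin 2 → C(K, E) := fun γ a =>
    ⟨fun t => P a (v γ (A γ⁻¹ t)), by have := hA.cont γ⁻¹; have := hc γ; fun_prop⟩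
  have hβ : Coc r (piK hA τ) β := ⟨fun γ X h => (LinearMap.mkContinuous_norm_le _ (norm_nonneg _)
    (hA.bound (τ γ) γ⁻¹)).trans (hτ γ X h), fun γ δ a => by
      ext t
      simp [β, piK_apply, hv, hP, ← hA.mul, add_comm]⟩
  obtain ⟨b, L, h1, h2, h3⟩ := strips r
  have := hβ.vanish (⨅ t ∈ D, LinearMap.ker (ContinuousMap.evalCLM ℝ t).toLinearMap) (by
      simp only [Submodule.coe_iInf]
      exact isClosed_iInter fun t => isClosed_iInter fun _ => ContinuousLinearMap.isClosed_ker _)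
    (fun γ a => by
      simp only [Submodule.mem_iInf]
      intro t ht
      simp [β, (hD γ _ (hD γ⁻¹ t ht).1).2])
    (th_bd r).1 (th_bd r).2 (b := fun i n => ca (b i n)) (fun i n => by ext a t; simp [β, h0])
    (fun i n x hx => by
      obtain ⟨h4, h5, h6⟩ := mob_Cp r (ca_mem (b i n)) hx
      exact ⟨h4, h5.trans (h1 i n), h6⟩)
    (fun z hz hr => kill z b (by simpa [Submodule.mem_iInf] using hz) h2 h3 hr) γ
  simpa [β, hA.inv] using congrArg (· a (A γ t)) this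

/-- The standard representation through the embedding `J r`. -/
noncomputable def std (r : Rt) : Gam →* (Fin 2 → ℝ) →L[ℝ] (Fin 2 → ℝ) where
  toFun γ := LinearMap.toContinuousLinearMap (toLin' (γ.1.map (J r)))
  map_one' := by ext1 v; simp
  map_mul' γ δ := by ext1 v; simp [Matrix.map_mul]

lemma std_apply (r : Rt) (γ : Gam) (w : Fin 2 → ℝ) (a : Fin 2) :
    std r γ w a = J r (γ a 0) * w 0 + J r (γ a 1) * w 1 := by
  simp [std, mulVec, dotProduct]

lemma lam_eig (r : Rt) {g : Gam} (hg : g ∈ Cp) {s : ℝ} (hs : s * s = 1) (x y : ℝ) :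
    J r (g 0 0) * x + J r (g 0 1) * y + s * th r * (J r (g 1 0) * x + J r (g 1 1) * y) =
      lam r s g * (x + s * th r * y) := by
  rw [hg.1, hg.2.1, map_mul, ← th_sq, lam]
  linear_combination -J r (g 1 0) * th r ^ 2 * y * hs

/-- The tensor product case. -/
theorem van_two (r : Rt) (hA : Actn A) {σ : Gam → V → V} {P : Fin 2 → V →L[ℝ] (Fin 2 → ℝ)}
    (hP : ∀ γ a y, P a (σ γ y) =
      J r (γ a 0) • std r.bar γ (P 0 y) + J r (γ a 1) • std r.bar γ (P 1 y))
    {v : Gam → K → V} (hc : ∀ γ, Continuous (v γ))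
    (hv : ∀ γ δ t, v (γ * δ) t = σ γ (v δ t) + v γ (A δ t)) (h0 : ∀ a t, v (ca a) t = 0)
    (γ : Gam) (a : Fin 2) (t : K) : P a (v γ t) = 0 := by
  refine vanK r hA (fun γ X h => ?_) hP hc hv h0 ∅ (by simp) (fun z a _ h1 h2 hr => ?_) γ a t
  · have hX := (abs_nonneg _).trans (h 0 0)
    refine ContinuousLinearMap.opNorm_le_bound _ (by positivity) fun w =>
      (pi_norm_le_iff_of_nonneg (by positivity)).2 fun a => ?_
    rw [std_apply]
    refine (norm_add_le _ _).trans ?_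
    rw [norm_mul, norm_mul]
    linarith [mul_le_mul (h a 0) (norm_le_pi_norm w 0) (norm_nonneg _) hX,
      mul_le_mul (h a 1) (norm_le_pi_norm w 1) (norm_nonneg _) hX, Real.norm_eq_abs (J r.bar (γ a 0)),
      show ‖J r.bar (γ a 0)‖ * ‖w 0‖ = |J r.bar (γ a 0)| * ‖w 0‖ from rfl,
      show ‖J r.bar (γ a 1)‖ * ‖w 1‖ = |J r.bar (γ a 1)| * ‖w 1‖ from rfl]
  · obtain ⟨t1, t2⟩ := th_bd r.bar
    have key : ∀ i (s : ℝ), s * s = 1 → Tendsto (fun n => lam r.bar s (ca (a i n))) atTop atTop →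
        ∀ t, z t 0 + s * th r.bar * z t 1 = 0 := fun i s hs ht t => by
      obtain ⟨C, hC, hf⟩ := hr i 1 one_pos
      obtain ⟨M, hM⟩ := hC.isBounded.exists_norm_le
      by_contra hn
      obtain ⟨n, ⟨κ, hκ, h3⟩, h4⟩ := (hf.and_eventually ((ht.atTop_mul_const
        (abs_pos.2 hn)).eventually_gt_atTop (3 * (M + 1)))).exists
      have h5 := ((piK hA (std r.bar) (ca (a i n)) z).norm_coe_le_norm (A (ca (a i n)) t)).trans
        ((norm_le_norm_sub_add _ κ).trans (add_le_add h3 (hM κ hκ)))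
      rw [piK_apply, hA.inv] at h5
      have h6 := (norm_le_pi_norm _ 0).trans h5
      have h7 := (norm_le_pi_norm _ 1).trans h5
      rw [std_apply, Real.norm_eq_abs] at h6 h7
      have h8 := (abs_add_le _ _).trans_eq' (congrArg abs
        (lam_eig r.bar (ca_mem (a i n)) hs (z t 0) (z t 1)))
      have h9 : |s| = 1 := by rcases mul_self_eq_one_iff.1 hs with rfl | rfl <;> simp
      rw [abs_mul, abs_mul, abs_mul, h9, one_mul, abs_of_nonneg (a := th _) (by linarith)] at h8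
      have := mul_le_mul_of_nonneg_right (le_abs_self (lam r.bar s (ca (a i n)))) (abs_nonneg
        (z t 0 + s * th r.bar * z t 1))
      nlinarith [mul_le_mul t2 h7 (abs_nonneg _) zero_le_two]
    have k1 := key true 1 (by simp) ((Real.tendsto_exp_atTop.comp h1).congr fun n => exp_chi _ _)
    have k2 := key false (-1) (by simp)
      ((Real.tendsto_exp_atTop.comp h2).congr fun n => exp_neg_chi _ _)
    ext t i
    have h3 : z t 0 = 0 := by linarith [k1 t, k2 t]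
    have h4 : z t 1 = 0 := by simpa [h3, (by linarith : th r.bar ≠ 0)] using k1 t
    fin_cases i
    exacts [h3, h4]

/-- The direct sum case. -/
theorem van_one (r : Rt) {Q : V ≃L[ℝ] V} {A : Gam → T → T} (hA : Actn A) {μ : ℤ × ℤ → V}
    (hμ : ∀ a y, A (ca a) (pq Q y) = pq Q (μ a * y)) {j : Fin 4}
    (hj : ∀ a, μ a j = Real.exp (chi r.bar a)) (hd : ∀ n, fr Q n j = 0 → n = 0)
    {σ : Gam → V → V} {P : Fin 2 → V →L[ℝ] ℝ}
    (hP : ∀ γ a y, P a (σ γ y) = J r (γ a 0) * P 0 y + J r (γ a 1) * P 1 y)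
    {v : Gam → T × T → V} (hc : ∀ γ, Continuous (v γ))
    (hv : ∀ γ δ t, v (γ * δ) t = σ γ (v δ t) + v γ (A δ t.1, A δ t.2))
    (h0 : ∀ a t, v (ca a) t = 0) (hD : ∀ γ t, v γ (t, t) = 0)
    (γ : Gam) (a : Fin 2) (t : T × T) : P a (v γ t) = 0 := by
  have hA' : Actn fun γ (t : T × T) => (A γ t.1, A γ t.2) :=
    ⟨fun γ => by have := hA.cont γ; fun_prop, fun t => by simp [hA.one], by simp [hA.mul]⟩
  refine vanK r hA' (τ := 1) (fun γ X h => by simpa using half_le h) hP hc hv h0 (diagonal T)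
    (by rintro γ ⟨t, _⟩ (rfl : t = _); exact ⟨rfl, hD γ t⟩) (fun z a hz _ h2 hr => ?_) γ a t
  ext ⟨t, t'⟩
  obtain ⟨x, rfl⟩ := pq_surj (Q := Q) t
  obtain ⟨x', rfl⟩ := pq_surj (Q := Q) t'
  have hq := continuous_pq (Q := Q)
  have key := const_of_dir hd (φ := fun y => z (pq Q y, pq Q x')) (by fun_prop)
    (fun l hl y => by simp only [pq_add, hl, add_zero]) fun y s => ?_
  · exact ((key x).trans (key x').symm).trans (hz _ rfl)
  refine eq_of_forall_dist_le fun ε hε => ?_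
  obtain ⟨C, hC, hf⟩ := hr false (ε / 3) (by positivity)
  obtain ⟨δ, hδ, hu⟩ := per_unif (Q := Q) (g := fun y (p : C(T × T, ℝ) × T) => p.1 (pq Q y, p.2))
    (hC.prod isCompact_univ) (by fun_prop) (fun p _ l hl y => by simp only [pq_add, hl, add_zero])
    (by positivity : 0 < ε / 3)
  have h3 : Tendsto (fun n => |μ (a false n) j * s|) atTop (𝓝 0) := by
    simpa [hj] using ((Real.tendsto_exp_neg_atTop_nhds_zero.comp h2).mul_const s).abs
  obtain ⟨n, ⟨κ, hκ, h4⟩, h5⟩ := (hf.and_eventually (h3.eventually (gt_mem_nhds hδ))).exists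
  have h6 : ∀ y, dist (z (pq Q y, pq Q x'))
      (κ (pq Q (μ (a false n) * y), A (ca (a false n)) (pq Q x'))) ≤ ε / 3 := fun y => by
    have := (ContinuousMap.norm_coe_le_norm _
      (pq Q (μ (a false n) * y), A (ca (a false n)) (pq Q x'))).trans h4
    rw [ContinuousMap.sub_apply, piK_apply, ← hμ] at this
    simpa [hA.inv, dist_eq_norm, ← hμ] using this
  have h7 := hu (μ (a false n) * y) ((μ (a false n) j * s) • ee j)
    (κ, A (ca (a false n)) (pq Q x')) ⟨hκ, mem_univ _⟩ (by rwa [norm_smul_ee])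
  rw [← mul_ee] at h7
  linarith [dist_triangle4_right (z (pq Q (y + s • ee j), pq Q x')) (z (pq Q y, pq Q x')) _ _ |>.trans
    (add_le_add (add_le_add (h6 _) (h6 _)) h7.le)]

end Pool.Agent.P.MP_d1f122_gt
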