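import Mathlib
import Pool.Agent.P.MP_d1f122_gt.VanK

/-! Adapted coordinates for the linear action and its rigidity properties. -/

namespace Pool.Agent.P.MP_d1f122_gt

open Matrix

lemma linV_eq (ρ : Gam →* GL (Fin 4) ℤ) (γ : Gam) (x : V) : linV (ρ γ) x = RR ρ γ *ᵥ x := rfl

/-- The linear action in adapted coordinates. -/
noncomputable def sg (Q : V ≃L[ℝ] V) (ρ : Gam →* GL (Fin 4) ℤ) : Gam →* V →L[ℝ] V where
  toFun γ := (Q.symm : V →L[ℝ] V) ∘L linV (ρ γ) ∘L (Q : V →L[ℝ] V)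
  map_one' := by ext1 y; simp [linV_one]
  map_mul' γ δ := by ext1 y; simp [linV_mul]

lemma Q_sg (Q : V ≃L[ℝ] V) (ρ : Gam →* GL (Fin 4) ℤ) (γ : Gam) (y : V) :
    Q (sg Q ρ γ y) = RR ρ γ *ᵥ Q y := by simp [sg, linV_eq]

lemma pq_sg {Q : V ≃L[ℝ] V} (ρ : Gam →* GL (Fin 4) ℤ) (γ : Gam) (y : V) :
    pq Q (sg Q ρ γ y) = linT (ρ γ) (pq Q y) := by
  rw [pq, Q_sg, ← linV_eq, ← isLift_lin]; rfl

/-- Linear forms in adapted coordinates. -/
noncomputable def dotL (Q : V ≃L[ℝ] V) (w : V) : V →L[ℝ] ℝ :=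
  (LinearMap.toContinuousLinearMap (dotProductBilin ℝ ℝ w)).comp (Q : V →L[ℝ] V)

lemma dotL_apply (Q : V ≃L[ℝ] V) (w y : V) : dotL Q w y = w ⬝ᵥ Q y := rfl

lemma mk_cartan {ρ : Gam →* GL (Fin 4) ℤ} {y : Fin 4 → V} {χ : Fin 4 → ℤ × ℤ →+ ℝ}
    (h : ∀ v, (∀ i, y i ⬝ᵥ v = 0) → v = 0) (he : ∀ i a, y i ᵥ* RR ρ (ca a) = mu χ a i • y i)
    (h1 : ∀ i a, χ (pt i) a = -χ i a) (h2 : χ 0 (1, 0) * χ 2 (0, 1) - χ 0 (0, 1) * χ 2 (1, 0) ≠ 0)
    (h3 : ∀ i a, χ i a = 0 → a = 0) :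
    ∃ Q, Cartan Q χ ∧ ∀ a z, sg Q ρ (ca a) z = mu χ a * z := by
  let Q := (LinearEquiv.ofInjectiveEndo (toLin' (of y)) ((injective_iff_map_eq_zero _).2
    fun v hv => h v (congrFun hv))).toContinuousLinearEquiv.symm
  have hQ : ∀ v i, Q.symm v i = y i ⬝ᵥ v := fun v i => rfl
  have e : ∀ a z, sg Q ρ (ca a) z = mu χ a * z := fun a z => funext fun i => by
    rw [← Q.symm_apply_apply (sg Q ρ _ z), hQ, Q_sg, dotProduct_mulVec, he, smul_dotProduct, ← hQ]
    simp
  exact ⟨Q, ⟨h1, h2, h3, fun a l hl => by rw [← e, pq_sg, hl]; ext; simp [linT]⟩, e⟩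

lemma lam_vec (r : Rt) (a : ℤ × ℤ) {s : ℝ} (hs : s * s = 1) (x y : V) :
    J r (ca a 0 0) • x + J r (ca a 0 1) • y + (s * th r) • (J r (ca a 1 0) • x + J r (ca a 1 1) • y) =
      lam r s (ca a) • (x + (s * th r) • y) :=
  funext fun i => lam_eig r (ca_mem a) hs (x i) (y i)

lemma two_zero (r : Rt) {x y : ℝ} (h1 : x + 1 * th r * y = 0) (h2 : x + -1 * th r * y = 0) :
    x = 0 ∧ y = 0 := by
  have h3 : x = 0 := by linarith
  exact ⟨h3, by simpa [h3, (by linarith [(th_bd r).1] : th r ≠ 0)] using h1⟩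

theorem model {ρ : Gam →* GL (Fin 4) ℤ} (hρ : IsRational ρ) (hi : IsIrreducible ρ) :
    ∃ Q χ, Cartan Q χ ∧ (∀ a y, sg Q ρ (ca a) y = mu χ a * y) ∧
      (∀ A : Gam → T → T, Actn A → (∀ a y, A (ca a) (pq Q y) = pq Q (mu χ a * y)) →
        ∀ v : Gam → T × T → V, (∀ γ, Continuous (v γ)) →
        (∀ γ δ t, v (γ * δ) t = sg Q ρ γ (v δ t) + v γ (A δ t.1, A δ t.2)) →
        (∀ a t, v (ca a) t = 0) → (∀ γ t, v γ (t, t) = 0) → ∀ γ t, v γ t = 0) ∧
      ∀ c : Gam → V, (∀ γ δ, c (γ * δ) = sg Q ρ γ (c δ) + c γ) → (∀ a, c (ca a) = 0) →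
        ∀ γ, c γ = 0 := by
  obtain ⟨p, hp, h | h⟩ := classify r0 hρ hi
  · obtain ⟨h1, h2⟩ := h
    have ev : ∀ (r : Rt) (q : Fin 2 → V) (s : ℝ), s * s = 1 →
        (∀ γ a, q a ᵥ* RR ρ γ = J r (γ a 0) • q 0 + J r (γ a 1) • q 1) → ∀ a,
        (q 0 + (s * th r) • q 1) ᵥ* RR ρ (ca a) = lam r s (ca a) • (q 0 + (s * th r) • q 1) :=
      fun r q s hs h a => by rw [add_vecMul, smul_vecMul, h, h, lam_vec r a hs]
    obtain ⟨Q, hQ, e⟩ := mk_cartan (ρ := ρ) (χ := ![chi r0, -chi r0, chi r0.bar, -chi r0.bar])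
      (y := ![p 0 0 + (1 * th r0) • p 0 1, p 0 0 + (-1 * th r0) • p 0 1,
        p 1 0 + (1 * th r0.bar) • p 1 1, p 1 0 + (-1 * th r0.bar) • p 1 1])
      (fun v hv => by
        have a1 := two_zero r0 (by simpa using hv 0) (by simpa using hv 1)
        have a2 := two_zero r0.bar (by simpa using hv 2) (by simpa using hv 3)
        exact hp v (Fin.forall_fin_two.2 ⟨Fin.forall_fin_two.2 a1, Fin.forall_fin_two.2 a2⟩))
      (fun i a => by
        fin_cases i <;> simp only [mu] <;>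
          simp only [Fin.zero_eta, Fin.mk_one, Fin.reduceFinMk, cons_val_zero, cons_val_one,
            cons_val, AddMonoidHom.neg_apply, exp_chi, exp_neg_chi] <;>
          exact ev _ _ _ (by simp) ‹_› a)
      (fun i a => by fin_cases i <;> simp [pt]) (chi_det r0)
      (fun i a h => by fin_cases i <;> exact irr_one _ (by simpa using h))
    have hz : ∀ y, (∀ k a, dotL Q (p k a) y = 0) → y = 0 := fun y hy => by simpa using hp _ hy
    refine ⟨Q, _, hQ, e, fun A hA hμ v hc hv h0 hD γ t => hz _ (Fin.forall_fin_two.2 ⟨fun a => ?_,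
      fun a => ?_⟩), fun c hc h0 γ => ?_⟩
    · exact van_one r0 hA hμ (j := 2) (fun a => rfl) (hQ.fr_ne 2) (P := fun a => dotL Q (p 0 a))
        (fun γ a y => by simp [dotL_apply, Q_sg, dotProduct_mulVec, h1]) hc hv h0 hD γ a t
    · exact van_one r0.bar hA hμ (j := 0) (fun a => by rw [Rt.bar_bar]; rfl) (hQ.fr_ne 0)
        (P := fun a => dotL Q (p 1 a))
        (fun γ a y => by simp [dotL_apply, Q_sg, dotProduct_mulVec, h2]) hc hv h0 hD γ a t
    · have hn : ∀ y, sg Q ρ (-1) y = -y := fun y => eq_neg_of_add_eq_zero_left (hz _ fun k a => by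
        fin_cases k <;> fin_cases a <;> simp [dotL_apply, Q_sg, dotProduct_mulVec, h1, h2])
      have h3 : ∀ γ, -c γ + c (-1) = sg Q ρ γ (c (-1)) + c γ := fun γ => by
        rw [← hc, ← hn, ← hc]; simp
      have h4 : c (-1) = 0 := funext fun i => by
        have := congrFun (h3 (ca (1, 0))) i
        rw [h0, e] at this
        have h5 : mu _ (1, 0) i ≠ 1 := fun h => by
          simpa using hQ.irr i _ ((Real.exp_eq_one_iff _).1 h)
        exact (eq_zero_of_mul_eq_self_left h5 (by simpa using this.symm))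
      simpa [h4, neg_eq_self] using h3 γ
  · have ev : ∀ s s' : ℝ, s * s = 1 → s' * s' = 1 → ∀ a,
        (p 0 0 + (s' * th r0.bar) • p 0 1 + (s * th r0) • (p 1 0 + (s' * th r0.bar) • p 1 1)) ᵥ*
          RR ρ (ca a) = (lam r0 s (ca a) * lam r0.bar s' (ca a)) •
        (p 0 0 + (s' * th r0.bar) • p 0 1 + (s * th r0) • (p 1 0 + (s' * th r0.bar) • p 1 1)) :=
      fun s s' hs hs' a => by
        rw [mul_comm (lam _ _ _), mul_smul (lam _ _ _), ← lam_vec r0 a hs]
        simp only [add_vecMul, smul_vecMul, h]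
        linear_combination (norm := module)
          (J r0 (ca a 0 0) + s * th r0 * J r0 (ca a 1 0)) • lam_vec r0.bar a hs' (p 0 0) (p 0 1) +
          (J r0 (ca a 0 1) + s * th r0 * J r0 (ca a 1 1)) • lam_vec r0.bar a hs' (p 1 0) (p 1 1)
    obtain ⟨Q, hQ, e⟩ := mk_cartan (ρ := ρ) (χ := ![chi r0 + chi r0.bar, -chi r0 + -chi r0.bar,
        chi r0 + -chi r0.bar, -chi r0 + chi r0.bar])
      (y := ![p 0 0 + (1 * th r0.bar) • p 0 1 + (1 * th r0) • (p 1 0 + (1 * th r0.bar) • p 1 1),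
        p 0 0 + (-1 * th r0.bar) • p 0 1 + (-1 * th r0) • (p 1 0 + (-1 * th r0.bar) • p 1 1),
        p 0 0 + (-1 * th r0.bar) • p 0 1 + (1 * th r0) • (p 1 0 + (-1 * th r0.bar) • p 1 1),
        p 0 0 + (1 * th r0.bar) • p 0 1 + (-1 * th r0) • (p 1 0 + (1 * th r0.bar) • p 1 1)])
      (fun v hv => by
        have k : ∀ (x y : V) (c : ℝ), (x + c • y) ⬝ᵥ v = x ⬝ᵥ v + c * y ⬝ᵥ v := fun x y c => by simp
        have a1 := two_zero r0 ((k _ _ _).symm.trans (hv 0)) ((k _ _ _).symm.trans (hv 3))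
        have a2 := two_zero r0 ((k _ _ _).symm.trans (hv 2)) ((k _ _ _).symm.trans (hv 1))
        simp only [k] at a1 a2
        exact hp v (Fin.forall_fin_two.2 ⟨Fin.forall_fin_two.2 (two_zero r0.bar a1.1 a2.1),
          Fin.forall_fin_two.2 (two_zero r0.bar a1.2 a2.2)⟩))
      (fun i a => by
        fin_cases i <;> simp only [mu] <;>
          simp only [Fin.zero_eta, Fin.mk_one, Fin.reduceFinMk, cons_val_zero, cons_val_one,
            cons_val, AddMonoidHom.add_apply, AddMonoidHom.neg_apply, Real.exp_add, exp_chi,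
            exp_neg_chi] <;> exact ev _ _ (by simp) (by simp) a)
      (fun i a => by fin_cases i <;> simp [pt, add_comm])
      (by simpa using fun h => chi_det r0 (by linear_combination (-1 / 2) * h))
      (fun i a h => irr_two r0 (by fin_cases i <;> simp at h <;> grind))
    have hz : ∀ y, (∀ a, (ContinuousLinearMap.pi fun a' => dotL Q (p a a')) y = 0) → y = 0 :=
      fun y hy => by simpa using hp _ fun a => congrFun (hy a)
    have hP : ∀ γ a y, (ContinuousLinearMap.pi fun a' => dotL Q (p a a')) (sg Q ρ γ y) =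
        J r0 (γ a 0) • std r0.bar γ ((ContinuousLinearMap.pi fun a' => dotL Q (p 0 a')) y) +
        J r0 (γ a 1) • std r0.bar γ ((ContinuousLinearMap.pi fun a' => dotL Q (p 1 a')) y) :=
      fun γ a y => funext fun a' => by
        simp [dotL_apply, Q_sg, dotProduct_mulVec, h, std_apply, mul_add]
    refine ⟨Q, _, hQ, e, fun A hA hμ v hc hv h0 hD γ t => hz _ fun a => ?_,
      fun c hc h0 γ => hz _ fun a => ?_⟩
    · exact van_two r0 (A := fun γ (t : T × T) => (A γ t.1, A γ t.2))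
        ⟨fun γ => by have := hA.cont γ; fun_prop, fun t => by simp [hA.one], by simp [hA.mul]⟩
        hP hc hv h0 γ a t
    · exact van_two r0 (A := fun _ (t : Unit) => t) ⟨fun _ => continuous_id, by simp, by simp⟩ hP
        (v := fun γ _ => c γ) (fun _ => continuous_const) (fun γ δ _ => hc γ δ) (fun a _ => h0 a)
        γ a ()

end Pool.Agent.P.MP_d1f122_gt
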