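import Mathlib
import Pool.Agent.P.MP_d1f122_gt.Model

/-! Local rigidity: assembly. -/

namespace Pool.Agent.P.MP_d1f122_gt

open Set Filter Topology
open scoped ContDiff

/-- Asymptotic cocycles vanish if genuine ones do. -/
lemma asympt {σ : Gam →* V →L[ℝ] V} {S : Finset Gam} (hS : Subgroup.closure (S : Set Gam) = ⊤)
    (h : ∀ c : Gam → V, (∀ γ δ, c (γ * δ) = σ γ (c δ) + c γ) → (∀ a, c (ca a) = 0) → ∀ γ, c γ = 0)
    {ι : Type*} {𝓕 : Filter ι} {c : ι → Gam → V}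
    (h1 : ∀ γ δ, ∀ᶠ d in 𝓕, c d (γ * δ) = σ γ (c d δ) + c d γ)
    (h2 : ∀ a, ∀ᶠ d in 𝓕, c d (ca a) = 0) : ∀ᶠ d in 𝓕, ∀ s ∈ S, c d s = 0 := by
  by_contra hn
  have : (𝓕 ⊓ 𝓟 {d | ¬∀ s ∈ S, c d s = 0}).NeBot := frequently_iff_neBot.1 (not_eventually.1 hn)
  obtain ⟨hU, hU'⟩ := le_inf_iff.1 (Ultrafilter.of_le (𝓕 ⊓ 𝓟 {d | ¬∀ s ∈ S, c d s = 0}))
  set U := Ultrafilter.of (𝓕 ⊓ 𝓟 {d | ¬∀ s ∈ S, c d s = 0})
  let e : Gam → ι → V := fun γ d => (∑ s ∈ S, ‖c d s‖)⁻¹ • c d γ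
  have e1 : ∀ γ δ, ∀ᶠ d in U, e (γ * δ) d = σ γ (e δ d) + e γ d := fun γ δ =>
    ((h1 γ δ).filter_mono hU).mono fun d hd => by simp only [e]; rw [hd, smul_add, map_smul]
  have e2 : ∀ᶠ d in U, ∑ s ∈ S, ‖e s d‖ = 1 := Eventually.mono (le_principal_iff.1 hU') fun d hd => by
    simp only [e, norm_smul, ← Finset.mul_sum, norm_inv,
      Real.norm_of_nonneg (Finset.sum_nonneg fun s _ => norm_nonneg (c d s))]
    exact inv_mul_cancel₀ fun h0 => hd fun s hs => norm_eq_zero.1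
      ((Finset.sum_eq_zero_iff_of_nonneg fun s _ => norm_nonneg _).1 h0 s hs)
  have e0 : ∀ᶠ d in U, e 1 d = 0 := (e1 1 1).mono fun d hd => by simpa using hd
  have e3 : ∀ γ, ∃ K, ∀ᶠ d in U, ‖e γ d‖ ≤ K := fun γ => by
    induction (hS ▸ Subgroup.mem_top γ : γ ∈ Subgroup.closure (S : Set Gam))
      using Subgroup.closure_induction with
    | mem s hs => exact ⟨1, e2.mono fun d hd => hd ▸ Finset.single_le_sum
        (f := fun s => ‖e s d‖) (fun s _ => norm_nonneg _) hs⟩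
    | one => exact ⟨0, e0.mono fun d hd => by simp [hd]⟩
    | mul a b _ _ ha hb =>
      obtain ⟨K, ha⟩ := ha
      obtain ⟨K', hb⟩ := hb
      refine ⟨‖σ a‖ * K' + K, ?_⟩
      filter_upwards [ha, hb, e1 a b] with d ha hb hd
      exact hd ▸ norm_add_le_of_le ((σ a).le_of_opNorm_le_of_le le_rfl hb) ha
    | inv a _ ha =>
      obtain ⟨K, ha⟩ := ha
      refine ⟨‖σ a⁻¹‖ * K, ?_⟩
      filter_upwards [ha, e0, e1 a⁻¹ a] with d ha h0 hd
      rw [inv_mul_cancel, h0, eq_comm, add_eq_zero_iff_neg_eq] at hd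
      rw [← hd, norm_neg]
      exact (σ a⁻¹).le_of_opNorm_le_of_le le_rfl ha
  have e4 : ∀ γ, ∃ x, Tendsto (e γ) U (𝓝 x) := fun γ => by
    obtain ⟨K, hK⟩ := e3 γ
    obtain ⟨x, -, hx⟩ := (isCompact_closedBall (0 : V) K).ultrafilter_le_nhds (U.map (e γ))
      (le_principal_iff.2 (hK.mono fun d hd => mem_closedBall_zero_iff.2 hd))
    exact ⟨x, hx⟩
  choose x hx using e4
  have h3 := h x (fun γ δ => tendsto_nhds_unique_of_eventuallyEq (hx _)
    ((((σ γ).continuous.tendsto _).comp (hx δ)).add (hx γ)) (e1 γ δ))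
    fun a => tendsto_nhds_unique_of_eventuallyEq (hx _) tendsto_const_nhds
      (((h2 a).filter_mono hU).mono fun d hd => by simp only [e]; rw [hd, smul_zero])
  simpa [h3] using tendsto_nhds_unique_of_eventuallyEq
    (tendsto_finsetSum S fun s _ => (hx s).norm) tendsto_const_nhds e2

variable {Q : V ≃L[ℝ] V}

lemma const_pq {F G : V → V} (hF : Continuous F) (hG : Continuous G)
    (h : ∀ y, pq Q (F y) = pq Q (G y)) (x y : V) : F x - G x = F y - G y :=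
  Q.injective (const_of_proj (f := fun y => Q (F y - G y)) (by fun_prop)
    (fun y => (pq_sub _ _).trans (sub_eq_zero.2 (h y))) x y)

lemma small_pq (Q : V ≃L[ℝ] V) : ∃ ε > 0, ∀ l, pq Q l = 0 → ‖l‖ ≤ 2 * ε → l = 0 := by
  refine ⟨1 / (4 * (‖(Q : V →L[ℝ] V)‖ + 1)), by positivity, fun l hl h => ?_⟩
  refine Q.map_eq_zero_iff.1 (eq_zero_of_proj hl
    (((Q : V →L[ℝ] V).le_of_opNorm_le_of_le le_rfl h).trans_lt ?_))
  rw [mul_one_div, ← mul_div_assoc, div_lt_one (by positivity)]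
  linarith [norm_nonneg (Q : V →L[ℝ] V)]

/-- Smooth lifts with the right linear part. -/
structure Lf (Q : V ≃L[ℝ] V) (f : T → T) (A : V →L[ℝ] V) (F : V → V) : Prop where
  smooth : ContDiff ℝ ∞ F
  lift : ∀ y, f (pq Q y) = pq Q (F y)
  per : ∀ l, pq Q l = 0 → ∀ y, F (y + l) = F y + A l

lemma IsSmooth.lift {f : T → T} (h : IsSmooth f) :
    ∃ F, ContDiff ℝ ∞ F ∧ ∀ y, f (pq Q y) = pq Q (F y) := by
  obtain ⟨F, h1, h2⟩ := h
  exact ⟨fun y => Q.symm (F (Q y)), Q.symm.contDiff.comp (h1.comp Q.contDiff),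
    fun y => by simpa [pq] using h2 (Q y)⟩

variable {ρ : Gam →* GL (Fin 4) ℤ} {α : Gam →* Equiv.Perm T}

lemma pq_sg_zero (γ : Gam) {l : V} (hl : pq Q l = 0) : pq Q (sg Q ρ γ l) = 0 := by
  rw [pq_sg, hl]; ext; simp [linT]

lemma Lf.mul {γ δ : Gam} {F G : V → V} (hF : Lf Q (α γ) (sg Q ρ γ) F)
    (hG : Lf Q (α δ) (sg Q ρ δ) G) : Lf Q (α (γ * δ)) (sg Q ρ (γ * δ)) (F ∘ G) :=
  ⟨hF.smooth.comp hG.smooth, fun y => by simp [hG.lift, hF.lift], fun l hl y => by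
    simp [hG.per l hl, hF.per _ (pq_sg_zero δ hl)]⟩

lemma Lf.inv (hs : ∀ γ, IsSmooth (α γ)) {γ : Gam} {F : V → V} (hF : Lf Q (α γ) (sg Q ρ γ) F) :
    ∃ G, Lf Q (α γ⁻¹) (sg Q ρ γ⁻¹) G ∧ ∀ x, F (G x) = x := by
  obtain ⟨G, h1, h2⟩ := (hs γ⁻¹).lift (Q := Q)
  have h3 : ∀ y, pq Q (F (G y)) = pq Q y := fun y => by rw [← hF.lift, ← h2]; simp
  have h4 := const_pq (hF.smooth.continuous.comp h1.continuous) continuous_id h3
  have h5 : ∀ x, F (G (x - F (G 0))) = x := fun x => by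
    have : F (G (x - F (G 0))) - (x - F (G 0)) = F (G 0) - 0 := h4 _ _
    linear_combination this
  have h6 : ∀ y, α γ⁻¹ (pq Q y) = pq Q (G (y - F (G 0))) := fun y => by
    rw [← h2, pq_sub, h3, pq_zero, sub_zero]
  refine ⟨fun x => G (x - F (G 0)), ⟨h1.comp (contDiff_id.sub contDiff_const), h6,
    fun l hl y => ?_⟩, h5⟩
  have := hF.per _ (show pq Q (G (y + l - F (G 0)) - G (y - F (G 0))) = 0 by
    rw [pq_sub, ← h6, ← h6, pq_add, hl, add_zero, sub_self]) (G (y - F (G 0)))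
  rw [add_sub_cancel, h5, h5, add_right_inj] at this
  conv_rhs => rw [this, ← mul_apply_eq_comp, ← map_mul]
  simp

lemma Lf.perm (hs : ∀ γ, IsSmooth (α γ)) {γ : Gam} {F : V → V} (hF : Lf Q (α γ) (sg Q ρ γ) F) :
    ∃ P : Equiv.Perm V, ⇑P = F := by
  obtain ⟨G, h1, h2⟩ := hF.inv hs
  obtain ⟨F', -, h3⟩ := h1.inv hs
  exact ⟨⟨F, G, fun x => by rw [← h3 x, h2], h2⟩, rfl⟩

variable (Q ρ) in
/-- The group of lifts. -/
def LG (hs : ∀ γ, IsSmooth (α γ)) : Subgroup (Gam × Equiv.Perm V) where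
  carrier := {x | Lf Q (α x.1) (sg Q ρ x.1) x.2}
  one_mem' := ⟨contDiff_id, by simp, by simp⟩
  mul_mem' := Lf.mul
  inv_mem' := fun {x} h => by
    obtain ⟨G, h1, h2⟩ := Lf.inv hs h
    obtain rfl : ⇑x.2⁻¹ = G := funext fun y => x.2.injective (by simp [h2])
    exact h1

lemma close_lift (γ : Gam) {η : ℝ} (hη : 0 < η) : ∃ η' > 0, ∀ f : T → T, IsSmooth f →
    C1Close f (ρ γ) η' → ∃ F, Lf Q f (sg Q ρ γ) F ∧ Cl F (sg Q ρ γ) η := by
  obtain ⟨ε, hε, h0⟩ := small_pq Q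
  set K := ‖(Q.symm : V →L[ℝ] V)‖ * (1 + ‖(Q : V →L[ℝ] V)‖) + 1
  refine ⟨min η ε / K, by positivity, fun f hf ⟨F, h1, h2, h3⟩ => ?_⟩
  obtain ⟨G, h4, h5⟩ := hf.lift (Q := Q)
  have h6 : ∀ y, f (pq Q y) = pq Q (Q.symm (F (Q y))) := fun y => by simpa [pq] using h2 (Q y)
  have h7 : Cl (fun y => Q.symm (F (Q y))) (sg Q ρ γ) (min η ε) := fun y => by
    have a1 := norm_nonneg (Q : V →L[ℝ] V)
    have a2 := norm_nonneg (Q.symm : V →L[ℝ] V)
    have a3 : 0 ≤ min η ε / K := by positivity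
    have a4 : K * (min η ε / K) = min η ε := mul_div_cancel₀ _ (by positivity)
    constructor
    · refine le_trans (le_of_eq (by simp [sg])) (((Q.symm : V →L[ℝ] V).le_of_opNorm_le_of_le
        le_rfl (h3 (Q y)).1).trans ?_)
      simp only [K] at a4
      nlinarith [mul_nonneg (mul_nonneg a1 a2) a3]
    · have e : fderiv ℝ (fun y => Q.symm (F (Q y))) y - sg Q ρ γ =
          (Q.symm : V →L[ℝ] V) * (fderiv ℝ F (Q y) - linV (ρ γ)) * (Q : V →L[ℝ] V) := by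
        rw [mul_sub, sub_mul]
        exact congrArg (· - _)
          (Q.symm.hasFDerivAt.comp y ((h1 _).hasFDerivAt.comp y Q.hasFDerivAt)).fderiv
      rw [e]
      refine (norm_mul_le_of_le (norm_mul_le_of_le le_rfl (h3 (Q y)).2) le_rfl).trans ?_
      simp only [K] at a4
      nlinarith [mul_nonneg a2 a3]
  refine ⟨_, ⟨?_, h6, fun l hl y => ?_⟩, h7.mono (min_le_left _ _)⟩
  · have := const_pq (F := fun y => Q.symm (F (Q y))) (by have := h1.continuous; fun_prop)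
      h4.continuous (fun y => (h6 y).symm.trans (h5 y))
    convert h4.add (contDiff_const (c := Q.symm (F (Q 0)) - G 0)) using 1
    ext1 y
    linear_combination this y 0
  · have := h0 (Q.symm (F (Q (y + l))) - sg Q ρ γ (y + l) - (Q.symm (F (Q y)) - sg Q ρ γ y)) (by
      rw [pq_sub, pq_sub, pq_sub, ← h6, ← h6, map_add, pq_add, pq_add, hl, pq_sg_zero γ hl]; simp)
      ((norm_sub_le_of_le (h7 _).1 (h7 _).1).trans (by linarith [min_le_right η ε]))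
    rw [map_add (sg Q ρ γ)] at this
    linear_combination this

/-- The map induced on the torus. -/
lemma descend {H : V → V} (hH : ContDiff ℝ ∞ H) (hp : Per Q fun x => H x - x) :
    ∃ h : T → T, IsSmooth h ∧ Continuous h ∧ ∀ y, h (pq Q y) = pq Q (H y) := by
  have h1 : Per Q fun y => pq Q (H y) := fun l hl y => by
    have : H (y + l) = H y + l := by linear_combination hp l hl y
    simp only [this, pq_add, hl, add_zero]
  exact ⟨_, ⟨fun x => Q (H (Q.symm x)), Q.contDiff.comp (hH.comp Q.symm.contDiff), fun x => by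
    simpa [pq] using h1.desc_pq (Q.symm x)⟩,
    h1.continuous_desc (continuous_pq.comp hH.continuous), h1.desc_pq⟩

theorem main_filter (hρ : IsRational ρ) (hi : IsIrreducible ρ) {S : Finset Gam}
    (hS : Subgroup.closure (S : Set Gam) = ⊤) {ι : Type*} {𝓕 : Filter ι} [𝓕.NeBot]
    {α : ι → Gam →* Equiv.Perm T} (hs : ∀ d γ, IsSmooth (α d γ))
    (hc : ∀ s ∈ S, ∀ η > 0, ∀ᶠ d in 𝓕, C1Close (α d s) (ρ s) η) :
    ∀ᶠ d in 𝓕, ∃ h : T ≃ T, IsSmooth h ∧ IsSmooth h.symm ∧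
      ∀ γ x, h (α d γ x) = linT (ρ γ) (h x) := by
  obtain ⟨Q, χ, hQ, hca, V1, V2⟩ := model hρ hi
  obtain ⟨ε, hε, h0⟩ := small_pq Q
  have c1 : ∀ s ∈ (S : Set Gam), ∀ η > 0, ∀ᶠ d in 𝓕, ∃ F, Lf Q (α d s) (sg Q ρ s) F ∧
      Cl F (sg Q ρ s) η := fun s hs' η hη => by
    obtain ⟨η', h1, h2⟩ := close_lift (Q := Q) (ρ := ρ) s hη
    exact (hc s hs' η' h1).mono fun d hd => h2 _ (hs d s) hd
  have c2 := propagate hS (sg Q ρ) (R := fun d γ F => Lf Q (α d γ) (sg Q ρ γ) F)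
    (.of_forall fun d => ⟨(LG Q ρ (hs d)).one_mem, fun _ _ _ _ => Lf.mul, fun _ _ => Lf.inv (hs d),
      fun _ _ h => h.smooth.differentiable (by simp)⟩) c1
  have c3 : ∀ d γ, ∃ P : Equiv.Perm V, ((∃ P, (γ, P) ∈ LG Q ρ (hs d)) → (γ, P) ∈ LG Q ρ (hs d)) ∧
      ∀ G, Lf Q (α d γ) (sg Q ρ γ) G → Cl G (sg Q ρ γ) ε → ⇑P = G := fun d γ => by
    by_cases h : ∃ G, Lf Q (α d γ) (sg Q ρ γ) G ∧ Cl G (sg Q ρ γ) ε
    · obtain ⟨G, h1, h2⟩ := h
      obtain ⟨P, rfl⟩ := h1.perm (hs d)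
      refine ⟨P, fun _ => h1, fun G h3 h4 => funext fun y => sub_eq_zero.1 (h0 _ ?_ ?_)⟩
      · rw [pq_sub, ← h1.lift, ← h3.lift, sub_self]
      · simpa [two_mul] using norm_sub_le_of_le (h2 y).1 (h4 y).1
    · by_cases h' : ∃ P, (γ, P) ∈ LG Q ρ (hs d)
      · exact ⟨_, fun _ => h'.choose_spec, fun G h1 h2 => (h ⟨G, h1, h2⟩).elim⟩
      · exact ⟨1, fun h => (h' h).elim, fun G h1 h2 => (h ⟨G, h1, h2⟩).elim⟩
  choose F F1 F2 using c3
  have a1 : ∀ᶠ d in 𝓕, ∀ γ, Lf Q (α d γ) (sg Q ρ γ) (F d γ) := by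
    filter_upwards [(eventually_all_finset S).2 fun s hs => c1 s hs 1 one_pos] with d hd γ
    obtain ⟨⟨_, P⟩, h1, rfl⟩ : γ ∈ (LG Q ρ (hs d)).map (MonoidHom.fst _ _) :=
      (Subgroup.closure_le _).2 (fun s hs' => by
        obtain ⟨G, h1, -⟩ := hd s hs'
        obtain ⟨P, rfl⟩ := h1.perm (hs d)
        exact ⟨(s, P), h1, rfl⟩) (hS ▸ Subgroup.mem_top γ)
    exact F1 d _ ⟨P, h1⟩
  have a2 : ∀ γ, ∀ η > 0, ∀ᶠ d in 𝓕, Cl (F d γ) (sg Q ρ γ) η := fun γ η hη =>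
    (c2 γ _ (lt_min hη hε)).mono fun d ⟨G, h1, h2⟩ =>
      F2 d γ G h1 (h2.mono (min_le_right _ _)) ▸ h2.mono (min_le_left _ _)
  have a3 : ∀ γ δ, ∀ᶠ d in 𝓕, F d (γ * δ) = F d γ * F d δ := fun γ δ => by
    have h1 : 0 < min 1 (ε / (1 + ‖sg Q ρ γ‖ + ‖sg Q ρ δ‖)) := by positivity
    filter_upwards [a1, a2 γ _ h1, a2 δ _ h1] with d h2 h3 h4
    refine DFunLike.coe_injective (F2 d _ _ ((h2 γ).mul (h2 δ)) (map_mul (sg Q ρ) γ δ ▸
      (h3.comp h4 (min_le_left _ _) ((h2 γ).smooth.differentiable (by simp))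
        ((h2 δ).smooth.differentiable (by simp))).mono ?_))
    rw [← le_div_iff₀' (by positivity)]
    exact min_le_right _ _
  have a4 : ∀ γ (m : ℤ), ∀ᶠ d in 𝓕, F d (γ ^ m) = F d γ ^ m := fun γ m => by
    induction m using Int.induction_on with
    | zero => exact (a3 1 1).mono fun d hd => by simpa using hd
    | succ m ih =>
      filter_upwards [ih, a3 (γ ^ (m : ℤ)) γ] with d h1 h2
      rw [zpow_add_one, zpow_add_one, h2, h1]
    | pred m ih =>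
      filter_upwards [ih, a3 (γ ^ (-m - 1 : ℤ)) γ] with d h1 h2
      rw [← zpow_add_one, sub_add_cancel, h1] at h2
      rw [zpow_sub_one (F d γ), h2, mul_inv_cancel_right]
  let F' : ι → ℤ × ℤ → Equiv.Perm V := fun d a => F d b1 ^ a.1 * F d b2 ^ a.2
  have a5 : ∀ a, ∀ᶠ d in 𝓕, F d (ca a) = F' d a := fun a => by
    filter_upwards [a3 (b1 ^ a.1) (b2 ^ a.2), a4 b1 a.1, a4 b2 a.2] with d h1 h2 h3
    rw [ca, h1, h2, h3]
  have a6 : ∀ᶠ d in 𝓕, ∀ a, Lf Q (α d (ca a)) (sg Q ρ (ca a)) (F' d a) := a1.mono fun d hd a =>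
    (LG Q ρ (hs d)).mul_mem (zpow_mem (x := (b1, F d b1)) (hd b1) a.1)
      (zpow_mem (x := (b2, F d b2)) (hd b2) a.2)
  obtain ⟨H, hH⟩ := (smooth_conj hQ (F := fun d a => F' d a) (by
      filter_upwards [a6, a3 b1 b2, a3 b2 b1] with d h1 h2 h3
      have h4 : Commute (F d b1) (F d b2) := h2.symm.trans (comm_b.eq ▸ h3)
      refine ⟨by simp [F'], fun a b x => ?_, fun a => (h1 a).smooth, fun a l hl y => ?_⟩
      · simp only [F', Prod.fst_add, Prod.snd_add, zpow_add]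
        rw [(h4.zpow_zpow _ _).mul_mul_mul_comm, Equiv.Perm.mul_apply]
      · simp only [(h1 a).per l hl, hca]; ring)
    (fun a η hη => by
      filter_upwards [a2 (ca a) η hη, a5 a] with d h1 h2
      rwa [h2, show sg Q ρ (ca a) = dg (mu χ a) from ContinuousLinearMap.ext (hca a)] at h1)
    one_pos).choice
  obtain ⟨k, hk⟩ := hH.choice
  have b1 : ∀ᶠ d in 𝓕, ∃ h : T ≃ T, IsSmooth h ∧ IsSmooth h.symm ∧ (∀ γ y,
      h (α d γ (h.symm (pq Q y))) = pq Q (H d (F d γ (k d y)))) ∧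
      ∀ γ y, H d (F d γ (k d y)) = sg Q ρ γ y + H d (F d γ (k d 0)) := by
    filter_upwards [a1, a6, hk] with d h1 h2 ⟨sH, sk, hHk, hkH, hp, _, he⟩
    have hp' : ∀ l, pq Q l = 0 → ∀ y, H d (y + l) = H d y + l := fun l hl y => by
      linear_combination hp l hl y
    have kp' : ∀ l, pq Q l = 0 → ∀ y, k d (y + l) = k d y + l := fun l hl y => by
      rw [← hkH (k d y + l), hp' l hl, hHk]
    obtain ⟨h, s1, c1, e1⟩ := descend sH hp
    obtain ⟨h', s2, c2, e2⟩ := descend (Q := Q) sk fun l hl y => by simp only [kp' l hl]; ring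
    have i1 : ∀ t, h' (h t) = t := pq_surj.forall.2 fun y => by rw [e1, e2, hkH]
    have i2 : ∀ t, h (h' t) = t := pq_surj.forall.2 fun y => by rw [e2, e1, hHk]
    have e3 : ∀ γ y, h (α d γ (h' (pq Q y))) = pq Q (H d (F d γ (k d y))) := fun γ y => by
      rw [e2, (h1 γ).lift, e1]
    refine ⟨⟨h, h', i1, i2⟩, s1, s2, e3, fun γ y => ?_⟩
    have g1 : ∀ γ, Continuous fun y => H d (F d γ (k d y)) := fun γ =>
      sH.continuous.comp ((h1 γ).smooth.continuous.comp sk.continuous)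
    have g2 : ∀ γ, Per Q fun y => H d (F d γ (k d y)) - sg Q ρ γ y := fun γ l hl y => by
      simp only [kp' l hl, (h1 γ).per l hl, hp' _ (pq_sg_zero γ hl), map_add]; ring
    have g3 := fun γ => (g2 γ).continuous_desc ((g1 γ).sub (sg Q ρ γ).continuous)
    have g5 := fun γ => (g2 γ).desc_pq
    have g4 : ∀ a y, h (α d (ca a) (h' (pq Q y))) = pq Q (mu χ a * y) := fun a y => by
      rw [e2, (h2 a).lift, e1, he, hHk]
    have := V1 (fun γ t => h (α d γ (h' t))) ⟨fun γ => isQuotientMap_pq.continuous_iff.2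
        ((continuous_pq.comp (g1 γ)).congr fun y => (e3 γ y).symm), by simp [i2], by simp [i1]⟩ g4
      (fun γ t => desc Q (fun y => H d (F d γ (k d y)) - sg Q ρ γ y) t.1 -
        desc Q (fun y => H d (F d γ (k d y)) - sg Q ρ γ y) t.2)
      (fun γ => ((g3 γ).comp continuous_fst).sub ((g3 γ).comp continuous_snd))
      (fun γ δ ⟨t, t'⟩ => by
        obtain ⟨x, rfl⟩ := pq_surj (Q := Q) t
        obtain ⟨x', rfl⟩ := pq_surj (Q := Q) t'
        have := const_pq (Q := Q) (g1 (γ * δ)) ((g1 γ).comp (g1 δ)) (fun y => by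
          simp only [Function.comp, ← e3, i1, map_mul, Equiv.Perm.mul_apply]) x x'
        simp only [e3, g5]
        simp only [map_sub, map_mul, mul_apply_eq_comp]
        simp only [Function.comp] at this
        linear_combination this)
      (fun a ⟨t, t'⟩ => by
        obtain ⟨x, rfl⟩ := pq_surj (Q := Q) t
        obtain ⟨x', rfl⟩ := pq_surj (Q := Q) t'
        simp only [g5]
        exact sub_eq_zero.2 (const_pq (Q := Q) (g1 _) (sg Q ρ _).continuous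
          (fun y => by rw [← e3, g4, hca]) x x'))
      (fun γ t => sub_self _) γ (pq Q y, pq Q 0)
    simp only [g5, map_zero] at this
    linear_combination this
  have b2 := asympt hS V2 (c := fun d γ => H d (F d γ (k d 0))) (𝓕 := 𝓕) (fun γ δ => by
      filter_upwards [a3 γ δ, b1, hk] with d h1 ⟨_, _, _, _, h2⟩ ⟨_, _, _, hkH, _⟩
      rw [← h2, hkH, h1, Equiv.Perm.mul_apply])
    fun a => by
      filter_upwards [a5 a, hk] with d h1 ⟨_, _, hHk, _, _, _, he⟩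
      rw [h1, he, hHk, mul_zero]
  filter_upwards [b1, b2] with d ⟨h, s1, s2, h1, h2⟩ h3
  refine ⟨h, s1, s2, fun γ => ?_⟩
  have l1 : ∀ γ δ t, linT (ρ (γ * δ)) t = linT (ρ γ) (linT (ρ δ) t) := fun γ δ =>
    (pq_surj (Q := Q)).forall.2 fun y => by simp only [← pq_sg, map_mul (sg Q ρ), mul_apply_eq_comp]
  have l2 : ∀ t, linT (ρ 1) t = t := (pq_surj (Q := Q)).forall.2 fun y => by
    rw [← pq_sg, map_one]; rfl
  induction (hS ▸ Subgroup.mem_top γ : γ ∈ Subgroup.closure (S : Set Gam))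
    using Subgroup.closure_induction with
  | mem s hs =>
    intro x
    obtain ⟨y, hy⟩ := pq_surj (Q := Q) (h x)
    rw [← hy, ← pq_sg, ← add_zero (sg Q ρ s y), ← h3 s hs, ← h2, ← h1, hy, h.symm_apply_apply]
  | one => intro x; rw [l2, map_one]; rfl
  | mul a b _ _ ha hb => intro x; rw [l1, ← hb, ← ha, map_mul]; rfl
  | inv a _ ha =>
    intro x
    rw [← l2 (h _), ← inv_mul_cancel a, l1, ← ha]
    simp

end Pool.Agent.P.MP_d1f122_gt
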